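import Pool.Agent.H9.LG.Stm

set_option autoImplicit false

/-!
# Project LG (helper9): assembly of the core
-/

namespace Pool.Agent.H9.LG

open Finset

section cards

theorem nc_mono {α : Type} [Finite α] {P Q : α → Prop} (h : ∀ x, P x → Q x) :
    Nat.card {x // P x} ≤ Nat.card {x // Q x} :=
  Nat.card_le_card_of_injective (fun x => ⟨x.1, h x.1 x.2⟩) (by
    intro x y hxy
    have h1 : x.1 = y.1 := congrArg (fun z : {x // Q x} => z.1) hxy
    exact Subtype.ext h1)

theorem nc_sum {α β : Type} [Fintype α] [Finite β] (P : α → β → Prop) :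
    Nat.card {ax : α × β // P ax.1 ax.2} = ∑ a, Nat.card {x // P a x} := by
  classical
  have e : {ax : α × β // P ax.1 ax.2} ≃ Σ a, {x // P a x} :=
    { toFun := fun ax => ⟨ax.1.1, ax.1.2, ax.2⟩
      invFun := fun s => ⟨(s.1, s.2.1), s.2.2⟩
      left_inv := fun _ => rfl
      right_inv := fun _ => rfl }
  rw [Nat.card_congr e]
  have : ∀ a, Fintype {x // P a x} := fun a => Fintype.ofFinite _
  rw [Nat.card_sigma]

theorem nc_union {ι α : Type} [Fintype ι] [Finite α] (P : ι → α → Prop) :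
    Nat.card {x // ∃ i, P i x} ≤ ∑ i, Nat.card {x // P i x} := by
  rw [← nc_sum]
  refine Nat.card_le_card_of_injective
    (fun x => ⟨(x.2.choose, x.1), x.2.choose_spec⟩ : {x // ∃ i, P i x} →
      {ax : ι × α // P ax.1 ax.2}) ?_
  intro x y hxy
  have := congrArg (fun z => z.1.2) hxy
  exact Subtype.ext this

end cards

variable {V O J : Type}

theorem cenArr_congr (S : Sys V O J) (j : J) (a : V × Lab) (x x' : Nd → X J) (d : ℕ → Bool)
    (h : ∀ κ, (x κ).1 = (x' κ).1) (t : ℕ) : cenArr S j a x d t = cenArr S j a x' d t := by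
  induction t with
  | zero => rfl
  | succ t ih =>
    simp only [cenArr, dn, tr, ih, h]

theorem rayArr_congr (S : Sys V O J) (j : J) (a : V × Lab) (x x' : Nd → X J) (d : ℕ → Bool)
    (h : ∀ κ, (x κ).1 = (x' κ).1) (t : ℕ) (b : Bool) (s : ℕ) :
    rayArr S j a x d t b s = rayArr S j a x' d t b s := by
  induction s with
  | zero => simp only [rayArr, dn, tr, cenArr_congr S j a x x' d h, h]
  | succ s ih => simp only [rayArr, dn, tr, ih, h]

theorem arr_congr (S : Sys V O J) (j : J) (a : V × Lab) (x x' : Nd → X J) (d : ℕ → Bool)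
    (h : ∀ κ, (x κ).1 = (x' κ).1) (κ : Nd) : arr S j a x d κ = arr S j a x' d κ := by
  match κ with
  | none => rfl
  | some (t, b, s) => exact rayArr_congr S j a x x' d h t b s

theorem out_congr (S : Sys V O J) (j : J) (a : V × Lab) (x x' : Nd → X J) (d : ℕ → Bool)
    (h : ∀ κ, (x κ).1 = (x' κ).1) (t : ℕ) (b : Bool) (s : ℕ) :
    out S j a x d t b s = out S j a x' d t b s := by
  match s with
  | 0 => simp only [out, tr, cenArr_congr S j a x x' d h, h]
  | s + 1 => simp only [out, tr, rayArr_congr S j a x x' d h, h]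

theorem cutX_congr (S : Sys V O J) (j : J) (a : V × Lab) (x x' : Nd → X J) (d : ℕ → Bool)
    (h : ∀ κ, (x κ).1 = (x' κ).1) (h2 : ∀ κ, (x κ).2.1 = (x' κ).2.1) (t : ℕ) (b : Bool) (s : ℕ) :
    cutX S j a x d t b s ↔ cutX S j a x' d t b s := by
  unfold cutX selX
  rw [out_congr S j a x x' d h, h2, h2]

theorem noCut_congr (S : Sys V O J) (j : J) (L : ℕ) (a : V × Lab) (x x' : Nd → X J) (d : ℕ → Bool)
    (h : ∀ κ, (x κ).1 = (x' κ).1) (h2 : ∀ κ, (x κ).2.1 = (x' κ).2.1) :
    NoCut S j L a x d → NoCut S j L a x' d := by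
  unfold NoCut
  rintro (⟨t, ht, b, hb⟩ | hs)
  · exact Or.inl ⟨t, ht, b, fun s hs => by
      rw [← cutX_congr S j a x x' d h h2]
      exact hb s hs⟩
  · exact Or.inr fun t ht => by
      rw [← cutX_congr S j a x x' d h h2]
      exact hs t ht

theorem ext_congr1 {L : ℕ} (x x' : Node L → X J) (h : ∀ κ, (x κ).1 = (x' κ).1) (κ : Nd) :
    (ext x κ).1 = (ext x' κ).1 := by
  match κ with
  | none => exact h none
  | some (t, b, s) =>
    simp only [ext]
    split_ifs
    · exact h _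
    · exact h _

theorem ext_congr2 {L : ℕ} (x x' : Node L → X J) (h : ∀ κ, (x κ).2.1 = (x' κ).2.1) (κ : Nd) :
    (ext x κ).2.1 = (ext x' κ).2.1 := by
  match κ with
  | none => exact h none
  | some (t, b, s) =>
    simp only [ext]
    split_ifs
    · exact h _
    · exact h _

/-- Averaging over the directions. -/
theorem avg_dirs (hXD : StXD) (hDR : StDR) [Finite V] [Finite J] (S : Sys V O J) (j : J) (L : ℕ)
    (c : Bool) (R : (ℕ → Bool) → V × Lab → (Node L → X J) → Prop)
    (hR1 : ∀ d d' a x, (∀ t, t < L → d t = d' t) → R d a x → R d' a x)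
    (hR2 : ∀ d a x x', (∀ κ, (x κ).1 = (x' κ).1 ∧ (x κ).2.1 = (x' κ).2.1) → R d a x → R d a x')
    (B : ℝ) (hB : ∀ d, (Nat.card {ax : (V × Lab) × (Node L → X J) // R d ax.1 ax.2} : ℝ) ≤
      B * Nat.card (Node L → X J)) :
    (Nat.card {ax : (V × Lab) × (Node L → X J) //
      R (dirs S j L c ax.1 (ext ax.2) L) ax.1 ax.2} : ℝ) ≤ B * Nat.card (Node L → X J) := by
  classical
  have : Fintype V := Fintype.ofFinite V
  let de : (Fin L → Bool) → ℕ → Bool := fun f t => if h : t < L then f ⟨t, h⟩ else false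
  let cons : (ℕ → Bool) → V × Lab → (Node L → X J) → Prop := fun d a x =>
    ∀ t, t < L → decide (colA S j L a (ext x) d t = c) = d t
  have h1 : Nat.card {ax : (V × Lab) × (Node L → X J) //
      R (dirs S j L c ax.1 (ext ax.2) L) ax.1 ax.2} ≤
      ∑ f : Fin L → Bool, Nat.card {ax : (V × Lab) × (Node L → X J) //
        cons (de f) ax.1 ax.2 ∧ R (de f) ax.1 ax.2} := by
    refine le_trans ?_ (nc_union _)
    refine nc_mono ?_
    rintro ⟨a, x⟩ hR
    obtain ⟨c1, c2, c3, c4⟩ := hDR V O J S j L c a (ext x)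
    refine ⟨fun t => dirs S j L c a (ext x) L t, ?_, ?_⟩
    · have hd : ∀ t, t < L → dirs S j L c a (ext x) L t =
          de (fun t => dirs S j L c a (ext x) L t) t := by
        intro t ht
        simp only [de, dif_pos ht]
      exact ((c4 _ _ hd).1).1 c1
    · refine hR1 _ _ a x ?_ hR
      intro t ht
      simp only [de, dif_pos ht]
  have h2 : ∀ f : Fin L → Bool, (2 : ℝ) ^ L * Nat.card {ax : (V × Lab) × (Node L → X J) //
      cons (de f) ax.1 ax.2 ∧ R (de f) ax.1 ax.2} ≤ B * Nat.card (Node L → X J) := by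
    intro f
    refine le_trans ?_ (hB (de f))
    have h3 : 2 ^ L * Nat.card {ax : (V × Lab) × (Node L → X J) //
      cons (de f) ax.1 ax.2 ∧ R (de f) ax.1 ax.2} ≤
      Nat.card {ax : (V × Lab) × (Node L → X J) // R (de f) ax.1 ax.2} := by
      rw [nc_sum (fun a x => cons (de f) a x ∧ R (de f) a x), nc_sum (fun a x => R (de f) a x),
        mul_sum]
      refine sum_le_sum fun a _ => ?_
      exact hXD V O J S j L c a (de f) (fun x => R (de f) a x) (fun x x' hx => hR2 _ a x x' hx)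
    exact_mod_cast h3
  have h4 : (Nat.card {ax : (V × Lab) × (Node L → X J) //
      R (dirs S j L c ax.1 (ext ax.2) L) ax.1 ax.2} : ℝ) ≤
      ∑ f : Fin L → Bool, (Nat.card {ax : (V × Lab) × (Node L → X J) //
        cons (de f) ax.1 ax.2 ∧ R (de f) ax.1 ax.2} : ℝ) := by
    exact_mod_cast h1
  have h5 : (2 : ℝ) ^ L * ∑ f : Fin L → Bool, (Nat.card {ax : (V × Lab) × (Node L → X J) //
        cons (de f) ax.1 ax.2 ∧ R (de f) ax.1 ax.2} : ℝ) ≤
      2 ^ L * (B * Nat.card (Node L → X J)) := by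
    rw [mul_sum]
    refine (sum_le_sum fun f _ => h2 f).trans ?_
    rw [sum_const, card_univ, Fintype.card_fun, Fintype.card_bool, Fintype.card_fin, nsmul_eq_mul]
    push_cast
    exact le_rfl
  have h6 : (0 : ℝ) < 2 ^ L := by positivity
  exact h4.trans (le_of_mul_le_mul_left h5 h6)

theorem card_Node (L : ℕ) : Nat.card (Node L) = 1 + 2 * L * L := by
  rw [Nat.card_eq_fintype_card, Fintype.card_option, Fintype.card_prod, Fintype.card_prod,
    Fintype.card_bool, Fintype.card_fin]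
  ring

theorem idx_lt {L : ℕ} (ν : Node L) : idx ν < 1 + 2 * L * L := by
  match ν with
  | none => simp only [idx]; omega
  | some (t, b, s) =>
    simp only [idx]
    have h1 : 2 * t.1 + (if b then 0 else 1) + 1 ≤ 2 * L := by
      have := t.2
      split_ifs <;> omega
    have h2 := Nat.mul_le_mul_right L h1
    have h3 := s.2
    have h4 : (2 * t.1 + (if b then 0 else 1) + 1) * L =
      (2 * t.1 + (if b then 0 else 1)) * L + L := by ring
    omega

/-- Coincidences. -/
theorem coin (hXD : StXD) (hDR : StDR) (hXC : StXC) (hTR : StTR) [Finite V] [Finite J]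
    (S : Sys V O J) (j : J) (L : ℕ) (hL : 1 ≤ L) (h : ℕ) (hg : Girth S (4 * h + 4)) (c : Bool)
    (μ ν q : Node L) (u : O) (hne : μ ≠ ν) :
    (Nat.card {ax : (V × Lab) × (Node L → X J) //
      Y S j L c ax.1 ax.2 μ = Y S j L c ax.1 ax.2 ν ∧ Y S j L c ax.1 ax.2 q = u} : ℝ) ≤
      144 / 3 ^ h * Nat.card (Node L → X J) := by
  refine avg_dirs hXD hDR S j L c (fun d a x =>
    S.orb (arr S j a (ext x) d (emb μ)).1 = S.orb (arr S j a (ext x) d (emb ν)).1 ∧
      S.orb (arr S j a (ext x) d (emb q)).1 = u) ?_ ?_ (144 / 3 ^ h) ?_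
  · intro d d' a x hd hR
    have h3 := (hDR V O J S j L c a (ext x)).2.2.1 d d' hd
    rw [← h3 μ, ← h3 ν, ← h3 q]
    exact hR
  · intro d a x x' hx hR
    have h3 := fun κ => arr_congr S j a (ext x) (ext x') d (ext_congr1 x x' (fun κ => (hx κ).1)) κ
    rw [← h3, ← h3, ← h3]
    exact hR
  · intro d
    obtain ⟨T, _, hT2⟩ := hTR L d hL
    have h4 := hXC V O J (Node L) S j h hg T _ (hT2 V O J S j) μ ν q u hne
    have h5 : (3 : ℝ) ^ h * Nat.card {ax : (V × Lab) × (Node L → X J) //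
        S.orb (arr S j ax.1 (ext ax.2) d (emb μ)).1 = S.orb (arr S j ax.1 (ext ax.2) d (emb ν)).1 ∧
        S.orb (arr S j ax.1 (ext ax.2) d (emb q)).1 = u} ≤ 144 * Nat.card (Node L → X J) := by
      exact_mod_cast h4
    have h6 : (0 : ℝ) < 3 ^ h := by positivity
    rw [div_mul_eq_mul_div, le_div_iff₀ h6]
    linarith

/-- No cut. -/
theorem nocut (hXD : StXD) (hDR : StDR) (hXN : StXN) [Finite V] [Fintype J]
    (S : Sys V O J) (hW : Win S) (j : J) (L : ℕ) (hL : 1 ≤ L) (c : Bool)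
    (q : Node L) (u : O) :
    (Nat.card {ax : (V × Lab) × (Node L → X J) //
      NoCut S j L ax.1 (ext ax.2) (dirs S j L c ax.1 (ext ax.2) L) ∧
        Y S j L c ax.1 ax.2 q = u} : ℝ) ≤
      12 * (2 * L + 1) * (1 - 1 / ((12 * Fintype.card J) ^ 2 : ℝ)) ^ ((L + 1) / 6) *
        Nat.card (Node L → X J) := by
  have hJ : 0 < Fintype.card J := Fintype.card_pos_iff.2 ⟨j⟩
  refine avg_dirs hXD hDR S j L c (fun d a x => NoCut S j L a (ext x) d ∧
      S.orb (arr S j a (ext x) d (emb q)).1 = u) ?_ ?_ _ ?_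
  · intro d d' a x hd hR
    have h3 := (hDR V O J S j L c a (ext x)).2.2.1 d d' hd
    have h4 := ((hDR V O J S j L c a (ext x)).2.2.2 d d' hd).2
    rw [← h3 q, ← h4]
    exact hR
  · intro d a x x' hx hR
    have h3 := fun κ => arr_congr S j a (ext x) (ext x') d (ext_congr1 x x' (fun κ => (hx κ).1)) κ
    rw [← h3]
    exact ⟨noCut_congr S j L a (ext x) (ext x') d (ext_congr1 x x' (fun κ => (hx κ).1))
      (ext_congr2 x x' (fun κ => (hx κ).2)) hR.1, hR.2⟩
  · intro d
    have h4 := hXN V O J S hW j L hL d q u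
    set M := (L + 1) / 6 with hM
    set n := Fintype.card J with hn
    have h0 : 1 ≤ (12 * n) ^ 2 := Nat.one_le_pow _ _ (by omega)
    have h5 : (((12 * n : ℝ)) ^ 2) ^ M * Nat.card {ax : (V × Lab) × (Node L → X J) //
        NoCut S j L ax.1 (ext ax.2) d ∧ S.orb (arr S j ax.1 (ext ax.2) d (emb q)).1 = u} ≤
        12 * (2 * L + 1) * ((12 * n : ℝ) ^ 2 - 1) ^ M * Nat.card (Node L → X J) := by
      have h6 : (((12 * n) ^ 2 - 1 : ℕ) : ℝ) = (12 * n : ℝ) ^ 2 - 1 := by
        push_cast [Nat.cast_sub h0]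
        ring
      rw [← h6]
      exact_mod_cast h4
    have h7 : (0 : ℝ) < (12 * n : ℝ) ^ 2 := by positivity
    have h8 : (0 : ℝ) < ((12 * n : ℝ) ^ 2) ^ M := by positivity
    have h9 : (1 - 1 / ((12 * n : ℝ)) ^ 2) ^ M * ((12 * n : ℝ) ^ 2) ^ M =
        ((12 * n : ℝ) ^ 2 - 1) ^ M := by
      rw [← mul_pow]
      congr 1
      field_simp
    refine le_of_mul_le_mul_left ?_ h8
    refine h5.trans (le_of_eq ?_)
    rw [← h9]
    ring

end Pool.Agent.H9.LG
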