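import Pool.Agent.H9.LG.Core

set_option autoImplicit false

/-!
# Project LG (helper9): the core, from its parts
-/

namespace Pool.Agent.H9.LG

open Finset

variable {V O J : Type}

/-- The threshold of an event: only nodes with smaller `idx` are read. -/
def thr {L : ℕ} : Option (Node L) → ℕ
  | none => 1 + 2 * L * L
  | some ν => idx ν

/-- The bad events in terms of the variables at the nodes. -/
def QQ (S : Sys V O J) (j : J) (L : ℕ) (c : Bool) (a : V × Lab) :
    Option (Node L) → (Node L → X J) → Prop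
  | none, x => NoCut S j L a (ext x) (dirs S j L c a (ext x) L)
  | some ν, x => ∃ μ, idx μ < idx ν ∧ Y S j L c a x μ = Y S j L c a x ν

theorem QQ_dep (hYD : StYD) (S : Sys V O J) (j : J) (L : ℕ) (c : Bool) (a : V × Lab)
    (o : Option (Node L)) (x x' : Node L → X J) (h : ∀ κ, idx κ < thr o → x κ = x' κ)
    (hQ : QQ S j L c a o x) : QQ S j L c a o x' := by
  match o with
  | none =>
    have : x = x' := funext fun κ => h κ (idx_lt κ)
    rw [← this]
    exact hQ
  | some ν =>
    obtain ⟨μ, hμ, h1⟩ := hQ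
    refine ⟨μ, hμ, ?_⟩
    rw [← hYD.2 V O J S j L c a x x' μ (fun κ hκ => h κ (hκ.trans hμ)),
      ← hYD.2 V O J S j L c a x x' ν (fun κ hκ => h κ hκ)]
    exact h1

section counting

/-- The sum over the starting darts, for one node (or `none`). -/
theorem sum_start (hXD : StXD) (hDR : StDR) (hXC : StXC) (hTR : StTR) (hXN : StXN) [Fintype V]
    [Fintype J] (S : Sys V O J) (hW : Win S) (j : J) (L : ℕ) (hL : 1 ≤ L) (h : ℕ)
    (hg : Girth S (4 * h + 4)) (c : Bool) (o : Option (Node L)) (u : O) :
    (∑ a : V × Lab, (Nat.card {x : Node L → X J // QQ S j L c a o x ∧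
      ∃ q, idx q < thr o ∧ Y S j L c a x q = u} : ℝ)) ≤
      (1 + 2 * L * L) * (match o with
        | none => 12 * (2 * L + 1) * (1 - 1 / ((12 * Fintype.card J) ^ 2 : ℝ)) ^ ((L + 1) / 6)
        | some _ => (1 + 2 * L * L) * (144 / 3 ^ h)) * Nat.card (Node L → X J) := by
  classical
  have hcN : (Fintype.card (Node L) : ℝ) = 1 + 2 * L * L := by
    have := card_Node L
    rw [Nat.card_eq_fintype_card] at this
    rw [this]
    push_cast
    ring
  match o with
  | none =>
    have h1 : (∑ a : V × Lab, (Nat.card {x : Node L → X J // QQ S j L c a none x ∧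
      ∃ q, idx q < thr (none : Option (Node L)) ∧ Y S j L c a x q = u} : ℝ)) ≤
      ∑ a : V × Lab, ∑ q : Node L, (Nat.card {x : Node L → X J //
        NoCut S j L a (ext x) (dirs S j L c a (ext x) L) ∧ Y S j L c a x q = u} : ℝ) := by
      refine sum_le_sum fun a _ => ?_
      have h2 : Nat.card {x : Node L → X J // QQ S j L c a none x ∧
          ∃ q, idx q < thr (none : Option (Node L)) ∧ Y S j L c a x q = u} ≤
          ∑ q : Node L, Nat.card {x : Node L → X J //
            NoCut S j L a (ext x) (dirs S j L c a (ext x) L) ∧ Y S j L c a x q = u} := by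
        refine le_trans ?_ (nc_union _)
        refine nc_mono ?_
        rintro x ⟨h3, q, _, h4⟩
        exact ⟨q, h3, h4⟩
      exact_mod_cast h2
    refine h1.trans ?_
    rw [sum_comm]
    have h3 : ∀ q : Node L, ∑ a : V × Lab, (Nat.card {x : Node L → X J //
        NoCut S j L a (ext x) (dirs S j L c a (ext x) L) ∧ Y S j L c a x q = u} : ℝ) ≤
        12 * (2 * L + 1) * (1 - 1 / ((12 * Fintype.card J) ^ 2 : ℝ)) ^ ((L + 1) / 6) *
        Nat.card (Node L → X J) := by
      intro q
      have h4 := nocut hXD hDR hXN S hW j L hL c q u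
      rw [nc_sum (fun a x => NoCut S j L a (ext x) (dirs S j L c a (ext x) L) ∧
        Y S j L c a x q = u)] at h4
      push_cast at h4
      exact h4
    refine (sum_le_sum fun q _ => h3 q).trans ?_
    rw [sum_const, card_univ, nsmul_eq_mul, hcN]
    exact le_of_eq (by ring)
  | some ν =>
    have h1 : (∑ a : V × Lab, (Nat.card {x : Node L → X J // QQ S j L c a (some ν) x ∧
      ∃ q, idx q < thr (some ν) ∧ Y S j L c a x q = u} : ℝ)) ≤
      ∑ a : V × Lab, ∑ q : Node L, ∑ μ : Node L, (if idx μ < idx ν then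
        (Nat.card {x : Node L → X J // Y S j L c a x μ = Y S j L c a x ν ∧
          Y S j L c a x q = u} : ℝ) else 0) := by
      refine sum_le_sum fun a _ => ?_
      have h2 : Nat.card {x : Node L → X J // QQ S j L c a (some ν) x ∧
          ∃ q, idx q < thr (some ν) ∧ Y S j L c a x q = u} ≤
          ∑ q : Node L, ∑ μ : Node L, (if idx μ < idx ν then
            Nat.card {x : Node L → X J // Y S j L c a x μ = Y S j L c a x ν ∧
              Y S j L c a x q = u} else 0) := by
        have h3 : Nat.card {x : Node L → X J // QQ S j L c a (some ν) x ∧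
            ∃ q, idx q < thr (some ν) ∧ Y S j L c a x q = u} ≤
            ∑ qm : Node L × Node L, Nat.card {x : Node L → X J // idx qm.2 < idx ν ∧
              Y S j L c a x qm.2 = Y S j L c a x ν ∧ Y S j L c a x qm.1 = u} := by
          refine le_trans ?_ (nc_union _)
          refine nc_mono ?_
          rintro x ⟨⟨μ, h3, h4⟩, q, _, h5⟩
          exact ⟨(q, μ), h3, h4, h5⟩
        refine h3.trans ?_
        rw [Fintype.sum_prod_type]
        refine sum_le_sum fun q _ => sum_le_sum fun μ _ => ?_
        split_ifs with hμ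
        · exact nc_mono fun x hx => hx.2
        · refine le_of_eq ?_
          have : IsEmpty {x : Node L → X J // idx μ < idx ν ∧
              Y S j L c a x μ = Y S j L c a x ν ∧ Y S j L c a x q = u} :=
            ⟨fun x => hμ x.2.1⟩
          exact Nat.card_of_isEmpty
      exact_mod_cast h2
    refine h1.trans ?_
    rw [sum_comm]
    have h3 : ∀ q : Node L, ∑ a : V × Lab, ∑ μ : Node L, (if idx μ < idx ν then
        (Nat.card {x : Node L → X J // Y S j L c a x μ = Y S j L c a x ν ∧
          Y S j L c a x q = u} : ℝ) else 0) ≤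
        (1 + 2 * L * L) * (144 / 3 ^ h * Nat.card (Node L → X J)) := by
      intro q
      rw [sum_comm]
      have h4 : ∀ μ : Node L, ∑ a : V × Lab, (if idx μ < idx ν then
          (Nat.card {x : Node L → X J // Y S j L c a x μ = Y S j L c a x ν ∧
            Y S j L c a x q = u} : ℝ) else 0) ≤ 144 / 3 ^ h * Nat.card (Node L → X J) := by
        intro μ
        by_cases hμ : idx μ < idx ν
        · simp only [if_pos hμ]
          have h5 := coin hXD hDR hXC hTR S j L hL h hg c μ ν q u (by
            rintro rfl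
            exact absurd hμ (lt_irrefl _))
          rw [nc_sum (fun a x => Y S j L c a x μ = Y S j L c a x ν ∧
            Y S j L c a x q = u)] at h5
          push_cast at h5
          exact h5
        · simp only [if_neg hμ, sum_const_zero]
          positivity
      refine (sum_le_sum fun μ _ => h4 μ).trans ?_
      rw [sum_const, card_univ, nsmul_eq_mul, hcN]
    refine (sum_le_sum fun q _ => h3 q).trans ?_
    rw [sum_const, card_univ, nsmul_eq_mul, hcN]
    exact le_of_eq (by ring)

end counting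

theorem t_Core (hCL : StCL) (hDD : StDD) (hXC : StXC) (hYD : StYD) (hDR : StDR) (hTR : StTR)
    (hXD : StXD) (hXN : StXN) (hMO : StMO) (hWN : StWN) : StCore := by
  classical
  intro V O J W _ _ _ _ _ S L h m K wv hL hm hmL hg hW hw1 hw2 hnum
  have : Fintype V := Fintype.ofFinite V
  have : Fintype O := Fintype.ofFinite O
  have : Fintype W := Fintype.ofFinite W
  have hNeX : Nonempty (X J) := inferInstance
  -- the explorations
  have hη := fun (j : J) (c : Bool) (a : V × Lab) => hDD O (X J) (Node L) idx (Y S j L c a)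
    (hYD.2 V O J S j L c a)
  choose η hη1 hη2 hη3 using hη
  set N : ℕ := 1 + 2 * L * L with hN
  -- the events
  let I := ((J × Bool × (V × Lab)) × Option (Node L)) ⊕ W
  let A : I → (O → X J) → Prop := fun i ω => match i with
    | Sum.inl ((j, c, a), o) => (∀ κ κ', idx κ < thr o → idx κ' < thr o →
        Y S j L c a (η j c a ω) κ = Y S j L c a (η j c a ω) κ' → κ = κ') ∧
        QQ S j L c a o (η j c a ω)
    | Sum.inr w => ∀ i, (ω (S.orb (wv w i true))).2.1.1 = S.sd (wv w i true) ∨
        (ω (S.orb (wv w i false))).2.1.1 = S.sd (wv w i false)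
  let Sc : I → (O → X J) → Finset O := fun i ω => match i with
    | Sum.inl ((j, c, a), o) => (univ.filter (fun κ : Node L => idx κ < thr o)).image
        (Y S j L c a (η j c a ω))
    | Sum.inr w => (univ : Finset (Fin m × Bool)).image (fun ib => S.orb (wv w ib.1 ib.2))
  have hcert : ∀ i ω ω', A i ω → (∀ o ∈ Sc i ω, ω o = ω' o) → A i ω' ∧ Sc i ω' = Sc i ω := by
    rintro (⟨⟨j, c, a⟩, o⟩ | w) ω ω' hA hS
    · have h1 : ∀ κ, idx κ < thr o → ω (Y S j L c a (η j c a ω) κ) =
          ω' (Y S j L c a (η j c a ω) κ) := by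
        intro κ hκ
        exact hS _ (mem_image.2 ⟨κ, mem_filter.2 ⟨mem_univ _, hκ⟩, rfl⟩)
      have h2 := hη2 j c a ω ω' (thr o) h1
      have h3 : ∀ κ, idx κ < thr o → Y S j L c a (η j c a ω) κ = Y S j L c a (η j c a ω') κ :=
        fun κ hκ => hYD.2 V O J S j L c a _ _ κ (fun κ' hκ' => h2 κ' (hκ'.trans hκ))
      refine ⟨⟨?_, QQ_dep hYD S j L c a o _ _ h2 hA.2⟩, ?_⟩
      · intro κ κ' hκ hκ' hY
        refine hA.1 κ κ' hκ hκ' ?_
        rw [h3 κ hκ, h3 κ' hκ']
        exact hY
      · show (univ.filter (fun κ : Node L => idx κ < thr o)).image _ =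
          (univ.filter (fun κ : Node L => idx κ < thr o)).image _
        refine image_congr ?_
        intro κ hκ
        have h4 : κ ∈ univ.filter (fun κ : Node L => idx κ < thr o) := Finset.mem_coe.1 hκ
        exact (h3 κ (mem_filter.1 h4).2).symm
    · refine ⟨?_, rfl⟩
      intro i
      have h1 : ω (S.orb (wv w i true)) = ω' (S.orb (wv w i true)) :=
        hS _ (mem_image.2 ⟨(i, true), mem_univ _, rfl⟩)
      have h2 : ω (S.orb (wv w i false)) = ω' (S.orb (wv w i false)) :=
        hS _ (mem_image.2 ⟨(i, false), mem_univ _, rfl⟩)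
      rw [← h1, ← h2]
      exact hA i
  have hcN : Fintype.card (Node L) = N := by
    have := card_Node L
    rwa [Nat.card_eq_fintype_card] at this
  have hcard : ∀ i ω, A i ω → (Sc i ω).card ≤ N := by
    rintro (⟨⟨j, c, a⟩, o⟩ | w) ω _
    · refine card_image_le.trans ((card_le_univ _).trans ?_)
      rw [hcN]
    · refine card_image_le.trans ?_
      rw [card_univ, Fintype.card_prod, Fintype.card_fin, Fintype.card_bool]
      omega
  have hne : ∀ i ω, A i ω → (Sc i ω).Nonempty := by
    rintro (⟨⟨j, c, a⟩, o⟩ | w) ω hA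
    · refine Finset.Nonempty.image ?_ _
      match o with
      | none => exact ⟨none, mem_filter.2 ⟨mem_univ _, idx_lt _⟩⟩
      | some ν =>
        obtain ⟨μ, hμ, _⟩ := hA.2
        exact ⟨μ, mem_filter.2 ⟨mem_univ _, hμ⟩⟩
    · exact Finset.Nonempty.image ⟨(⟨0, by omega⟩, true), mem_univ _⟩ _
  -- the sum
  set Ω : ℝ := (Nat.card (O → X J) : ℝ) with hΩ
  set Ξ : ℝ := (Nat.card (Node L → X J) : ℝ) with hΞ
  have hΞ0 : 0 < Ξ := by
    rw [hΞ]
    exact_mod_cast Nat.card_pos
  have hΩ0 : 0 < Ω := by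
    rw [hΩ]
    exact_mod_cast Nat.card_pos
  have hsum : ∀ u : O, 4 * N * ∑ i, Nat.card {ω : O → X J // A i ω ∧ u ∈ Sc i ω} ≤
      Nat.card (O → X J) := by
    intro u
    have hE : ∀ (jc : J × Bool) (o : Option (Node L)),
        (∑ a : V × Lab, (Nat.card {ω : O → X J // A (Sum.inl ((jc.1, jc.2, a), o)) ω ∧
          u ∈ Sc (Sum.inl ((jc.1, jc.2, a), o)) ω} : ℝ)) ≤
        (1 + 2 * L * L) * (match o with
          | none => 12 * (2 * L + 1) * (1 - 1 / ((12 * Fintype.card J) ^ 2 : ℝ)) ^ ((L + 1) / 6)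
          | some _ => (1 + 2 * L * L) * (144 / 3 ^ h)) * Ω := by
      rintro ⟨j, c⟩ o
      have h1 : ∀ a : V × Lab, (Nat.card {ω : O → X J // A (Sum.inl ((j, c, a), o)) ω ∧
          u ∈ Sc (Sum.inl ((j, c, a), o)) ω} : ℝ) * Ξ ≤
          (Nat.card {x : Node L → X J // QQ S j L c a o x ∧
            ∃ q, idx q < thr o ∧ Y S j L c a x q = u} : ℝ) * Ω := by
        intro a
        have h2 := hη3 j c a (thr o) (fun x => QQ S j L c a o x ∧
          ∃ q, idx q < thr o ∧ Y S j L c a x q = u) (by
            rintro x x' hx ⟨h3, q, h4, h5⟩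
            refine ⟨QQ_dep hYD S j L c a o _ _ hx h3, q, h4, ?_⟩
            rw [← hYD.2 V O J S j L c a x x' q (fun κ hκ => hx κ (hκ.trans h4))]
            exact h5)
        have h3 : Nat.card {ω : O → X J // A (Sum.inl ((j, c, a), o)) ω ∧
          u ∈ Sc (Sum.inl ((j, c, a), o)) ω} ≤ Nat.card {ω : O → X J //
            (∀ κ κ', idx κ < thr o → idx κ' < thr o →
              Y S j L c a (η j c a ω) κ = Y S j L c a (η j c a ω) κ' → κ = κ') ∧
            (QQ S j L c a o (η j c a ω) ∧
              ∃ q, idx q < thr o ∧ Y S j L c a (η j c a ω) q = u)} := by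
          refine nc_mono ?_
          rintro ω ⟨⟨h4, h5⟩, h6⟩
          obtain ⟨q, hq, h7⟩ := mem_image.1 h6
          exact ⟨h4, h5, q, (mem_filter.1 hq).2, h7⟩
        have h4 := (Nat.mul_le_mul_right (Nat.card (Node L → X J)) h3).trans h2
        rw [hΞ, hΩ]
        exact_mod_cast h4
      have h2 := sum_start hXD hDR hXC hTR hXN S hW j L hL h hg c o u
      refine le_of_mul_le_mul_right ?_ hΞ0
      rw [sum_mul]
      refine (sum_le_sum fun a _ => h1 a).trans ?_
      rw [← sum_mul]
      refine (mul_le_mul_of_nonneg_right h2 hΩ0.le).trans (le_of_eq ?_)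
      rw [← hΞ]
      ring
    have hEW : (∑ w : W, (Nat.card {ω : O → X J // A (Sum.inr w) ω ∧ u ∈ Sc (Sum.inr w) ω} : ℝ)) ≤
        K * (5 / 9 : ℝ) ^ m * Ω := by
      have h1 : ∀ w : W, (Nat.card {ω : O → X J // A (Sum.inr w) ω ∧
          u ∈ Sc (Sum.inr w) ω} : ℝ) ≤
          if (∃ i b, S.orb (wv w i b) = u) then (5 / 9 : ℝ) ^ m * Ω else 0 := by
        intro w
        split_ifs with hu
        · have h2 := hWN V O J S m (wv w) (hw1 w)
          have h3 : Nat.card {ω : O → X J // A (Sum.inr w) ω ∧ u ∈ Sc (Sum.inr w) ω} ≤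
              Nat.card {ω : O → X J // A (Sum.inr w) ω} := nc_mono fun ω hω => hω.1
          have h4 : (9 : ℝ) ^ m * Nat.card {ω : O → X J // A (Sum.inr w) ω} ≤ 5 ^ m * Ω := by
            rw [hΩ]
            exact_mod_cast h2
          have h5 : (0 : ℝ) < 9 ^ m := by positivity
          refine le_of_mul_le_mul_left ?_ h5
          have h6 : (9 : ℝ) ^ m * ((5 / 9) ^ m * Ω) = 5 ^ m * Ω := by
            rw [← mul_assoc, ← mul_pow]
            norm_num
          rw [h6]
          refine le_trans (mul_le_mul_of_nonneg_left ?_ h5.le) h4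
          exact_mod_cast h3
        · refine le_of_eq ?_
          have : IsEmpty {ω : O → X J // A (Sum.inr w) ω ∧ u ∈ Sc (Sum.inr w) ω} := by
            refine ⟨fun ω => hu ?_⟩
            obtain ⟨⟨i, b⟩, _, h2⟩ := mem_image.1 ω.2.2
            exact ⟨i, b, h2⟩
          rw [Nat.card_of_isEmpty, Nat.cast_zero]
      refine (sum_le_sum fun w _ => h1 w).trans ?_
      rw [← sum_filter, sum_const, nsmul_eq_mul, mul_assoc]
      refine mul_le_mul_of_nonneg_right ?_ (by positivity)
      have h2 := hw2 u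
      rw [Nat.card_eq_fintype_card, Fintype.card_subtype] at h2
      exact_mod_cast h2
    have hE2 : (∑ x : (J × Bool × (V × Lab)) × Option (Node L),
        (Nat.card {ω : O → X J // A (Sum.inl x) ω ∧ u ∈ Sc (Sum.inl x) ω} : ℝ)) ≤
        2 * Fintype.card J * ((1 + 2 * L * L) ^ 3 * 144 / 3 ^ h + (1 + 2 * L * L) * 12 *
          (2 * L + 1) * (1 - 1 / ((12 * Fintype.card J) ^ 2 : ℝ)) ^ ((L + 1) / 6)) * Ω := by
      have h1 : (∑ x : (J × Bool × (V × Lab)) × Option (Node L),
          (Nat.card {ω : O → X J // A (Sum.inl x) ω ∧ u ∈ Sc (Sum.inl x) ω} : ℝ)) =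
          ∑ jc : J × Bool, ∑ o : Option (Node L), ∑ a : V × Lab,
            (Nat.card {ω : O → X J // A (Sum.inl ((jc.1, jc.2, a), o)) ω ∧
              u ∈ Sc (Sum.inl ((jc.1, jc.2, a), o)) ω} : ℝ) := by
        rw [Fintype.sum_prod_type, Fintype.sum_prod_type, Fintype.sum_prod_type]
        refine sum_congr rfl fun j _ => ?_
        rw [Fintype.sum_prod_type]
        refine sum_congr rfl fun c _ => ?_
        rw [sum_comm]
      rw [h1]
      have h2 : ∀ jc : J × Bool, (∑ o : Option (Node L), ∑ a : V × Lab,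
            (Nat.card {ω : O → X J // A (Sum.inl ((jc.1, jc.2, a), o)) ω ∧
              u ∈ Sc (Sum.inl ((jc.1, jc.2, a), o)) ω} : ℝ)) ≤
          ((1 + 2 * L * L) ^ 3 * 144 / 3 ^ h + (1 + 2 * L * L) * 12 *
          (2 * L + 1) * (1 - 1 / ((12 * Fintype.card J) ^ 2 : ℝ)) ^ ((L + 1) / 6)) * Ω := by
        intro jc
        refine (sum_le_sum fun o _ => hE jc o).trans ?_
        rw [Fintype.sum_option]
        simp only
        rw [sum_const, card_univ, hcN, nsmul_eq_mul, hN]
        push_cast
        exact le_of_eq (by ring)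
      refine (sum_le_sum fun jc _ => h2 jc).trans ?_
      rw [sum_const, card_univ, Fintype.card_prod, Fintype.card_bool, nsmul_eq_mul]
      push_cast
      exact le_of_eq (by ring)
    have hfin : (4 * N * ∑ i : I, (Nat.card {ω : O → X J // A i ω ∧ u ∈ Sc i ω} : ℝ)) ≤ Ω := by
      rw [Fintype.sum_sum_type]
      have h1 := add_le_add hE2 hEW
      have h2 : (0 : ℝ) ≤ 4 * N := by positivity
      refine (mul_le_mul_of_nonneg_left h1 h2).trans ?_
      have h3 := mul_le_mul_of_nonneg_right hnum hΩ0.le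
      rw [one_mul] at h3
      refine le_trans (le_of_eq ?_) h3
      rw [hN]
      push_cast
      ring
    rw [hΩ] at hfin
    exact_mod_cast hfin
  obtain ⟨ω, hω⟩ := hCL O (X J) I A Sc N hcert hcard hne hsum
  -- the conclusion
  have hinj : ∀ j c a κ κ', Y S j L c a (η j c a ω) κ = Y S j L c a (η j c a ω) κ' → κ = κ' := by
    intro j c a
    have key : ∀ n, ∀ κ κ' : Node L, idx κ < n → idx κ' < n →
        Y S j L c a (η j c a ω) κ = Y S j L c a (η j c a ω) κ' → κ = κ' := by
      intro n
      induction n with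
      | zero => intro κ κ' h1; omega
      | succ n ih =>
        intro κ κ' h1 h2 h3
        by_contra hne'
        have hidx : idx κ ≠ idx κ' := fun h => hne' (hYD.1 L κ κ' h)
        rcases lt_or_gt_of_ne hidx with h4 | h4
        · refine hω (Sum.inl ((j, c, a), some κ')) ⟨?_, κ, h4, h3⟩
          intro κ1 κ2 h5 h6 h7
          exact ih κ1 κ2 (by simp only [thr] at h5; omega) (by simp only [thr] at h6; omega) h7
        · refine hω (Sum.inl ((j, c, a), some κ)) ⟨?_, κ', h4, h3.symm⟩
          intro κ1 κ2 h5 h6 h7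
          exact ih κ1 κ2 (by simp only [thr] at h5; omega) (by simp only [thr] at h6; omega) h7
    intro κ κ' h1
    exact key N κ κ' (idx_lt κ) (idx_lt κ') h1
  have hex : ∀ j c a, ∃ x : Node L → X J, ∀ κ, x κ = ω (Y S j L c a x κ) :=
    fun j c a => ⟨η j c a ω, hη1 j c a ω⟩
  have huniq : ∀ j c a (x : Node L → X J), (∀ κ, x κ = ω (Y S j L c a x κ)) →
      x = η j c a ω := by
    intro j c a x hx
    have key : ∀ n, ∀ κ : Node L, idx κ < n → x κ = η j c a ω κ := by
      intro n
      induction n with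
      | zero => intro κ h1; omega
      | succ n ih =>
        intro κ h1
        rw [hx κ, hη1 j c a ω κ, hYD.2 V O J S j L c a x (η j c a ω) κ
          (fun κ' h2 => ih κ' (by omega))]
    exact funext fun κ => key N κ (idx_lt κ)
  have hno : ∀ j c a (x : Node L → X J), (∀ κ, x κ = ω (Y S j L c a x κ)) →
      ¬ NoCut S j L a (ext x) (dirs S j L c a (ext x) L) := by
    intro j c a x hx hN'
    rw [huniq j c a x hx] at hN'
    exact hω (Sum.inl ((j, c, a), none)) ⟨fun κ κ' _ _ h1 => hinj j c a κ κ' h1, hN'⟩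
  have hG1 : Girth S 1 := fun j δ d h1 h2 => hg j δ d h1 (by omega)
  obtain ⟨cut, col, pt, c1, c2, c3, c4, c5, c6⟩ := hMO V O J S L hL hG1 ω hex hno
  refine ⟨cut, col, pt, fun v => (ω (S.orb v)).2.1.1 = S.sd v, c1, c2, c3, c4, c5, c6, ?_⟩
  intro w
  by_contra hcon
  push Not at hcon
  refine hω (Sum.inr w) ?_
  intro i
  by_cases h1 : (ω (S.orb (wv w i true))).2.1.1 = S.sd (wv w i true)
  · exact Or.inl h1
  · exact Or.inr (hcon i h1)

end Pool.Agent.H9.LG
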