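import Mathlib

set_option autoImplicit false

/-!
# Project LG (helper9): the linear arboricity conjecture for regular graphs of logarithmic girth

Definitions: systems of darts, random transitions, the tree of an exploration.

A *group* `j : J` is a `4`-regular graph on `V`; the four darts at a vertex `v` are the pairs
`(v, a)`, `a : Lab`, and `nb j (v, a)` is the same edge seen from its other end.  The vertices are
partitioned into *orbits* (`orb`) of at most three vertices, told apart by their *side* `sd`.
Every orbit `o` has random variables `ω o : X J`: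
* `(ω o).1 s j : ZMod 3` for every side `s` and group `j`: the pairing of the four darts of the
  group `j` at the vertex of `o` with side `s`: the dart with label `a` is paired with
  `a + e ((ω o).1 s j)`;
* `(ω o).2.1`: a selected dart (side, group, label);
* `(ω o).2.2`: a bit for every dart (side, group, label).
-/

namespace Pool.Agent.H9.LG

open Finset

/-- Labels of the four darts of a group at a vertex. -/
abbrev Lab := ZMod 2 × ZMod 2

/-- The three nonzero labels. -/
def e (i : ZMod 3) : Lab := if i = 0 then (0, 1) else if i = 1 then (1, 0) else (1, 1)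

theorem e_ne (i : ZMod 3) : e i ≠ 0 := by revert i; decide

theorem e_inj (i i' : ZMod 3) (h : e i = e i') : i = i' := by revert i i'; decide

theorem e_self (i : ZMod 3) : e i + e i = 0 := by revert i; decide

theorem e_add1 (i : ZMod 3) : e i + e (i + 1) = e (i + 2) := by revert i; decide

theorem e_add2 (i : ZMod 3) : e i + e (i + 2) = e (i + 1) := by revert i; decide

theorem e_add12 (i : ZMod 3) : e (i + 1) + e (i + 2) = e i := by revert i; decide

theorem e_surj (a b : Lab) (h : a ≠ b) : ∃ i, b = a + e i := by revert a b; decide

/-- The random variables of an orbit. -/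
abbrev X (J : Type) := (Fin 3 → J → ZMod 3) × (Fin 3 × J × Lab) × (Fin 3 × J × Lab → Bool)

/-- A system: orbits, sides, cuttable vertices `cu`, the involutions `nb j` on the darts, and a
ranking of the darts. -/
structure Sys (V O J : Type) where
  orb : V → O
  sd : V → Fin 3
  inj : ∀ v w, orb v = orb w → sd v = sd w → v = w
  cu : V → Prop
  nb : J → V × Lab → V × Lab
  nb_nb : ∀ j δ, nb j (nb j δ) = δ
  rk : V × Lab → ℕ
  rk_inj : ∀ δ δ', rk δ = rk δ' → δ = δ'

variable {V O J : Type}

/-- `δ 0, …, δ (d - 1)` are the darts of a walk with `d` steps in the group `j` which never goes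
back. -/
def Red (S : Sys V O J) (j : J) (δ : ℕ → V × Lab) (d : ℕ) : Prop :=
  ∀ n, n + 1 < d → (δ (n + 1)).1 = (S.nb j (δ n)).1 ∧ (δ (n + 1)).2 ≠ (S.nb j (δ n)).2

/-- Walks with at most `g` steps which never go back lead to another orbit. -/
def Girth (S : Sys V O J) (g : ℕ) : Prop :=
  ∀ j (δ : ℕ → V × Lab) (d : ℕ), 1 ≤ d → d ≤ g → Red S j δ d →
    S.orb (δ 0).1 ≠ S.orb (S.nb j (δ (d - 1))).1

/-- Among six consecutive vertices of a walk, the two vertices of the first, third or fifth step
are cuttable. -/
def Win (S : Sys V O J) : Prop :=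
  ∀ j (δ : ℕ → V × Lab), Red S j δ 5 →
    ∃ i, (i = 0 ∨ i = 2 ∨ i = 4) ∧ S.cu (δ i).1 ∧ S.cu (S.nb j (δ i)).1

/-- Translation of the label of a dart by the pairing stored in `x`, rotated by the type `τ`. -/
def tr (S : Sys V O J) (j : J) (x : X J) (τ : ZMod 3) (δ : V × Lab) : V × Lab :=
  (δ.1, δ.2 + e (x.1 (S.sd δ.1) j + τ))

/-- Go on: from the dart `δ` by which we have arrived at a vertex to the dart by which we arrive
at the next vertex. -/
def dn (S : Sys V O J) (j : J) (x : X J) (τ : ZMod 3) (δ : V × Lab) : V × Lab :=
  S.nb j (tr S j x τ δ)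

theorem tr_tr (S : Sys V O J) (j : J) (x : X J) (τ : ZMod 3) (δ : V × Lab) :
    tr S j x τ (tr S j x τ δ) = δ := by
  obtain ⟨v, a⟩ := δ
  simp only [tr, add_assoc, e_self, add_zero]

/-- The nodes of an exploration: the root `none`, and the nodes `some (t, b, s)`: the vertex
number `s + 1` on the trail number `t` in the direction `b`. -/
abbrev Nd := Option (ℕ × Bool × ℕ)

/-- The centre of the trail number `t`: the root, or the first vertex of the previous trail in the
direction `d (t - 1)`. -/
def cen (d : ℕ → Bool) : ℕ → Nd
  | 0 => none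
  | t + 1 => some (t, d t, 0)

/-- The type of the first step of a trail. -/
def tyD (b : Bool) : ZMod 3 := if b then 1 else 2

/-- The dart by which the exploration with directions `d` and variables `x` arrives at the centre
number `t`. -/
def cenArr (S : Sys V O J) (j : J) (a : V × Lab) (x : Nd → X J) (d : ℕ → Bool) : ℕ → V × Lab
  | 0 => a
  | t + 1 => dn S j (x (cen d t)) (tyD (d t)) (cenArr S j a x d t)

/-- The dart by which the exploration arrives at the node `some (t, b, s)`. -/
def rayArr (S : Sys V O J) (j : J) (a : V × Lab) (x : Nd → X J) (d : ℕ → Bool) (t : ℕ) (b : Bool) :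
    ℕ → V × Lab
  | 0 => dn S j (x (cen d t)) (tyD b) (cenArr S j a x d t)
  | s + 1 => dn S j (x (some (t, b, s))) 0 (rayArr S j a x d t b s)

/-- The dart by which the exploration arrives at a node. -/
def arr (S : Sys V O J) (j : J) (a : V × Lab) (x : Nd → X J) (d : ℕ → Bool) : Nd → V × Lab
  | none => a
  | some (t, b, s) => rayArr S j a x d t b s

/-- The dart by which the trail number `t` in direction `b` is left after `s` steps. -/
def out (S : Sys V O J) (j : J) (a : V × Lab) (x : Nd → X J) (d : ℕ → Bool) (t : ℕ) (b : Bool) :
    ℕ → V × Lab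
  | 0 => tr S j (x (cen d t)) (tyD b) (cenArr S j a x d t)
  | s + 1 => tr S j (x (some (t, b, s))) 0 (rayArr S j a x d t b s)

/-- The node number `s` of the trail number `t` in direction `b`. -/
def pos (d : ℕ → Bool) (t : ℕ) (b : Bool) : ℕ → Nd
  | 0 => cen d t
  | s + 1 => some (t, b, s)

/-- The dart `δ` is selected in `x`, and its vertex is cuttable. -/
def selX (S : Sys V O J) (j : J) (x : X J) (δ : V × Lab) : Prop :=
  x.2.1 = (S.sd δ.1, j, δ.2) ∧ S.cu δ.1

/-- The edge number `s` of the trail number `t` in direction `b` is cut. -/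
def cutX (S : Sys V O J) (j : J) (a : V × Lab) (x : Nd → X J) (d : ℕ → Bool) (t : ℕ) (b : Bool)
    (s : ℕ) : Prop :=
  selX S j (x (pos d t b s)) (out S j a x d t b s) ∧
    selX S j (x (pos d t b (s + 1))) (S.nb j (out S j a x d t b s))

open Classical in
/-- The first number `s < L` with a property, or `0`. -/
noncomputable def fst (L : ℕ) (P : ℕ → Prop) : ℕ :=
  if h : ∃ s, s < L ∧ P s then Nat.find h else 0

/-- The bit of the dart `δ` stored in `x`. -/
def bit (S : Sys V O J) (j : J) (x : X J) (δ : V × Lab) : Bool :=
  x.2.2 (S.sd δ.1, j, δ.2)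

section
variable (S : Sys V O J) (j : J) (L : ℕ) (a : V × Lab) (x : Nd → X J) (d : ℕ → Bool) (t : ℕ)

/-- The position of the first cut edge of the trail number `t` in direction `b`. -/
noncomputable def fX (b : Bool) : ℕ := fst L (cutX S j a x d t b)

/-- The dart at the end of the piece. -/
noncomputable def ldr (b : Bool) : V × Lab := out S j a x d t b (fX S j L a x d t b)

/-- The phase. -/
noncomputable def phi (b : Bool) : Bool :=
  xor (bit S j (x (pos d t b (fX S j L a x d t b))) (ldr S j L a x d t b))
    (decide (fX S j L a x d t b % 2 = 1))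

open Classical in
/-- The colour of the first edge of the trail number `t` in the direction `true`. -/
noncomputable def colA : Bool :=
  if S.rk (ldr S j L a x d t true) < S.rk (ldr S j L a x d t false) then phi S j L a x d t false
    else !phi S j L a x d t true

end

open Classical in
/-- The directions found by the exploration for the colour `c`: `dirs t` is correct below `t`. -/
noncomputable def dirs (S : Sys V O J) (j : J) (L : ℕ) (c : Bool) (a : V × Lab) (x : Nd → X J) :
    ℕ → ℕ → Bool
  | 0 => fun _ => false
  | t + 1 => Function.update (dirs S j L c a x t) t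
      (decide (colA S j L a x (dirs S j L c a x t) t = c))

/-- The nodes of an exploration with `L` trails of length `L` (in both directions). -/
abbrev Node (L : ℕ) := Option (Fin L × Bool × Fin L)

/-- A node. -/
def emb {L : ℕ} : Node L → Nd
  | none => none
  | some (t, b, s) => some (t.1, b, s.1)

/-- Extension of the variables to all of `Nd`. -/
def ext {L : ℕ} {C : Type} (x : Node L → C) : Nd → C
  | none => x none
  | some (t, b, s) => if h : t < L ∧ s < L then x (some (⟨t, h.1⟩, b, ⟨s, h.2⟩)) else x none

/-- The order in which the nodes are explored. -/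
def idx {L : ℕ} : Node L → ℕ
  | none => 0
  | some (t, b, s) => 1 + (2 * t.1 + (if b then 0 else 1)) * L + s.1

/-- The orbit found at a node. -/
noncomputable def Y (S : Sys V O J) (j : J) (L : ℕ) (c : Bool) (a : V × Lab) (x : Node L → X J)
    (ν : Node L) : O :=
  S.orb (arr S j a (ext x) (dirs S j L c a (ext x) L) (emb ν)).1

/-- No cut edge on a trail in one direction, or on the spine. -/
def NoCut (S : Sys V O J) (j : J) (L : ℕ) (a : V × Lab) (x : Nd → X J) (d : ℕ → Bool) : Prop :=
  (∃ t, t < L ∧ ∃ b, ∀ s, s < L → ¬ cutX S j a x d t b s) ∨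
    ∀ t, t < L → ¬ cutX S j a x d t (d t) 0

end Pool.Agent.H9.LG
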