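import Pool.Agent.H9.LG.StmG

set_option autoImplicit false

/-!
# Project LG (helper9): the graph part, from its parts
-/

namespace Pool.Agent.H9.LG

open Finset SimpleGraph H931R3.LA

theorem reg_ncard_sup {V : Type} [Finite V] (A B : SimpleGraph V) (hAB : Disjoint A B)
    (hA : ∀ v, (A.neighborSet v).ncard = 2) (hB : ∀ v, (B.neighborSet v).ncard = 2) (v : V) :
    ((A ⊔ B).neighborSet v).ncard = 4 := by
  have h1 : (A ⊔ B).neighborSet v = A.neighborSet v ∪ B.neighborSet v := by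
    ext w
    simp [SimpleGraph.sup_adj]
  have h2 : Disjoint (A.neighborSet v) (B.neighborSet v) := by
    rw [Set.disjoint_left]
    intro w hwA hwB
    have h3 : (A ⊓ B).Adj v w := ⟨hwA, hwB⟩
    rw [disjoint_iff.1 hAB] at h3
    exact h3
  rw [h1, Set.ncard_union_eq h2 (Set.toFinite _) (Set.toFinite _), hA, hB]

theorem reg_disj {V : Type} {A B : SimpleGraph V} (hAB : Disjoint A B) {x y : V}
    (hA : A.Adj x y) : ¬ B.Adj x y := by
  intro hB
  have h3 : (A ⊓ B).Adj x y := ⟨hA, hB⟩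
  rw [disjoint_iff.1 hAB] at h3
  exact h3

/-- The common part. -/
theorem reg_main (hCore : StCore) (hGI : StGI) (hCLS : StCLS) (hADD : StADD) (hCMP : StCMP)
    (V : Type) [Finite V] [Nonempty V] (G P : SimpleGraph V) (Y : Set V) (g D n L h m : ℕ)
    (hn : 1 ≤ n) (hL : 1 ≤ L) (hm : 1 ≤ m) (hmL : 2 * m ≤ 1 + 2 * L * L)
    (hg1 : 4 * h + 7 ≤ g) (hg2 : 10 ≤ g) (hD : 6 ≤ D) (hdat : Dat G P Y g D)
    (H : Fin n → SimpleGraph V) (hHle : ∀ j, H j ≤ G \ P)
    (nb : Fin n → V × Lab → V × Lab) (hnb : ∀ j, IsNb (H j) (nb j))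
    (orb : V → V) (sd : V → Fin 3) (ho1 : ∀ v w, orb v = orb w → sd v = sd w → v = w)
    (ho2 : ∀ v w, orb v = orb w ↔ P.Reachable v w) (hP : IsLF P)
    (W : Type) [Finite W] (wv : W → Fin m → Bool → V)
    (hw1 : ∀ w i b i' b', orb (wv w i b) = orb (wv w i' b') → i = i' ∧ b = b')
    (hw2 : ∀ u : V, Nat.card {w : W // ∃ i b, orb (wv w i b) = u} ≤ 6 * (m + 2))
    (hnum : (4 * (1 + 2 * L * L) * (2 * n *
        ((1 + 2 * L * L) ^ 3 * 144 / 3 ^ h + (1 + 2 * L * L) * 12 * (2 * L + 1) *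
          (1 - 1 / ((12 * n) ^ 2 : ℝ)) ^ ((L + 1) / 6)) +
        (6 * (m + 2) : ℝ) * (5 / 9 : ℝ) ^ m) ≤ 1)) :
    ∃ (Q : Fin n → Bool → SimpleGraph V) (K : SimpleGraph V) (sel : V → Prop),
      (∀ j c, IsLF (Q j c)) ∧ (∀ j c, Q j c ≤ H j) ∧ (∀ x y, K.Adj x y → ∃ j, (H j).Adj x y) ∧
      (∀ j, H j ≤ Q j true ⊔ Q j false ⊔ K) ∧ IsLF (P ⊔ K) ∧
      (∀ v, {w | (P ⊔ K).Reachable v w}.ncard ≤ 6) ∧
      (∀ x y, G.Adj x y → ¬ (P ⊔ K).Adj x y → ¬ (P ⊔ K).Reachable x y) ∧
      (∀ x y, K.Adj x y → x ∉ Y ∧ sel x) ∧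
      ∀ w, ∃ i, ¬ sel (wv w i true) ∧ ¬ sel (wv w i false) := by
  classical
  have : Fintype V := Fintype.ofFinite V
  have : Nonempty (Fin n) := ⟨⟨0, hn⟩⟩
  let S : Sys V V (Fin n) :=
    { orb := orb
      sd := sd
      inj := ho1
      cu := fun v => v ∉ Y
      nb := nb
      nb_nb := fun j δ => (hnb j).1 δ
      rk := fun δ => (Fintype.equivFin (V × Lab) δ : ℕ)
      rk_inj := fun δ δ' hh => (Fintype.equivFin (V × Lab)).injective (Fin.ext hh) }
  obtain ⟨hgi1, hgi2⟩ := hGI V (Fin n) G P Y g D hdat H hHle S hnb ho2 (fun v => Iff.rfl)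
  have hG4 : Girth S (4 * h + 4) := hgi1 _ (by omega)
  have hWin : Win S := hgi2 (by omega) hD
  obtain ⟨cut, col, pt, sel, c1, c2, c3, c4, c5, c6, c7⟩ :=
    hCore V V (Fin n) W S L h m (6 * (m + 2)) wv hL hm hmL hG4 hWin hw1 hw2 (by
      rw [Fintype.card_fin]
      push_cast
      exact hnum)
  obtain ⟨q1, q2⟩ := hCLS V (Fin n) H nb hnb L cut col pt c1 c4 c5 c6
  -- adjacency in K
  have hK : ∀ x y, (Kg nb cut).Adj x y → ∃ j a, (nb j (x, a)).1 = y ∧ cut j (x, a) := by
    intro x y hxy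
    rw [Kg, SimpleGraph.fromRel_adj] at hxy
    rcases hxy.2 with ⟨j, a, h1, h2⟩ | ⟨j, a, h1, h2⟩
    · exact ⟨j, a, h1, h2⟩
    · refine ⟨j, (nb j (y, a)).2, ?_, ?_⟩
      · have h3 : (x, (nb j (y, a)).2) = nb j (y, a) := by rw [← h1]
        rw [h3, (hnb j).1]
      · have h3 : (x, (nb j (y, a)).2) = nb j (y, a) := by rw [← h1]
        rw [h3]
        exact (c1 j (y, a)).2 h2
  have hKH : ∀ x y, (Kg nb cut).Adj x y → ∃ j, (H j).Adj x y := by
    intro x y hxy
    obtain ⟨j, a, h1, _⟩ := hK x y hxy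
    exact ⟨j, ((hnb j).2.1 x y).2 ⟨a, h1⟩⟩
  have hKle : Kg nb cut ≤ G \ P := by
    intro x y hxy
    obtain ⟨j, hj⟩ := hKH x y hxy
    exact hHle j hj
  have hKc : ∀ x y x' y', (Kg nb cut).Adj x y → (Kg nb cut).Adj x' y' → P.Reachable x x' →
      x = x' ∧ y = y' := by
    intro x y x' y' hxy hxy' hr
    obtain ⟨j, a, h1, h2⟩ := hK x y hxy
    obtain ⟨j', a', h1', h2'⟩ := hK x' y' hxy'
    obtain ⟨h3, h4⟩ := c3 j (x, a) j' (x', a') h2 h2' ((ho2 x x').2 hr)
    subst h3
    have h5 : x = x' := congrArg Prod.fst h4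
    refine ⟨h5, ?_⟩
    rw [← h1, ← h1', h4]
  have hKY : ∀ x y, (Kg nb cut).Adj x y → x ∉ Y ∧ sel x := by
    intro x y hxy
    obtain ⟨j, a, _, h2⟩ := hK x y hxy
    exact c2 j (x, a) h2
  obtain ⟨m1, m2, m3⟩ := hCMP V G P (Kg nb cut) Y g D hdat hg2 hKle hKc
  refine ⟨fun j c => Qg nb cut col j c, Kg nb cut, sel, q1, ?_, hKH, q2, ?_, m2, m3, hKY, c7⟩
  · intro j c x y hxy0
    have hxy : (Qg nb cut col j c).Adj x y := hxy0
    rw [Qg, SimpleGraph.fromRel_adj] at hxy
    rcases hxy.2 with ⟨a, h1, _⟩ | ⟨a, h1, _⟩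
    · exact ((hnb j).2.1 x y).2 ⟨a, h1⟩
    · exact (((hnb j).2.1 y x).2 ⟨a, h1⟩).symm
  · refine hADD V P (Kg nb cut) hP ?_ ?_ hKc
    · intro x y hxy
      exact hdat.deg1 x (hKY x y hxy).1
    · intro x y hxy
      have h1 := hKle hxy
      rw [SimpleGraph.sdiff_adj] at h1
      exact m1 x y h1.1 h1.2

theorem t_REG (hCore : StCore) (hNU : StNU) (hLAB : StLAB) (hORB : StORB) (hGI : StGI)
    (hCLS : StCLS) (hADD : StADD) (hSEL : StSEL) (hWI : StWI) (hFR : StFR) (hDEC : StDEC)
    (hCMP : StCMP) : StREG := by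
  classical
  obtain ⟨C0, hC0⟩ := hNU
  refine ⟨6000 * C0 + 15000, ?_⟩
  intro V _ _ G P Y k g D hk hg hD hdat hreg
  set n := k / 2 with hn
  have hn1 : 1 ≤ n := by omega
  obtain ⟨L, h, m, hL, hm, hmL, hhC, hmC, hnum⟩ := hC0 n hn1
  -- numbers
  have hlogn : Real.log n ≤ Real.log k := by
    apply Real.log_le_log
    · exact_mod_cast hn1
    · exact_mod_cast Nat.div_le_self k 2
  have hlog0 : 0 ≤ Real.log n := Real.log_nonneg (by exact_mod_cast hn1)
  set ℓ : ℝ := 1 + Real.log k with hℓ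
  have hℓ1 : 1 ≤ ℓ := by linarith
  have hC0' : (0 : ℝ) ≤ C0 := Nat.cast_nonneg _
  have hh : (h : ℝ) ≤ C0 * ℓ := hhC.trans (mul_le_mul_of_nonneg_left (by linarith) hC0')
  have hmm : (m : ℝ) ≤ C0 * ℓ := hmC.trans (mul_le_mul_of_nonneg_left (by linarith) hC0')
  push_cast at hg hD
  have hCℓ : 0 ≤ (C0 : ℝ) * ℓ := by positivity
  have e1 : 4 * h + 7 ≤ g := by
    have : (4 * h + 7 : ℝ) ≤ g := by nlinarith
    exact_mod_cast this
  have e2 : 10 ≤ g := by
    have : (10 : ℝ) ≤ g := by nlinarith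
    exact_mod_cast this
  have e3 : 6 ≤ D := by
    have : (6 : ℝ) ≤ D := by nlinarith
    exact_mod_cast this
  have e4 : 2 * m + 10 ≤ g := by
    have : (2 * m + 10 : ℝ) ≤ g := by nlinarith
    exact_mod_cast this
  have e5 : 2 * m + 6 ≤ D := by
    have : (2 * m + 6 : ℝ) ≤ D := by nlinarith
    exact_mod_cast this
  have e6 : 3000 * (2 * m + 4 + 1) ≤ g := by
    have : (3000 * (2 * m + 4 + 1) : ℝ) ≤ g := by nlinarith
    exact_mod_cast this
  -- decomposition
  obtain ⟨F, hF1, hF2, hF3⟩ := hDEC V (G \ P) k hreg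
  have hFle : ∀ i, F i ≤ G \ P := fun i => (le_iSup F i).trans hF2.le
  let i0 : Fin n → Fin k := fun j => ⟨2 * j.1, by have := j.2; omega⟩
  let i1 : Fin n → Fin k := fun j => ⟨2 * j.1 + 1, by have := j.2; omega⟩
  let H : Fin n → SimpleGraph V := fun j => F (i0 j) ⊔ F (i1 j)
  have hH4 : ∀ j v, ((H j).neighborSet v).ncard = 4 := by
    intro j v
    refine reg_ncard_sup _ _ (hF3 _ _ ?_) (hF1 _) (hF1 _) v
    intro h1
    have := congrArg Fin.val h1
    simp only [i0, i1] at this
    omega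
  have hHle : ∀ j, H j ≤ G \ P := fun j => sup_le (hFle _) (hFle _)
  have hnb := fun j => hLAB V (H j) (hH4 j)
  choose nb hnb using hnb
  obtain ⟨orb, sd, ho1, ho2, _, hP⟩ := hORB V G P Y g D hdat
  rcases Nat.even_or_odd k with hpar | hpar
  · -- even
    obtain ⟨Q, K, sel, q1, q2, q3, q4, q5, _, _, _, _⟩ :=
      reg_main hCore hGI hCLS hADD hCMP V G P Y g D n L h m hn1 hL hm hmL e1 e2 e3 hdat H hHle nb
        hnb orb sd ho1 ho2 hP (Fin 0) (fun w => w.elim0) (fun w => w.elim0) (fun u => by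
          have : IsEmpty {w : Fin 0 // ∃ (i : Fin m) (b : Bool), orb ((fun w : Fin 0 =>
            (w.elim0 : Fin m → Bool → V)) w i b) = u} := ⟨fun w => w.1.elim0⟩
          rw [Nat.card_of_isEmpty]
          omega) hnum
    let T : Option (Fin n × Bool) → SimpleGraph V := fun o => match o with
      | none => P ⊔ K
      | some (j, c) => Q j c
    have hT : ∀ t, IsLF (T t) := by
      rintro (_ | ⟨j, c⟩)
      · exact q5
      · exact q1 j c
    have hTG : (⨆ t, T t) = G := by
      apply le_antisymm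
      · refine iSup_le ?_
        rintro (_ | ⟨j, c⟩)
        · refine sup_le hdat.le ?_
          intro x y hxy
          obtain ⟨j, hj⟩ := q3 x y hxy
          exact (hHle j hj).1
        · exact (q2 j c).trans ((hHle j).trans sdiff_le)
      · intro x y hxy
        by_cases hPxy : P.Adj x y
        · exact (le_iSup T none) (Or.inl hPxy)
        · have h1 : (G \ P).Adj x y := ⟨hxy, hPxy⟩
          rw [← hF2, SimpleGraph.iSup_adj] at h1
          obtain ⟨i, hi⟩ := h1
          have h2 : ∃ j, (H j).Adj x y := by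
            obtain ⟨c, hc⟩ := hpar
            rcases Nat.even_or_odd i.1 with ⟨b, hb⟩ | ⟨b, hb⟩
            · refine ⟨⟨b, by have := i.2; omega⟩, Or.inl ?_⟩
              have : i0 ⟨b, by have := i.2; omega⟩ = i := Fin.ext (by simp only [i0]; omega)
              rw [this]
              exact hi
            · refine ⟨⟨b, by have := i.2; omega⟩, Or.inr ?_⟩
              have : i1 ⟨b, by have := i.2; omega⟩ = i := Fin.ext (by simp only [i1]; omega)
              rw [this]
              exact hi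
          obtain ⟨j, hj⟩ := h2
          rcases q4 j hj with (h3 | h3) | h3
          · exact (le_iSup T (some (j, true))) h3
          · exact (le_iSup T (some (j, false))) h3
          · exact (le_iSup T none) (Or.inr h3)
    have h4 := W111.LAR.cov_of_type T hT hTG
    rw [Nat.card_eq_fintype_card, Fintype.card_option, Fintype.card_prod, Fintype.card_fin,
      Fintype.card_bool] at h4
    obtain ⟨c, hc⟩ := hpar
    have h5 : n * 2 + 1 = k + 1 := by omega
    rwa [h5] at h4
  · -- odd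
    obtain ⟨kk, hkk⟩ := hpar
    let il : Fin k := ⟨k - 1, by omega⟩
    have hil : ∀ j, F (i0 j) ≠ F il ∨ True := fun _ => Or.inr trivial
    have hdl0 : ∀ j, Disjoint (F (i0 j)) (F il) := by
      intro j
      refine hF3 _ _ ?_
      intro h1
      have := congrArg Fin.val h1
      have hj := j.2
      simp only [i0, il] at this
      omega
    have hdl1 : ∀ j, Disjoint (F (i1 j)) (F il) := by
      intro j
      refine hF3 _ _ ?_
      intro h1
      have := congrArg Fin.val h1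
      have hj := j.2
      simp only [i1, il] at this
      omega
    obtain ⟨wv, w1, w2, w3, w4, w5⟩ := hWI V G P Y g D m hdat (F il) (hFle il) (hF1 il) e4 e5 orb
      ho2
    obtain ⟨Q, K, sel, q1, q2, q3, q4, q5, q6, q7, q8, q9⟩ :=
      reg_main hCore hGI hCLS hADD hCMP V G P Y g D n L h m hn1 hL hm hmL e1 e2 e3 hdat H hHle nb
        hnb orb sd ho1 ho2 hP V wv w1 w2 hnum
    have hKF : ∀ x y, (F il).Adj x y → ¬ K.Adj x y := by
      intro x y hxy hK
      obtain ⟨j, hj | hj⟩ := q3 x y hK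
      · exact reg_disj (hdl0 j) hj hxy
      · exact reg_disj (hdl1 j) hj hxy
    have hFn : ∀ x y, (F il).Adj x y → ¬ (P ⊔ K).Reachable x y := by
      intro x y hxy
      have h1 := hFle il hxy
      rw [SimpleGraph.sdiff_adj] at h1
      refine q7 x y h1.1 ?_
      rintro (h2 | h2)
      · exact h1.2 h2
      · exact hKF x y hxy h2
    let Fr : Set V := {v | v ∉ Y ∧ ¬ sel v}
    have hA := hFR V (F il) Fr (2 * m + 4) (hF1 il) (by
      intro v c hc
      have hle' : F il ≤ G := (hFle il).trans sdiff_le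
      have h2 := hdat.cyc v (c.mapLe hle') (hc.mapLe hle')
      rw [Walk.length_mapLe] at h2
      exact e6.trans h2) (by
      intro v
      obtain ⟨i, hi1, hi2⟩ := q9 v
      exact ⟨wv v i true, wv v i false, w3 v i, ⟨w4 v i true, hi1⟩, ⟨w4 v i false, hi2⟩,
        w5 v i true⟩)
    obtain ⟨E, hE1, hE2, hE3, hE4⟩ := hSEL V (P ⊔ K) (F il) Fr q6 hFn (hF1 il) hA
    have hPKE : IsLF ((P ⊔ K) ⊔ E) := by
      refine hADD V (P ⊔ K) E q5 ?_ ?_ hE3
      · intro x y hxy
        obtain ⟨hx1, hx2⟩ := (hE2 x y hxy).1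
        refine le_trans (Set.ncard_le_ncard ?_ (Set.toFinite _)) (hdat.deg1 x hx1)
        rintro z (hz | hz)
        · exact hz
        · exact absurd (q8 x z hz).2 hx2
      · intro x y hxy
        exact hFn x y (hE1 hxy)
    let T : Option (Option (Fin n × Bool)) → SimpleGraph V := fun o => match o with
      | none => (P ⊔ K) ⊔ E
      | some none => F il \ E
      | some (some (j, c)) => Q j c
    have hT : ∀ t, IsLF (T t) := by
      rintro (_ | _ | ⟨j, c⟩)
      · exact hPKE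
      · exact hE4
      · exact q1 j c
    have hTG : (⨆ t, T t) = G := by
      apply le_antisymm
      · refine iSup_le ?_
        rintro (_ | _ | ⟨j, c⟩)
        · refine sup_le (sup_le hdat.le ?_) (hE1.trans ((hFle il).trans sdiff_le))
          intro x y hxy
          obtain ⟨j, hj⟩ := q3 x y hxy
          exact (hHle j hj).1
        · exact sdiff_le.trans ((hFle il).trans sdiff_le)
        · exact (q2 j c).trans ((hHle j).trans sdiff_le)
      · intro x y hxy
        by_cases hPxy : P.Adj x y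
        · exact (le_iSup T none) (Or.inl (Or.inl hPxy))
        · have h1 : (G \ P).Adj x y := ⟨hxy, hPxy⟩
          rw [← hF2, SimpleGraph.iSup_adj] at h1
          obtain ⟨i, hi⟩ := h1
          by_cases hiil : i = il
          · rw [hiil] at hi
            by_cases hEE : E.Adj x y
            · exact (le_iSup T none) (Or.inr hEE)
            · exact (le_iSup T (some none)) (show (F il \ E).Adj x y from ⟨hi, hEE⟩)
          have hi' : i.1 ≠ k - 1 := fun hh => hiil (Fin.ext hh)
          have h2 : ∃ j, (H j).Adj x y := by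
            rcases Nat.even_or_odd i.1 with ⟨b, hb⟩ | ⟨b, hb⟩
            · refine ⟨⟨b, by have := i.2; omega⟩, Or.inl ?_⟩
              have : i0 ⟨b, by have := i.2; omega⟩ = i := Fin.ext (by simp only [i0]; omega)
              rw [this]
              exact hi
            · refine ⟨⟨b, by have := i.2; omega⟩, Or.inr ?_⟩
              have : i1 ⟨b, by have := i.2; omega⟩ = i := Fin.ext (by simp only [i1]; omega)
              rw [this]
              exact hi
          obtain ⟨j, hj⟩ := h2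
          rcases q4 j hj with (h3 | h3) | h3
          · exact (le_iSup T (some (some (j, true)))) h3
          · exact (le_iSup T (some (some (j, false)))) h3
          · exact (le_iSup T none) (Or.inl (Or.inr h3))
    have h4 := W111.LAR.cov_of_type T hT hTG
    rw [Nat.card_eq_fintype_card, Fintype.card_option, Fintype.card_option, Fintype.card_prod,
      Fintype.card_fin, Fintype.card_bool] at h4
    have h5 : n * 2 + 1 + 1 = k + 1 := by omega
    rwa [h5] at h4

end Pool.Agent.H9.LG
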