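import Pool.Agent.H9.LG.StmG

set_option autoImplicit false

/-! Project LG: adding edges to a linear forest. -/

namespace Pool.Agent.H9.LG

open SimpleGraph H931R3.LA

/-- Reachability inside `Q ⊔ M'` from a vertex in a `Q`-component without ends of `M'`-edges. -/
theorem add_reach {V : Type} (Q M' : SimpleGraph V) (x : V)
    (h : ∀ u v, Q.Reachable x u → ¬ M'.Adj u v) (y : V) (hy : (Q ⊔ M').Reachable x y) :
    Q.Reachable x y := by
  obtain ⟨p⟩ := hy
  induction p with
  | nil => exact Reachable.refl _
  | @cons a b c hab p ih =>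
    have h1 : Q.Adj a b := by
      rcases (sup_adj _ _ _ _).1 hab with h2 | h2
      · exact h2
      · exact absurd h2 (h a b (Reachable.refl _))
    have h3 : Q.Reachable b c := by
      apply ih
      intro u v hu
      exact h u v (h1.reachable.trans hu)
    exact h1.reachable.trans h3

theorem add_acyclic {V : Type} [Finite V] (Q : SimpleGraph V) (hQ : Q.IsAcyclic) :
    ∀ (n : ℕ) (M : SimpleGraph V), M.edgeSet.ncard = n →
    (∀ x y, M.Adj x y → ¬ Q.Reachable x y) →
    (∀ x y x' y', M.Adj x y → M.Adj x' y' → Q.Reachable x x' → x = x' ∧ y = y') →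
    (Q ⊔ M).IsAcyclic := by
  classical
  intro n
  induction n with
  | zero =>
    intro M hM _ _
    have h1 : M.edgeSet = ∅ := (Set.ncard_eq_zero (Set.toFinite _)).1 hM
    have h2 : M = ⊥ := edgeSet_eq_empty.1 h1
    rw [h2, sup_bot_eq]
    exact hQ
  | succ n ih =>
    intro M hM h1 h2
    have hne : M.edgeSet.Nonempty := by
      rw [← Set.ncard_pos (Set.toFinite _), hM]
      exact Nat.succ_pos n
    obtain ⟨e, he⟩ := hne
    induction e using Sym2.ind with
    | _ x y =>
    have hxy : M.Adj x y := he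
    set M' := M.deleteEdges {s(x, y)} with hM'
    have hle : M' ≤ M := deleteEdges_le _
    have hc : M'.edgeSet.ncard = n := by
      rw [hM', edgeSet_deleteEdges, Set.ncard_sdiff_singleton_of_mem he, hM]
      rfl
    have h3 := ih M' hc (fun a b hab => h1 a b (hle hab))
      (fun a b a' b' hab hab' => h2 a b a' b' (hle hab) (hle hab'))
    have h4 : ¬ (Q ⊔ M').Reachable x y := by
      intro hr
      refine h1 x y hxy (add_reach Q M' x ?_ y hr)
      intro u v hu huv
      have h5 := h2 x y u v hxy (hle huv) hu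
      obtain ⟨rfl, rfl⟩ := h5
      rw [hM', deleteEdges_adj] at huv
      exact huv.2 rfl
    have h5 := (isAcyclic_add_edge_iff_of_not_reachable x y h4).2 h3
    refine IsAcyclic.anti ?_ h5
    intro a b hab
    rw [sup_adj, sup_adj]
    rcases (sup_adj _ _ _ _).1 hab with h | h
    · exact Or.inl (Or.inl h)
    · by_cases hs : s(a, b) = s(x, y)
      · right
        rw [edge_adj]
        refine ⟨?_, h.ne⟩
        rcases Sym2.eq_iff.1 hs with ⟨rfl, rfl⟩ | ⟨rfl, rfl⟩
        · exact Or.inl ⟨rfl, rfl⟩
        · exact Or.inr ⟨rfl, rfl⟩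
      · left; right
        rw [hM', deleteEdges_adj]
        exact ⟨h, hs⟩

theorem t_ADD : StADD := by
  intro V _ Q M hQ h0 h1 h2
  refine ⟨add_acyclic Q hQ.1 _ M rfl h1 h2, fun v => ?_⟩
  have h3 : (Q ⊔ M).neighborSet v = Q.neighborSet v ∪ M.neighborSet v := by
    ext w
    simp [mem_neighborSet]
  rw [h3]
  by_cases hM : ∃ w, M.Adj v w
  · obtain ⟨w, hw⟩ := hM
    have h4 : M.neighborSet v ⊆ {w} := by
      intro u hu
      exact ((h2 v w v u hw hu (Reachable.refl _)).2).symm
    have h5 : (M.neighborSet v).ncard ≤ 1 := by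
      rw [← Set.ncard_singleton w]
      exact Set.ncard_le_ncard h4 (Set.toFinite _)
    have h6 := Set.ncard_union_le (Q.neighborSet v) (M.neighborSet v)
    have h7 := h0 v w hw
    omega
  · have h4 : M.neighborSet v = ∅ := by
      ext u
      simp only [mem_neighborSet, Set.mem_empty_iff_false, iff_false]
      exact fun h => hM ⟨u, h⟩
    rw [h4, Set.union_empty]
    exact hQ.2 v

end Pool.Agent.H9.LG
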