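import Pool.Agent.H9.LG.Stm
import Pool.Graph.R_seed8.Helper635.LLL

set_option autoImplicit false

/-!
# Project LG, task CL: the local lemma with certificates
-/

namespace Pool.Agent.H9.LG

open Finset Classical
open Pool.Agent.Helper635.LLL (ev mem_ev cnt cnt_mono indep)

lemma cl_sum_biUnion_le {α β : Type} [DecidableEq β] (f : β → ℝ) (hf : ∀ b, 0 ≤ f b) (s : Finset α)
    (t : α → Finset β) :
    ∑ x ∈ s.biUnion t, f x ≤ ∑ u ∈ s, ∑ x ∈ t u, f x := by
  induction s using Finset.induction_on with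
  | empty => simp
  | insert a s ha ih =>
    rw [Finset.biUnion_insert, Finset.sum_insert ha]
    have h : ∑ x ∈ t a ∪ s.biUnion t, f x ≤ ∑ x ∈ t a, f x + ∑ x ∈ s.biUnion t, f x := by
      rw [← Finset.sum_union_inter]
      have : 0 ≤ ∑ x ∈ t a ∩ s.biUnion t, f x := Finset.sum_nonneg (fun x _ => hf x)
      linarith
    linarith

section
variable {T C ι : Type} [Fintype T] [Fintype C]

/-- all events indexed by `J` fail -/
noncomputable def cl_G (B : ι → (T → C) → Prop) (J : Finset ι) : ℕ :=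
  cnt (fun ω => ∀ j ∈ J, ¬ B j ω)

lemma cl_key (I : Finset ι) (B : ι → (T → C) → Prop) (S : ι → Finset T)
    (hB : ∀ i ∈ I, Pool.Agent.Helper635.LLL.DependsOn (B i) (S i)) (p : ι → ℝ) (hp0 : ∀ i, 0 ≤ p i)
    (hp : ∀ i ∈ I, (cnt (B i) : ℝ) ≤ p i * Fintype.card (T → C))
    (hd : ∀ i ∈ I, ∑ j ∈ I.filter (fun j => ¬ Disjoint (S i) (S j)), p j ≤ 1 / 4)
    (hne : 0 < Fintype.card (T → C)) :
    ∀ (n : ℕ) (J : Finset ι), J.card = n → J ⊆ I → ∀ i ∈ I,
      (cnt (fun ω => B i ω ∧ ∀ j ∈ J, ¬ B j ω) : ℝ) ≤ 2 * p i * (cl_G B J : ℝ) := by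
  intro n
  induction n using Nat.strong_induction_on with
  | _ n ih =>
    intro J hJn hJI i hi
    set J1 := J.filter (fun j => ¬ Disjoint (S i) (S j)) with hJ1
    set J2 := J.filter (fun j => Disjoint (S i) (S j)) with hJ2
    have hJ2J : J2 ⊆ J := Finset.filter_subset _ _
    have hJ1J : J1 ⊆ J := Finset.filter_subset _ _
    -- numerator bound
    have hnum : (cnt (fun ω => B i ω ∧ ∀ j ∈ J, ¬ B j ω) : ℝ) ≤ p i * (cl_G B J2 : ℝ) := by
      have e1 : cnt (fun ω => B i ω ∧ ∀ j ∈ J, ¬ B j ω)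
          ≤ cnt (fun ω => B i ω ∧ ∀ j ∈ J2, ¬ B j ω) :=
        cnt_mono (fun ω h => ⟨h.1, fun j hj => h.2 j (hJ2J hj)⟩)
      have e2 : cnt (fun ω => B i ω ∧ ∀ j ∈ J2, ¬ B j ω) * Fintype.card (T → C)
          = cnt (B i) * cl_G B J2 := by
        refine indep (B i) (fun ω => ∀ j ∈ J2, ¬ B j ω) (S i) (hB i hi) ?_
        intro ω ω' hω hall j hj hbad
        refine hall j hj (hB j (hJI (hJ2J hj)) ω' ω ?_ hbad)
        intro t ht
        have hdis : Disjoint (S i) (S j) := (Finset.mem_filter.mp hj).2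
        exact (hω t (fun hti => (Finset.disjoint_left.mp hdis hti ht))).symm
      have hN : (0 : ℝ) < (Fintype.card (T → C) : ℝ) := by exact_mod_cast hne
      have e3 : (cnt (fun ω => B i ω ∧ ∀ j ∈ J2, ¬ B j ω) : ℝ) * (Fintype.card (T → C) : ℝ)
          = (cnt (B i) : ℝ) * (cl_G B J2 : ℝ) := by exact_mod_cast e2
      have e4 : (cnt (B i) : ℝ) * (cl_G B J2 : ℝ)
          ≤ p i * Fintype.card (T → C) * (cl_G B J2 : ℝ) :=
        mul_le_mul_of_nonneg_right (hp i hi) (Nat.cast_nonneg _)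
      have e5 : (cnt (fun ω => B i ω ∧ ∀ j ∈ J2, ¬ B j ω) : ℝ) ≤ p i * (cl_G B J2 : ℝ) := by
        refine le_of_mul_le_mul_right ?_ hN
        rw [e3]; linarith
      exact le_trans (by exact_mod_cast e1) e5
    by_cases hemp : J1 = ∅
    · have hJJ2 : J2 = J := by
        refine Finset.Subset.antisymm hJ2J ?_
        intro j hj
        rw [hJ2, Finset.mem_filter]
        refine ⟨hj, ?_⟩
        by_contra hnd
        have : j ∈ J1 := by rw [hJ1, Finset.mem_filter]; exact ⟨hj, hnd⟩
        rw [hemp] at this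
        exact absurd this (Finset.notMem_empty _)
      rw [hJJ2] at hnum
      have : 0 ≤ p i * (cl_G B J : ℝ) := mul_nonneg (hp0 i) (Nat.cast_nonneg _)
      linarith
    · have hJ2card : J2.card < n := by
        rw [← hJn]
        refine Finset.card_lt_card ⟨hJ2J, ?_⟩
        intro hsub
        obtain ⟨j, hj⟩ := Finset.nonempty_iff_ne_empty.mpr hemp
        have h1 := (Finset.mem_filter.mp hj).2
        have h2 := (Finset.mem_filter.mp (hsub (hJ1J hj))).2
        exact h1 h2
      -- denominator bound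
      have hden : (cl_G B J2 : ℝ) ≤ (cl_G B J : ℝ) + ∑ j ∈ J1, 2 * p j * (cl_G B J2 : ℝ) := by
        have hcover : (ev (fun ω : T → C => ∀ j ∈ J2, ¬ B j ω)) ⊆
            (ev (fun ω : T → C => ∀ j ∈ J, ¬ B j ω)) ∪
            J1.biUnion (fun j => ev
              (fun ω : T → C => B j ω ∧ ∀ j' ∈ J2, ¬ B j' ω)) := by
          intro ω hω
          rw [mem_ev] at hω
          rw [Finset.mem_union]
          by_cases hall : ∀ j ∈ J, ¬ B j ω
          · left
            rw [mem_ev]
            exact hall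
          · right
            push Not at hall
            obtain ⟨j, hj, hbad⟩ := hall
            rw [Finset.mem_biUnion]
            refine ⟨j, ?_, ?_⟩
            · rw [hJ1, Finset.mem_filter]
              refine ⟨hj, fun hdis => ?_⟩
              exact hω j (by rw [hJ2, Finset.mem_filter]; exact ⟨hj, hdis⟩) hbad
            · rw [mem_ev]
              exact ⟨hbad, hω⟩
        have h1 := (Finset.card_le_card hcover).trans (Finset.card_union_le _ _)
        have h2 := h1.trans (Nat.add_le_add_left Finset.card_biUnion_le _)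
        have h3 : (cl_G B J2 : ℝ) ≤ (cl_G B J : ℝ) +
            ∑ j ∈ J1, (cnt (fun ω => B j ω ∧ ∀ j' ∈ J2, ¬ B j' ω) : ℝ) := by
          have : ((cl_G B J2 : ℕ) : ℝ) ≤ ((cl_G B J + ∑ j ∈ J1,
              cnt (fun ω => B j ω ∧ ∀ j' ∈ J2, ¬ B j' ω) : ℕ) : ℝ) := by
            exact_mod_cast h2
          rw [Nat.cast_add, Nat.cast_sum] at this
          exact this
        refine h3.trans (add_le_add le_rfl (Finset.sum_le_sum (fun j hj => ?_)))
        exact ih J2.card hJ2card J2 rfl (hJ2J.trans hJI) j (hJI (hJ1J hj))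
      have hG2 : (0 : ℝ) ≤ (cl_G B J2 : ℝ) := Nat.cast_nonneg _
      have hJ1s : ∑ j ∈ J1, p j ≤ 1 / 4 := by
        refine le_trans (Finset.sum_le_sum_of_subset_of_nonneg ?_ (fun j _ _ => hp0 j)) (hd i hi)
        intro j hj
        rw [Finset.mem_filter]
        exact ⟨hJI (hJ1J hj), (Finset.mem_filter.mp hj).2⟩
      have h6 : ∑ j ∈ J1, 2 * p j * (cl_G B J2 : ℝ) ≤ (1 / 2) * (cl_G B J2 : ℝ) := by
        have : ∑ j ∈ J1, 2 * p j * (cl_G B J2 : ℝ)
            = (2 * ∑ j ∈ J1, p j) * (cl_G B J2 : ℝ) := by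
          rw [Finset.mul_sum, Finset.sum_mul]
        rw [this]
        exact mul_le_mul_of_nonneg_right (by linarith) hG2
      have h7 : (cl_G B J2 : ℝ) ≤ 2 * (cl_G B J : ℝ) := by linarith
      calc (cnt (fun ω => B i ω ∧ ∀ j ∈ J, ¬ B j ω) : ℝ) ≤ p i * (cl_G B J2 : ℝ) := hnum
        _ ≤ p i * (2 * (cl_G B J : ℝ)) := mul_le_mul_of_nonneg_left h7 (hp0 i)
        _ = 2 * p i * (cl_G B J : ℝ) := by ring

/-- Asymmetric local lemma (uniform product measure). -/
theorem cl_lll (I : Finset ι) (B : ι → (T → C) → Prop) (S : ι → Finset T)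
    (hB : ∀ i ∈ I, Pool.Agent.Helper635.LLL.DependsOn (B i) (S i)) (p : ι → ℝ) (hp0 : ∀ i, 0 ≤ p i)
    (hp : ∀ i ∈ I, (cnt (B i) : ℝ) ≤ p i * Fintype.card (T → C))
    (hS : ∀ i ∈ I, (S i).Nonempty)
    (hd : ∀ i ∈ I, ∑ j ∈ I.filter (fun j => ¬ Disjoint (S i) (S j)), p j ≤ 1 / 4)
    (hne : 0 < Fintype.card (T → C)) :
    ∃ ω : T → C, ∀ i ∈ I, ¬ B i ω := by
  have hp4 : ∀ i ∈ I, p i ≤ 1 / 4 := by
    intro i hi
    refine le_trans ?_ (hd i hi)
    refine Finset.single_le_sum (f := p) (fun j _ => hp0 j) ?_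
    rw [Finset.mem_filter]
    refine ⟨hi, ?_⟩
    intro hdis
    rw [disjoint_self, Finset.bot_eq_empty] at hdis
    have := hS i hi
    rw [hdis] at this
    exact Finset.not_nonempty_empty this
  have hpos : ∀ J : Finset ι, J ⊆ I → 0 < cl_G B J := by
    intro J
    induction J using Finset.induction_on with
    | empty =>
      intro _
      have : cl_G B (∅ : Finset ι) = Fintype.card (T → C) := by
        have h0 : ev (fun ω : T → C => ∀ j ∈ (∅ : Finset ι), ¬ B j ω) = Finset.univ := by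
          ext ω
          rw [mem_ev]
          simp
        rw [cl_G, cnt, h0, Finset.card_univ]
      rw [this]; exact hne
    | insert i J hiJ ih =>
      intro hsub
      have hJ := ih ((Finset.subset_insert i J).trans hsub)
      have hi : i ∈ I := hsub (Finset.mem_insert_self i J)
      have hk := cl_key I B S hB p hp0 hp hd hne J.card J rfl
        ((Finset.subset_insert i J).trans hsub) i hi
      have hsplit : cl_G B J ≤ cl_G B (insert i J) + cnt (fun ω => B i ω ∧ ∀ j ∈ J, ¬ B j ω) := by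
        refine le_trans (Finset.card_le_card ?_) (Finset.card_union_le _ _)
        intro ω hω
        rw [mem_ev] at hω
        rw [Finset.mem_union, mem_ev, mem_ev]
        by_cases hb : B i ω
        · right; exact ⟨hb, hω⟩
        · left
          intro j hj
          rcases Finset.mem_insert.mp hj with rfl | h
          · exact hb
          · exact hω j h
      have hsplit' : (cl_G B J : ℝ) ≤ (cl_G B (insert i J) : ℝ) +
          (cnt (fun ω => B i ω ∧ ∀ j ∈ J, ¬ B j ω) : ℝ) := by exact_mod_cast hsplit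
      have hJ' : (0 : ℝ) < (cl_G B J : ℝ) := by exact_mod_cast hJ
      have hpi := hp4 i hi
      have : (0 : ℝ) < (cl_G B (insert i J) : ℝ) := by nlinarith
      exact_mod_cast this
  have hI := hpos I (Finset.Subset.refl _)
  obtain ⟨ω, hω⟩ := Finset.card_pos.mp hI
  exact ⟨ω, mem_ev.mp hω⟩

end

theorem t_CL : StCL := by
  intro O C I hO hC hCn hI A Sc N h1 h2 h3 h4
  have : Fintype O := Fintype.ofFinite O
  have : Fintype C := Fintype.ofFinite C
  -- the cylinder of `(i, ω)`
  let cyl : I → (O → C) → Finset (O → C) := fun i ω =>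
    Finset.univ.filter (fun ω' => ∀ o ∈ Sc i ω, ω o = ω' o)
  have mem_cyl : ∀ i ω ω', ω' ∈ cyl i ω ↔ ∀ o ∈ Sc i ω, ω o = ω' o := by
    intro i ω ω'
    simp only [cyl, Finset.mem_filter, Finset.mem_univ, true_and]
  let mk : I × (O → C) → I × Finset O × Finset (O → C) := fun p =>
    (p.1, Sc p.1 p.2, cyl p.1 p.2)
  let K : Finset (I × Finset O × Finset (O → C)) :=
    (Finset.univ.filter (fun p : I × (O → C) => A p.1 p.2)).image mk
  have hK : ∀ k ∈ K, ∀ ω ∈ k.2.2, A k.1 ω ∧ k = mk (k.1, ω) := by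
    intro k hk ω hω
    obtain ⟨p, hp, rfl⟩ := Finset.mem_image.mp hk
    have hA : A p.1 p.2 := (Finset.mem_filter.mp hp).2
    have hω' : ∀ o ∈ Sc p.1 p.2, p.2 o = ω o := (mem_cyl _ _ _).mp hω
    obtain ⟨ha, hs⟩ := h1 p.1 p.2 ω hA hω'
    refine ⟨ha, ?_⟩
    have hcyl : cyl p.1 p.2 = cyl p.1 ω := by
      ext ω''
      rw [mem_cyl, mem_cyl, hs]
      constructor
      · intro h o ho
        rw [← hω' o ho, h o ho]
      · intro h o ho
        rw [hω' o ho, h o ho]
    show (p.1, Sc p.1 p.2, cyl p.1 p.2) = (p.1, Sc p.1 ω, cyl p.1 ω)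
    rw [hs, hcyl]
  have hKne : ∀ k ∈ K, ∃ ω, ω ∈ k.2.2 := by
    intro k hk
    obtain ⟨p, hp, rfl⟩ := Finset.mem_image.mp hk
    exact ⟨p.2, (mem_cyl _ _ _).mpr (fun o _ => rfl)⟩
  have hcard : 0 < Fintype.card (O → C) := Fintype.card_pos
  have hcardR : (0 : ℝ) < (Fintype.card (O → C) : ℝ) := by exact_mod_cast hcard
  let B : I × Finset O × Finset (O → C) → (O → C) → Prop := fun k ω => ω ∈ k.2.2
  let S : I × Finset O × Finset (O → C) → Finset O := fun k => k.2.1
  let p : I × Finset O × Finset (O → C) → ℝ := fun k =>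
    (k.2.2.card : ℝ) / Fintype.card (O → C)
  have hp0 : ∀ k, 0 ≤ p k := fun k => div_nonneg (Nat.cast_nonneg _) (Nat.cast_nonneg _)
  -- the sum over the events with a given coordinate
  have hu : ∀ u : O, ∑ k ∈ K.filter (fun k => u ∈ S k), k.2.2.card ≤
      ∑ i, Nat.card {ω : O → C // A i ω ∧ u ∈ Sc i ω} := by
    intro u
    have hdisj : ((K.filter (fun k => u ∈ S k) :
        Finset (I × Finset O × Finset (O → C))) : Set (I × Finset O × Finset (O → C))).PairwiseDisjoint
        (fun k => ({k.1} : Finset I) ×ˢ k.2.2) := by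
      intro k hk k' hk' hne
      show Disjoint (({k.1} : Finset I) ×ˢ k.2.2) (({k'.1} : Finset I) ×ˢ k'.2.2)
      rw [Finset.disjoint_left]
      intro q hq hq'
      rw [Finset.mem_product, Finset.mem_singleton] at hq hq'
      have hkK := (Finset.mem_filter.mp (Finset.mem_coe.mp hk)).1
      have hkK' := (Finset.mem_filter.mp (Finset.mem_coe.mp hk')).1
      have e1 := (hK k hkK q.2 hq.2).2
      have e2 := (hK k' hkK' q.2 hq'.2).2
      apply hne
      rw [e1, e2, ← hq.1, ← hq'.1]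
    have e1 : ∑ k ∈ K.filter (fun k => u ∈ S k), k.2.2.card
        = ((K.filter (fun k => u ∈ S k)).biUnion
            (fun k => ({k.1} : Finset I) ×ˢ k.2.2)).card := by
      rw [Finset.card_biUnion hdisj]
      refine Finset.sum_congr rfl (fun k _ => ?_)
      rw [Finset.card_product, Finset.card_singleton, one_mul]
    have e2 : ∑ i, Nat.card {ω : O → C // A i ω ∧ u ∈ Sc i ω}
        = (Finset.univ.filter (fun q : I × (O → C) => A q.1 q.2 ∧ u ∈ Sc q.1 q.2)).card := by
      rw [Finset.card_filter, Fintype.sum_prod_type]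
      refine Finset.sum_congr rfl (fun i _ => ?_)
      rw [Nat.card_eq_fintype_card, Fintype.card_subtype, Finset.card_filter]
    rw [e1, e2]
    refine Finset.card_le_card ?_
    intro q hq
    obtain ⟨k, hk, hqk⟩ := Finset.mem_biUnion.mp hq
    rw [Finset.mem_product, Finset.mem_singleton] at hqk
    obtain ⟨hkK, huk⟩ := Finset.mem_filter.mp hk
    obtain ⟨ha, he⟩ := hK k hkK q.2 hqk.2
    rw [Finset.mem_filter]
    refine ⟨Finset.mem_univ _, ?_, ?_⟩
    · rw [hqk.1]; exact ha
    · have : k.2.1 = Sc k.1 q.2 := by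
        have := congrArg (fun z : I × Finset O × Finset (O → C) => z.2.1) he
        exact this
      rw [hqk.1, ← this]
      exact huk
  -- N = 0 or not
  have hmain : ∃ ω : O → C, ∀ k ∈ K, ¬ B k ω := by
    refine cl_lll K B S ?_ p hp0 ?_ ?_ ?_ hcard
    · intro k hk ω ω' hωω' hω
      obtain ⟨q, hq, rfl⟩ := Finset.mem_image.mp hk
      have hω1 : ∀ o ∈ Sc q.1 q.2, q.2 o = ω o := (mem_cyl _ _ _).mp hω
      exact (mem_cyl _ _ _).mpr (fun o ho => (hω1 o ho).trans (hωω' o ho))
    · intro k hk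
      have : cnt (B k) = k.2.2.card := by
        have : ev (B k) = k.2.2 := by
          ext ω
          rw [mem_ev]
        rw [cnt, this]
      rw [this]
      show (k.2.2.card : ℝ) ≤ (k.2.2.card : ℝ) / Fintype.card (O → C) * Fintype.card (O → C)
      rw [div_mul_cancel₀ _ hcardR.ne']
    · intro k hk
      obtain ⟨q, hq, rfl⟩ := Finset.mem_image.mp hk
      exact h3 q.1 q.2 (Finset.mem_filter.mp hq).2
    · intro k hk
      obtain ⟨q, hq, hqk⟩ := Finset.mem_image.mp hk
      have hA : A q.1 q.2 := (Finset.mem_filter.mp hq).2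
      have hSk : S k = Sc q.1 q.2 := by rw [← hqk]
      have hSN : (S k).card ≤ N := by rw [hSk]; exact h2 q.1 q.2 hA
      have hSne : (S k).Nonempty := by rw [hSk]; exact h3 q.1 q.2 hA
      have hNpos : 0 < N := lt_of_lt_of_le (Finset.card_pos.mpr hSne) hSN
      have hNR : (0 : ℝ) < (N : ℝ) := by exact_mod_cast hNpos
      have hcov : K.filter (fun j => ¬ Disjoint (S k) (S j)) ⊆
          (S k).biUnion (fun u => K.filter (fun j => u ∈ S j)) := by
        intro j hj
        obtain ⟨hjK, hjd⟩ := Finset.mem_filter.mp hj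
        rw [Finset.not_disjoint_iff] at hjd
        obtain ⟨u, hu1, hu2⟩ := hjd
        rw [Finset.mem_biUnion]
        exact ⟨u, hu1, Finset.mem_filter.mpr ⟨hjK, hu2⟩⟩
      have s1 : ∑ j ∈ K.filter (fun j => ¬ Disjoint (S k) (S j)), p j ≤
          ∑ u ∈ S k, ∑ j ∈ K.filter (fun j => u ∈ S j), p j := by
        refine le_trans (Finset.sum_le_sum_of_subset_of_nonneg hcov (fun j _ _ => hp0 j)) ?_
        exact cl_sum_biUnion_le p hp0 _ _
      have s2 : ∀ u ∈ S k, ∑ j ∈ K.filter (fun j => u ∈ S j), p j ≤ 1 / (4 * N) := by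
        intro u _
        have a1 : ∑ j ∈ K.filter (fun j => u ∈ S j), p j
            = ((∑ j ∈ K.filter (fun j => u ∈ S j), j.2.2.card : ℕ) : ℝ) /
              Fintype.card (O → C) := by
          rw [Nat.cast_sum, Finset.sum_div]
        rw [a1, div_le_div_iff₀ hcardR (by positivity)]
        have a2 := h4 u
        rw [Nat.card_eq_fintype_card] at a2
        have a3 : 4 * N * ∑ j ∈ K.filter (fun j => u ∈ S j), j.2.2.card ≤
            Fintype.card (O → C) := le_trans (Nat.mul_le_mul_left _ (hu u)) a2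
        have a4 : ((4 * N * ∑ j ∈ K.filter (fun j => u ∈ S j), j.2.2.card : ℕ) : ℝ) ≤
            (Fintype.card (O → C) : ℝ) := by exact_mod_cast a3
        rw [Nat.cast_mul, Nat.cast_mul] at a4
        push_cast at a4 ⊢
        linarith
      refine s1.trans ((Finset.sum_le_sum s2).trans ?_)
      rw [Finset.sum_const, nsmul_eq_mul, mul_one_div, div_le_div_iff₀ (by positivity) (by norm_num)]
      have : ((S k).card : ℝ) ≤ N := by exact_mod_cast hSN
      linarith
  obtain ⟨ω, hω⟩ := hmain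
  refine ⟨ω, fun i hA => ?_⟩
  refine hω (mk (i, ω)) ?_ ?_
  · exact Finset.mem_image.mpr ⟨(i, ω), Finset.mem_filter.mpr ⟨Finset.mem_univ _, hA⟩, rfl⟩
  · exact (mem_cyl _ _ _).mpr (fun o _ => rfl)

end Pool.Agent.H9.LG
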