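import Pool.Agent.H9.LG.StmG

set_option autoImplicit false

namespace Pool.Agent.H9.LG

open Finset SimpleGraph H931R3.LA

section cls

variable {V J : Type} {H : J → SimpleGraph V} {nb : J → V × Lab → V × Lab}

lemma cls_adj (hnb : ∀ j, IsNb (H j) (nb j)) {cut : J → V × Lab → Prop}
    {col : J → V × Lab → Bool} (h1 : ∀ j δ, cut j (nb j δ) ↔ cut j δ)
    (h2 : ∀ j δ, ¬ cut j δ → col j (nb j δ) = col j δ) (j : J) (c : Bool) (v w : V) :
    (Qg nb cut col j c).Adj v w ↔
      ∃ a, (nb j (v, a)).1 = w ∧ ¬ cut j (v, a) ∧ col j (v, a) = c := by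
  have hne : ∀ x y, (∃ a, (nb j (x, a)).1 = y ∧ ¬ cut j (x, a) ∧ col j (x, a) = c) → x ≠ y := by
    rintro x y ⟨a, ha, -, -⟩ hxy
    have : (H j).Adj x y := ((hnb j).2.1 x y).2 ⟨a, ha⟩
    exact this.ne hxy
  have hsymm : ∀ x y, (∃ a, (nb j (x, a)).1 = y ∧ ¬ cut j (x, a) ∧ col j (x, a) = c) →
      (∃ a, (nb j (y, a)).1 = x ∧ ¬ cut j (y, a) ∧ col j (y, a) = c) := by
    rintro x y ⟨a, ha, hcut, hcol⟩
    have he : nb j (x, a) = (y, (nb j (x, a)).2) := by rw [← ha]
    refine ⟨(nb j (x, a)).2, ?_, ?_, ?_⟩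
    · rw [← he, (hnb j).1]
    · rw [← he, h1]; exact hcut
    · rw [← he, h2 _ _ hcut]; exact hcol
  unfold Qg
  rw [SimpleGraph.fromRel_adj]
  constructor
  · rintro ⟨-, h | h⟩
    · exact h
    · exact hsymm _ _ h
  · intro h
    exact ⟨hne _ _ h, Or.inl h⟩

lemma cls_card {col : J → V × Lab → Bool} {pt : J → V × Lab → V × Lab}
    (h3 : ∀ j δ, (pt j δ).1 = δ.1 ∧ pt j (pt j δ) = δ ∧ pt j δ ≠ δ ∧ col j (pt j δ) = !col j δ)
    (j : J) (v : V) (c : Bool) :
    ((Finset.univ : Finset Lab).filter (fun a => col j (v, a) = c)).card = 2 := by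
  classical
  have hpt : ∀ a, pt j (v, a) = (v, (pt j (v, a)).2) := fun a => by
    have := (h3 j (v, a)).1
    exact Prod.ext this rfl
  have hle : ∀ c : Bool, ((Finset.univ : Finset Lab).filter (fun a => col j (v, a) = c)).card ≤
      ((Finset.univ : Finset Lab).filter (fun a => col j (v, a) = !c)).card := by
    intro c
    apply Finset.card_le_card_of_injOn (fun a => (pt j (v, a)).2)
    · intro a ha
      simp only [Finset.coe_filter, Finset.mem_univ, true_and, Set.mem_ofPred_eq] at ha ⊢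
      rw [← hpt a, (h3 j (v, a)).2.2.2, ha]
    · intro a _ b _ hab
      simp only at hab
      have h4 : pt j (v, a) = pt j (v, b) := by rw [hpt a, hpt b, hab]
      have h5 : (v, a) = (v, b) := by
        rw [← (h3 j (v, a)).2.1, ← (h3 j (v, b)).2.1, h4]
      exact (Prod.ext_iff.1 h5).2
  have h1 := hle c
  have h2 := hle (!c)
  rw [Bool.not_not] at h2
  have h6 : ((Finset.univ : Finset Lab).filter (fun a => col j (v, a) = c)).card +
      ((Finset.univ : Finset Lab).filter (fun a => col j (v, a) = !c)).card = 4 := by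
    have h7 := Finset.card_filter_add_card_filter_not (s := (Finset.univ : Finset Lab))
      (fun a => col j (v, a) = c)
    have h8 : (Finset.univ : Finset Lab).card = 4 := by decide
    rw [h8] at h7
    have h9 : ((Finset.univ : Finset Lab).filter (fun a => ¬ col j (v, a) = c)) =
        ((Finset.univ : Finset Lab).filter (fun a => col j (v, a) = !c)) := by
      apply Finset.filter_congr
      intro a _
      cases h : col j (v, a) <;> cases c <;> simp
    rw [h9] at h7
    exact h7
  omega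

lemma cls_deg [Finite V] (hnb : ∀ j, IsNb (H j) (nb j)) {cut : J → V × Lab → Prop}
    {col : J → V × Lab → Bool} {pt : J → V × Lab → V × Lab}
    (h1 : ∀ j δ, cut j (nb j δ) ↔ cut j δ)
    (h2 : ∀ j δ, ¬ cut j δ → col j (nb j δ) = col j δ)
    (h3 : ∀ j δ, (pt j δ).1 = δ.1 ∧ pt j (pt j δ) = δ ∧ pt j δ ≠ δ ∧ col j (pt j δ) = !col j δ)
    (j : J) (c : Bool) (v : V) : ((Qg nb cut col j c).neighborSet v).ncard ≤ 2 := by
  classical
  have hsub : (Qg nb cut col j c).neighborSet v ⊆
      (((Finset.univ : Finset Lab).filter (fun a => col j (v, a) = c)).image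
        (fun a => (nb j (v, a)).1) : Finset V) := by
    intro w hw
    rw [SimpleGraph.mem_neighborSet, cls_adj hnb h1 h2] at hw
    obtain ⟨a, ha, -, hcol⟩ := hw
    rw [Finset.mem_coe, Finset.mem_image]
    exact ⟨a, by simp [hcol], ha⟩
  refine (Set.ncard_le_ncard hsub (Finset.finite_toSet _)).trans ?_
  rw [Set.ncard_coe_finset]
  refine Finset.card_image_le.trans ?_
  rw [cls_card h3 j v c]

lemma cls_cycle {G : SimpleGraph V} {v : V} {p : G.Walk v v} (hp : p.IsCycle) :
    ∃ f : ℕ → V, (∀ t, G.Adj (f t) (f (t + 1))) ∧ ∀ t, f (t + 2) ≠ f t := by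
  have hl : 3 ≤ p.length := hp.three_le_length
  refine ⟨fun t => p.getVert (t % p.length), fun t => ?_, fun t => ?_⟩
  · have h1 : t % p.length < p.length := Nat.mod_lt _ (by omega)
    have h2 := p.adj_getVert_succ h1
    show G.Adj (p.getVert (t % p.length)) (p.getVert ((t + 1) % p.length))
    rcases Nat.lt_or_ge (t % p.length + 1) p.length with h3 | h3
    · have h4 : (t + 1) % p.length = t % p.length + 1 := by
        rw [Nat.add_mod, Nat.mod_eq_of_lt (show 1 < p.length by omega), Nat.mod_eq_of_lt h3]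
      rw [h4]; exact h2
    · have h5 : t % p.length + 1 = p.length := by omega
      have h4 : (t + 1) % p.length = 0 := by
        rw [Nat.add_mod, Nat.mod_eq_of_lt (show 1 < p.length by omega), h5, Nat.mod_self]
      rw [h4, Walk.getVert_zero]
      rw [h5, Walk.getVert_length] at h2
      exact h2
  · intro heq
    have h1 : t % p.length < p.length := Nat.mod_lt _ (by omega)
    have h2 : (t + 2) % p.length < p.length := Nat.mod_lt _ (by omega)
    have h3 := hp.getVert_injOn' (show (t + 2) % p.length ≤ p.length - 1 by omega)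
      (show t % p.length ≤ p.length - 1 by omega) heq
    have h4 : (t + 2) % p.length = (t % p.length + 2) % p.length := by
      rw [Nat.add_mod, Nat.mod_eq_of_lt (show 2 < p.length by omega)]
    rw [h4] at h3
    rcases Nat.lt_or_ge (t % p.length + 2) p.length with h5 | h5
    · rw [Nat.mod_eq_of_lt h5] at h3; omega
    · have h6 : (t % p.length + 2) % p.length = t % p.length + 2 - p.length := by
        rw [Nat.mod_eq_sub_mod h5, Nat.mod_eq_of_lt (by omega)]
      omega

end cls

theorem t_CLS : StCLS := by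
  intro V J _ H nb hnb L cut col pt h1 h2 h3 h4
  refine ⟨fun j c => ⟨?_, fun v => cls_deg hnb h1 h2 h3 j c v⟩, ?_⟩
  · intro v p hp
    obtain ⟨f, hf1, hf2⟩ := cls_cycle hp
    have hf3 : ∀ t, ∃ a, (nb j (f t, a)).1 = f (t + 1) ∧ ¬ cut j (f t, a) ∧
        col j (f t, a) = c := fun t => (cls_adj hnb h1 h2 j c _ _).1 (hf1 t)
    choose a ha1 ha2 ha3 using hf3
    refine h4 j c (fun t => (f t, a t)) (fun n _ => ⟨(ha1 n).symm, ?_⟩)
      (fun t _ => ⟨ha2 t, ha3 t⟩)
    intro heq
    have h5 : (f (n + 1), a (n + 1)) = nb j (f n, a n) := Prod.ext (ha1 n).symm heq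
    have h6 := ha1 (n + 1)
    rw [h5, (hnb j).1] at h6
    exact hf2 n h6.symm
  · intro j v w hvw
    obtain ⟨a, ha⟩ := ((hnb j).2.1 v w).1 hvw
    by_cases hc : cut j (v, a)
    · right
      unfold Kg
      rw [SimpleGraph.fromRel_adj]
      exact ⟨hvw.ne, Or.inl ⟨j, a, ha, hc⟩⟩
    · left
      cases hcol : col j (v, a) with
      | true =>
        left
        exact (cls_adj hnb h1 h2 j true v w).2 ⟨a, ha, hc, hcol⟩
      | false =>
        right
        exact (cls_adj hnb h1 h2 j false v w).2 ⟨a, ha, hc, hcol⟩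

end Pool.Agent.H9.LG
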