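import Pool.Agent.H9.LG.StmG

set_option autoImplicit false

/-!
# Project LG (helper9): components of `P ⊔ K` (task CMP)
-/

namespace Pool.Agent.H9.LG

open Finset SimpleGraph H931R3.LA

section cmp

variable {V : Type} [Finite V] {G P K : SimpleGraph V} {Y : Set V} {g D : ℕ}

theorem cmp_one (h : Dat G P Y g D) {v a b : V} (hv : v ∉ Y) (ha : P.Adj v a) (hb : P.Adj v b) :
    a = b :=
  (Set.ncard_le_one (Set.toFinite _)).1 (h.deg1 v hv) a ha b hb

theorem cmp_R (h : Dat G P Y g D) {v w : V} (hr : P.Reachable v w) :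
    v = w ∨ P.Adj v w ∨ ∃ y, P.Adj y v ∧ P.Adj y w := by
  obtain ⟨p⟩ := hr
  induction p with
  | nil => exact Or.inl rfl
  | cons hvu q ih =>
    rename_i v u w
    rcases ih with rfl | huw | ⟨y, hyu, hyw⟩
    · exact Or.inr (Or.inl hvu)
    · exact Or.inr (Or.inr ⟨u, hvu.symm, huw⟩)
    · by_cases huw : u = w
      · subst huw
        exact Or.inr (Or.inl hvu)
      · have hy : y ∈ Y := by
          by_contra hy
          exact huw (cmp_one h hy hyu hyw)
        have hu : u ∉ Y := fun hu => h.yy y hy u hu hyu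
        have hvy : v = y := cmp_one h hu hvu.symm hyu.symm
        rw [hvy]
        exact Or.inr (Or.inl hyw)

/-- short walks in the components of `P` -/
theorem cmp_walk (h : Dat G P Y g D) {v w : V} (hr : P.Reachable v w) :
    ∃ p : P.Walk v w, p.length ≤ 2 := by
  rcases cmp_R h hr with rfl | h1 | ⟨y, h1, h2⟩
  · exact ⟨Walk.nil, by simp⟩
  · exact ⟨h1.toWalk, by simp⟩
  · exact ⟨Walk.cons h1.symm (Walk.cons h2 Walk.nil), by simp⟩

theorem cmp_three (h : Dat G P Y g D) (v : V) : {w | P.Reachable v w}.ncard ≤ 3 := by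
  have key : ∃ c, {w | P.Reachable v w} ⊆ insert c (P.neighborSet c) := by
    by_cases hv : v ∈ Y
    · refine ⟨v, fun w hw => ?_⟩
      rcases cmp_R h hw with rfl | h1 | ⟨y, h1, h2⟩
      · exact Set.mem_insert _ _
      · exact Set.mem_insert_of_mem _ h1
      · have hy : y ∉ Y := fun hy => h.yy y hy v hv h1
        have h3 : w = v := cmp_one h hy h2 h1
        rw [h3]
        exact Set.mem_insert _ _
    · by_cases hn : ∃ c, P.Adj v c
      · obtain ⟨c, hc⟩ := hn
        refine ⟨c, fun w hw => ?_⟩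
        rcases cmp_R h hw with rfl | h1 | ⟨y, h1, h2⟩
        · exact Set.mem_insert_of_mem _ hc.symm
        · have h3 : w = c := cmp_one h hv h1 hc
          rw [h3]
          exact Set.mem_insert _ _
        · have h3 : y = c := cmp_one h hv h1.symm hc
          rw [h3] at h2
          exact Set.mem_insert_of_mem _ h2
      · refine ⟨v, fun w hw => ?_⟩
        rcases cmp_R h hw with rfl | h1 | ⟨y, h1, h2⟩
        · exact Set.mem_insert _ _
        · exact absurd ⟨w, h1⟩ hn
        · exact absurd ⟨y, h1.symm⟩ hn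
  obtain ⟨c, hc⟩ := key
  have h1 := Set.ncard_le_ncard hc (Set.toFinite _)
  have h2 := Set.ncard_insert_le c (P.neighborSet c)
  have h3 := h.deg2 c
  omega

/-- short cycles do not exist -/
theorem cmp_cyc (h : Dat G P Y g D) (hg : 10 ≤ g) {Q : SimpleGraph V} (hQ : Q ≤ G) {x y : V}
    (hxy : G.Adj x y) (hn : ¬ Q.Adj x y) (p : Q.Walk y x) (hp : p.length ≤ 5) : False := by
  classical
  let q : Q.Walk y x := p.bypass
  have hq1 : q.IsPath := p.bypass_isPath
  have hq2 : q.length ≤ 5 := (p.length_bypass_le).trans hp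
  let f : Q →g G := SimpleGraph.Hom.ofLE hQ
  let r : G.Walk y x := q.mapLe hQ
  have hr : r.IsPath := (Walk.mapLe_isPath hQ).2 hq1
  have hr2 : r.length ≤ 5 := by
    show (q.mapLe hQ).length ≤ 5
    rw [Walk.length_mapLe]
    exact hq2
  have he : s(x, y) ∉ r.edges := by
    intro he
    have h1 : s(x, y) ∈ q.edges := by
      rw [← Walk.edges_mapLe_eq_edges hQ]
      exact he
    exact hn (q.adj_of_mem_edges h1)
  have hc := Path.cons_isCycle (⟨r, hr⟩ : G.Path y x) hxy he
  have h1 := h.cyc x _ hc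
  rw [Walk.length_cons] at h1
  have h2 : (⟨r, hr⟩ : G.Path y x).1.length = r.length := rfl
  omega

theorem cmp_S (hK : ∀ x y x' y', K.Adj x y → K.Adj x' y' → P.Reachable x x' → x = x' ∧ y = y')
    {v w : V} (hr : (P ⊔ K).Reachable v w) :
    P.Reachable v w ∨ ∃ x y, K.Adj x y ∧ P.Reachable v x ∧ P.Reachable y w := by
  obtain ⟨p⟩ := hr
  induction p with
  | nil => exact Or.inl (Reachable.refl _)
  | cons hvu q ih =>
    rename_i v u w
    rcases hvu with hvu | hvu
    · rcases ih with h1 | ⟨x, y, h1, h2, h3⟩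
      · exact Or.inl (hvu.reachable.trans h1)
      · exact Or.inr ⟨x, y, h1, hvu.reachable.trans h2, h3⟩
    · rcases ih with h1 | ⟨x, y, h1, h2, h3⟩
      · exact Or.inr ⟨v, u, hvu, Reachable.refl _, h1⟩
      · obtain ⟨rfl, rfl⟩ := hK u v x y hvu.symm h1 h2
        exact Or.inl h3

end cmp

theorem t_CMP : StCMP := by
  intro V _ G P K Y g D h hg hKG hK
  refine ⟨?_, ?_, ?_⟩
  · intro x y hxy hn hr
    obtain ⟨p, hp⟩ := cmp_walk h hr.symm
    exact cmp_cyc h hg h.le hxy hn p (by omega)
  · intro v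
    by_cases hex : ∃ x y, K.Adj x y ∧ P.Reachable v x
    · obtain ⟨x, y, hxy, hvx⟩ := hex
      have hsub : {w | (P ⊔ K).Reachable v w} ⊆
          {w | P.Reachable v w} ∪ {w | P.Reachable y w} := by
        intro w hw
        rcases cmp_S hK hw with h1 | ⟨x', y', h1, h2, h3⟩
        · exact Or.inl h1
        · obtain ⟨rfl, rfl⟩ := hK x y x' y' hxy h1 (hvx.symm.trans h2)
          exact Or.inr h3
      have h1 := Set.ncard_le_ncard hsub (Set.toFinite _)
      have h2 := Set.ncard_union_le {w | P.Reachable v w} {w | P.Reachable y w}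
      have h3 := cmp_three h v
      have h4 := cmp_three h y
      omega
    · have hsub : {w | (P ⊔ K).Reachable v w} ⊆ {w | P.Reachable v w} := by
        intro w hw
        rcases cmp_S hK hw with h1 | ⟨x', y', h1, h2, h3⟩
        · exact h1
        · exact absurd ⟨x', y', h1, h2⟩ hex
      have h1 := Set.ncard_le_ncard hsub (Set.toFinite _)
      have h3 := cmp_three h v
      omega
  · intro x y hxy hn hr
    have hQ : P ⊔ K ≤ G := sup_le h.le (hKG.trans sdiff_le)
    have hw : ∃ p : (P ⊔ K).Walk y x, p.length ≤ 5 := by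
      rcases cmp_S hK hr.symm with h1 | ⟨a, b, h1, h2, h3⟩
      · obtain ⟨p, hp⟩ := cmp_walk h h1
        exact ⟨p.mapLe le_sup_left, by rw [Walk.length_mapLe]; omega⟩
      · obtain ⟨p, hp⟩ := cmp_walk h h2
        obtain ⟨q, hq⟩ := cmp_walk h h3
        refine ⟨(p.mapLe le_sup_left).append (Walk.cons (Or.inr h1) (q.mapLe le_sup_left)), ?_⟩
        rw [Walk.length_append, Walk.length_cons, Walk.length_mapLe, Walk.length_mapLe]
        omega
    obtain ⟨p, hp⟩ := hw
    exact cmp_cyc h hg hQ hxy hn p hp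

end Pool.Agent.H9.LG
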