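import Pool.Agent.H9.LG.StmG

set_option autoImplicit false

/-!
# Project LG: doubling for odd degree
-/

namespace Pool.Agent.H9.LG

open Finset SimpleGraph

/-- Two copies of `G`, where the two copies of each vertex of `Z` are adjacent. -/
def dblG {V : Type} (G : SimpleGraph V) (Z : Set V) : SimpleGraph (V × Bool) where
  Adj x y := (x.2 = y.2 ∧ G.Adj x.1 y.1) ∨ (x.1 = y.1 ∧ x.1 ∈ Z ∧ x.2 ≠ y.2)
  symm := ⟨fun x y h => by
    rcases h with ⟨h1, h2⟩ | ⟨h1, h2, h3⟩
    · exact Or.inl ⟨h1.symm, h2.symm⟩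
    · exact Or.inr ⟨h1.symm, h1 ▸ h2, h3.symm⟩⟩
  loopless := ⟨fun x h => by
    rcases h with ⟨_, h2⟩ | ⟨_, _, h3⟩
    · exact G.irrefl h2
    · exact h3 rfl⟩

theorem dbl_adj {V : Type} {G : SimpleGraph V} {Z : Set V} {x y : V × Bool} :
    (dblG G Z).Adj x y ↔
      (x.2 = y.2 ∧ G.Adj x.1 y.1) ∨ (x.1 = y.1 ∧ x.1 ∈ Z ∧ x.2 ≠ y.2) := Iff.rfl

/-- projection of walks -/
theorem dbl_proj {V : Type} {G : SimpleGraph V} {Z : Set V} {x y : V × Bool}
    (p : (dblG G Z).Walk x y) : ∃ q : G.Walk x.1 y.1, q.length ≤ p.length := by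
  induction p with
  | nil => exact ⟨Walk.nil, le_rfl⟩
  | cons h p ih =>
    obtain ⟨q, hq⟩ := ih
    rcases dbl_adj.1 h with ⟨_, h2⟩ | ⟨h1, _, _⟩
    · exact ⟨Walk.cons h2 q, by rw [Walk.length_cons, Walk.length_cons]; omega⟩
    · exact ⟨q.copy h1.symm rfl, by rw [Walk.length_copy, Walk.length_cons]; omega⟩

/-- projection of walks inside of a copy -/
theorem dbl_same {V : Type} {G : SimpleGraph V} {Z : Set V} {b : Bool} {x y : V × Bool}
    (p : (dblG G Z).Walk x y) (hp : ∀ z ∈ p.support, z.2 = b) :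
    ∃ q : G.Walk x.1 y.1, q.length = p.length ∧ q.support = p.support.map Prod.fst ∧
      q.edges = p.edges.map (Sym2.map Prod.fst) := by
  induction p with
  | nil => exact ⟨Walk.nil, rfl, rfl, rfl⟩
  | cons h p ih =>
    rw [Walk.support_cons] at hp
    obtain ⟨q, hq1, hq2, hq3⟩ := ih (fun z hz => hp z (List.mem_cons_of_mem _ hz))
    rcases dbl_adj.1 h with ⟨_, h2⟩ | ⟨_, _, h3⟩
    · refine ⟨Walk.cons h2 q, by rw [Walk.length_cons, Walk.length_cons, hq1], ?_, ?_⟩
      · rw [Walk.support_cons, Walk.support_cons, hq2, List.map_cons]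
      · rw [Walk.edges_cons, Walk.edges_cons, hq3, List.map_cons]
        rfl
    · exfalso
      apply h3
      rw [hp _ List.mem_cons_self, hp _ (List.mem_cons_of_mem _ p.start_mem_support)]

/-- a walk between the copies uses a new edge -/
theorem dbl_cross {V : Type} {G : SimpleGraph V} {Z : Set V} {x y : V × Bool}
    (p : (dblG G Z).Walk x y) (hxy : x.2 ≠ y.2) :
    ∃ v ∈ Z, s((v, true), (v, false)) ∈ p.edges := by
  induction p with
  | nil => exact absurd rfl hxy
  | @cons u w z h p ih =>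
    rcases dbl_adj.1 h with ⟨h1, _⟩ | ⟨h1, h2, h3⟩
    · obtain ⟨v, hv, hv2⟩ := ih (by rw [← h1]; exact hxy)
      exact ⟨v, hv, by rw [Walk.edges_cons]; exact List.mem_cons_of_mem _ hv2⟩
    · refine ⟨u.1, h2, ?_⟩
      rw [Walk.edges_cons]
      obtain ⟨u1, u2⟩ := u
      obtain ⟨w1, w2⟩ := w
      simp only at h1 h3
      subst h1
      have : s((u1, u2), (u1, w2)) = s((u1, true), (u1, false)) := by
        cases u2 <;> cases w2 <;> simp_all [Sym2.eq_swap]
      rw [this]
      exact List.mem_cons_self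

theorem dbl_cyc {V : Type} {G : SimpleGraph V} {Z : Set V} {D : ℕ}
    (hcyc : ∀ (v : V) (c : G.Walk v v), c.IsCycle → 4 * D ≤ c.length)
    (hsep : ∀ a ∈ Z, ∀ b ∈ Z, a ≠ b → ∀ p : G.Walk a b, 2 * D + 1 ≤ p.length)
    (x : V × Bool) (c : (dblG G Z).Walk x x) (hc : c.IsCycle) : 4 * D ≤ c.length := by
  classical
  by_cases hall : ∀ z ∈ c.support, z.2 = x.2
  · cases c with
    | nil => exact absurd hc Walk.not_isCycle_nil
    | @cons _ w _ h p =>
      rw [Walk.cons_isCycle_iff] at hc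
      obtain ⟨hc1, hc2⟩ := hc
      rw [Walk.support_cons] at hall
      have hp : ∀ z ∈ p.support, z.2 = x.2 := fun z hz => hall z (List.mem_cons_of_mem _ hz)
      obtain ⟨q, hq1, hq2, hq3⟩ := dbl_same p hp
      have h2 : G.Adj x.1 w.1 := by
        rcases dbl_adj.1 h with ⟨_, h2⟩ | ⟨_, _, h3⟩
        · exact h2
        · exact absurd (hp w p.start_mem_support).symm h3
      have hcy : (Walk.cons h2 q).IsCycle := by
        rw [Walk.cons_isCycle_iff]
        refine ⟨?_, ?_⟩
        · rw [Walk.isPath_def, hq2]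
          refine List.Nodup.map_on ?_ hc1.support_nodup
          intro a ha b hb hab
          exact Prod.ext hab (by rw [hp a ha, hp b hb])
        · rw [hq3]
          intro hmem
          obtain ⟨e, he1, he2⟩ := List.mem_map.1 hmem
          apply hc2
          have hew : e = s(x, w) := by
            induction e using Sym2.ind with
            | h a b =>
              have ha : a.2 = x.2 := hp a (p.fst_mem_support_of_mem_edges he1)
              have hb : b.2 = x.2 := hp b (p.snd_mem_support_of_mem_edges he1)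
              have hw : w.2 = x.2 := hp w p.start_mem_support
              rw [Sym2.map_mk] at he2
              rcases Sym2.eq_iff.1 he2 with ⟨h3, h4⟩ | ⟨h3, h4⟩
              · rw [show a = x from Prod.ext h3 ha, show b = w from Prod.ext h4 (hb.trans hw.symm)]
              · rw [show a = w from Prod.ext h3 (ha.trans hw.symm), show b = x from Prod.ext h4 hb]
                exact Sym2.eq_swap
          rw [← hew]
          exact he1
      have := hcyc _ _ hcy
      rw [Walk.length_cons, hq1] at this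
      rw [Walk.length_cons]
      exact this
  · push Not at hall
    obtain ⟨z, hz, hzx⟩ := hall
    have hsplit := c.take_spec hz
    set p1 := c.takeUntil z hz with hp1
    set p2 := c.dropUntil z hz with hp2
    obtain ⟨y1, hy1, hy1'⟩ := dbl_cross p1 hzx.symm
    obtain ⟨y2, hy2, hy2'⟩ := dbl_cross p2 hzx
    have hne : y1 ≠ y2 := by
      rintro rfl
      have h1 : (p1.append p2).edges.Nodup := by
        rw [hsplit]
        exact hc.isCircuit.isTrail.edges_nodup
      rw [Walk.edges_append] at h1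
      exact List.disjoint_of_nodup_append h1 hy1' hy2'
    have hs1 : (y1, true) ∈ p1.support := p1.fst_mem_support_of_mem_edges hy1'
    have hs2 : (y2, true) ∈ p2.support := p2.fst_mem_support_of_mem_edges hy2'
    have l1 := congrArg Walk.length (p1.take_spec hs1)
    have l2 := congrArg Walk.length (p2.take_spec hs2)
    have l3 := congrArg Walk.length hsplit
    rw [Walk.length_append] at l1 l2 l3
    obtain ⟨q1, hq1⟩ := dbl_proj ((p1.dropUntil _ hs1).append (p2.takeUntil _ hs2))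
    obtain ⟨q2, hq2⟩ := dbl_proj ((p2.dropUntil _ hs2).append (p1.takeUntil _ hs1))
    rw [Walk.length_append] at hq1 hq2
    have g1 := hsep y1 hy1 y2 hy2 hne q1
    have g2 := hsep y2 hy2 y1 hy1 hne.symm q2
    omega

theorem dbl_nb {V : Type} {G P : SimpleGraph V} {Z : Set V} (v : V) (b : Bool) :
    (dblG P ∅).neighborSet (v, b) = (fun u => (u, b)) '' (P.neighborSet v) ∧
    (v ∉ Z → (dblG G Z \ dblG P ∅).neighborSet (v, b) =
      (fun u => (u, b)) '' ((G \ P).neighborSet v)) ∧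
    (v ∈ Z → (dblG G Z \ dblG P ∅).neighborSet (v, b) =
      insert (v, !b) ((fun u => (u, b)) '' ((G \ P).neighborSet v))) := by
  refine ⟨?_, ?_, ?_⟩
  · ext ⟨u, c⟩
    rw [mem_neighborSet, dbl_adj]
    constructor
    · rintro (⟨h1, h2⟩ | ⟨_, h2, _⟩)
      · exact ⟨u, h2, Prod.ext rfl h1⟩
      · exact absurd h2 (Set.notMem_empty _)
    · rintro ⟨w, hw, h⟩
      obtain ⟨h1, h2⟩ := Prod.mk.inj h
      subst h1 h2
      exact Or.inl ⟨rfl, hw⟩
  · intro hv
    ext ⟨u, c⟩
    rw [mem_neighborSet, sdiff_adj, dbl_adj, dbl_adj]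
    constructor
    · rintro ⟨⟨h1, h2⟩ | ⟨_, h2, _⟩, h3⟩
      · refine ⟨u, ?_, Prod.ext rfl h1⟩
        rw [mem_neighborSet, sdiff_adj]
        exact ⟨h2, fun h4 => h3 (Or.inl ⟨h1, h4⟩)⟩
      · exact absurd h2 hv
    · rintro ⟨w, hw, h⟩
      obtain ⟨h1, h2⟩ := Prod.mk.inj h
      subst h1 h2
      rw [mem_neighborSet, sdiff_adj] at hw
      refine ⟨Or.inl ⟨rfl, hw.1⟩, ?_⟩
      rintro (⟨_, h3⟩ | ⟨_, h3, _⟩)
      · exact hw.2 h3
      · exact absurd h3 (Set.notMem_empty _)
  · intro hv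
    ext ⟨u, c⟩
    rw [mem_neighborSet, sdiff_adj, dbl_adj, dbl_adj, Set.mem_insert_iff]
    constructor
    · rintro ⟨⟨h1, h2⟩ | ⟨h1, h2, h3⟩, h4⟩
      · right
        refine ⟨u, ?_, Prod.ext rfl h1⟩
        rw [mem_neighborSet, sdiff_adj]
        exact ⟨h2, fun h5 => h4 (Or.inl ⟨h1, h5⟩)⟩
      · left
        refine Prod.ext h1.symm ?_
        simp only at h3 ⊢
        cases b <;> cases c <;> simp_all
    · rintro (h | ⟨w, hw, h⟩)
      · obtain ⟨h1, h2⟩ := Prod.mk.inj h
        subst h1 h2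
        refine ⟨Or.inr ⟨rfl, hv, by cases b <;> simp⟩, ?_⟩
        rintro (⟨h3, _⟩ | ⟨_, h3, _⟩)
        · cases b <;> simp at h3
        · exact absurd h3 (Set.notMem_empty _)
      · obtain ⟨h1, h2⟩ := Prod.mk.inj h
        subst h1 h2
        rw [mem_neighborSet, sdiff_adj] at hw
        refine ⟨Or.inl ⟨rfl, hw.1⟩, ?_⟩
        rintro (⟨_, h3⟩ | ⟨_, h3, _⟩)
        · exact hw.2 h3
        · exact absurd h3 (Set.notMem_empty _)

theorem t_DBL : StDBL := by
  classical
  intro V _ _ G r D hr hD hodd hreg hcyc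
  obtain ⟨P, Y, hP1, hP2, hP3, hP4, hP5⟩ := Pool.Agent.W111.LAR.exists_sep G r D hr hD hodd hreg
    (fun v c hc => le_trans (by omega) (hcyc v c hc))
  set Z : Set V := {v | (P.neighborSet v).ncard = 2} with hZ
  have hZY : ∀ v ∈ Z, v ∈ Y := by
    intro v hv
    by_contra h
    have h1 := hP3 v h
    have h2 : (P.neighborSet v).ncard = 2 := hv
    omega
  have hsep : ∀ a ∈ Z, ∀ b ∈ Z, a ≠ b → ∀ p : G.Walk a b, 2 * D + 1 ≤ p.length :=
    fun a ha b hb hab p => hP5 a (hZY a ha) b (hZY b hb) hab p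
  have hinj : ∀ b : Bool, Function.Injective (fun u : V => (u, b)) :=
    fun b u w h => (Prod.mk.inj h).1
  have hdeg : ∀ (v : V) (b : Bool), ((dblG P ∅).neighborSet (v, b)).ncard =
      (P.neighborSet v).ncard := by
    intro v b
    rw [(dbl_nb (G := G) (Z := ∅) v b).1, Set.ncard_image_of_injective _ (hinj b)]
  have hdiff : ∀ v, ((G \ P).neighborSet v).ncard = r - (P.neighborSet v).ncard := by
    intro v
    have h1 : (G \ P).neighborSet v = G.neighborSet v \ P.neighborSet v := by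
      ext w
      rw [mem_neighborSet, sdiff_adj]
      rfl
    have h2 : P.neighborSet v ⊆ G.neighborSet v := fun w hw => hP1 hw
    rw [h1, Set.ncard_sdiff h2 (Set.toFinite _), hreg]
  refine ⟨dblG G Z, dblG P ∅, {x | x.1 ∈ Z}, ⟨?_, ?_, ?_, ?_, ?_, ?_⟩, ?_, ?_⟩
  · intro x y h
    rcases dbl_adj.1 h with ⟨h1, h2⟩ | ⟨_, h2, _⟩
    · exact Or.inl ⟨h1, hP1 h2⟩
    · exact absurd h2 (Set.notMem_empty _)
  · rintro ⟨v, b⟩ hv
    rw [hdeg]
    have h1 : ¬ (P.neighborSet v).ncard = 2 := hv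
    have h2 := hP4 v
    omega
  · rintro ⟨v, b⟩
    rw [hdeg]
    exact hP4 v
  · rintro ⟨a, a'⟩ ha ⟨b, b'⟩ hb h
    rcases dbl_adj.1 h with ⟨_, h2⟩ | ⟨_, h2, _⟩
    · have h3 : G.Adj a b := hP1 h2
      have h4 := hsep a ha b hb h3.ne (Walk.cons h3 Walk.nil)
      rw [Walk.length_cons, Walk.length_nil] at h4
      omega
    · exact absurd h2 (Set.notMem_empty _)
  · intro x c hc
    exact dbl_cyc hcyc hsep x c hc
  · rintro ⟨a, a'⟩ ha ⟨b, b'⟩ hb hab
    by_cases h : a = b
    · left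
      refine Or.inr ⟨h, ha, ?_⟩
      intro h2
      exact hab (Prod.ext h h2)
    · right
      intro p
      obtain ⟨q, hq⟩ := dbl_proj p
      have := hsep a ha b hb h q
      omega
  · rintro ⟨v, b⟩
    by_cases hv : v ∈ Z
    · rw [(dbl_nb (G := G) (P := P) v b).2.2 hv, Set.ncard_insert_of_notMem,
        Set.ncard_image_of_injective _ (hinj b), hdiff]
      · have h1 : (P.neighborSet v).ncard = 2 := hv
        omega
      · rintro ⟨w, _, hw⟩
        have := (Prod.mk.inj hw).2
        cases b <;> simp at this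
    · rw [(dbl_nb (G := G) (P := P) v b).2.1 hv, Set.ncard_image_of_injective _ (hinj b), hdiff]
      have h1 : ¬ (P.neighborSet v).ncard = 2 := hv
      have h2 := hP4 v
      have h3 := hP2 v
      omega
  · intro u v h
    exact Or.inl ⟨rfl, h⟩

end Pool.Agent.H9.LG
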