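import Pool.Agent.H9.LG.Stm

set_option autoImplicit false

/-!
# Project LG: deferred decisions
-/

namespace Pool.Agent.H9.LG

/-- one round of reading the variables -/
def dd_F {O C Nn : Type} (Yy : (Nn → C) → Nn → O) (ω : O → C) (x : Nn → C) : Nn → C :=
  fun ν => ω (Yy x ν)

theorem dd_iter {O C Nn : Type} (ix : Nn → ℕ) (Yy : (Nn → C) → Nn → O)
    (hY : ∀ x x' ν, (∀ κ, ix κ < ix ν → x κ = x' κ) → Yy x ν = Yy x' ν) (ω : O → C) (m : ℕ) :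
    ∀ (x y : Nn → C) (ν : Nn), ix ν < m → (dd_F Yy ω)^[m] x ν = (dd_F Yy ω)^[m] y ν := by
  induction m with
  | zero => intro x y ν h; omega
  | succ m ih =>
    intro x y ν h
    rw [Function.iterate_succ_apply', Function.iterate_succ_apply']
    exact congrArg ω (hY _ _ _ fun κ hκ => ih x y κ (by omega))

theorem dd_fix {O C Nn : Type} [Finite Nn] [Nonempty C] (ix : Nn → ℕ) (Yy : (Nn → C) → Nn → O)
    (hY : ∀ x x' ν, (∀ κ, ix κ < ix ν → x κ = x' κ) → Yy x ν = Yy x' ν) (ω : O → C) :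
    ∃ x : Nn → C, ∀ ν, x ν = ω (Yy x ν) := by
  obtain ⟨M, hM⟩ : ∃ M, ∀ ν, ix ν < M := by
    obtain ⟨M, hM⟩ := (Set.finite_range ix).bddAbove
    exact ⟨M + 1, fun ν => Nat.lt_succ_of_le (hM ⟨ν, rfl⟩)⟩
  refine ⟨(dd_F Yy ω)^[M] fun _ => Classical.arbitrary C, fun ν => ?_⟩
  have h1 := dd_iter ix Yy hY ω M (fun _ => Classical.arbitrary C)
    (dd_F Yy ω fun _ => Classical.arbitrary C) ν (hM ν)
  rw [h1, ← Function.iterate_succ_apply, Function.iterate_succ_apply']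
  rfl

open Classical in
/-- the exchanged variables -/
noncomputable def dd_sw {O C Nn : Type} (ix : Nn → ℕ) (n : ℕ) (y : Nn → O) (ω : O → C)
    (z : Nn → C) (o : O) : C :=
  if h : ∃ κ, ix κ < n ∧ y κ = o then z h.choose else ω o

theorem dd_sw_in {O C Nn : Type} {ix : Nn → ℕ} {n : ℕ} {y : Nn → O} {ω : O → C}
    {z : Nn → C} (hy : ∀ κ κ', ix κ < n → ix κ' < n → y κ = y κ' → κ = κ') {κ : Nn}
    (hκ : ix κ < n) : dd_sw ix n y ω z (y κ) = z κ := by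
  have h : ∃ κ', ix κ' < n ∧ y κ' = y κ := ⟨κ, hκ, rfl⟩
  have h1 : h.choose = κ := hy _ _ h.choose_spec.1 hκ h.choose_spec.2
  rw [dd_sw, dif_pos h, h1]

theorem dd_sw_out {O C Nn : Type} {ix : Nn → ℕ} {n : ℕ} {y : Nn → O} {ω : O → C}
    {z : Nn → C} {o : O} (ho : ¬ ∃ κ, ix κ < n ∧ y κ = o) : dd_sw ix n y ω z o = ω o := by
  rw [dd_sw, dif_neg ho]

theorem t_DD : StDD := by
  intro O C Nn _ _ _ _ ix Yy hY
  choose η hη using fun ω : O → C => dd_fix ix Yy hY ω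
  have h2 : ∀ ω ω' n, (∀ κ, ix κ < n → ω (Yy (η ω) κ) = ω' (Yy (η ω) κ)) →
      ∀ κ, ix κ < n → η ω κ = η ω' κ := by
    intro ω ω' n h
    have h3 : ∀ m, ∀ κ, ix κ = m → ix κ < n → η ω κ = η ω' κ := by
      intro m
      induction m using Nat.strong_induction_on with
      | _ m ih =>
        intro κ hm hκ
        have h4 : Yy (η ω) κ = Yy (η ω') κ :=
          hY _ _ _ fun κ' hκ' => ih (ix κ') (by omega) κ' rfl (by omega)
        rw [hη ω κ, hη ω' κ, h κ hκ, h4]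
    exact fun κ hκ => h3 _ κ rfl hκ
  refine ⟨η, hη, h2, fun n Q hQ => ?_⟩
  classical
  rw [← Nat.card_prod, ← Nat.card_prod]
  let Φ : {ω : O → C // (∀ κ κ', ix κ < n → ix κ' < n →
      Yy (η ω) κ = Yy (η ω) κ' → κ = κ') ∧ Q (η ω)} × (Nn → C) →
      {x : Nn → C // Q x} × (O → C) := fun p =>
    (⟨fun κ => if ix κ < n then η p.1.1 κ else p.2 κ, hQ _ _ (fun κ hκ => by rw [if_pos hκ])
      p.1.2.2⟩, dd_sw ix n (Yy (η p.1.1)) p.1.1 p.2)
  have hΦY : ∀ p κ, ix κ < n → Yy (Φ p).1.1 κ = Yy (η p.1.1) κ := by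
    intro p κ hκ
    refine hY _ _ _ fun κ' hκ' => ?_
    exact if_pos (hκ'.trans hκ)
  refine Nat.card_le_card_of_injective Φ fun p p' hpp => ?_
  have e1 : ∀ κ, (Φ p).1.1 κ = (Φ p').1.1 κ := fun κ => by rw [hpp]
  have e2 : ∀ o, (Φ p).2 o = (Φ p').2 o := fun o => by rw [hpp]
  have e3 : ∀ κ, ix κ < n → Yy (η p.1.1) κ = Yy (η p'.1.1) κ := fun κ hκ => by
    rw [← hΦY p κ hκ, ← hΦY p' κ hκ, hpp]
  have e4 : ∀ κ, ix κ < n → η p.1.1 κ = η p'.1.1 κ := fun κ hκ => by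
    have := e1 κ
    simp only [Φ] at this
    rwa [if_pos hκ, if_pos hκ] at this
  have e5 : p.2 = p'.2 := by
    funext κ
    by_cases hκ : ix κ < n
    · have h5 : (Φ p).2 (Yy (η p.1.1) κ) = p.2 κ := dd_sw_in p.1.2.1 hκ
      have h6 : (Φ p').2 (Yy (η p'.1.1) κ) = p'.2 κ := dd_sw_in p'.1.2.1 hκ
      rw [← h5, ← h6, e2, e3 κ hκ]
    · have := e1 κ
      simp only [Φ] at this
      rwa [if_neg hκ, if_neg hκ] at this
  have e6 : p.1.1 = p'.1.1 := by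
    funext o
    by_cases ho : ∃ κ, ix κ < n ∧ Yy (η p.1.1) κ = o
    · obtain ⟨κ, hκ, rfl⟩ := ho
      rw [← hη p.1.1 κ, e4 κ hκ, hη p'.1.1 κ, e3 κ hκ]
    · have ho' : ¬ ∃ κ, ix κ < n ∧ Yy (η p'.1.1) κ = o := by
        rintro ⟨κ, hκ, h⟩
        exact ho ⟨κ, hκ, (e3 κ hκ).trans h⟩
      have h5 : (Φ p).2 o = p.1.1 o := dd_sw_out ho
      have h6 : (Φ p').2 o = p'.1.1 o := dd_sw_out ho'
      rw [← h5, ← h6, e2]
  exact Prod.ext (Subtype.ext e6) e5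

end Pool.Agent.H9.LG
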