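import Pool.Agent.H9.LG.StmG
import Pool.Graph.R_seed8.W111.LAR.Dec

/-! Task DEC of project LG (helper9), by helper286. -/

set_option autoImplicit false

namespace Pool.Agent.H9.LG

open Finset SimpleGraph

/-- families of sets with a common element -/
theorem dec_lt {ι V : Type} [Fintype ι] [DecidableEq ι] [DecidableEq V] (N : ι → Finset V)
    {i j : ι} (hij : i ≠ j) {w : V} (hi : w ∈ N i) (hj : w ∈ N j) :
    (univ.biUnion N).card < ∑ i, (N i).card := by
  have h1 : univ.biUnion N ⊆ univ.biUnion (Function.update N i ((N i).erase w)) := by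
    intro x hx
    rw [mem_biUnion] at hx ⊢
    obtain ⟨l, _, hl⟩ := hx
    by_cases hxw : x = w
    · subst hxw
      exact ⟨j, mem_univ _, by rw [Function.update_of_ne hij.symm]; exact hj⟩
    · refine ⟨l, mem_univ _, ?_⟩
      by_cases hli : l = i
      · subst hli
        rw [Function.update_self]
        exact mem_erase.2 ⟨hxw, hl⟩
      · rw [Function.update_of_ne hli]
        exact hl
  refine lt_of_le_of_lt ((card_le_card h1).trans card_biUnion_le) ?_
  refine sum_lt_sum (fun l _ => ?_) ⟨i, mem_univ _, ?_⟩
  · by_cases hli : l = i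
    · subst hli
      rw [Function.update_self]
      exact card_le_card (erase_subset _ _)
    · rw [Function.update_of_ne hli]
  · rw [Function.update_self]
    exact card_erase_lt_of_mem hi

theorem t_DEC : StDEC := by
  classical
  intro V _ G k hG
  obtain ⟨H, hH, hsup⟩ := Pool.Agent.W111.LAR.decomp G k (fun v => (hG v).le)
  have := Fintype.ofFinite V
  have hN : ∀ v i, (univ.filter fun w => (H i).Adj v w).card = ((H i).neighborSet v).ncard := by
    intro v i
    rw [← Set.ncard_coe_finset]
    congr 1
    ext w
    simp
  have hU : ∀ v, (univ.biUnion fun i => univ.filter fun w => (H i).Adj v w).card = 2 * k := by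
    intro v
    rw [← hG v, ← Set.ncard_coe_finset]
    congr 1
    ext w
    rw [← hsup]
    simp
  have hsum : ∀ v, ∑ i, (univ.filter fun w => (H i).Adj v w).card ≤ 2 * k := by
    intro v
    calc ∑ i, (univ.filter fun w => (H i).Adj v w).card ≤ ∑ _i : Fin k, 2 :=
          sum_le_sum fun i _ => by rw [hN]; exact hH i v
      _ = 2 * k := by rw [sum_const, card_univ, Fintype.card_fin, smul_eq_mul, mul_comm]
  refine ⟨H, fun i v => ?_, hsup, fun i j hij => ?_⟩
  · by_contra hne
    have h1 : ((H i).neighborSet v).ncard < 2 := lt_of_le_of_ne (hH i v) hne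
    have h2 : ∑ i, (univ.filter fun w => (H i).Adj v w).card < ∑ _i : Fin k, 2 :=
      sum_lt_sum (fun l _ => by rw [hN]; exact hH l v) ⟨i, mem_univ _, by rw [hN]; exact h1⟩
    rw [sum_const, card_univ, Fintype.card_fin, smul_eq_mul, mul_comm] at h2
    have h3 := hU v
    have h4 : (univ.biUnion fun i => univ.filter fun w => (H i).Adj v w).card ≤
        ∑ i, (univ.filter fun w => (H i).Adj v w).card := card_biUnion_le
    omega
  · rw [SimpleGraph.disjoint_left]
    intro v w h1 h2
    have h3 := dec_lt (fun i => univ.filter fun w => (H i).Adj v w) hij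
      (w := w) (by simpa using h1) (by simpa using h2)
    have h4 := hsum v
    have h5 := hU v
    omega

end Pool.Agent.H9.LG
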