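import Pool.Agent.H9.LG.Stm

set_option autoImplicit false

/-!
# Project LG (helper9): DR, the directions are the unique consistent choice
-/

namespace Pool.Agent.H9.LG

section

variable {V O J : Type} (S : Sys V O J) (j : J) (L : ℕ) (c : Bool) (a : V × Lab) (x : Nd → X J)

theorem dr_cen {d d' : ℕ → Bool} (t : ℕ) (h : ∀ i, i < t → d i = d' i) : cen d t = cen d' t := by
  cases t with
  | zero => rfl
  | succ t =>
    show some (t, d t, 0) = some (t, d' t, 0)
    rw [h t (Nat.lt_succ_self t)]

theorem dr_cenArr {d d' : ℕ → Bool} (t : ℕ) (h : ∀ i, i < t → d i = d' i) :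
    cenArr S j a x d t = cenArr S j a x d' t := by
  induction t with
  | zero => rfl
  | succ t ih =>
    show dn S j (x (cen d t)) (tyD (d t)) (cenArr S j a x d t) =
      dn S j (x (cen d' t)) (tyD (d' t)) (cenArr S j a x d' t)
    rw [ih fun i hi => h i (Nat.lt_succ_of_lt hi), dr_cen t fun i hi => h i (Nat.lt_succ_of_lt hi),
      h t (Nat.lt_succ_self t)]

theorem dr_rayArr {d d' : ℕ → Bool} (t : ℕ) (h : ∀ i, i < t → d i = d' i) (b : Bool) (s : ℕ) :
    rayArr S j a x d t b s = rayArr S j a x d' t b s := by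
  induction s with
  | zero =>
    show dn S j (x (cen d t)) (tyD b) (cenArr S j a x d t) =
      dn S j (x (cen d' t)) (tyD b) (cenArr S j a x d' t)
    rw [dr_cenArr S j a x t h, dr_cen t h]
  | succ s ih =>
    show dn S j (x (some (t, b, s))) 0 (rayArr S j a x d t b s) =
      dn S j (x (some (t, b, s))) 0 (rayArr S j a x d' t b s)
    rw [ih]

theorem dr_out {d d' : ℕ → Bool} (t : ℕ) (h : ∀ i, i < t → d i = d' i) (b : Bool) (s : ℕ) :
    out S j a x d t b s = out S j a x d' t b s := by
  cases s with
  | zero =>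
    show tr S j (x (cen d t)) (tyD b) (cenArr S j a x d t) =
      tr S j (x (cen d' t)) (tyD b) (cenArr S j a x d' t)
    rw [dr_cenArr S j a x t h, dr_cen t h]
  | succ s =>
    show tr S j (x (some (t, b, s))) 0 (rayArr S j a x d t b s) =
      tr S j (x (some (t, b, s))) 0 (rayArr S j a x d' t b s)
    rw [dr_rayArr S j a x t h]

theorem dr_pos {d d' : ℕ → Bool} (t : ℕ) (h : ∀ i, i < t → d i = d' i) (b : Bool) (s : ℕ) :
    pos d t b s = pos d' t b s := by
  cases s with
  | zero => exact dr_cen t h
  | succ s => rfl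

theorem dr_cutX {d d' : ℕ → Bool} (t : ℕ) (h : ∀ i, i < t → d i = d' i) (b : Bool) (s : ℕ) :
    cutX S j a x d t b s = cutX S j a x d' t b s := by
  unfold cutX
  rw [dr_out S j a x t h, dr_pos t h, dr_pos t h]

theorem dr_fX {d d' : ℕ → Bool} (t : ℕ) (h : ∀ i, i < t → d i = d' i) (b : Bool) :
    fX S j L a x d t b = fX S j L a x d' t b := by
  unfold fX
  have h1 : cutX S j a x d t b = cutX S j a x d' t b :=
    funext fun s => dr_cutX S j a x t h b s
  rw [h1]

theorem dr_ldr {d d' : ℕ → Bool} (t : ℕ) (h : ∀ i, i < t → d i = d' i) (b : Bool) :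
    ldr S j L a x d t b = ldr S j L a x d' t b := by
  unfold ldr
  rw [dr_fX S j L a x t h, dr_out S j a x t h]

theorem dr_phi {d d' : ℕ → Bool} (t : ℕ) (h : ∀ i, i < t → d i = d' i) (b : Bool) :
    phi S j L a x d t b = phi S j L a x d' t b := by
  unfold phi
  rw [dr_fX S j L a x t h, dr_ldr S j L a x t h, dr_pos t h]

theorem dr_colA {d d' : ℕ → Bool} (t : ℕ) (h : ∀ i, i < t → d i = d' i) :
    colA S j L a x d t = colA S j L a x d' t := by
  unfold colA
  rw [dr_ldr S j L a x t h, dr_ldr S j L a x t h, dr_phi S j L a x t h, dr_phi S j L a x t h]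

theorem dr_dirs_succ (t : ℕ) : dirs S j L c a x (t + 1) t =
    decide (colA S j L a x (dirs S j L c a x t) t = c) := by
  show Function.update (dirs S j L c a x t) t _ t = _
  rw [Function.update_self]

theorem dr_dirs_stable (t k : ℕ) (i : ℕ) (hi : i < t) :
    dirs S j L c a x (t + k) i = dirs S j L c a x t i := by
  induction k with
  | zero => rfl
  | succ k ih =>
    rw [← ih]
    show Function.update (dirs S j L c a x (t + k)) (t + k) _ i = _
    rw [Function.update_of_ne (by omega)]

theorem dr_dirs_le {t T : ℕ} (h : t ≤ T) (i : ℕ) (hi : i < t) :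
    dirs S j L c a x T i = dirs S j L c a x t i := by
  obtain ⟨k, rfl⟩ := Nat.exists_eq_add_of_le h
  exact dr_dirs_stable S j L c a x t k i hi

theorem dr_one (T t : ℕ) (ht : t < T) :
    decide (colA S j L a x (dirs S j L c a x T) t = c) = dirs S j L c a x T t := by
  rw [dr_colA S j L a x t (fun i hi => dr_dirs_le S j L c a x ht.le i hi),
    dr_dirs_le S j L c a x (Nat.succ_le_of_lt ht) t (Nat.lt_succ_self t), dr_dirs_succ]

end

theorem t_DR : StDR := by
  intro V O J S j L c a x
  refine ⟨fun t ht => dr_one S j L c a x L t ht, ?_, ?_, ?_⟩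
  · intro d hd t
    induction t using Nat.strong_induction_on with
    | _ t ih =>
      intro ht
      rw [← hd t ht, ← dr_one S j L c a x L t ht,
        dr_colA S j L a x t (fun i hi => ih i hi (hi.trans ht))]
  · intro d d' h ν
    rcases ν with _ | ⟨t, b, s⟩
    · rfl
    · show rayArr S j a x d t.1 b s.1 = rayArr S j a x d' t.1 b s.1
      exact dr_rayArr S j a x t.1 (fun i hi => h i (hi.trans t.2)) b s.1
  · intro d d' h
    have hlt : ∀ t, t < L → ∀ i, i < t → d i = d' i := fun t ht i hi => h i (hi.trans ht)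
    refine ⟨forall_congr' fun t => imp_congr_right fun ht => ?_, ?_⟩
    · rw [dr_colA S j L a x t (hlt t ht), h t ht]
    · unfold NoCut
      refine or_congr ?_ ?_
      · refine exists_congr fun t => and_congr_right fun ht => exists_congr fun b =>
          forall_congr' fun s => imp_congr_right fun _ => ?_
        rw [dr_cutX S j a x t (hlt t ht)]
      · refine forall_congr' fun t => imp_congr_right fun ht => ?_
        rw [dr_cutX S j a x t (hlt t ht), h t ht]

end Pool.Agent.H9.LG
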