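import Pool.Agent.H9.LG.StmG

set_option autoImplicit false

/-!
# Project LG (helper9): many free edges on every cycle
-/

namespace Pool.Agent.H9.LG

open Finset SimpleGraph H931R3.LA

/-- A sequence of adjacent vertices which never goes back. -/
def fr_NW {V : Type} (G : SimpleGraph V) (u : ℕ → V) (d : ℕ) : Prop :=
  (∀ i, i < d → G.Adj (u i) (u (i + 1))) ∧ ∀ i, i + 2 ≤ d → u (i + 2) ≠ u i

theorem fr_walk {V : Type} (G : SimpleGraph V) (u : ℕ → V) :
    ∀ (m i : ℕ), (∀ k, k < m → G.Adj (u (i + k)) (u (i + k + 1))) →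
      ∃ p : G.Walk (u i) (u (i + m)), p.length = m ∧
        (∀ x ∈ p.support, ∃ k, k ≤ m ∧ x = u (i + k)) ∧
        (∀ x ∈ p.edges, ∃ k, k < m ∧ x = s(u (i + k), u (i + k + 1))) ∧
        ((∀ k k', k < k' → k' ≤ m → u (i + k) ≠ u (i + k')) → p.IsPath) := by
  intro m
  induction m with
  | zero =>
    intro i _
    refine ⟨Walk.nil, rfl, ?_, ?_, ?_⟩
    · intro x hx
      simp only [Walk.support_nil, List.mem_singleton] at hx
      exact ⟨0, le_refl 0, hx⟩
    · intro x hx; simp at hx
    · intro _; exact Walk.IsPath.nil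
  | succ m ih =>
    intro i h
    obtain ⟨q, hq1, hq2, hq3, hq4⟩ := ih (i + 1) (fun k hk => by
      have := h (k + 1) (by omega)
      rw [show i + (k + 1) = i + 1 + k by ring] at this
      exact this)
    have e : i + 1 + m = i + (m + 1) := by ring
    have hadj : G.Adj (u i) (u (i + 1)) := h 0 (by omega)
    refine ⟨Walk.cons hadj (q.copy rfl (by rw [e])), ?_, ?_, ?_, ?_⟩
    · simp [hq1]
    · intro x hx
      simp only [Walk.support_cons, Walk.support_copy, List.mem_cons] at hx
      rcases hx with rfl | hx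
      · exact ⟨0, by omega, rfl⟩
      · obtain ⟨k, hk, rfl⟩ := hq2 x hx
        exact ⟨k + 1, by omega, by rw [show i + 1 + k = i + (k + 1) by ring]⟩
    · intro x hx
      simp only [Walk.edges_cons, Walk.edges_copy, List.mem_cons] at hx
      rcases hx with rfl | hx
      · exact ⟨0, by omega, rfl⟩
      · obtain ⟨k, hk, rfl⟩ := hq3 x hx
        exact ⟨k + 1, by omega, by rw [show i + 1 + k = i + (k + 1) by ring]⟩
    · intro hd
      rw [Walk.cons_isPath_iff]
      constructor
      · rw [Walk.isPath_copy]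
        apply hq4
        intro k k' hk hk'
        have := hd (k + 1) (k' + 1) (by omega) (by omega)
        rw [show i + (k + 1) = i + 1 + k by ring, show i + (k' + 1) = i + 1 + k' by ring] at this
        exact this
      · rw [Walk.support_copy]
        intro hx
        obtain ⟨k, hk, hk2⟩ := hq2 _ hx
        have := hd 0 (k + 1) (by omega) (by omega)
        rw [show i + (k + 1) = i + 1 + k by ring] at this
        exact this hk2

theorem fr_sub {V : Type} {G : SimpleGraph V} {u : ℕ → V} {d : ℕ} (h : fr_NW G u d) (p q : ℕ)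
    (_hpq : p ≤ q) (hq : q ≤ d) : fr_NW G (fun n => u (p + n)) (q - p) := by
  constructor
  · intro i hi
    have := h.1 (p + i) (by omega)
    exact this
  · intro i hi
    have := h.2 (p + i) (by omega)
    exact this

theorem fr_nw {V : Type} (G : SimpleGraph V) (g : ℕ)
    (hc : ∀ (v : V) (c : G.Walk v v), c.IsCycle → g ≤ c.length) :
    ∀ (d : ℕ) (u : ℕ → V), fr_NW G u d → 1 ≤ d → d < g → u d ≠ u 0 := by
  intro d
  induction d using Nat.strong_induction_on with
  | _ d ih =>
    intro u hu hd hg heq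
    -- all other pairs are different
    have hne : ∀ p q, p < q → q ≤ d → (p ≠ 0 ∨ q ≠ d) → u p ≠ u q := by
      intro p q hpq hq hor he
      have := ih (q - p) (by omega) (fun n => u (p + n)) (fr_sub hu p q hpq.le hq) (by omega)
        (by omega)
      apply this
      show u (p + (q - p)) = u (p + 0)
      rw [show p + (q - p) = q by omega, Nat.add_zero]
      exact he.symm
    have hd1 : d ≠ 1 := by
      rintro rfl
      have := hu.1 0 (by omega)
      rw [Nat.zero_add, heq] at this
      exact G.loopless.irrefl _ this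
    have hd2 : d ≠ 2 := by
      rintro rfl
      exact hu.2 0 (by omega) (by rw [Nat.zero_add]; exact heq)
    obtain ⟨m, rfl⟩ : ∃ m, d = m + 1 := ⟨d - 1, by omega⟩
    obtain ⟨p, hp1, hp2, hp3, hp4⟩ := fr_walk G u m 1 (fun k hk => by
      have := hu.1 (1 + k) (by omega)
      exact this)
    have e : 1 + m = m + 1 := by ring
    have hpath : p.IsPath := by
      apply hp4
      intro k k' hk hk'
      exact hne _ _ (by omega) (by omega) (Or.inl (by omega))
    have hend : u (1 + m) = u 0 := by rw [e]; exact heq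
    have hadj : G.Adj (u 0) (u 1) := hu.1 0 (by omega)
    have hcyc : (Walk.cons hadj (p.copy rfl hend)).IsCycle := by
      rw [Walk.cons_isCycle_iff]
      refine ⟨by rw [Walk.isPath_copy]; exact hpath, ?_⟩
      rw [Walk.edges_copy]
      intro hx
      obtain ⟨k, hk, hk2⟩ := hp3 _ hx
      rw [Sym2.eq_iff] at hk2
      rcases hk2 with ⟨h1, h2⟩ | ⟨h1, h2⟩
      · exact hne 0 (1 + k) (by omega) (by omega) (Or.inr (by omega)) h1
      · by_cases hk0 : k = 0
        · subst hk0
          exact hne 0 2 (by omega) (by omega) (Or.inr (by omega)) h1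
        · exact hne 1 (1 + k) (by omega) (by omega) (Or.inl (by omega)) h2
    have := hc _ _ hcyc
    simp only [Walk.length_cons, Walk.length_copy, hp1] at this
    omega

theorem fr_near {V : Type} {F : SimpleGraph V} {s : Equiv.Perm V}
    (hs : ∀ v w, F.Adj v w ↔ s v = w ∨ s w = v) {v x : V} (p : F.Walk v x) :
    ∃ k : ℤ, k.natAbs ≤ p.length ∧ x = (s ^ k) v := by
  induction p with
  | nil => exact ⟨0, by simp, by simp⟩
  | @cons a b c hab q ih =>
    obtain ⟨k, hk, rfl⟩ := ih
    rcases (hs a b).1 hab with h | h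
    · refine ⟨k + 1, ?_, ?_⟩
      · rw [Walk.length_cons]; omega
      · rw [zpow_add, Equiv.Perm.mul_apply, zpow_one, h]
    · refine ⟨k - 1, ?_, ?_⟩
      · rw [Walk.length_cons]; omega
      · rw [← h, ← Equiv.Perm.mul_apply, ← zpow_add_one, sub_add_cancel]

theorem fr_reach {V : Type} {F : SimpleGraph V} {s : Equiv.Perm V}
    (hs : ∀ v w, F.Adj v w ↔ s v = w ∨ s w = v) (v : V) (n : ℕ) : F.Reachable v ((s ^ n) v) := by
  induction n with
  | zero => simp
  | succ n ih =>
    refine ih.trans ?_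
    apply SimpleGraph.Adj.reachable
    rw [hs]
    left
    rw [pow_succ', Equiv.Perm.mul_apply]

theorem t_FR (hPRM : StPRM) : StFR := by
  intro V _ F Fr l h2 hcyc hfr v
  obtain ⟨s, hs, hss⟩ := hPRM V F h2
  have hper : ∀ (w : V) (n : ℕ), 1 ≤ n → n < 3000 * (l + 1) → (s ^ n) w ≠ w := by
    intro w n h1 h3
    have hnw : fr_NW F (fun i => (s ^ i) w) n := by
      constructor
      · intro i _
        rw [hs]
        left
        show s ((s ^ i) w) = (s ^ (i + 1)) w
        rw [pow_succ', Equiv.Perm.mul_apply]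
      · intro i _
        show (s ^ (i + 2)) w ≠ (s ^ i) w
        rw [add_comm, pow_add, Equiv.Perm.mul_apply, pow_two, Equiv.Perm.mul_apply]
        exact hss _
    have := fr_nw F _ hcyc n _ hnw h1 h3
    simpa using this
  choose! X Y hadj hX hY hw using hfr
  let vv : ℕ → V := fun i => (s ^ (i * (2 * l + 3))) v
  have hinj : Set.InjOn (fun i : ℕ => (X (vv i), Y (vv i))) (Finset.range 1000 : Set ℕ) := by
    have main : ∀ i i' : ℕ, i < i' → i' < 1000 → X (vv i) ≠ X (vv i') := by
      intro i i' hi hi' he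
      obtain ⟨p, hp⟩ := hw (vv i)
      obtain ⟨p', hp'⟩ := hw (vv i')
      obtain ⟨k, hk, hk2⟩ := fr_near hs p
      obtain ⟨k', hk', hk2'⟩ := fr_near hs p'
      rw [he, hk2'] at hk2
      have hnat : ∀ m : ℕ, (s ^ m) v = (s ^ (m : ℤ)) v := by intro m; rw [zpow_natCast]
      have e1 : vv i = (s ^ ((i * (2 * l + 3) : ℕ) : ℤ)) v := hnat _
      have e2 : vv i' = (s ^ ((i' * (2 * l + 3) : ℕ) : ℤ)) v := hnat _
      rw [e1, e2, ← Equiv.Perm.mul_apply, ← Equiv.Perm.mul_apply, ← zpow_add, ← zpow_add] at hk2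
      -- difference
      obtain ⟨n, hn⟩ : ∃ n : ℕ, (n : ℤ) = (k' + ((i' * (2 * l + 3) : ℕ) : ℤ))
          - (k + ((i * (2 * l + 3) : ℕ) : ℤ)) ∧ 1 ≤ n ∧ n < 3000 * (l + 1) := by
        obtain ⟨c, rfl⟩ : ∃ c, i' = i + 1 + c := ⟨i' - i - 1, by omega⟩
        have hcl : c * (2 * l + 3) ≤ 998 * (2 * l + 3) := Nat.mul_le_mul_right _ (by omega)
        have e3 : (i + 1 + c) * (2 * l + 3) = i * (2 * l + 3) + (2 * l + 3) + c * (2 * l + 3) := by
          ring
        rw [e3]
        refine ⟨((2 * l + 3 + c * (2 * l + 3) : ℕ) + (k' - k) : ℤ).toNat, ?_, ?_, ?_⟩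
        · omega
        · omega
        · omega
      obtain ⟨hn1, hn2, hn3⟩ := hn
      apply hper ((s ^ (k + ((i * (2 * l + 3) : ℕ) : ℤ))) v) n hn2 hn3
      rw [← zpow_natCast, hn1, ← Equiv.Perm.mul_apply, ← zpow_add, sub_add_cancel]
      exact hk2
    intro i hi i' hi' he
    simp only [Finset.coe_range, Set.mem_Iio] at hi hi'
    have he1 : X (vv i) = X (vv i') := congrArg Prod.fst he
    rcases lt_trichotomy i i' with h | h | h
    · exact absurd he1 (main i i' h hi')
    · exact h
    · exact absurd he1.symm (main i' i h hi)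
  classical
  refine ⟨(Finset.range 1000).image (fun i : ℕ => (X (vv i), Y (vv i))), ?_, ?_⟩
  · rw [Finset.card_image_of_injOn hinj, Finset.card_range]
  · intro p hp
    rw [Finset.mem_image] at hp
    obtain ⟨i, _, rfl⟩ := hp
    refine ⟨hadj _, hX _, hY _, ?_⟩
    obtain ⟨q, -⟩ := hw (vv i)
    exact (fr_reach hs v _).trans ⟨q⟩

end Pool.Agent.H9.LG
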