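import Pool.Agent.H9.LG.StmG

set_option autoImplicit false

/-!
# Project LG (helper9): girth of the system of darts, and windows
-/

namespace Pool.Agent.H9.LG

open Finset SimpleGraph H931R3.LA

/-- A sequence of adjacent vertices which never goes back. -/
def gi_NW {V : Type} (G : SimpleGraph V) (u : ℕ → V) (d : ℕ) : Prop :=
  (∀ i, i < d → G.Adj (u i) (u (i + 1))) ∧ ∀ i, i + 2 ≤ d → u (i + 2) ≠ u i

theorem gi_walk {V : Type} (G : SimpleGraph V) (u : ℕ → V) :
    ∀ (m i : ℕ), (∀ k, k < m → G.Adj (u (i + k)) (u (i + k + 1))) →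
      ∃ p : G.Walk (u i) (u (i + m)), p.length = m ∧
        (∀ x ∈ p.support, ∃ k, k ≤ m ∧ x = u (i + k)) ∧
        (∀ x ∈ p.edges, ∃ k, k < m ∧ x = s(u (i + k), u (i + k + 1))) ∧
        ((∀ k k', k < k' → k' ≤ m → u (i + k) ≠ u (i + k')) → p.IsPath) := by
  intro m
  induction m with
  | zero =>
    intro i _
    refine ⟨Walk.nil, rfl, ?_, ?_, ?_⟩
    · intro x hx
      simp only [Walk.support_nil, List.mem_singleton] at hx
      exact ⟨0, le_refl 0, hx⟩
    · intro x hx; simp at hx
    · intro _; exact Walk.IsPath.nil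
  | succ m ih =>
    intro i h
    obtain ⟨q, hq1, hq2, hq3, hq4⟩ := ih (i + 1) (fun k hk => by
      have := h (k + 1) (by omega)
      rw [show i + (k + 1) = i + 1 + k by ring] at this
      exact this)
    have e : i + 1 + m = i + (m + 1) := by ring
    have hadj : G.Adj (u i) (u (i + 1)) := h 0 (by omega)
    refine ⟨Walk.cons hadj (q.copy rfl (by rw [e])), ?_, ?_, ?_, ?_⟩
    · simp [hq1]
    · intro x hx
      simp only [Walk.support_cons, Walk.support_copy, List.mem_cons] at hx
      rcases hx with rfl | hx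
      · exact ⟨0, by omega, rfl⟩
      · obtain ⟨k, hk, rfl⟩ := hq2 x hx
        exact ⟨k + 1, by omega, by rw [show i + 1 + k = i + (k + 1) by ring]⟩
    · intro x hx
      simp only [Walk.edges_cons, Walk.edges_copy, List.mem_cons] at hx
      rcases hx with rfl | hx
      · exact ⟨0, by omega, rfl⟩
      · obtain ⟨k, hk, rfl⟩ := hq3 x hx
        exact ⟨k + 1, by omega, by rw [show i + 1 + k = i + (k + 1) by ring]⟩
    · intro hd
      rw [Walk.cons_isPath_iff]
      constructor
      · rw [Walk.isPath_copy]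
        apply hq4
        intro k k' hk hk'
        have := hd (k + 1) (k' + 1) (by omega) (by omega)
        rw [show i + (k + 1) = i + 1 + k by ring, show i + (k' + 1) = i + 1 + k' by ring] at this
        exact this
      · rw [Walk.support_copy]
        intro hx
        obtain ⟨k, hk, hk2⟩ := hq2 _ hx
        have := hd 0 (k + 1) (by omega) (by omega)
        rw [show i + (k + 1) = i + 1 + k by ring] at this
        exact this hk2

theorem gi_sub {V : Type} {G : SimpleGraph V} {u : ℕ → V} {d : ℕ} (h : gi_NW G u d) (p q : ℕ)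
    (hpq : p ≤ q) (hq : q ≤ d) : gi_NW G (fun n => u (p + n)) (q - p) := by
  constructor
  · intro i hi
    have := h.1 (p + i) (by omega)
    exact this
  · intro i hi
    have := h.2 (p + i) (by omega)
    exact this

theorem gi_nw {V : Type} (G : SimpleGraph V) (g : ℕ)
    (hc : ∀ (v : V) (c : G.Walk v v), c.IsCycle → g ≤ c.length) :
    ∀ (d : ℕ) (u : ℕ → V), gi_NW G u d → 1 ≤ d → d < g → u d ≠ u 0 := by
  intro d
  induction d using Nat.strong_induction_on with
  | _ d ih =>
    intro u hu hd hg heq
    -- all other pairs are different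
    have hne : ∀ p q, p < q → q ≤ d → (p ≠ 0 ∨ q ≠ d) → u p ≠ u q := by
      intro p q hpq hq hor he
      have := ih (q - p) (by omega) (fun n => u (p + n)) (gi_sub hu p q hpq.le hq) (by omega)
        (by omega)
      apply this
      show u (p + (q - p)) = u (p + 0)
      rw [show p + (q - p) = q by omega, Nat.add_zero]
      exact he.symm
    have hd1 : d ≠ 1 := by
      rintro rfl
      have := hu.1 0 (by omega)
      rw [Nat.zero_add, heq] at this
      exact G.loopless.irrefl _ this
    have hd2 : d ≠ 2 := by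
      rintro rfl
      exact hu.2 0 (by omega) (by rw [Nat.zero_add]; exact heq)
    obtain ⟨m, rfl⟩ : ∃ m, d = m + 1 := ⟨d - 1, by omega⟩
    obtain ⟨p, hp1, hp2, hp3, hp4⟩ := gi_walk G u m 1 (fun k hk => by
      have := hu.1 (1 + k) (by omega)
      exact this)
    have e : 1 + m = m + 1 := by ring
    have hpath : p.IsPath := by
      apply hp4
      intro k k' hk hk'
      exact hne _ _ (by omega) (by omega) (Or.inl (by omega))
    have hend : u (1 + m) = u 0 := by rw [e]; exact heq
    have hadj : G.Adj (u 0) (u 1) := hu.1 0 (by omega)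
    have hcyc : (Walk.cons hadj (p.copy rfl hend)).IsCycle := by
      rw [Walk.cons_isCycle_iff]
      refine ⟨by rw [Walk.isPath_copy]; exact hpath, ?_⟩
      rw [Walk.edges_copy]
      intro hx
      obtain ⟨k, hk, hk2⟩ := hp3 _ hx
      rw [Sym2.eq_iff] at hk2
      rcases hk2 with ⟨h1, h2⟩ | ⟨h1, h2⟩
      · exact hne 0 (1 + k) (by omega) (by omega) (Or.inr (by omega)) h1
      · by_cases hk0 : k = 0
        · subst hk0
          exact hne 0 2 (by omega) (by omega) (Or.inr (by omega)) h1
        · exact hne 1 (1 + k) (by omega) (by omega) (Or.inl (by omega)) h2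
    have := hc _ _ hcyc
    simp only [Walk.length_cons, Walk.length_copy, hp1] at this
    omega

theorem gi_ne {V : Type} (G : SimpleGraph V) (g : ℕ)
    (hc : ∀ (v : V) (c : G.Walk v v), c.IsCycle → g ≤ c.length) {u : ℕ → V} {d : ℕ}
    (hu : gi_NW G u d) (p q : ℕ) (hpq : p < q) (hq : q ≤ d) (hg : q - p < g) : u p ≠ u q := by
  intro he
  have := gi_nw G g hc (q - p) (fun n => u (p + n)) (gi_sub hu p q hpq.le hq) (by omega) hg
  apply this
  show u (p + (q - p)) = u (p + 0)
  rw [show p + (q - p) = q by omega, Nat.add_zero]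
  exact he.symm

theorem gi_reach {V : Type} {G P : SimpleGraph V} {Y : Set V} {g D : ℕ} (h : Dat G P Y g D)
    [Finite V] {v w : V} (hr : P.Reachable v w) :
    v = w ∨ P.Adj v w ∨ ∃ y, P.Adj y v ∧ P.Adj y w := by
  obtain ⟨p⟩ := hr
  induction p with
  | nil => exact Or.inl rfl
  | @cons a b c hab _ ih =>
    rcases ih with rfl | h1 | ⟨y, h1, h2⟩
    · exact Or.inr (Or.inl hab)
    · exact Or.inr (Or.inr ⟨b, hab.symm, h1⟩)
    · by_cases hya : y = a
      · subst hya; exact Or.inr (Or.inl h2)
      by_cases hbc : b = c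
      · subst hbc; exact Or.inr (Or.inl hab)
      exfalso
      have hbY : b ∈ Y := by
        by_contra hb
        have := h.deg1 b hb
        have h3 : ({a, y} : Set V) ⊆ P.neighborSet b := by
          intro z hz
          rcases hz with rfl | hz
          · exact hab.symm
          · rw [Set.mem_singleton_iff] at hz; subst hz; exact h1.symm
        have h4 := Set.ncard_le_ncard h3 (Set.toFinite _)
        rw [Set.ncard_pair (fun e => hya e.symm)] at h4
        omega
      have hyY : y ∈ Y := by
        by_contra hb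
        have := h.deg1 y hb
        have h3 : ({b, c} : Set V) ⊆ P.neighborSet y := by
          intro z hz
          rcases hz with rfl | hz
          · exact h1
          · rw [Set.mem_singleton_iff] at hz; subst hz; exact h2
        have h4 := Set.ncard_le_ncard h3 (Set.toFinite _)
        rw [Set.ncard_pair hbc] at h4
        omega
      exact h.yy y hyY b hbY h1

section
variable {V J : Type} {H : J → SimpleGraph V} {S : Sys V V J}

/-- the vertices of a walk -/
def gi_vs (S : Sys V V J) (j : J) (δ : ℕ → V × Lab) (d : ℕ) (n : ℕ) : V :=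
  if n < d then (δ n).1 else (S.nb j (δ (d - 1))).1

theorem gi_vs_succ {j : J} {δ : ℕ → V × Lab} {d : ℕ} (hr : Red S j δ d) {n : ℕ} (hn : n < d) :
    gi_vs S j δ d (n + 1) = (S.nb j (δ n)).1 := by
  unfold gi_vs
  by_cases h : n + 1 < d
  · rw [if_pos h, (hr n h).1]
  · rw [if_neg h, show d - 1 = n by omega]

theorem gi_vs_lt {j : J} {δ : ℕ → V × Lab} {d : ℕ} {n : ℕ} (hn : n < d) :
    gi_vs S j δ d n = (δ n).1 := by
  unfold gi_vs
  rw [if_pos hn]

theorem gi_nwH {j : J} (hnb : IsNb (H j) (S.nb j)) {δ : ℕ → V × Lab} {d : ℕ}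
    (hr : Red S j δ d) : gi_NW (H j) (gi_vs S j δ d) d := by
  constructor
  · intro i hi
    rw [gi_vs_succ hr hi, gi_vs_lt hi, hnb.2.1]
    exact ⟨(δ i).2, rfl⟩
  · intro i hi
    rw [gi_vs_succ hr (show i + 1 < d by omega), gi_vs_lt (show i < d by omega)]
    intro he
    obtain ⟨h1, h2⟩ := hr i (by omega)
    apply h2
    apply hnb.2.2 (δ (i + 1)).1
    show (S.nb j (δ (i + 1))).1 = (S.nb j ((δ (i + 1)).1, (S.nb j (δ i)).2)).1
    rw [h1]
    show (S.nb j (δ (i + 1))).1 = (S.nb j (S.nb j (δ i))).1
    rw [hnb.1, he]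

end

theorem gi_mono {V : Type} {G G' : SimpleGraph V} (h : G ≤ G') {u : ℕ → V} {d : ℕ}
    (hu : gi_NW G u d) : gi_NW G' u d :=
  ⟨fun i hi => h (hu.1 i hi), hu.2⟩

/-- one more vertex -/
theorem gi_ext {V : Type} {G : SimpleGraph V} {u : ℕ → V} {d : ℕ} (hu : gi_NW G u d)
    (x : V) (h1 : G.Adj (u d) x) (h2 : ∀ i, i + 1 = d → x ≠ u i) :
    gi_NW G (fun n => if n ≤ d then u n else x) (d + 1) := by
  constructor
  · intro i hi
    by_cases h : i + 1 ≤ d
    · simp only [if_pos h, if_pos (show i ≤ d by omega)]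
      exact hu.1 i (by omega)
    · have : i = d := by omega
      subst this
      simp only [if_neg h, if_pos (le_refl i)]
      exact h1
  · intro i hi
    by_cases h : i + 2 ≤ d
    · simp only [if_pos h, if_pos (show i ≤ d by omega)]
      exact hu.2 i h
    · simp only [if_neg h, if_pos (show i ≤ d by omega)]
      exact h2 i (by omega)

theorem t_GI : StGI := by
  intro V J _ G P Y g D hD H hH S hnb horb hcu
  have hHG : ∀ j, H j ≤ G := fun j => (hH j).trans sdiff_le
  have hHP : ∀ j v w, (H j).Adj v w → ¬ P.Adj v w := by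
    intro j v w h1 h2
    have := hH j h1
    rw [SimpleGraph.sdiff_adj] at this
    exact this.2 h2
  constructor
  · intro g' hg' j δ d hd1 hd2 hr he
    rw [horb] at he
    have hu := gi_nwH (hnb j) hr
    have hu0 : gi_vs S j δ d 0 = (δ 0).1 := gi_vs_lt (by omega)
    have hud : gi_vs S j δ d d = (S.nb j (δ (d - 1))).1 := by
      unfold gi_vs; rw [if_neg (lt_irrefl d)]
    rw [← hu0, ← hud] at he
    have huG := gi_mono (hHG j) hu
    have hne0 : gi_vs S j δ d 0 ≠ gi_vs S j δ d d :=
      fun e => gi_nw G g hD.cyc d _ huG hd1 (by omega) e.symm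
    rcases gi_reach hD he with h | h | ⟨y, h1, h2⟩
    · exact hne0 h
    · -- one P-edge
      have hE := gi_ext huG (gi_vs S j δ d 0) (hD.le h.symm) (by
        intro i hi e
        apply hHP j _ _ (hu.1 i (by omega))
        rw [hi, ← e]; exact h)
      refine gi_nw G g hD.cyc (d + 1) _ hE (by omega) (by omega) ?_
      show (if d + 1 ≤ d then gi_vs S j δ d (d + 1) else gi_vs S j δ d 0)
        = (if 0 ≤ d then gi_vs S j δ d 0 else gi_vs S j δ d 0)
      rw [if_neg (by omega), if_pos (by omega)]
    · -- two P-edges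
      have hE := gi_ext huG y (hD.le h2.symm) (by
        intro i hi e
        apply hHP j _ _ (hu.1 i (by omega))
        rw [hi, ← e]; exact h2)
      have hE2 := gi_ext hE (gi_vs S j δ d 0) (by
        show G.Adj (if d + 1 ≤ d then gi_vs S j δ d (d + 1) else y) _
        rw [if_neg (by omega)]
        exact hD.le h1) (by
        intro i hi
        have : i = d := by omega
        subst this
        show gi_vs S j δ i 0 ≠ if i ≤ i then gi_vs S j δ i i else y
        rw [if_pos (le_refl i)]
        exact hne0)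
      refine gi_nw G g hD.cyc (d + 1 + 1) _ hE2 (by omega) (by omega) ?_
      simp
  · intro hg hD6 j δ hr
    have hu := gi_nwH (hnb j) hr
    have huG := gi_mono (hHG j) hu
    have key : ∀ p q, p < q → q ≤ 5 → gi_vs S j δ 5 p ∈ Y → gi_vs S j δ 5 q ∈ Y → q = p + 1 := by
      intro p q hpq hq hp hqY
      by_contra hne
      have hpq' := gi_ne G g hD.cyc huG p q hpq hq (by omega)
      rcases hD.sep _ hp _ hqY hpq' with h | h
      · have hs := gi_sub huG p q hpq.le hq
        have hE := gi_ext hs (gi_vs S j δ 5 p) (by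
          show G.Adj (gi_vs S j δ 5 (p + (q - p))) _
          rw [show p + (q - p) = q by omega]
          exact h.symm) (by
          intro i hi
          show gi_vs S j δ 5 p ≠ gi_vs S j δ 5 (p + i)
          exact gi_ne G g hD.cyc huG p (p + i) (by omega) (by omega) (by omega))
        refine gi_nw G g hD.cyc (q - p + 1) _ hE (by omega) (by omega) ?_
        simp
      · obtain ⟨w, hw, -⟩ := gi_walk G (gi_vs S j δ 5) (q - p) p (fun k hk => huG.1 (p + k) (by omega))
        have := h (w.copy rfl (by rw [show p + (q - p) = q by omega]))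
        rw [Walk.length_copy, hw] at this
        omega
    by_contra hcon
    push Not at hcon
    have hpair : ∀ i, (i = 0 ∨ i = 2 ∨ i = 4) → ∃ p, (p = i ∨ p = i + 1) ∧ gi_vs S j δ 5 p ∈ Y := by
      intro i hi
      have h1 := hcon i hi
      rw [hcu, hcu] at h1
      by_cases h2 : (δ i).1 ∈ Y
      · exact ⟨i, Or.inl rfl, by rw [gi_vs_lt (by omega)]; exact h2⟩
      · refine ⟨i + 1, Or.inr rfl, ?_⟩
        rw [gi_vs_succ hr (by omega)]
        have := h1 h2
        by_contra h3
        exact this h3
    obtain ⟨a, ha, haY⟩ := hpair 0 (Or.inl rfl)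
    obtain ⟨b, hb, hbY⟩ := hpair 2 (Or.inr (Or.inl rfl))
    obtain ⟨c, hc, hcY⟩ := hpair 4 (Or.inr (Or.inr rfl))
    have h1 := key a b (by omega) (by omega) haY hbY
    have h2 := key b c (by omega) (by omega) hbY hcY
    omega

end Pool.Agent.H9.LG
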