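import Pool.Agent.H9.LG.Stm

set_option autoImplicit false

/-!
# Project LG, task K: a reduced walk of `h` steps has prescribed ends with probability `≤ 3 ^ (-h)`
-/

namespace Pool.Agent.H9.LG

open Finset

theorem k_gen {V O J : Type} (S : Sys V O J) (j : J) (h : ℕ) (hg : Girth S (2 * h))
    (a b : ℕ → V × Lab)
    (ha : ∀ i, (S.nb j (a (i + 1))).1 = (a i).1 ∧ (S.nb j (a (i + 1))).2 ≠ (a i).2)
    (hb : ∀ i, (S.nb j (b (i + 1))).1 = (b i).1 ∧ (S.nb j (b (i + 1))).2 ≠ (b i).2)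
    (h0 : a 0 = b 0) (hh : a h = b h) : ∀ i, i ≤ h → a i = b i := by
  classical
  by_contra hcon
  push Not at hcon
  have hex : ∃ i, a i ≠ b i := by
    obtain ⟨i, _, hi⟩ := hcon
    exact ⟨i, hi⟩
  obtain ⟨k, hk, hkmin⟩ : ∃ k, a k ≠ b k ∧ ∀ i, i < k → a i = b i :=
    ⟨Nat.find hex, Nat.find_spec hex, fun i hi => not_not.1 (Nat.find_min hex hi)⟩
  have hkh : k ≤ h := by
    obtain ⟨i, hi, hi2⟩ := hcon
    by_contra hlt
    push Not at hlt
    exact hi2 (hkmin i (by omega))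
  have hk0 : k ≠ 0 := by
    rintro rfl
    exact hk h0
  have hex2 : ∃ i, k ≤ i ∧ a i = b i := ⟨h, hkh, hh⟩
  obtain ⟨i1, ⟨hki, hi1⟩, hmin⟩ : ∃ i1, (k ≤ i1 ∧ a i1 = b i1) ∧
      ∀ i, i < i1 → k ≤ i → a i ≠ b i :=
    ⟨Nat.find hex2, Nat.find_spec hex2, fun i hi hki he => Nat.find_min hex2 hi ⟨hki, he⟩⟩
  have hki2 : k < i1 := by
    rcases Nat.lt_or_ge k i1 with hl | hl
    · exact hl
    · have : i1 = k := le_antisymm hl hki
      rw [this] at hi1
      exact absurd hi1 hk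
  have hi1h : i1 ≤ h := by
    by_contra hlt
    push Not at hlt
    exact hmin h hlt hkh hh
  obtain ⟨m, hm⟩ : ∃ m, i1 = k + m := ⟨i1 - k, by omega⟩
  have hm1 : 1 ≤ m := by omega
  obtain ⟨k', hk'⟩ : ∃ k', k = k' + 1 := ⟨k - 1, by omega⟩
  set ε : ℕ → V × Lab := fun r => if r < m then S.nb j (b (k + r)) else a (i1 - 1 - (r - m))
    with hε
  have hε1 : ∀ r, r < m → ε r = S.nb j (b (k + r)) := fun r hr => by rw [hε]; exact if_pos hr
  have hε2 : ∀ r, m ≤ r → ε r = a (i1 - 1 - (r - m)) := fun r hr => by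
    rw [hε]; exact if_neg (by omega)
  have hred : Red S j ε (2 * m) := by
    intro r hr
    rcases lt_trichotomy (r + 1) m with h1 | h1 | h1
    · rw [hε1 (r + 1) h1, hε1 r (by omega), S.nb_nb]
      exact hb (k + r)
    · rw [hε2 (r + 1) h1.ge, hε1 r (by omega), S.nb_nb]
      have e1 : i1 - 1 - (r + 1 - m) = k + r := by omega
      rw [e1]
      have hne := hmin (k + r) (by omega) (by omega)
      have e2 : i1 = k + r + 1 := by omega
      have ha' := ha (k + r)
      have hb' := hb (k + r)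
      rw [← e2] at ha' hb'
      rw [hi1] at ha'
      have hv : (a (k + r)).1 = (b (k + r)).1 := ha'.1.symm.trans hb'.1
      exact ⟨hv, fun h2 => hne (Prod.ext hv h2)⟩
    · rw [hε2 (r + 1) h1.le, hε2 r (by omega)]
      obtain ⟨p, hp⟩ : ∃ p, i1 - 1 - (r + 1 - m) = p ∧ i1 - 1 - (r - m) = p + 1 :=
        ⟨i1 - 1 - (r + 1 - m), rfl, by omega⟩
      rw [hp.1, hp.2]
      exact ⟨(ha p).1.symm, (ha p).2.symm⟩
  have hcontra := hg j ε (2 * m) (by omega) (by omega) hred
  apply hcontra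
  rw [hε1 0 (by omega), hε2 (2 * m - 1) (by omega)]
  have e1 : i1 - 1 - (2 * m - 1 - m) = k := by omega
  rw [e1, add_zero, hk', (ha k').1, (hb k').1, hkmin k' (by omega)]

theorem k_tr_ne {V O J : Type} (S : Sys V O J) (j : J) (x : X J) (τ : ZMod 3) (δ : V × Lab) :
    (tr S j x τ δ).2 ≠ δ.2 := by
  intro h
  have h1 : δ.2 + e (x.1 (S.sd δ.1) j + τ) = δ.2 := h
  exact e_ne _ (by simpa using h1)

theorem k_step {V O J Nn : Type} (S : Sys V O J) (j : J) (x : Nn → X J) (n : ℕ → Nn)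
    (τ : ℕ → ZMod 3) (δ : V × Lab) (i : ℕ) :
    S.nb j (chain S j x n τ δ (i + 1)) = tr S j (x (n i)) (τ i) (chain S j x n τ δ i) :=
  S.nb_nb j _

theorem k_walk {V O J Nn : Type} (S : Sys V O J) (j : J) (h : ℕ) (hg : Girth S (2 * h))
    (n : ℕ → Nn) (τ : ℕ → ZMod 3) (x x' : Nn → X J) (δ : V × Lab)
    (hend : chain S j x n τ δ h = chain S j x' n τ δ h) :
    ∀ i, i ≤ h → chain S j x n τ δ i = chain S j x' n τ δ i := by
  apply k_gen S j h hg (chain S j x n τ δ) (chain S j x' n τ δ) _ _ rfl hend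
  · intro i
    rw [k_step]
    exact ⟨rfl, k_tr_ne S j _ _ _⟩
  · intro i
    rw [k_step]
    exact ⟨rfl, k_tr_ne S j _ _ _⟩

theorem k_det {V O J Nn : Type} (S : Sys V O J) (j : J) (h : ℕ) (hg : Girth S (2 * h))
    (n : ℕ → Nn) (τ : ℕ → ZMod 3) (x x' : Nn → X J) (δ : V × Lab)
    (hend : chain S j x n τ δ h = chain S j x' n τ δ h) (i : ℕ) (hi : i < h) :
    (x (n i)).1 (S.sd (chain S j x n τ δ i).1) j =
      (x' (n i)).1 (S.sd (chain S j x n τ δ i).1) j := by
  have h1 := k_walk S j h hg n τ x x' δ hend i hi.le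
  have h2 := k_walk S j h hg n τ x x' δ hend (i + 1) hi
  have h3 : tr S j (x (n i)) (τ i) (chain S j x n τ δ i) =
      tr S j (x' (n i)) (τ i) (chain S j x' n τ δ i) := by
    rw [← k_step, ← k_step, h2]
  rw [← h1] at h3
  have h4 := congrArg Prod.snd h3
  have h5 : (chain S j x n τ δ i).2 + e ((x (n i)).1 (S.sd (chain S j x n τ δ i).1) j + τ i) =
      (chain S j x n τ δ i).2 + e ((x' (n i)).1 (S.sd (chain S j x n τ δ i).1) j + τ i) := h4
  exact add_right_cancel (e_inj _ _ (add_left_cancel h5))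

open Classical in
/-- Shift of the variables read by the walk. -/
noncomputable def kSh {V O J Nn : Type} (S : Sys V O J) (j : J) (h : ℕ) (n : ℕ → Nn)
    (v : ℕ → V) (c : Fin h → ZMod 3) (κ : Nn) (s : Fin 3) (jj : J) : ZMod 3 :=
  ∑ i : Fin h, if n i = κ ∧ s = S.sd (v i) ∧ jj = j then c i else 0

theorem k_sh_at {V O J Nn : Type} (S : Sys V O J) (j : J) (h : ℕ) (n : ℕ → Nn)
    (hn : ∀ i i', i < h → i' < h → n i = n i' → i = i')
    (v : ℕ → V) (c : Fin h → ZMod 3) (i : Fin h) :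
    kSh S j h n v c (n i) (S.sd (v i)) j = c i := by
  classical
  unfold kSh
  rw [Finset.sum_eq_single i]
  · rw [if_pos ⟨rfl, rfl, rfl⟩]
  · intro i' _ hne
    rw [if_neg]
    rintro ⟨h1, _, _⟩
    exact hne (Fin.ext (hn _ _ i'.2 i.2 h1))
  · intro h1
    exact absurd (Finset.mem_univ _) h1

theorem k_sh_off {V O J Nn : Type} (S : Sys V O J) (j : J) (h : ℕ) (n : ℕ → Nn)
    (v : ℕ → V) (c : Fin h → ZMod 3) (κ : Nn) (s : Fin 3) (jj : J)
    (hoff : ∀ i : Fin h, ¬ (n i = κ ∧ s = S.sd (v i) ∧ jj = j)) :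
    kSh S j h n v c κ s jj = 0 := by
  classical
  unfold kSh
  exact Finset.sum_eq_zero (fun i _ => if_neg (hoff i))

theorem t_K : StK := by
  classical
  intro V O J Nn _ _ _ S j h hg n τ hn f g hfg
  have hinj : Function.Injective
      (fun p : {x : Nn → X J // chain S j x n τ (f x) h = g x} × (Fin h → ZMod 3) =>
        (fun κ => ((fun s jj => (p.1.1 κ).1 s jj +
          kSh S j h n (fun i => (chain S j p.1.1 n τ (f p.1.1) i).1) p.2 κ s jj), (p.1.1 κ).2) :
          Nn → X J)) := by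
    rintro ⟨⟨x, hx⟩, c⟩ ⟨⟨x', hx'⟩, c'⟩ heq
    have heq1 : ∀ κ s jj, (x κ).1 s jj +
        kSh S j h n (fun i => (chain S j x n τ (f x) i).1) c κ s jj =
        (x' κ).1 s jj + kSh S j h n (fun i => (chain S j x' n τ (f x') i).1) c' κ s jj := by
      intro κ s jj
      have h1 := congrFun (congrFun (congrArg Prod.fst (congrFun heq κ)) s) jj
      exact h1
    have heq2 : ∀ κ, (x κ).2 = (x' κ).2 := by
      intro κ
      have h1 := congrArg Prod.snd (congrFun heq κ)
      exact h1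
    have hoff : ∀ κ, (∀ i, i < h → n i ≠ κ) → x κ = x' κ := by
      intro κ hκ
      refine Prod.ext ?_ (heq2 κ)
      funext s jj
      have h1 := heq1 κ s jj
      rw [k_sh_off S j h n _ c κ s jj (fun i hi => hκ i i.2 hi.1),
        k_sh_off S j h n _ c' κ s jj (fun i hi => hκ i i.2 hi.1), add_zero, add_zero] at h1
      exact h1
    obtain ⟨hf, hgg⟩ := hfg x x' hoff
    have hend : chain S j x n τ (f x) h = chain S j x' n τ (f x) h := by
      rw [hx, hgg, ← hx', hf]
    have hch : ∀ i : Fin h, (chain S j x' n τ (f x') i).1 = (chain S j x n τ (f x) i).1 := by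
      intro i
      rw [← hf, k_walk S j h hg n τ x x' (f x) hend i i.2.le]
    have hdet := k_det S j h hg n τ x x' (f x) hend
    have hxx : x = x' := by
      funext κ
      refine Prod.ext ?_ (heq2 κ)
      funext s jj
      by_cases hc : ∃ i : Fin h, n i = κ ∧ s = S.sd (chain S j x n τ (f x) i).1 ∧ jj = j
      · obtain ⟨i, rfl, rfl, rfl⟩ := hc
        exact hdet i i.2
      · have h1 := heq1 κ s jj
        rw [k_sh_off S j h n _ c κ s jj (fun i hi => hc ⟨i, hi⟩),
          k_sh_off S j h n _ c' κ s jj (fun i hi => hc ⟨i, by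
            refine ⟨hi.1, ?_, hi.2.2⟩
            rw [← hch i]
            exact hi.2.1⟩), add_zero, add_zero] at h1
        exact h1
    subst hxx
    have hcc : c = c' := by
      funext i
      have h1 := heq1 (n i) (S.sd (chain S j x n τ (f x) i).1) j
      have h2 := k_sh_at S j h n hn (fun i => (chain S j x n τ (f x) i).1) c i
      have h3 := k_sh_at S j h n hn (fun i => (chain S j x n τ (f x) i).1) c' i
      rw [h2, h3] at h1
      exact add_left_cancel h1
    rw [hcc]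
  have hcard := Nat.card_le_card_of_injective _ hinj
  rw [Nat.card_prod] at hcard
  have h3 : Nat.card (Fin h → ZMod 3) = 3 ^ h := by
    rw [Nat.card_eq_fintype_card, Fintype.card_fun, Fintype.card_fin, ZMod.card]
  rw [h3, mul_comm] at hcard
  exact hcard

end Pool.Agent.H9.LG
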