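import Pool.Agent.H9.LG.StmG

set_option autoImplicit false

/-!
# Project LG: labelling the darts
-/

namespace Pool.Agent.H9.LG

open Finset SimpleGraph

theorem lab_equiv {V : Type} [Finite V] (H : SimpleGraph V) (h4 : ∀ v, (H.neighborSet v).ncard = 4)
    (v : V) : Nonempty (Lab ≃ H.neighborSet v) := by
  have h1 : Nat.card (H.neighborSet v) = 4 := by
    rw [Nat.card_coe_set_eq]
    exact h4 v
  have h2 : Nat.card Lab = 4 := by
    rw [Nat.card_eq_fintype_card]
    rfl
  have : Finite (H.neighborSet v) := Subtype.finite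
  exact ⟨(Finite.equivFinOfCardEq h2).trans (Finite.equivFinOfCardEq h1).symm⟩

/-- **LAB.** Labelling the darts. -/
theorem t_LAB : StLAB := by
  classical
  intro V _ H h4
  let L : ∀ v, Lab ≃ H.neighborSet v := fun v => (lab_equiv H h4 v).some
  let lb : V → V → Lab := fun w v => if h : H.Adj w v then (L w).symm ⟨v, h⟩ else 0
  have hadj : ∀ v a, H.Adj v (L v a).1 := fun v a => (L v a).2
  have hlb : ∀ v a, lb v (L v a).1 = a := by
    intro v a
    simp only [lb, dif_pos (hadj v a)]
    exact (L v).symm_apply_apply a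
  have hL : ∀ w v, H.Adj w v → (L w (lb w v)).1 = v := by
    intro w v h
    simp only [lb, dif_pos h]
    rw [(L w).apply_symm_apply]
  refine ⟨fun p => ((L p.1 p.2).1, lb (L p.1 p.2).1 p.1), ?_, ?_, ?_⟩
  · rintro ⟨v, a⟩
    have h1 := hL _ _ (hadj v a).symm
    refine Prod.ext h1 ?_
    show lb (L (L v a).1 (lb (L v a).1 v)).1 (L v a).1 = a
    rw [h1]
    exact hlb v a
  · intro v w
    constructor
    · intro h
      exact ⟨lb v w, hL v w h⟩
    · rintro ⟨a, rfl⟩
      exact hadj v a
  · intro v a a' h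
    have h' : (L v a).1 = (L v a').1 := h
    rw [← hlb v a, h', hlb v a']

end Pool.Agent.H9.LG
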