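import Pool.Agent.H9.LG.Stm

set_option autoImplicit false

/-!
# Project LG, part MO: if all explorations find cut edges, the colour classes have no long walks
-/

namespace Pool.Agent.H9.LG

open Finset

/-! ### the first number with a property -/

theorem mo_fst_spec {L : ℕ} {P : ℕ → Prop} (h : ∃ s, s < L ∧ P s) :
    fst L P < L ∧ P (fst L P) ∧ ∀ s, s < fst L P → ¬ P s := by
  classical
  unfold fst
  rw [dif_pos h]
  refine ⟨(Nat.find_spec h).1, (Nat.find_spec h).2, fun s hs hP => ?_⟩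
  exact Nat.find_min h hs ⟨lt_trans hs (Nat.find_spec h).1, hP⟩

theorem mo_fst_le (L : ℕ) (P : ℕ → Prop) : fst L P ≤ L := by
  classical
  unfold fst
  split_ifs with h
  · exact (Nat.find_spec h).1.le
  · exact Nat.zero_le _

theorem mo_fst_uniq {L : ℕ} {P : ℕ → Prop} {n : ℕ} (hn : n < L) (hP : P n)
    (hm : ∀ s, s < n → ¬ P s) : fst L P = n := by
  obtain ⟨_, h2, h3⟩ := mo_fst_spec (L := L) (P := P) ⟨n, hn, hP⟩
  rcases lt_trichotomy (fst L P) n with h | h | h
  · exact absurd h2 (hm _ h)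
  · exact h
  · exact absurd hP (h3 _ h)

theorem mo_fst_congr {L : ℕ} {P Q : ℕ → Prop} (h : ∀ s, s < L → (P s ↔ Q s)) :
    fst L P = fst L Q := by
  by_cases hP : ∃ s, s < L ∧ P s
  · obtain ⟨h1, h2, h3⟩ := mo_fst_spec hP
    exact (mo_fst_uniq h1 ((h _ h1).1 h2) fun s hs hq => h3 s hs ((h s (hs.trans h1)).2 hq)).symm
  · have hQ : ¬ ∃ s, s < L ∧ Q s := by
      rintro ⟨s, hs, hq⟩
      exact hP ⟨s, hs, (h s hs).2 hq⟩
    classical
    unfold fst
    rw [dif_neg hP, dif_neg hQ]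

theorem mo_zmod (i i₀ : ZMod 3) (h : i ≠ i₀) : i = i₀ + 1 ∨ i = i₀ + 2 := by
  revert i i₀
  decide

section mo

variable {V O J : Type} (S : Sys V O J) (ω : O → X J)

/-- cut darts -/
def mo_cut (j : J) (δ : V × Lab) : Prop :=
  selX S j (ω (S.orb δ.1)) δ ∧ selX S j (ω (S.orb (S.nb j δ).1)) (S.nb j δ)

/-- the partner of a dart -/
def mo_pt (j : J) (δ : V × Lab) : V × Lab := tr S j (ω (S.orb δ.1)) 0 δ

/-- the next dart of the trail -/
def mo_F (j : J) (δ : V × Lab) : V × Lab := mo_pt S ω j (S.nb j δ)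

/-- the number of the first cut dart -/
noncomputable def mo_m (L : ℕ) (j : J) (δ : V × Lab) : ℕ :=
  fst L fun s => mo_cut S ω j ((mo_F S ω j)^[s] δ)

/-- the end of the piece -/
noncomputable def mo_e (L : ℕ) (j : J) (δ : V × Lab) : V × Lab :=
  (mo_F S ω j)^[mo_m S ω L j δ] δ

/-- the phase -/
noncomputable def mo_ph (L : ℕ) (j : J) (δ : V × Lab) : Bool :=
  xor (bit S j (ω (S.orb (mo_e S ω L j δ).1)) (mo_e S ω L j δ))
    (decide (mo_m S ω L j δ % 2 = 1))

open Classical in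
/-- the colour -/
noncomputable def mo_col (L : ℕ) (j : J) (δ : V × Lab) : Bool :=
  if S.rk (mo_e S ω L j δ) < S.rk (mo_e S ω L j (mo_pt S ω j δ))
    then mo_ph S ω L j (mo_pt S ω j δ) else !mo_ph S ω L j δ

theorem mo_pt_fst (j : J) (δ : V × Lab) : (mo_pt S ω j δ).1 = δ.1 := rfl

theorem mo_pt_pt (j : J) (δ : V × Lab) : mo_pt S ω j (mo_pt S ω j δ) = δ :=
  tr_tr S j (ω (S.orb δ.1)) 0 δ

theorem mo_pt_ne (j : J) (δ : V × Lab) : mo_pt S ω j δ ≠ δ := by
  intro h
  have h1 := congrArg Prod.snd h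
  simp only [mo_pt, tr] at h1
  exact e_ne _ (by simpa using h1)

theorem mo_nb_ne (hG : Girth S 1) (j : J) (δ : V × Lab) : S.nb j δ ≠ δ := by
  intro h
  have h1 := hG j (fun _ => δ) 1 le_rfl le_rfl (by intro n hn; omega)
  apply h1
  simp only [h]

theorem mo_cut_nb (j : J) (δ : V × Lab) : mo_cut S ω j (S.nb j δ) ↔ mo_cut S ω j δ := by
  unfold mo_cut
  rw [S.nb_nb]
  exact and_comm

theorem mo_F_pt (j : J) (δ : V × Lab) :
    mo_F S ω j (mo_pt S ω j (mo_F S ω j δ)) = mo_pt S ω j δ := by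
  unfold mo_F
  rw [mo_pt_pt, S.nb_nb]

theorem mo_F_inj (j : J) : Function.Injective (mo_F S ω j) := by
  intro δ δ' h
  have h1 := congrArg (mo_pt S ω j) h
  unfold mo_F at h1
  rw [mo_pt_pt, mo_pt_pt] at h1
  have h2 := congrArg (S.nb j) h1
  rwa [S.nb_nb, S.nb_nb] at h2

/-- `F^k (pt (F^k δ)) = pt δ` -/
theorem mo_F_iter (j : J) (k : ℕ) (δ : V × Lab) :
    (mo_F S ω j)^[k] (mo_pt S ω j ((mo_F S ω j)^[k] δ)) = mo_pt S ω j δ := by
  induction k generalizing δ with
  | zero => rfl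
  | succ k ih =>
    rw [Function.iterate_succ_apply' (mo_F S ω j) k
      (mo_pt S ω j ((mo_F S ω j)^[k + 1] δ)), Function.iterate_succ_apply (mo_F S ω j) k δ, ih,
      mo_F_pt]

theorem mo_F_ne_pt (hG : Girth S 1) (j : J) (n : ℕ) (δ : V × Lab) :
    (mo_F S ω j)^[n] δ ≠ mo_pt S ω j δ := by
  intro h
  rcases Nat.even_or_odd' n with ⟨k, hk | hk⟩
  · rw [hk, two_mul, Function.iterate_add_apply, ← mo_F_iter S ω j k δ] at h
    have h1 := (mo_F_inj S ω j).iterate k h
    exact mo_pt_ne S ω j _ h1.symm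
  · rw [hk, show 2 * k + 1 = k + (k + 1) by ring, Function.iterate_add_apply,
      ← mo_F_iter S ω j k δ] at h
    have h1 := (mo_F_inj S ω j).iterate k h
    rw [Function.iterate_succ_apply'] at h1
    have h2 := congrArg (mo_pt S ω j) h1
    unfold mo_F at h2
    rw [mo_pt_pt, mo_pt_pt] at h2
    exact mo_nb_ne S hG j _ h2

theorem mo_e_ne (hG : Girth S 1) (L : ℕ) (j : J) (δ : V × Lab) :
    mo_e S ω L j δ ≠ mo_e S ω L j (mo_pt S ω j δ) := by
  intro h
  unfold mo_e at h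
  rcases le_total (mo_m S ω L j δ) (mo_m S ω L j (mo_pt S ω j δ)) with hm | hm
  · obtain ⟨n, hn⟩ := Nat.exists_eq_add_of_le hm
    rw [hn, Function.iterate_add_apply] at h
    have h1 := (mo_F_inj S ω j).iterate _ h
    have h2 := mo_F_ne_pt S ω hG j n (mo_pt S ω j δ)
    rw [mo_pt_pt] at h2
    exact h2 h1.symm
  · obtain ⟨n, hn⟩ := Nat.exists_eq_add_of_le hm
    rw [hn, Function.iterate_add_apply] at h
    have h1 := (mo_F_inj S ω j).iterate _ h
    exact mo_F_ne_pt S ω hG j n δ h1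

variable {S ω}

theorem mo_m_nb {L : ℕ} {j : J} (hc : ∀ δ, ∃ s, s < L ∧ mo_cut S ω j ((mo_F S ω j)^[s] δ))
    {δ : V × Lab} (hδ : ¬ mo_cut S ω j δ) :
    mo_m S ω L j δ = mo_m S ω L j (mo_F S ω j δ) + 1 := by
  obtain ⟨h1, h2, h3⟩ := mo_fst_spec (hc δ)
  obtain ⟨k1, k2, k3⟩ := mo_fst_spec (hc (mo_F S ω j δ))
  change mo_m S ω L j δ < L at h1
  change mo_cut S ω j ((mo_F S ω j)^[mo_m S ω L j δ] δ) at h2
  change ∀ s, s < mo_m S ω L j δ → _ at h3
  change mo_m S ω L j (mo_F S ω j δ) < L at k1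
  change mo_cut S ω j ((mo_F S ω j)^[mo_m S ω L j (mo_F S ω j δ)] (mo_F S ω j δ)) at k2
  change ∀ s, s < mo_m S ω L j (mo_F S ω j δ) → _ at k3
  have h0 : mo_m S ω L j δ ≠ 0 := by
    intro h0
    rw [h0] at h2
    exact hδ h2
  obtain ⟨n, hn⟩ := Nat.exists_eq_succ_of_ne_zero h0
  rw [hn] at h1 h2 h3 ⊢
  congr 1
  refine (mo_fst_uniq (n := n) (by omega) ?_ ?_).symm
  · rw [← Function.iterate_succ_apply]; exact h2
  · intro s hs hcs
    rw [← Function.iterate_succ_apply] at hcs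
    exact h3 (s + 1) (by omega) hcs

theorem mo_e_F {L : ℕ} {j : J} (hc : ∀ δ, ∃ s, s < L ∧ mo_cut S ω j ((mo_F S ω j)^[s] δ))
    {δ : V × Lab} (hδ : ¬ mo_cut S ω j δ) :
    mo_e S ω L j δ = mo_e S ω L j (mo_F S ω j δ) := by
  unfold mo_e
  rw [mo_m_nb hc hδ, Function.iterate_succ_apply]

theorem mo_ph_F {L : ℕ} {j : J} (hc : ∀ δ, ∃ s, s < L ∧ mo_cut S ω j ((mo_F S ω j)^[s] δ))
    {δ : V × Lab} (hδ : ¬ mo_cut S ω j δ) :
    mo_ph S ω L j δ = !mo_ph S ω L j (mo_F S ω j δ) := by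
  unfold mo_ph
  rw [← mo_e_F hc hδ, mo_m_nb hc hδ]
  have h1 : decide ((mo_m S ω L j (mo_F S ω j δ) + 1) % 2 = 1) =
      !decide (mo_m S ω L j (mo_F S ω j δ) % 2 = 1) := by
    rcases Nat.mod_two_eq_zero_or_one (mo_m S ω L j (mo_F S ω j δ)) with h | h
    · have h2 : (mo_m S ω L j (mo_F S ω j δ) + 1) % 2 = 1 := by omega
      simp [h, h2]
    · have h2 : (mo_m S ω L j (mo_F S ω j δ) + 1) % 2 = 0 := by omega
      simp [h, h2]
  rw [h1, Bool.xor_not]

/-- the colour of the partner -/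
theorem mo_col_pt (hG : Girth S 1) (L : ℕ) (j : J) (δ : V × Lab) :
    mo_col S ω L j (mo_pt S ω j δ) = !mo_col S ω L j δ := by
  unfold mo_col
  rw [mo_pt_pt]
  have h1 : S.rk (mo_e S ω L j δ) ≠ S.rk (mo_e S ω L j (mo_pt S ω j δ)) := fun h =>
    mo_e_ne S ω hG L j δ (S.rk_inj _ _ h)
  rcases lt_or_gt_of_ne h1 with h | h
  · rw [if_neg (by omega), if_pos h]
  · rw [if_pos h, if_neg (by omega), Bool.not_not]

/-- the colour of the other end -/
theorem mo_col_nb (hG : Girth S 1) {L : ℕ} {j : J}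
    (hc : ∀ δ, ∃ s, s < L ∧ mo_cut S ω j ((mo_F S ω j)^[s] δ))
    {δ : V × Lab} (hδ : ¬ mo_cut S ω j δ) :
    mo_col S ω L j (S.nb j δ) = mo_col S ω L j δ := by
  have hδ' : ¬ mo_cut S ω j (S.nb j δ) := by rwa [mo_cut_nb]
  have hF1 : mo_F S ω j (S.nb j δ) = mo_pt S ω j δ := by unfold mo_F; rw [S.nb_nb]
  have hF2 : mo_F S ω j δ = mo_pt S ω j (S.nb j δ) := rfl
  have e1 := mo_e_F hc hδ'
  have e2 := mo_e_F hc hδ
  have p1 := mo_ph_F hc hδ'
  have p2 := mo_ph_F hc hδ
  rw [hF1] at e1 p1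
  rw [hF2] at e2 p2
  have h1 : S.rk (mo_e S ω L j δ) ≠ S.rk (mo_e S ω L j (mo_pt S ω j δ)) := fun h =>
    mo_e_ne S ω hG L j δ (S.rk_inj _ _ h)
  unfold mo_col
  rw [← e2, e1, p1, p2]
  rcases lt_or_gt_of_ne h1 with h | h
  · rw [if_neg (by omega), if_pos h, Bool.not_not]
  · rw [if_pos h, if_neg (by omega), Bool.not_not]

/-! ### explorations -/

section expl

variable {L : ℕ} {j : J} {c : Bool} {a : V × Lab} {x : Node L → X J}

theorem mo_E2 (hx : ∀ κ, x κ = ω (Y S j L c a x κ)) {t s : ℕ} (ht : t < L) (hs : s < L)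
    (b : Bool) : ext x (some (t, b, s)) =
      ω (S.orb (rayArr S j a (ext x) (dirs S j L c a (ext x) L) t b s).1) := by
  have h1 : ext x (some (t, b, s)) = x (some (⟨t, ht⟩, b, ⟨s, hs⟩)) := by
    unfold ext
    exact dif_pos ⟨ht, hs⟩
  rw [h1, hx]
  rfl

theorem mo_E1 (hx : ∀ κ, x κ = ω (Y S j L c a x κ)) {t : ℕ} (ht : t ≤ L) (hL : 1 ≤ L) :
    ext x (cen (dirs S j L c a (ext x) L) t) =
      ω (S.orb (cenArr S j a (ext x) (dirs S j L c a (ext x) L) t).1) := by
  cases t with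
  | zero => exact hx none
  | succ t => exact mo_E2 hx (by omega) (by omega) _

theorem mo_E3 (hx : ∀ κ, x κ = ω (Y S j L c a x κ)) (hL : 1 ≤ L) {t s : ℕ} (ht : t < L)
    (hs : s ≤ L) (b : Bool) :
    ext x (pos (dirs S j L c a (ext x) L) t b s) =
      ω (S.orb (out S j a (ext x) (dirs S j L c a (ext x) L) t b s).1) := by
  cases s with
  | zero => exact mo_E1 hx ht.le hL
  | succ s => exact mo_E2 hx ht (by omega) b

theorem mo_ray (d : ℕ → Bool) (y : Nd → X J) (t : ℕ) (b : Bool) (s : ℕ) :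
    rayArr S j a y d t b s = S.nb j (out S j a y d t b s) := by
  cases s <;> rfl

theorem mo_E4 (hx : ∀ κ, x κ = ω (Y S j L c a x κ)) {t s : ℕ} (ht : t < L)
    (hs : s < L) (b : Bool) :
    out S j a (ext x) (dirs S j L c a (ext x) L) t b (s + 1) =
      mo_F S ω j (out S j a (ext x) (dirs S j L c a (ext x) L) t b s) := by
  change tr S j (ext x (some (t, b, s))) 0 (rayArr S j a (ext x) _ t b s) = _
  rw [mo_E2 hx ht hs, mo_ray]
  rfl

theorem mo_E5 (hx : ∀ κ, x κ = ω (Y S j L c a x κ)) {t s : ℕ} (ht : t < L)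
    (hs : s ≤ L) (b : Bool) :
    out S j a (ext x) (dirs S j L c a (ext x) L) t b s =
      (mo_F S ω j)^[s] (out S j a (ext x) (dirs S j L c a (ext x) L) t b 0) := by
  induction s with
  | zero => rfl
  | succ s ih => rw [mo_E4 hx ht (by omega), ih (by omega), Function.iterate_succ_apply']

theorem mo_E6 (hx : ∀ κ, x κ = ω (Y S j L c a x κ)) (hL : 1 ≤ L) {t s : ℕ} (ht : t < L)
    (hs : s < L) (b : Bool) :
    cutX S j a (ext x) (dirs S j L c a (ext x) L) t b s ↔
      mo_cut S ω j (out S j a (ext x) (dirs S j L c a (ext x) L) t b s) := by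
  unfold cutX mo_cut
  rw [mo_E3 hx hL ht hs.le]
  have h1 : ext x (pos (dirs S j L c a (ext x) L) t b (s + 1)) =
      ω (S.orb (S.nb j (out S j a (ext x) (dirs S j L c a (ext x) L) t b s)).1) := by
    change ext x (some (t, b, s)) = _
    rw [mo_E2 hx ht hs, mo_ray]
  rw [h1]

theorem mo_E7 (hx : ∀ κ, x κ = ω (Y S j L c a x κ)) (hL : 1 ≤ L) {t : ℕ} (ht : t < L)
    (b : Bool) :
    fX S j L a (ext x) (dirs S j L c a (ext x) L) t b =
      mo_m S ω L j (out S j a (ext x) (dirs S j L c a (ext x) L) t b 0) := by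
  unfold fX mo_m
  refine mo_fst_congr fun s hs => ?_
  rw [mo_E6 hx hL ht hs, mo_E5 hx ht hs.le]

theorem mo_E8 (hx : ∀ κ, x κ = ω (Y S j L c a x κ)) (hL : 1 ≤ L) {t : ℕ} (ht : t < L)
    (b : Bool) :
    ldr S j L a (ext x) (dirs S j L c a (ext x) L) t b =
      mo_e S ω L j (out S j a (ext x) (dirs S j L c a (ext x) L) t b 0) := by
  have h1 : mo_m S ω L j (out S j a (ext x) (dirs S j L c a (ext x) L) t b 0) ≤ L :=
    mo_fst_le _ _
  unfold ldr mo_e
  rw [mo_E7 hx hL ht, mo_E5 hx ht h1]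

theorem mo_E9 (hx : ∀ κ, x κ = ω (Y S j L c a x κ)) (hL : 1 ≤ L) {t : ℕ} (ht : t < L)
    (b : Bool) :
    phi S j L a (ext x) (dirs S j L c a (ext x) L) t b =
      mo_ph S ω L j (out S j a (ext x) (dirs S j L c a (ext x) L) t b 0) := by
  unfold phi mo_ph
  have h1 : fX S j L a (ext x) (dirs S j L c a (ext x) L) t b ≤ L := mo_fst_le _ _
  rw [mo_E3 hx hL ht h1]
  have h2 : out S j a (ext x) (dirs S j L c a (ext x) L) t b
      (fX S j L a (ext x) (dirs S j L c a (ext x) L) t b) =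
      ldr S j L a (ext x) (dirs S j L c a (ext x) L) t b := rfl
  rw [h2, mo_E8 hx hL ht, mo_E7 hx hL ht]

/-- the two darts of the other trail at a centre -/
theorem mo_out_true (hx : ∀ κ, x κ = ω (Y S j L c a x κ)) (hL : 1 ≤ L) {t : ℕ} (ht : t < L) :
    mo_pt S ω j (out S j a (ext x) (dirs S j L c a (ext x) L) t true 0) =
      out S j a (ext x) (dirs S j L c a (ext x) L) t false 0 := by
  have h1 := mo_E1 hx ht.le hL
  change tr S j (ω (S.orb (cenArr S j a (ext x) (dirs S j L c a (ext x) L) t).1)) 0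
    (tr S j (ext x (cen (dirs S j L c a (ext x) L) t)) 1
      (cenArr S j a (ext x) (dirs S j L c a (ext x) L) t)) =
    tr S j (ext x (cen (dirs S j L c a (ext x) L) t)) 2
      (cenArr S j a (ext x) (dirs S j L c a (ext x) L) t)
  rw [h1]
  simp only [tr, add_zero, add_assoc]
  rw [add_comm (e (_ + 1)), e_add1]

theorem mo_E10 (hx : ∀ κ, x κ = ω (Y S j L c a x κ)) (hL : 1 ≤ L) {t : ℕ} (ht : t < L) :
    colA S j L a (ext x) (dirs S j L c a (ext x) L) t =
      mo_col S ω L j (out S j a (ext x) (dirs S j L c a (ext x) L) t true 0) := by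
  unfold colA mo_col
  rw [mo_E8 hx hL ht, mo_E8 hx hL ht, mo_E9 hx hL ht, mo_E9 hx hL ht, mo_out_true hx hL ht]

end expl

end mo

theorem t_MO (hDR : StDR) : StMO := by
  intro V O J S L hL hG ω hex hno
  -- all trails have cut edges
  have key : ∀ (j : J) (c : Bool) (a : V × Lab), ∃ x : Node L → X J,
      (∀ κ, x κ = ω (Y S j L c a x κ)) ∧
      out S j a (ext x) (dirs S j L c a (ext x) L) 0 true 0 = tr S j (ω (S.orb a.1)) 1 a := by
    intro j c a
    obtain ⟨x, hx⟩ := hex j c a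
    refine ⟨x, hx, ?_⟩
    change tr S j (ext x none) 1 a = _
    have h1 : ext x none = ω (S.orb a.1) := hx none
    rw [h1]
  have hc : ∀ (j : J) (δ : V × Lab), ∃ s, s < L ∧ mo_cut S ω j ((mo_F S ω j)^[s] δ) := by
    intro j δ
    obtain ⟨x, hx, ho⟩ := key j true (tr S j (ω (S.orb δ.1)) 1 δ)
    have h1 := hno j true _ x hx
    unfold NoCut at h1
    push Not at h1
    obtain ⟨s, hs, hcs⟩ := h1.1 0 (by omega) true
    refine ⟨s, hs, ?_⟩
    rw [mo_E6 hx hL (by omega) hs, mo_E5 hx (by omega) hs.le, ho] at hcs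
    have h2 : tr S j (ω (S.orb (tr S j (ω (S.orb δ.1)) 1 δ).1)) 1
        (tr S j (ω (S.orb δ.1)) 1 δ) = δ := tr_tr S j (ω (S.orb δ.1)) 1 δ
    rwa [h2] at hcs
  refine ⟨mo_cut S ω, mo_col S ω L, mo_pt S ω, ?_, ?_, ?_, ?_, ?_, ?_⟩
  · exact fun j δ => mo_cut_nb S ω j δ
  · intro j δ h
    refine ⟨h.1.2, ?_⟩
    rw [h.1.1]
  · intro j δ j' δ' h h' ho
    have h1 := h.1.1
    have h2 := h'.1.1
    rw [ho, h2] at h1
    have h3 : S.sd δ'.1 = S.sd δ.1 := congrArg Prod.fst h1
    have h4 : (j', δ'.2) = (j, δ.2) := congrArg Prod.snd h1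
    have h5 : j' = j := (Prod.mk.inj h4).1
    have h6 : δ'.2 = δ.2 := (Prod.mk.inj h4).2
    refine ⟨h5.symm, ?_⟩
    exact Prod.ext (S.inj _ _ ho h3.symm) h6.symm
  · intro j δ h
    exact mo_col_nb hG (hc j) h
  · intro j δ
    exact ⟨rfl, mo_pt_pt S ω j δ, mo_pt_ne S ω j δ, mo_col_pt hG L j δ⟩
  · intro j c δ hR hall
    obtain ⟨x, hx, ho⟩ := key j c (tr S j (ω (S.orb (δ 0).1)) 1 (δ 0))
    set a := tr S j (ω (S.orb (δ 0).1)) 1 (δ 0) with ha
    set d := dirs S j L c a (ext x) L with hd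
    have ho' : out S j a (ext x) d 0 true 0 = δ 0 := by
      rw [ho]
      exact tr_tr S j (ω (S.orb (δ 0).1)) 1 (δ 0)
    have hdir : ∀ t, t < L →
        decide (mo_col S ω L j (out S j a (ext x) d t true 0) = c) = d t := by
      intro t ht
      have h1 := (hDR V O J S j L c a (ext x)).1 t ht
      rwa [mo_E10 hx hL ht] at h1
    have hind : ∀ t, t < L → out S j a (ext x) d t (d t) 0 = δ t := by
      intro t
      induction t with
      | zero =>
        intro ht
        have h1 := hdir 0 ht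
        rw [ho', (hall 0 ht).2] at h1
        have h2 : d 0 = true := by rw [← h1]; simp
        rw [h2]
        exact ho'
      | succ t ih =>
        intro ht
        have iht := ih (by omega)
        obtain ⟨hr1, hr2⟩ := hR t ht
        -- the arrival dart
        have hcen : cenArr S j a (ext x) d (t + 1) = S.nb j (δ t) := by
          rw [← iht]; rfl
        have hX : ext x (cen d (t + 1)) = ω (S.orb (S.nb j (δ t)).1) := by
          rw [← hcen]
          exact mo_E1 hx ht.le hL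
        have hot : out S j a (ext x) d (t + 1) true 0 =
            tr S j (ω (S.orb (S.nb j (δ t)).1)) 1 (S.nb j (δ t)) := by
          change tr S j (ext x (cen d (t + 1))) 1 (cenArr S j a (ext x) d (t + 1)) = _
          rw [hX, hcen]
        have hof : out S j a (ext x) d (t + 1) false 0 =
            tr S j (ω (S.orb (S.nb j (δ t)).1)) 2 (S.nb j (δ t)) := by
          change tr S j (ext x (cen d (t + 1))) 2 (cenArr S j a (ext x) d (t + 1)) = _
          rw [hX, hcen]
        have hpt := mo_out_true hx hL ht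
        rw [← hd] at hpt
        -- colours
        have hcn : mo_col S ω L j (S.nb j (δ t)) = c := by
          rw [mo_col_nb hG (hc j) (hall t (by omega)).1]
          exact (hall t (by omega)).2
        have hcp : mo_col S ω L j (mo_pt S ω j (S.nb j (δ t))) = !c := by
          rw [mo_col_pt hG, hcn]
        have hc1 := (hall (t + 1) ht).2
        have hne : δ (t + 1) ≠ mo_pt S ω j (S.nb j (δ t)) := by
          intro h
          rw [← h, hc1] at hcp
          cases c <;> simp at hcp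
        obtain ⟨i, hi⟩ := e_surj (S.nb j (δ t)).2 (δ (t + 1)).2 (Ne.symm hr2)
        set i₀ := (ω (S.orb (S.nb j (δ t)).1)).1 (S.sd (S.nb j (δ t)).1) j with hi₀
        have hi0 : i ≠ i₀ := by
          rintro rfl
          apply hne
          refine Prod.ext hr1 ?_
          rw [hi]
          simp only [mo_pt, tr, add_zero]
          rw [← hi₀]
        have hi12 : i = i₀ + 1 ∨ i = i₀ + 2 := mo_zmod i i₀ hi0
        have h1 := hdir (t + 1) ht
        rcases hi12 with h | h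
        · have hδ : out S j a (ext x) d (t + 1) true 0 = δ (t + 1) := by
            rw [hot]
            refine Prod.ext hr1.symm ?_
            rw [hi, h]
            rfl
          rw [hδ, hc1] at h1
          have h2 : d (t + 1) = true := by rw [← h1]; simp
          rw [h2]
          exact hδ
        · have hδ : out S j a (ext x) d (t + 1) false 0 = δ (t + 1) := by
            rw [hof]
            refine Prod.ext hr1.symm ?_
            rw [hi, h]
            rfl
          have h3 : mo_col S ω L j (out S j a (ext x) d (t + 1) true 0) = !c := by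
            have h4 := mo_col_pt (ω := ω) hG L j (out S j a (ext x) d (t + 1) true 0)
            rw [hpt, hδ, hc1] at h4
            rw [h4, Bool.not_not]
          rw [h3] at h1
          have h2 : d (t + 1) = false := by
            rw [← h1]
            cases c <;> simp
          rw [h2]
          exact hδ
    apply hno j c a x hx
    right
    intro t ht hcut
    rw [mo_E6 hx hL ht (by omega)] at hcut
    rw [← hd, hind t ht] at hcut
    exact (hall t ht).1 hcut

end Pool.Agent.H9.LG
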