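import Pool.Agent.H9.LG.Stm

set_option autoImplicit false

namespace Pool.Agent.H9.LG

open Finset

section
variable {V O J Nn : Type} {S : Sys V O J} {j : J} {T : Tree Nn}
  {A : V × Lab → (Nn → X J) → Nn → V × Lab}

theorem near_ne_root {ν : Nn} (h : T.dep ν ≠ 0) : ν ≠ T.root := by
  rintro rfl
  exact h T.dep_root

theorem near_nb (hA : IsArr S j T A) (a : V × Lab) (x : Nn → X J) {ν : Nn} (h : T.dep ν ≠ 0) :
    S.nb j (A a x ν) = tr S j (x (T.par ν)) (T.ty ν) (A a x (T.par ν)) := by
  rw [hA.2 a x ν (near_ne_root h), dn, S.nb_nb]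

theorem near_dep (ν : Nn) : ∀ k, k ≤ T.dep ν → T.dep (T.par^[k] ν) = T.dep ν - k
  | 0, _ => rfl
  | k + 1, h => by
    have h1 := near_dep ν k (by omega)
    have h2 : T.dep (T.par^[k] ν) ≠ 0 := by omega
    have h3 := T.dep_par _ (near_ne_root h2)
    rw [Function.iterate_succ_apply']
    omega

theorem near_dep_ne (ν : Nn) (k : ℕ) (h : k < T.dep ν) : T.dep (T.par^[k] ν) ≠ 0 := by
  rw [near_dep ν k h.le]
  omega

theorem near_base {g : ℕ} (hg : Girth S g) (hA : IsArr S j T A) (a : V × Lab) (x : Nn → X J)
    (μ ν : Nn) (i i' : ℕ) (hi : i ≤ T.dep μ) (hi' : i' ≤ T.dep ν)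
    (he : T.par^[i] μ = T.par^[i'] ν) (hig : i + i' ≤ g) (hne : μ ≠ ν)
    (hmin : 1 ≤ i → 1 ≤ i' → T.par^[i - 1] μ ≠ T.par^[i' - 1] ν) :
    S.orb (A a x μ).1 ≠ S.orb (A a x ν).1 := by
  have hd : 1 ≤ i + i' := by
    by_contra h
    obtain rfl : i = 0 := by omega
    obtain rfl : i' = 0 := by omega
    exact hne he
  set δ : ℕ → V × Lab := fun n =>
    if n < i then A a x (T.par^[n] μ) else S.nb j (A a x (T.par^[i' - 1 - (n - i)] ν)) with hδ
  have key := hg j δ (i + i') hd hig ?_
  · have e0 : (δ 0).1 = (A a x μ).1 := by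
      by_cases h0 : 0 < i
      · simp [hδ, h0]
      · obtain rfl : i = 0 := by omega
        have h1 : i' - 1 < T.dep ν := by omega
        have h2 : T.par (T.par^[i' - 1] ν) = μ := by
          rw [← Function.iterate_succ_apply' T.par, show (i' - 1).succ = i' by omega, ← he]
          rfl
        simp only [hδ, lt_self_iff_false, if_false, Nat.sub_zero]
        rw [near_nb hA a x (near_dep_ne ν _ h1), h2]
        rfl
    have e1 : (S.nb j (δ (i + i' - 1))).1 = (A a x ν).1 := by
      by_cases h0 : 1 ≤ i'
      · have h1 : ¬ i + i' - 1 < i := by omega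
        simp only [hδ, h1, if_false]
        rw [show i' - 1 - (i + i' - 1 - i) = 0 by omega, S.nb_nb]
        rfl
      · obtain rfl : i' = 0 := by omega
        have h1 : i + 0 - 1 < i := by omega
        have h2 : T.par (T.par^[i - 1] μ) = ν := by
          rw [← Function.iterate_succ_apply' T.par, show (i - 1).succ = i by omega, he]
          rfl
        simp only [hδ, h1, if_true]
        rw [show i + 0 - 1 = i - 1 by omega, near_nb hA a x (near_dep_ne μ _ (by omega)), h2]
        rfl
    rwa [e0, e1] at key
  · intro n hn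
    rcases lt_trichotomy (n + 1) i with h | h | h
    · have h1 : n < i := by omega
      simp only [hδ, h, h1, if_true]
      rw [near_nb hA a x (near_dep_ne μ _ (by omega)), ← Function.iterate_succ_apply' T.par n μ]
      refine ⟨rfl, ?_⟩
      simp only [tr]
      intro h2
      have := left_eq_add.1 h2
      exact e_ne _ this
    · have h1 : n < i := by omega
      have h1' : ¬ n + 1 < i := by omega
      have hi1 : 1 ≤ i' := by omega
      have hP : T.par (T.par^[n] μ) = T.par (T.par^[i' - 1] ν) := by
        rw [← Function.iterate_succ_apply' T.par, ← Function.iterate_succ_apply' T.par,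
          show (i' - 1).succ = i' by omega, ← he, ← h]
      have hN : T.par^[n] μ ≠ T.par^[i' - 1] ν := by
        have := hmin (by omega) hi1
        rwa [show i - 1 = n by omega] at this
      have hd1 := near_dep_ne μ n (show n < T.dep μ by omega)
      have hd2 := near_dep_ne ν (i' - 1) (show i' - 1 < T.dep ν by omega)
      simp only [hδ, h1, h1', if_true, if_false]
      rw [show i' - 1 - (n + 1 - i) = i' - 1 by omega, near_nb hA a x hd1, near_nb hA a x hd2, hP]
      refine ⟨rfl, ?_⟩
      simp only [tr]
      intro h2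
      have h3 := e_inj _ _ (add_left_cancel h2)
      have h4 := add_left_cancel h3
      exact hN (T.sib _ _ (near_ne_root hd1) (near_ne_root hd2) hP h4.symm)
    · have h1 : ¬ n < i := by omega
      have h1' : ¬ n + 1 < i := by omega
      simp only [hδ, h1, h1', if_false]
      obtain ⟨k, hk⟩ : ∃ k, k = i' - 1 - (n + 1 - i) := ⟨_, rfl⟩
      rw [S.nb_nb, ← hk, show i' - 1 - (n - i) = k + 1 by omega,
        near_nb hA a x (near_dep_ne ν k (by omega)), ← Function.iterate_succ_apply' T.par k ν]
      refine ⟨rfl, ?_⟩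
      simp only [tr]
      intro h2
      have := add_eq_left.1 h2
      exact e_ne _ this

end

theorem t_NEAR : StNear := by
  intro V O J Nn S j g hg T A hA a x μ ν i
  induction i with
  | zero =>
    intro i' hi hi' he hig hne
    exact near_base hg hA a x μ ν 0 i' hi hi' he hig hne (fun h => absurd h (by omega))
  | succ i ih =>
    intro i' hi hi' he hig hne
    by_cases h : 1 ≤ i' ∧ T.par^[i] μ = T.par^[i' - 1] ν
    · exact ih (i' - 1) (by omega) (by omega) h.2 (by omega) hne
    · refine near_base hg hA a x μ ν (i + 1) i' hi hi' he hig hne (fun _ h2 h3 => h ⟨h2, ?_⟩)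
      simpa using h3

end Pool.Agent.H9.LG
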