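import Pool.Agent.H9.LG.Stm

set_option autoImplicit false

/-!
# Project LG: numerical parameters (StNU)
-/

namespace Pool.Agent.H9.LG

theorem nu_T1 (n L q : ℝ) (hn : 1 ≤ n) (hL : L = 172800 * n ^ 3) (hq : n ≤ q) :
    4 * (1 + 2 * L * L) * (2 * n * ((1 + 2 * L * L) ^ 3 * 144 / (3 ^ 110 * q ^ 25))) ≤ 1 / 3 := by
  have hL1 : 1 ≤ L := by
    rw [hL]
    have : 1 ≤ n ^ 3 := one_le_pow₀ hn
    linarith
  have hq0 : 0 < q := by linarith
  have h1 : 1 + 2 * L * L ≤ 3 * L ^ 2 := by nlinarith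
  have h0 : 0 ≤ 1 + 2 * L * L := by positivity
  have h2 : n ^ 25 ≤ q ^ 25 := pow_le_pow_left₀ (by linarith) hq 25
  have h3 : 4 * (1 + 2 * L * L) * (2 * n * ((1 + 2 * L * L) ^ 3 * 144 / (3 ^ 110 * q ^ 25))) =
      1152 * n * (1 + 2 * L * L) ^ 4 / (3 ^ 110 * q ^ 25) := by
    field_simp
    ring
  rw [h3, div_le_iff₀ (by positivity)]
  calc 1152 * n * (1 + 2 * L * L) ^ 4 ≤ 1152 * n * (3 * L ^ 2) ^ 4 := by gcongr
    _ = (1152 * 81 * 172800 ^ 8) * n ^ 25 := by rw [hL]; ring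
    _ ≤ (1 / 3 * 3 ^ 110) * q ^ 25 := by
        apply mul_le_mul _ h2 (by positivity) (by norm_num)
        norm_num
    _ = _ := by ring

theorem nu_T2 (n L E : ℝ) (hn : 1 ≤ n) (hL : L = 172800 * n ^ 3) (hE0 : 0 ≤ E)
    (hE : E ≤ Real.exp (-(200 * n))) :
    4 * (1 + 2 * L * L) * (2 * n * ((1 + 2 * L * L) * 12 * (2 * L + 1) * E)) ≤ 1 / 3 := by
  have hL1 : 1 ≤ L := by
    rw [hL]
    have : 1 ≤ n ^ 3 := one_le_pow₀ hn
    linarith
  have h1 : 1 + 2 * L * L ≤ 3 * L ^ 2 := by nlinarith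
  have h0 : 0 ≤ 1 + 2 * L * L := by positivity
  have h2 : 2 * L + 1 ≤ 3 * L := by linarith
  have hne : n ≤ Real.exp n := by linarith [Real.add_one_le_exp n]
  have h4 : n ^ 16 * Real.exp (-(200 * n)) ≤ (1 / 2) ^ 184 := by
    have e1 : n ^ 16 ≤ Real.exp n ^ 16 := pow_le_pow_left₀ (by linarith) hne 16
    calc n ^ 16 * Real.exp (-(200 * n)) ≤ Real.exp n ^ 16 * Real.exp (-(200 * n)) := by gcongr
      _ = Real.exp (-(184 * n)) := by
          rw [← Real.exp_nat_mul, ← Real.exp_add]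
          congr 1
          push_cast
          ring
      _ ≤ Real.exp (-184) := Real.exp_le_exp.2 (by linarith)
      _ = (Real.exp (-1)) ^ 184 := by
          rw [← Real.exp_nat_mul]
          congr 1
          norm_num
      _ ≤ (1 / 2) ^ 184 := by
          refine pow_le_pow_left₀ (Real.exp_pos _).le ?_ 184
          rw [Real.exp_neg, one_div]
          refine inv_anti₀ (by norm_num) ?_
          have := Real.add_one_le_exp (1 : ℝ)
          linarith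
  calc 4 * (1 + 2 * L * L) * (2 * n * ((1 + 2 * L * L) * 12 * (2 * L + 1) * E))
      ≤ 4 * (3 * L ^ 2) * (2 * n * ((3 * L ^ 2) * 12 * (3 * L) * Real.exp (-(200 * n)))) := by
        gcongr
    _ = (2592 * 172800 ^ 5) * (n ^ 16 * Real.exp (-(200 * n))) := by rw [hL]; ring
    _ ≤ (2592 * 172800 ^ 5) * (1 / 2) ^ 184 := by gcongr
    _ ≤ 1 / 3 := by norm_num

theorem nu_pow (m : ℕ) : ((m : ℝ) + 2) ≤ 2 * (3 / 2) ^ m := by
  induction m with
  | zero => norm_num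
  | succ m ih =>
    rw [pow_succ]
    push_cast
    have : (0 : ℝ) ≤ m := Nat.cast_nonneg m
    linarith

theorem nu_T3 (n L q : ℝ) (m : ℕ) (hn : 1 ≤ n) (hL : L = 172800 * n ^ 3) (hq : n ≤ q)
    (hm : (2 : ℝ) ^ 50 * q ^ 6 ≤ (6 / 5) ^ m) :
    4 * (1 + 2 * L * L) * ((6 * (m + 2) : ℝ) * (5 / 9 : ℝ) ^ m) ≤ 1 / 3 := by
  have hL1 : 1 ≤ L := by
    rw [hL]
    have : 1 ≤ n ^ 3 := one_le_pow₀ hn
    linarith
  have h1 : 1 + 2 * L * L ≤ 3 * L ^ 2 := by nlinarith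
  have h0 : 0 ≤ 1 + 2 * L * L := by positivity
  have h2 := nu_pow m
  have h3 : (6 / 5 : ℝ) ^ m * (5 / 6) ^ m = 1 := by
    rw [← mul_pow]; norm_num
  have h5 : (0 : ℝ) < (5 / 6) ^ m := by positivity
  have h6 : n ^ 6 ≤ q ^ 6 := pow_le_pow_left₀ (by linarith) hq 6
  calc 4 * (1 + 2 * L * L) * ((6 * (m + 2) : ℝ) * (5 / 9 : ℝ) ^ m)
      ≤ 4 * (3 * L ^ 2) * ((6 * (2 * (3 / 2) ^ m)) * (5 / 9 : ℝ) ^ m) := by gcongr
    _ = 144 * L ^ 2 * ((3 / 2) ^ m * (5 / 9) ^ m) := by ring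
    _ = (144 * 172800 ^ 2) * n ^ 6 * (5 / 6) ^ m := by
        rw [← mul_pow, hL]; norm_num; ring
    _ ≤ (144 * 172800 ^ 2) * q ^ 6 * (5 / 6) ^ m := by gcongr
    _ = (144 * 172800 ^ 2) / 2 ^ 50 * ((2 ^ 50 * q ^ 6) * (5 / 6) ^ m) := by ring
    _ ≤ (144 * 172800 ^ 2) / 2 ^ 50 * ((6 / 5) ^ m * (5 / 6) ^ m) := by gcongr
    _ ≤ 1 / 3 := by rw [h3]; norm_num

theorem t_NU : StNU := by
  refine ⟨1000, fun n hn => ?_⟩
  have hn' : (1 : ℝ) ≤ n := by exact_mod_cast hn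
  have hlog : 0 ≤ Real.log n := Real.log_nonneg hn'
  set q : ℕ := ⌈Real.log n⌉₊ with hq
  have hq1 : Real.log n ≤ q := Nat.le_ceil _
  have hq2 : (q : ℝ) < Real.log n + 1 := Nat.ceil_lt_add_one hlog
  have hq3 : q ≤ n := by
    rw [hq, Nat.ceil_le]
    have := Real.log_le_sub_one_of_pos (by linarith : (0 : ℝ) < n)
    linarith
  have hne : (n : ℝ) ≤ Real.exp 1 ^ q := by
    rw [← Real.exp_nat_mul, mul_one]
    calc (n : ℝ) = Real.exp (Real.log n) := (Real.exp_log (by linarith)).symm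
      _ ≤ _ := Real.exp_le_exp.2 hq1
  have he := Real.exp_one_lt_d9
  have hn3 : (n : ℝ) ≤ 3 ^ q := hne.trans (pow_le_pow_left₀ (Real.exp_pos 1).le (by linarith) q)
  have hn6 : (n : ℝ) ≤ ((6 / 5) ^ 6) ^ q :=
    hne.trans (pow_le_pow_left₀ (Real.exp_pos 1).le (by norm_num; linarith) q)
  refine ⟨172800 * n ^ 3, 110 + 25 * q, 240 + 36 * q, ?_, by omega, ?_, ?_, ?_, ?_⟩
  · have : 1 ≤ n ^ 3 := Nat.one_le_pow _ _ hn
    omega
  · have h1 : n ≤ n ^ 3 := Nat.le_self_pow (by norm_num) n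
    have h2 : 1 ≤ n ^ 3 := Nat.one_le_pow _ _ hn
    nlinarith
  · push_cast
    linarith
  · push_cast
    linarith
  · have hL : ((172800 * n ^ 3 : ℕ) : ℝ) = 172800 * (n : ℝ) ^ 3 := by push_cast; ring
    have hdiv : (172800 * n ^ 3 + 1) / 6 = 28800 * n ^ 3 := by omega
    rw [hdiv]
    set E : ℝ := (1 - 1 / ((12 * n) ^ 2 : ℝ)) ^ (28800 * n ^ 3) with hE
    have hb : 1 / ((12 * n) ^ 2 : ℝ) ≤ 1 := by
      rw [div_le_one (by positivity)]
      nlinarith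
    have hE0 : 0 ≤ E := pow_nonneg (by linarith) _
    have hE1 : E ≤ Real.exp (-(200 * n)) := by
      have h1 : 1 - 1 / ((12 * n) ^ 2 : ℝ) ≤ Real.exp (-(1 / ((12 * n) ^ 2 : ℝ))) := by
        have := Real.add_one_le_exp (-(1 / ((12 * n) ^ 2 : ℝ)))
        linarith
      calc E ≤ Real.exp (-(1 / ((12 * n) ^ 2 : ℝ))) ^ (28800 * n ^ 3) :=
            pow_le_pow_left₀ (by linarith) h1 _
        _ = Real.exp (-(200 * n)) := by
            rw [← Real.exp_nat_mul]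
            congr 1
            push_cast
            have : (n : ℝ) ≠ 0 := by linarith
            field_simp
            norm_num
    have t1 := nu_T1 n (172800 * (n : ℝ) ^ 3) (3 ^ q) hn' rfl hn3
    have t2 := nu_T2 n (172800 * (n : ℝ) ^ 3) E hn' rfl hE0 hE1
    have t3 := nu_T3 n (172800 * (n : ℝ) ^ 3) (((6 / 5) ^ 6) ^ q) (240 + 36 * q) hn' rfl hn6 (by
      rw [pow_add, ← pow_mul, ← pow_mul, show 6 * (q * 6) = 36 * q by ring]
      gcongr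
      norm_num)
    have h3 : (3 : ℝ) ^ (110 + 25 * q) = 3 ^ 110 * (3 ^ q) ^ 25 := by
      rw [pow_add, ← pow_mul, mul_comm 25 q]
    rw [hL, h3]
    calc _ = 4 * (1 + 2 * (172800 * (n : ℝ) ^ 3) * (172800 * (n : ℝ) ^ 3)) *
          (2 * n * ((1 + 2 * (172800 * (n : ℝ) ^ 3) * (172800 * (n : ℝ) ^ 3)) ^ 3 * 144 /
            (3 ^ 110 * (3 ^ q) ^ 25))) +
          4 * (1 + 2 * (172800 * (n : ℝ) ^ 3) * (172800 * (n : ℝ) ^ 3)) *
          (2 * n * ((1 + 2 * (172800 * (n : ℝ) ^ 3) * (172800 * (n : ℝ) ^ 3)) * 12 *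
            (2 * (172800 * (n : ℝ) ^ 3) + 1) * E)) +
          4 * (1 + 2 * (172800 * (n : ℝ) ^ 3) * (172800 * (n : ℝ) ^ 3)) *
          ((6 * (((240 + 36 * q : ℕ) : ℝ) + 2) : ℝ) * (5 / 9 : ℝ) ^ (240 + 36 * q)) := by ring
      _ ≤ 1 / 3 + 1 / 3 + 1 / 3 := add_le_add (add_le_add t1 t2) t3
      _ = 1 := by norm_num

end Pool.Agent.H9.LG
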