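import Pool.Agent.H9.LG.StmG

set_option autoImplicit false

/-!
# Project LG: a `2`-regular graph is the graph of a permutation
-/

namespace Pool.Agent.H9.LG

open Finset SimpleGraph H931R3.LA

/-- A balanced orientation of the edges of a `2`-regular graph. -/
theorem prm_orient {V : Type} [Fintype V] [DecidableEq V] (F : SimpleGraph V)
    (hF : ∀ v, (F.neighborSet v).ncard = 2) (o : V ≃ Fin (Fintype.card V)) :
    ∃ t : {p : V × V // F.Adj p.1 p.2 ∧ o p.1 < o p.2} → Bool,
      (∀ v, ∃! e, (if t e then e.1.1 else e.1.2) = v) ∧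
      (∀ v, ∃! e, (if t e then e.1.2 else e.1.1) = v) := by
  classical
  have hcard : ∀ v, (univ.filter (fun e : {p : V × V // F.Adj p.1 p.2 ∧ o p.1 < o p.2} =>
      e.1.1 = v)).card + (univ.filter (fun e : {p : V × V // F.Adj p.1 p.2 ∧ o p.1 < o p.2} =>
      e.1.2 = v)).card = 2 * 1 := by
    intro v
    have h1 : (univ.filter (fun e : {p : V × V // F.Adj p.1 p.2 ∧ o p.1 < o p.2} =>
        e.1.1 = v)).card = (univ.filter (fun w => F.Adj v w ∧ o v < o w)).card := by
      refine Finset.card_bij (fun e _ => e.1.2) ?_ ?_ ?_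
      · rintro ⟨⟨a, b⟩, hab⟩ he
        simp only [mem_filter, mem_univ, true_and] at he ⊢
        subst he
        exact hab
      · rintro ⟨⟨a, b⟩, hab⟩ he ⟨⟨a', b'⟩, hab'⟩ he' h
        simp only [mem_filter, mem_univ, true_and] at he he' h
        subst he he' h
        rfl
      · intro w hw
        simp only [mem_filter, mem_univ, true_and] at hw
        exact ⟨⟨(v, w), hw⟩, by simp, rfl⟩
    have h2 : (univ.filter (fun e : {p : V × V // F.Adj p.1 p.2 ∧ o p.1 < o p.2} =>
        e.1.2 = v)).card = (univ.filter (fun w => F.Adj v w ∧ o w < o v)).card := by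
      refine Finset.card_bij (fun e _ => e.1.1) ?_ ?_ ?_
      · rintro ⟨⟨a, b⟩, hab⟩ he
        simp only [mem_filter, mem_univ, true_and] at he ⊢
        subst he
        exact ⟨hab.1.symm, hab.2⟩
      · rintro ⟨⟨a, b⟩, hab⟩ he ⟨⟨a', b'⟩, hab'⟩ he' h
        simp only [mem_filter, mem_univ, true_and] at he he' h
        subst he he' h
        rfl
      · intro w hw
        simp only [mem_filter, mem_univ, true_and] at hw
        exact ⟨⟨(w, v), hw.1.symm, hw.2⟩, by simp, rfl⟩
    rw [h1, h2, ← Finset.card_union_of_disjoint]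
    · have h3 : (univ.filter (fun w => F.Adj v w ∧ o v < o w)) ∪
          (univ.filter (fun w => F.Adj v w ∧ o w < o v)) = univ.filter (fun w => F.Adj v w) := by
        ext w
        simp only [mem_union, mem_filter, mem_univ, true_and]
        constructor
        · rintro (h | h)
          · exact h.1
          · exact h.1
        · intro h
          have h4 : o v ≠ o w := fun e => h.ne (o.injective e)
          rcases lt_or_gt_of_ne h4 with h5 | h5
          · exact Or.inl ⟨h, h5⟩
          · exact Or.inr ⟨h, h5⟩
      rw [h3, mul_one, ← hF v, ← Set.ncard_coe_finset]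
      congr 1
      ext w
      simp
    · rw [Finset.disjoint_filter]
      rintro w - h h'
      exact lt_asymm h.2 h'.2
  obtain ⟨t, ht1, ht2⟩ := Pool.Agent.W111.LAR.orient (fun e : {p : V × V // F.Adj p.1 p.2 ∧ o p.1 < o p.2} => e.1.1)
    (fun e => e.1.2) 1 hcard
  refine ⟨t, ?_, ?_⟩
  · intro v
    obtain ⟨e, he⟩ := Finset.card_eq_one.1 (ht1 v)
    refine ⟨e, ?_, ?_⟩
    · have : e ∈ ({e} : Finset _) := Finset.mem_singleton_self e
      rw [← he] at this
      exact (Finset.mem_filter.1 this).2
    · intro e' he'
      have : e' ∈ ({e} : Finset _) := by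
        rw [← he]; exact Finset.mem_filter.2 ⟨Finset.mem_univ _, he'⟩
      exact Finset.mem_singleton.1 this
  · intro v
    obtain ⟨e, he⟩ := Finset.card_eq_one.1 (ht2 v)
    refine ⟨e, ?_, ?_⟩
    · have : e ∈ ({e} : Finset _) := Finset.mem_singleton_self e
      rw [← he] at this
      exact (Finset.mem_filter.1 this).2
    · intro e' he'
      have : e' ∈ ({e} : Finset _) := by
        rw [← he]; exact Finset.mem_filter.2 ⟨Finset.mem_univ _, he'⟩
      exact Finset.mem_singleton.1 this

theorem t_PRM : StPRM := by
  intro V _ F hF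
  classical
  have := Fintype.ofFinite V
  obtain ⟨o⟩ : Nonempty (V ≃ Fin (Fintype.card V)) := ⟨Fintype.equivFin V⟩
  obtain ⟨t, ht1, ht2⟩ := prm_orient F hF o
  choose e he1 he2 using ht1
  choose e' he1' he2' using ht2
  simp only at he1 he2 he1' he2'
  -- the successor
  let s0 : V → V := fun v => if t (e v) then (e v).1.2 else (e v).1.1
  have hs0 : Function.Injective s0 := by
    intro v w h
    have h1 : e v = e' (s0 v) := he2' _ _ rfl
    have h2 : e w = e' (s0 v) := he2' _ _ h.symm
    have h3 : e v = e w := h1.trans h2.symm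
    rw [← he1 v, ← he1 w, h3]
  let s : Equiv.Perm V := Equiv.ofBijective s0 (Finite.injective_iff_bijective.1 hs0)
  have hadj : ∀ v, F.Adj v (s0 v) := by
    intro v
    have h1 := he1 v
    have h2 := (e v).2.1
    by_cases h : t (e v) = true
    · simp only [h, if_true] at h1
      have h3 : s0 v = (e v).1.2 := by simp only [s0, h, if_true]
      rw [h3]
      rw [h1] at h2
      exact h2
    · simp only [h] at h1
      have h3 : s0 v = (e v).1.1 := by simp only [s0, h]; simp
      rw [h3]
      simp only [Bool.false_eq_true, if_false] at h1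
      rw [h1] at h2
      exact h2.symm
  have hfor : ∀ v w, F.Adj v w → o v < o w → s0 v = w ∨ s0 w = v := by
    intro v w h hlt
    by_cases ht : t ⟨(v, w), h, hlt⟩ = true
    · left
      have h1 : (⟨(v, w), h, hlt⟩ : {p : V × V // F.Adj p.1 p.2 ∧ o p.1 < o p.2}) = e v := by
        apply he2
        simp only [ht, if_true]
      simp only [s0]
      rw [← h1]
      simp only [ht, if_true]
    · right
      have h1 : (⟨(v, w), h, hlt⟩ : {p : V × V // F.Adj p.1 p.2 ∧ o p.1 < o p.2}) = e w := by
        apply he2
        simp only [ht]; simp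
      simp only [s0]
      rw [← h1]
      simp only [ht]; simp
  refine ⟨s, ?_, ?_⟩
  · intro v w
    change F.Adj v w ↔ s0 v = w ∨ s0 w = v
    constructor
    · intro h
      have h4 : o v ≠ o w := fun e => h.ne (o.injective e)
      rcases lt_or_gt_of_ne h4 with h5 | h5
      · exact hfor v w h h5
      · exact (hfor w v h.symm h5).symm
    · rintro (h | h)
      · rw [← h]; exact hadj v
      · rw [← h]; exact (hadj w).symm
  · intro v h
    change s0 (s0 v) = v at h
    -- the edges `v → s v` and `s v → v` are the same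
    have h1 : ∀ v, (t (e v) = true ∧ (e v).1 = (v, s0 v)) ∨
        (¬ t (e v) = true ∧ (e v).1 = (s0 v, v)) := by
      intro v
      have h1 := he1 v
      by_cases h : t (e v) = true
      · left
        refine ⟨h, ?_⟩
        simp only [h, if_true] at h1
        have h3 : s0 v = (e v).1.2 := by simp only [s0, h, if_true]
        rw [h3]
        ext
        · exact h1
        · rfl
      · right
        refine ⟨h, ?_⟩
        simp only [h] at h1
        have h3 : s0 v = (e v).1.1 := by simp only [s0, h]; simp
        rw [h3]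
        simp only [Bool.false_eq_true, if_false] at h1
        ext
        · rfl
        · exact h1
    have hlt1 := (e v).2.2
    have hlt2 := (e (s0 v)).2.2
    have hv : e v = e (s0 v) := by
      apply Subtype.ext
      rcases h1 v with ⟨ha, hb⟩ | ⟨ha, hb⟩ <;> rcases h1 (s0 v) with ⟨hc, hd⟩ | ⟨hc, hd⟩ <;>
        rw [h] at hd <;> rw [hb] at hlt1 <;> rw [hd] at hlt2
      · exact absurd hlt1 (lt_asymm hlt2)
      · rw [hb, hd]
      · rw [hb, hd]
      · exact absurd hlt1 (lt_asymm hlt2)
    have h2 : v = s0 v := by
      have h3 := he1 v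
      rw [hv, he1 (s0 v)] at h3
      exact h3.symm
    have h4 := hadj v
    rw [← h2] at h4
    exact F.irrefl h4

end Pool.Agent.H9.LG
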