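import Pool.Agent.H9.LG.StmG

set_option autoImplicit false

/-!
# Project LG (helper9): PULL, coverings by linear forests pull back
-/

namespace Pool.Agent.H9.LG

open Finset SimpleGraph H931R3.LA

theorem t_PULL : StPULL := by
  intro V V' _ _ G G' f n hf hG hcov
  obtain ⟨F, hF, hH⟩ := hcov
  refine ⟨fun i => (F i).comap f ⊓ G, ?_, ?_⟩
  · intro i
    have hc : ((F i).comap f ⊓ G).IsAcyclic := by
      have h1 : ((F i).comap f).IsAcyclic :=
        (hF i).1.comap (G := (F i).comap f) ⟨f, fun h => h⟩ hf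
      exact h1.anti inf_le_left
    refine ⟨hc, fun w => ?_⟩
    refine le_trans ?_ ((hF i).2 (f w))
    rw [← Set.ncard_image_of_injective _ hf]
    refine Set.ncard_le_ncard ?_ (Set.toFinite _)
    rintro _ ⟨x, hx, rfl⟩
    exact hx.1
  · ext x y
    rw [iSup_adj]
    constructor
    · rintro ⟨i, hi⟩
      exact hi.2
    · intro h
      have h1 : (⨆ i, F i).Adj (f x) (f y) := by
        rw [hH]
        exact hG x y h
      rw [iSup_adj] at h1
      obtain ⟨i, hi⟩ := h1
      exact ⟨i, hi, h⟩

end Pool.Agent.H9.LG
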