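import Pool.Agent.H9.LG.StmG
import Pool.Graph.R_seed8.Helper635.LLL

set_option autoImplicit false

/-!
# Project LG: task SEL (helper120)

One free edge from each cycle of a `2`-regular graph, without conflicts (local lemma).
-/

namespace Pool.Agent.H9.LG

open Finset SimpleGraph H931R3.LA
open Pool.Agent.Helper635.LLL (DependsOn cnt ev mem_ev lll)

/-- Removing an edge from every component of a `2`-regular graph gives a linear forest. -/
theorem sel_lf {V : Type} [Finite V] (F E : SimpleGraph V)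
    (h2 : ∀ v, (F.neighborSet v).ncard = 2)
    (hE : ∀ v, ∃ x y, F.Reachable v x ∧ F.Adj x y ∧ E.Adj x y) : IsLF (F \ E) := by
  constructor
  · intro v c hc
    have hcl : ∀ w ∈ c.support, ∀ z, F.Adj w z → c.toSubgraph.Adj w z := by
      intro w hw z hz
      have hn := hc.ncard_neighborSet_toSubgraph_eq_two hw
      have hsub : c.toSubgraph.neighborSet w ⊆ F.neighborSet w := by
        intro z hz
        have h1 : c.toSubgraph.Adj w z := hz
        have h3 := h1.adj_sub
        rw [SimpleGraph.sdiff_adj] at h3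
        exact h3.1
      have heq : c.toSubgraph.neighborSet w = F.neighborSet w :=
        Set.eq_of_subset_of_ncard_le hsub (by rw [h2, hn]) (Set.toFinite _)
      have h4 : z ∈ c.toSubgraph.neighborSet w := by rw [heq]; exact hz
      exact h4
    have hwalk : ∀ {a b : V} (p : F.Walk a b), a ∈ c.support → b ∈ c.support := by
      intro a b p
      induction p with
      | nil => exact fun h => h
      | cons h p ih =>
        intro ha
        refine ih ?_
        have h1 := (hcl _ ha _ h).snd_mem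
        rwa [SimpleGraph.Walk.mem_verts_toSubgraph] at h1
    obtain ⟨x, y, ⟨p⟩, hF, hE'⟩ := hE v
    have hx : x ∈ c.support := hwalk p c.start_mem_support
    have h3 := (hcl x hx y hF).adj_sub
    rw [SimpleGraph.sdiff_adj] at h3
    exact h3.2 hE'
  · intro v
    rw [← h2 v]
    refine Set.ncard_le_ncard (fun z hz => ?_) (Set.toFinite _)
    have h3 : (F \ E).Adj v z := hz
    rw [SimpleGraph.sdiff_adj] at h3
    exact h3.1

open Classical in
/-- Probability of a prescribed choice in two classes. -/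
theorem sel_cnt {T C : Type} [Fintype T] [Fintype C] (c c' : T) (h : c ≠ c') (i i' : C) :
    cnt (fun ω : T → C => ω c = i ∧ ω c' = i') * (Fintype.card C * Fintype.card C) ≤
      Fintype.card (T → C) := by
  have h1 : cnt (fun ω : T → C => ω c = i ∧ ω c' = i') * (Fintype.card C * Fintype.card C) =
      ((ev (fun ω : T → C => ω c = i ∧ ω c' = i')) ×ˢ (Finset.univ : Finset (C × C))).card := by
    rw [Finset.card_product, Finset.card_univ, Fintype.card_prod]; rfl
  rw [h1, ← Finset.card_univ]
  refine Finset.card_le_card_of_injOn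
    (fun q => Function.update (Function.update q.1 c q.2.1) c' q.2.2)
    (fun _ _ => Finset.mem_coe.2 (Finset.mem_univ _)) ?_
  rintro ⟨ω, j, j'⟩ hq ⟨ω₂, k, k'⟩ hq₂ heq
  rw [Finset.mem_coe, Finset.mem_product, mem_ev] at hq hq₂
  simp only at hq hq₂ heq
  have e1 : j' = k' := by
    have := congrFun heq c'
    simpa using this
  have e2 : j = k := by
    have := congrFun heq c
    simpa [Function.update_of_ne h] using this
  have e3 : ω = ω₂ := by
    funext t
    by_cases ht : t = c
    · rw [ht, hq.1.1, hq₂.1.1]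
    · by_cases ht' : t = c'
      · rw [ht', hq.1.2, hq₂.1.2]
      · have := congrFun heq t
        simpa [Function.update_of_ne ht, Function.update_of_ne ht'] using this
  rw [e1, e2, e3]

/-- Two edges are in conflict. -/
def SelConf {V : Type} (Q : SimpleGraph V) (p p' : V × V) : Prop :=
  (Q.Reachable p.1 p'.1 ∨ Q.Reachable p.1 p'.2) ∨ (Q.Reachable p.2 p'.1 ∨ Q.Reachable p.2 p'.2)

theorem sel_conf_symm {V : Type} (Q : SimpleGraph V) (p p' : V × V) (h : SelConf Q p p') :
    SelConf Q p' p := by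
  rcases h with (h | h) | (h | h)
  · exact Or.inl (Or.inl h.symm)
  · exact Or.inr (Or.inl h.symm)
  · exact Or.inl (Or.inr h.symm)
  · exact Or.inr (Or.inr h.symm)

open Classical in
/-- Every edge is in conflict with at most 48 ordered pairs. -/
theorem sel_conf_card {V : Type} [Fintype V] (Q F : SimpleGraph V)
    (h6 : ∀ v, {w | Q.Reachable v w}.ncard ≤ 6) (h2 : ∀ v, (F.neighborSet v).ncard = 2)
    (p : V × V) :
    (univ.filter (fun p' : V × V => F.Adj p'.1 p'.2 ∧ SelConf Q p p')).card ≤ 48 := by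
  let R : V → Finset V := fun v => univ.filter (fun w => Q.Reachable v w)
  let N : V → Finset V := fun v => univ.filter (fun w => F.Adj v w)
  have hR : ∀ v, (R v).card ≤ 6 := by
    intro v
    have h := h6 v
    have e : {w | Q.Reachable v w} = ((R v : Finset V) : Set V) := by ext w; simp [R]
    rw [e, Set.ncard_coe_finset] at h
    exact h
  have hN : ∀ v, (N v).card = 2 := by
    intro v
    have h := h2 v
    have e : F.neighborSet v = ((N v : Finset V) : Set V) := by ext w; simp [N]
    rw [e, Set.ncard_coe_finset] at h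
    exact h
  have hsub : univ.filter (fun p' : V × V => F.Adj p'.1 p'.2 ∧ SelConf Q p p') ⊆
      (R p.1 ∪ R p.2).biUnion (fun z => (N z).image (fun y => (z, y)) ∪
        (N z).image (fun y => (y, z))) := by
    rintro ⟨x, y⟩ hp
    rw [mem_filter] at hp
    obtain ⟨-, hadj, hconf⟩ := hp
    simp only at hadj
    rw [mem_biUnion]
    have hx : (∃ z ∈ R p.1 ∪ R p.2, z = x) → ∃ z ∈ R p.1 ∪ R p.2, (x, y) ∈
        (N z).image (fun y => (z, y)) ∪ (N z).image (fun y => (y, z)) := by
      rintro ⟨z, hz, rfl⟩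
      exact ⟨z, hz, mem_union_left _ (mem_image.2 ⟨y, mem_filter.2 ⟨mem_univ _, hadj⟩, rfl⟩)⟩
    have hy : (∃ z ∈ R p.1 ∪ R p.2, z = y) → ∃ z ∈ R p.1 ∪ R p.2, (x, y) ∈
        (N z).image (fun y => (z, y)) ∪ (N z).image (fun y => (y, z)) := by
      rintro ⟨z, hz, rfl⟩
      exact ⟨z, hz, mem_union_right _ (mem_image.2 ⟨x, mem_filter.2 ⟨mem_univ _, hadj.symm⟩, rfl⟩)⟩
    rcases hconf with (h | h) | (h | h)
    · exact hx ⟨x, mem_union_left _ (mem_filter.2 ⟨mem_univ _, h⟩), rfl⟩
    · exact hy ⟨y, mem_union_left _ (mem_filter.2 ⟨mem_univ _, h⟩), rfl⟩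
    · exact hx ⟨x, mem_union_right _ (mem_filter.2 ⟨mem_univ _, h⟩), rfl⟩
    · exact hy ⟨y, mem_union_right _ (mem_filter.2 ⟨mem_univ _, h⟩), rfl⟩
  refine (card_le_card hsub).trans ?_
  refine (card_biUnion_le_card_mul _ _ 4 ?_).trans ?_
  · intro z _
    have h1 := card_union_le ((N z).image (fun y => (z, y))) ((N z).image (fun y => (y, z)))
    have h3 : ((N z).image (fun y => (z, y))).card ≤ 2 := card_image_le.trans (hN z).le
    have h4 : ((N z).image (fun y => (y, z))).card ≤ 2 := card_image_le.trans (hN z).le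
    omega
  · have h1 := card_union_le (R p.1) (R p.2)
    have h3 := hR p.1
    have h4 := hR p.2
    omega

open Classical in
/-- A conflict-free choice. -/
theorem sel_abs {T V : Type} [Fintype T] [Fintype V] (Q F : SimpleGraph V)
    (h6 : ∀ v, {w | Q.Reachable v w}.ncard ≤ 6) (h2 : ∀ v, (F.neighborSet v).ncard = 2)
    (f : T → Fin 1000 → V × V) (hf : ∀ c i c' i', f c i = f c' i' → c = c' ∧ i = i')
    (hadj : ∀ c i, F.Adj (f c i).1 (f c i).2) :
    ∃ ω : T → Fin 1000, ∀ c c', c ≠ c' → ¬ SelConf Q (f c (ω c)) (f c' (ω c')) := by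
  let ι := (T × Fin 1000) × (T × Fin 1000)
  let I : Finset ι := univ.filter (fun q => q.1.1 ≠ q.2.1 ∧
    SelConf Q (f q.1.1 q.1.2) (f q.2.1 q.2.2))
  let B : ι → (T → Fin 1000) → Prop := fun q ω => ω q.1.1 = q.1.2 ∧ ω q.2.1 = q.2.2
  let S : ι → Finset T := fun q => {q.1.1, q.2.1}
  -- conflicts of one pair
  have hone : ∀ p : V × V, (univ.filter (fun r : T × Fin 1000 => SelConf Q p (f r.1 r.2))).card ≤
      48 := by
    intro p
    refine le_trans (card_le_card_of_injOn (fun r => f r.1 r.2) ?_ ?_)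
      (sel_conf_card Q F h6 h2 p)
    · intro r hr
      rw [mem_coe, mem_filter] at hr ⊢
      exact ⟨mem_univ _, hadj _ _, hr.2⟩
    · rintro ⟨c, i⟩ - ⟨c', i'⟩ - h
      obtain ⟨h1, h3⟩ := hf _ _ _ _ h
      exact Prod.ext h1 h3
  -- events whose first class is `t`
  have hA : ∀ t : T, (I.filter (fun q => q.1.1 = t)).card ≤ 48000 := by
    intro t
    have hsub : I.filter (fun q => q.1.1 = t) ⊆ (univ : Finset (Fin 1000)).biUnion (fun k =>
        (univ.filter (fun r : T × Fin 1000 => SelConf Q (f t k) (f r.1 r.2))).image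
          (fun r => ((t, k), r))) := by
      rintro ⟨⟨c, i⟩, r⟩ hq
      have hq1 := mem_filter.1 hq
      have hq2 := mem_filter.1 hq1.1
      have h1 : SelConf Q (f c i) (f r.1 r.2) := hq2.2.2
      have h3 : c = t := hq1.2
      subst h3
      rw [Finset.mem_biUnion]
      refine ⟨i, Finset.mem_univ i, ?_⟩
      rw [Finset.mem_image]
      refine ⟨r, ?_, rfl⟩
      rw [Finset.mem_filter]
      exact ⟨Finset.mem_univ r, h1⟩
    have h5 := card_biUnion_le_card_mul (univ : Finset (Fin 1000)) (fun k =>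
        (univ.filter (fun r : T × Fin 1000 => SelConf Q (f t k) (f r.1 r.2))).image
          (fun r => ((t, k), r))) 48 (fun k _ => card_image_le.trans (hone (f t k)))
    have h6 : (univ : Finset (Fin 1000)).card = 1000 := by rw [card_univ, Fintype.card_fin]
    rw [h6] at h5
    have h7 := card_le_card hsub
    omega
  have hB' : ∀ t : T, (I.filter (fun q => q.2.1 = t)).card ≤ 48000 := by
    intro t
    refine le_trans (card_le_card_of_injOn (fun q => (q.2, q.1)) ?_ ?_) (hA t)
    · intro q hq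
      have hq1 := mem_filter.1 (mem_coe.1 hq)
      have hq2 := mem_filter.1 hq1.1
      exact mem_coe.2 (mem_filter.2 ⟨mem_filter.2 ⟨mem_univ _, hq2.2.1.symm,
        sel_conf_symm _ _ _ hq2.2.2⟩, hq1.2⟩)
    · rintro ⟨a, b⟩ - ⟨a', b'⟩ - h
      have h1 := (Prod.mk.inj h)
      exact Prod.ext h1.2 h1.1
  suffices hlll : ∃ ω : T → Fin 1000, ∀ q ∈ I, ¬ B q ω by
    obtain ⟨ω, hω⟩ := hlll
    refine ⟨ω, fun c c' hc hconf => ?_⟩
    exact hω ((c, ω c), (c', ω c')) (mem_filter.2 ⟨mem_univ _, hc, hconf⟩) ⟨rfl, rfl⟩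
  refine lll I B S ?_ (1 / 1000000) 192000 (by norm_num) ?_ ?_ (by norm_num)
    (by norm_num) (Fintype.card_pos_iff.2 ⟨fun _ => 0⟩)
  · rintro ⟨⟨c, i⟩, ⟨c', i'⟩⟩ - ω ω' h ⟨h1, h3⟩
    have e1 : ω c = ω' c := h c (mem_insert_self _ _)
    have e2 : ω c' = ω' c' := h c' (mem_insert_of_mem (mem_singleton_self _))
    exact ⟨e1.symm.trans h1, e2.symm.trans h3⟩
  · rintro ⟨⟨c, i⟩, ⟨c', i'⟩⟩ hq
    replace hq := mem_filter.1 hq
    have h1 := sel_cnt c c' hq.2.1 i i'
    have h3 : ((cnt (B ((c, i), (c', i'))) : ℕ) : ℝ) * (1000 * 1000) ≤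
        (Fintype.card (T → Fin 1000) : ℝ) := by
      have : cnt (B ((c, i), (c', i'))) * (1000 * 1000) ≤ Fintype.card (T → Fin 1000) := by
        rw [Fintype.card_fin] at h1
        exact h1
      exact_mod_cast this
    linarith
  · rintro ⟨⟨c, i⟩, ⟨c', i'⟩⟩ -
    have hsub : I.filter (fun q => ¬ Disjoint (S ((c, i), (c', i'))) (S q)) ⊆
        ((I.filter (fun q => q.1.1 = c)) ∪ (I.filter (fun q => q.1.1 = c'))) ∪
        ((I.filter (fun q => q.2.1 = c)) ∪ (I.filter (fun q => q.2.1 = c'))) := by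
      intro q hq
      obtain ⟨hqI, hq'⟩ := mem_filter.1 hq
      obtain ⟨t, ht, htq⟩ := Finset.not_disjoint_iff.1 hq'
      have h1 : t = c ∨ t = c' := by
        rcases mem_insert.1 ht with h | h
        · exact Or.inl h
        · exact Or.inr (mem_singleton.1 h)
      have h3 : t = q.1.1 ∨ t = q.2.1 := by
        rcases mem_insert.1 htq with h | h
        · exact Or.inl h
        · exact Or.inr (mem_singleton.1 h)
      rcases h3 with h3 | h3 <;> rcases h1 with h1 | h1
      · exact mem_union_left _ (mem_union_left _ (mem_filter.2 ⟨hqI, h3.symm.trans h1⟩))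
      · exact mem_union_left _ (mem_union_right _ (mem_filter.2 ⟨hqI, h3.symm.trans h1⟩))
      · exact mem_union_right _ (mem_union_left _ (mem_filter.2 ⟨hqI, h3.symm.trans h1⟩))
      · exact mem_union_right _ (mem_union_right _ (mem_filter.2 ⟨hqI, h3.symm.trans h1⟩))
    have h1 := card_le_card hsub
    have h3 := card_union_le ((I.filter (fun q => q.1.1 = c)) ∪ (I.filter (fun q => q.1.1 = c')))
      ((I.filter (fun q => q.2.1 = c)) ∪ (I.filter (fun q => q.2.1 = c')))
    have h4 := card_union_le (I.filter (fun q => q.1.1 = c)) (I.filter (fun q => q.1.1 = c'))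
    have h5 := card_union_le (I.filter (fun q => q.2.1 = c)) (I.filter (fun q => q.2.1 = c'))
    have a1 := hA c
    have a2 := hA c'
    have a3 := hB' c
    have a4 := hB' c'
    omega

theorem t_SEL : StSEL := by
  classical
  intro V _ Q F Fr h6 hQ h2 hA
  have _ : Fintype V := Fintype.ofFinite V
  have _ : Fintype F.ConnectedComponent := Fintype.ofFinite _
  -- enumerations of 1000 pairs of each class
  have hch : ∀ c : F.ConnectedComponent, ∃ g : Fin 1000 → V × V, Function.Injective g ∧
      ∀ i, F.Adj (g i).1 (g i).2 ∧ (g i).1 ∈ Fr ∧ (g i).2 ∈ Fr ∧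
        F.connectedComponentMk (g i).1 = c := by
    intro c
    obtain ⟨v, rfl⟩ := c.exists_rep
    obtain ⟨A, hA1, hA2⟩ := hA v
    have : Nonempty (Fin 1000 ↪ A) := by
      rw [Function.Embedding.nonempty_iff_card_le]
      simpa using hA1
    obtain ⟨g⟩ := this
    refine ⟨fun i => (g i : V × V), fun i j h => g.injective (Subtype.ext h), fun i => ?_⟩
    obtain ⟨h1, h3, h4, h5⟩ := hA2 _ (g i).2
    exact ⟨h1, h3, h4, (SimpleGraph.ConnectedComponent.sound h5).symm⟩
  choose f hfinj hfp using hch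
  obtain ⟨ω, hω⟩ := sel_abs Q F h6 h2 f (by
    intro c i c' i' h
    have h1 : c = c' := by
      rw [← (hfp c i).2.2.2, ← (hfp c' i').2.2.2, h]
    subst h1
    exact ⟨rfl, hfinj c h⟩) (fun c i => (hfp c i).1)
  let E : SimpleGraph V :=
    { Adj := fun x y => ∃ c, f c (ω c) = (x, y) ∨ f c (ω c) = (y, x)
      symm.symm := by
        rintro x y ⟨c, h⟩
        exact ⟨c, h.symm⟩
      loopless.irrefl := by
        rintro x ⟨c, h⟩
        have h1 := (hfp c (ω c)).1
        rcases h with h | h <;> rw [h] at h1 <;> exact F.loopless.irrefl _ h1 }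
  refine ⟨E, ?_, ?_, ?_, ?_⟩
  · rintro x y ⟨c, h⟩
    have h1 := (hfp c (ω c)).1
    rcases h with h | h <;> rw [h] at h1
    · exact h1
    · exact h1.symm
  · rintro x y ⟨c, h⟩
    obtain ⟨-, h1, h3, -⟩ := hfp c (ω c)
    rcases h with h | h <;> rw [h] at h1 h3
    · exact ⟨h1, h3⟩
    · exact ⟨h3, h1⟩
  · rintro x y x' y' ⟨c, h⟩ ⟨c', h'⟩ hr
    by_cases hc : c = c'
    · subst hc
      have hF := (hfp c (ω c)).1
      rcases h with h | h <;> rcases h' with h' | h' <;> rw [h] at h' hF <;>
        rw [Prod.mk.injEq] at h'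
      · exact h'
      · obtain ⟨h1, h3⟩ := h'
        subst h1 h3
        exact absurd hr (hQ _ _ hF)
      · obtain ⟨h1, h3⟩ := h'
        subst h1 h3
        exact absurd hr (hQ _ _ hF.symm)
      · exact ⟨h'.2, h'.1⟩
    · exfalso
      refine hω c c' hc ?_
      rcases h with h | h <;> rcases h' with h' | h' <;> rw [h, h']
      · exact Or.inl (Or.inl hr)
      · exact Or.inl (Or.inr hr)
      · exact Or.inr (Or.inl hr)
      · exact Or.inr (Or.inr hr)
  · refine sel_lf F E h2 fun v => ?_
    obtain ⟨h1, -, -, h4⟩ := hfp (F.connectedComponentMk v) (ω (F.connectedComponentMk v))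
    exact ⟨_, _, (SimpleGraph.ConnectedComponent.exact h4).symm, h1, _, Or.inl rfl⟩

end Pool.Agent.H9.LG
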