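import Pool.Agent.H9.LG.Stm

set_option autoImplicit false

/-!
# Project LG (helper9), task TR: the tree of an exploration with fixed directions
-/

namespace Pool.Agent.H9.LG

/-- the parent of a node -/
def tr_par {L : ℕ} (d : ℕ → Bool) : Node L → Node L
  | none => none
  | some (⟨0, _⟩, _, ⟨0, _⟩) => none
  | some (⟨t + 1, ht⟩, _, ⟨0, hs⟩) => some (⟨t, Nat.lt_of_succ_lt ht⟩, d t, ⟨0, hs⟩)
  | some (t, b, ⟨s + 1, hs⟩) => some (t, b, ⟨s, Nat.lt_of_succ_lt hs⟩)

/-- the type of a node -/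
def tr_ty {L : ℕ} : Node L → ZMod 3
  | none => 0
  | some (_, b, ⟨0, _⟩) => tyD b
  | some (_, _, ⟨_ + 1, _⟩) => 0

/-- the depth of a node -/
def tr_dep {L : ℕ} : Node L → ℕ
  | none => 0
  | some (t, _, s) => t.1 + s.1 + 1

theorem tr_tyD_ne (b : Bool) : tyD b ≠ 0 := by revert b; decide

theorem tr_tyD_inj (b b' : Bool) (h : tyD b = tyD b') : b = b' := by revert b b'; decide

theorem tr_dep_par {L : ℕ} (d : ℕ → Bool) (ν : Node L) (h : ν ≠ none) :
    tr_dep ν = tr_dep (tr_par d ν) + 1 := by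
  rcases ν with _ | ⟨⟨t, ht⟩, b, ⟨s, hs⟩⟩
  · exact absurd rfl h
  · cases s with
    | zero =>
      cases t with
      | zero => simp [tr_dep, tr_par]
      | succ t => simp [tr_dep, tr_par]
    | succ s => simp [tr_dep, tr_par]; omega

theorem tr_sib {L : ℕ} (d : ℕ → Bool) (ν ν' : Node L) (h : ν ≠ none) (h' : ν' ≠ none)
    (hp : tr_par d ν = tr_par d ν') (ht : tr_ty ν = tr_ty ν') : ν = ν' := by
  rcases ν with _ | ⟨⟨t, ht1⟩, b, ⟨s, hs⟩⟩
  · exact absurd rfl h
  rcases ν' with _ | ⟨⟨t', ht1'⟩, b', ⟨s', hs'⟩⟩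
  · exact absurd rfl h'
  cases s with
  | zero =>
    cases s' with
    | zero =>
      have hb : b = b' := tr_tyD_inj b b' ht
      subst hb
      cases t with
      | zero =>
        cases t' with
        | zero => rfl
        | succ t' => simp [tr_par] at hp
      | succ t =>
        cases t' with
        | zero => simp [tr_par] at hp
        | succ t' =>
          simp only [tr_par, Option.some.injEq, Prod.mk.injEq, Fin.mk.injEq] at hp
          have := hp.1
          subst this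
          rfl
    | succ s' => exact absurd ht (tr_tyD_ne b)
  | succ s =>
    cases s' with
    | zero => exact absurd ht.symm (tr_tyD_ne b')
    | succ s' =>
      simp only [tr_par, Option.some.injEq, Prod.mk.injEq, Fin.mk.injEq] at hp
      obtain ⟨h1, h2, h3⟩ := hp
      subst h1 h2 h3
      rfl

theorem t_TR : StTR := by
  intro L d hL
  refine ⟨⟨none, tr_par d, tr_ty, tr_dep, rfl, tr_dep_par d, tr_sib d⟩, rfl, ?_⟩
  intro V O J S j
  refine ⟨fun a x => rfl, ?_⟩
  intro a x ν hν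
  rcases ν with _ | ⟨⟨t, ht⟩, b, ⟨s, hs⟩⟩
  · exact absurd rfl hν
  cases s with
  | zero =>
    cases t with
    | zero => rfl
    | succ t =>
      have hx : ext x (some (t, d t, 0)) = x (some (⟨t, Nat.lt_of_succ_lt ht⟩, d t, ⟨0, hs⟩)) := by
        show (if h : t < L ∧ 0 < L then x (some (⟨t, h.1⟩, d t, ⟨0, h.2⟩)) else x none) = _
        rw [dif_pos ⟨Nat.lt_of_succ_lt ht, hs⟩]
      show dn S j (ext x (some (t, d t, 0))) (tyD b) (cenArr S j a (ext x) d (t + 1)) = _
      rw [hx]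
      rfl
  | succ s =>
    have hx : ext x (some (t, b, s)) = x (some (⟨t, ht⟩, b, ⟨s, Nat.lt_of_succ_lt hs⟩)) := by
      show (if h : t < L ∧ s < L then x (some (⟨t, h.1⟩, b, ⟨s, h.2⟩)) else x none) = _
      rw [dif_pos ⟨ht, Nat.lt_of_succ_lt hs⟩]
    show dn S j (ext x (some (t, b, s))) 0 (rayArr S j a (ext x) d t b s) = _
    rw [hx]
    cases t <;> rfl

end Pool.Agent.H9.LG
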