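import Pool.Agent.H9.LG.StmG

set_option autoImplicit false

/-!
# Project LG (helper9): WI, windows on the cycles of `F`
-/

namespace Pool.Agent.H9.LG

open Finset SimpleGraph H931R3.LA

/-- The walk `x, s x, …, s ^ k x`. -/
theorem wi_walk {V : Type} {F : SimpleGraph V} {s : Equiv.Perm V}
    (hs : ∀ v w, F.Adj v w ↔ s v = w ∨ s w = v) (x : V) (k : ℕ) :
    ∃ p : F.Walk x ((s ^ k) x), p.length = k ∧
      ∀ e ∈ p.edges, ∃ i, i < k ∧ e = s((s ^ i) x, (s ^ (i + 1)) x) := by
  induction k with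
  | zero =>
    rw [pow_zero, Equiv.Perm.one_apply]
    refine ⟨Walk.nil, rfl, ?_⟩
    intro e he
    rw [Walk.edges_nil] at he
    exact absurd he List.not_mem_nil
  | succ k ih =>
    obtain ⟨p, hp, he⟩ := ih
    have hadj : F.Adj ((s ^ k) x) ((s ^ (k + 1)) x) := by
      rw [hs]
      left
      rw [pow_succ', Equiv.Perm.mul_apply]
    refine ⟨p.concat hadj, ?_, ?_⟩
    · rw [Walk.length_concat, hp]
    · intro e h
      rw [Walk.edges_concat, List.concat_eq_append, List.mem_append, List.mem_singleton] at h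
      rcases h with h | h
      · obtain ⟨i, hi, hie⟩ := he e h
        exact ⟨i, by omega, hie⟩
      · exact ⟨k, by omega, h⟩

theorem wi_pow_shift {V : Type} (s : Equiv.Perm V) (x : V) (i : ℕ) :
    (s ^ i) (s x) = (s ^ (i + 1)) x := by
  rw [pow_succ, Equiv.Perm.mul_apply]

/-- The walk `s x, …, s ^ k x` in the big graph. -/
theorem wi_walk' {V : Type} {G F : SimpleGraph V} {s : Equiv.Perm V} (hFG : F ≤ G)
    (hs : ∀ v w, F.Adj v w ↔ s v = w ∨ s w = v) (x y : V) (k : ℕ) (h : (s ^ (k + 1)) x = y) :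
    ∃ p : G.Walk (s x) y, p.length = k ∧
      ∀ e ∈ p.edges, ∃ i, i < k ∧ e = s((s ^ (i + 1)) x, (s ^ (i + 2)) x) := by
  subst h
  obtain ⟨p, hp, he⟩ := wi_walk hs (s x) k
  refine ⟨(p.mapLe hFG).copy rfl (wi_pow_shift s x k), ?_, ?_⟩
  · rw [Walk.length_copy, Walk.length_mapLe, hp]
  · intro e h
    rw [Walk.edges_copy, Walk.edges_mapLe_eq_edges] at h
    obtain ⟨i, hi, hie⟩ := he e h
    refine ⟨i, hi, ?_⟩
    rw [hie, wi_pow_shift, wi_pow_shift]

/-- The cycles of `s` are long. -/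
theorem wi_inj {V : Type} {G F : SimpleGraph V} {s : Equiv.Perm V} {g : ℕ} (hFG : F ≤ G)
    (hs : ∀ v w, F.Adj v w ↔ s v = w ∨ s w = v) (hss : ∀ v, s (s v) ≠ v)
    (hcyc : ∀ (v : V) (c : G.Walk v v), c.IsCycle → g ≤ c.length) (x : V) (j : ℕ) :
    1 ≤ j → j < g → (s ^ j) x ≠ x := by
  induction j using Nat.strong_induction_on with
  | _ j ih =>
    intro h1 h2 h3
    obtain ⟨k, rfl⟩ : ∃ k, j = k + 1 := ⟨j - 1, by omega⟩
    obtain ⟨p, hp, he⟩ := wi_walk' hFG hs x x k h3
    have hadj : G.Adj (s x) x := hFG ((hs _ _).2 (Or.inr rfl))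
    have h4 := Pool.Agent.W111.LAR.short_edge hcyc hadj p (by omega)
    obtain ⟨i, hi, hie⟩ := he _ h4
    rcases Sym2.eq_iff.1 hie with ⟨h5, h6⟩ | ⟨h5, h6⟩
    · have h7 : (s ^ i) x = x := by
        rw [pow_succ', Equiv.Perm.mul_apply] at h5
        exact (s.injective h5).symm
      rcases Nat.eq_zero_or_pos i with h8 | h8
      · subst h8
        have h9 : (s ^ (0 + 2)) x = s (s x) := by
          rw [zero_add, pow_two, Equiv.Perm.mul_apply]
        exact hss x (h6.trans h9).symm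
      · exact ih i (by omega) h8 (by omega) h7
    · exact ih (i + 1) (by omega) (by omega) (by omega) h6.symm

theorem wi_two {V : Type} [Finite V] {G P : SimpleGraph V} {Y : Set V} {g D : ℕ}
    (h : Dat G P Y g D) {v a b : V} (ha : P.Adj v a) (hb : P.Adj v b) (hab : a ≠ b) : v ∈ Y := by
  by_contra hv
  have h1 := h.deg1 v hv
  have h2 : 1 < (P.neighborSet v).ncard :=
    (Set.one_lt_ncard (Set.toFinite _)).2 ⟨a, ha, b, hb, hab⟩
  omega

/-- The components of `P`. -/
theorem wi_comp {V : Type} [Finite V] {G P : SimpleGraph V} {Y : Set V} {g D : ℕ}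
    (h : Dat G P Y g D) {x y : V} (p : P.Walk x y) :
    x = y ∨ P.Adj x y ∨ ∃ z, P.Adj z x ∧ P.Adj z y := by
  induction p with
  | nil => exact Or.inl rfl
  | @cons x x' y hadj p ih =>
    rcases ih with ih | ih | ⟨z, hz1, hz2⟩
    · subst ih
      exact Or.inr (Or.inl hadj)
    · exact Or.inr (Or.inr ⟨x', hadj.symm, ih⟩)
    · by_cases h1 : x = z
      · subst h1
        exact Or.inr (Or.inl hz2)
      · by_cases h2 : x' = y
        · subst h2
          exact Or.inr (Or.inl hadj)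
        · exact absurd hz1 (h.yy z (wi_two h hz1 hz2 h2) x' (wi_two h hadj.symm hz1.symm h1))

/-- Short paths in the components of `P`. -/
theorem wi_short {V : Type} [Finite V] {G P : SimpleGraph V} {Y : Set V} {g D : ℕ}
    (h : Dat G P Y g D) {x y : V} (hxy : P.Reachable x y) :
    ∃ p : P.Walk x y, p.length ≤ 2 := by
  obtain ⟨p⟩ := hxy
  rcases wi_comp h p with h1 | h1 | ⟨z, h1, h2⟩
  · subst h1
    exact ⟨Walk.nil, by simp⟩
  · exact ⟨Walk.cons h1 Walk.nil, by simp⟩
  · exact ⟨Walk.cons h1.symm (Walk.cons h2 Walk.nil), by simp⟩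

/-- Different vertices of a window are in different components of `P`. -/
theorem wi_dist {V : Type} [Finite V] {G P F : SimpleGraph V} {Y : Set V} {g D : ℕ}
    {s : Equiv.Perm V} (h : Dat G P Y g D) (hF : F ≤ G \ P)
    (hs : ∀ v w, F.Adj v w ↔ s v = w ∨ s w = v) (hss : ∀ v, s (s v) ≠ v) (x : V) (k : ℕ)
    (hk : 1 ≤ k) (hkg : k + 2 < g) : ¬ P.Reachable x ((s ^ k) x) := by
  intro hr
  have hFG : F ≤ G := hF.trans sdiff_le
  obtain ⟨k, rfl⟩ : ∃ k', k = k' + 1 := ⟨k - 1, by omega⟩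
  obtain ⟨q, hq⟩ := wi_short h hr.symm
  obtain ⟨p, hp, he⟩ := wi_walk' hFG hs x _ k rfl
  have hF1 : F.Adj (s x) x := (hs _ _).2 (Or.inr rfl)
  have hadj : G.Adj (s x) x := hFG hF1
  have h4 := Pool.Agent.W111.LAR.short_edge h.cyc hadj (p.append (q.mapLe h.le)) (by
    rw [Walk.length_append, Walk.length_mapLe]
    omega)
  rw [Walk.edges_append, List.mem_append, Walk.edges_mapLe_eq_edges] at h4
  rcases h4 with h4 | h4
  · obtain ⟨i, hi, hie⟩ := he _ h4
    rcases Sym2.eq_iff.1 hie with ⟨h5, h6⟩ | ⟨h5, h6⟩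
    · exact wi_inj hFG hs hss h.cyc x (i + 2) (by omega) (by omega) h6.symm
    · exact wi_inj hFG hs hss h.cyc x (i + 1) (by omega) (by omega) h6.symm
  · have h5 : P.Adj (s x) x := Walk.adj_of_mem_edges q h4
    have h6 := hF hF1
    rw [sdiff_adj] at h6
    exact h6.2 h5

/-- Two vertices of `Y` in a window are consecutive. -/
theorem wi_Y {V : Type} [Finite V] {G P F : SimpleGraph V} {Y : Set V} {g D : ℕ}
    {s : Equiv.Perm V} (h : Dat G P Y g D) (hF : F ≤ G \ P)
    (hs : ∀ v w, F.Adj v w ↔ s v = w ∨ s w = v) (hss : ∀ v, s (s v) ≠ v) (x : V) (k : ℕ)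
    (hk : 1 ≤ k) (hkg : k + 1 < g) (hkD : k < D) (h1 : x ∈ Y) (h2 : (s ^ k) x ∈ Y) : k = 1 := by
  have hFG : F ≤ G := hF.trans sdiff_le
  have h3 : x ≠ (s ^ k) x := (wi_inj hFG hs hss h.cyc x k hk (by omega)).symm
  obtain ⟨p, hp, he⟩ := wi_walk hs x k
  rcases h.sep x h1 _ h2 h3 with h4 | h4
  · have h5 := Pool.Agent.W111.LAR.short_edge h.cyc h4 (p.mapLe hFG) (by
      rw [Walk.length_mapLe]
      omega)
    rw [Walk.edges_mapLe_eq_edges] at h5
    obtain ⟨i, hi, hie⟩ := he _ h5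
    rcases Sym2.eq_iff.1 hie with ⟨h6, h7⟩ | ⟨h6, h7⟩
    · have h8 : i = 0 := by
        by_contra h8
        exact wi_inj hFG hs hss h.cyc x i (by omega) (by omega) h6.symm
      subst h8
      by_contra h9
      obtain ⟨k, rfl⟩ : ∃ k', k = k' + 1 := ⟨k - 1, by omega⟩
      rw [← wi_pow_shift, zero_add, pow_one] at h7
      exact wi_inj hFG hs hss h.cyc (s x) k (by omega) (by omega) h7
    · exact absurd h6.symm (wi_inj hFG hs hss h.cyc x (i + 1) (by omega) (by omega))
  · have h5 := h4 (p.mapLe hFG)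
    rw [Walk.length_mapLe] at h5
    omega

/-- The components of `P` have at most three vertices. -/
theorem wi_card {V : Type} [Finite V] {G P : SimpleGraph V} {Y : Set V} {g D : ℕ}
    (h : Dat G P Y g D) (v : V) : {x | P.Reachable v x}.ncard ≤ 3 := by
  have key : ∃ c, {x | P.Reachable v x} ⊆ insert c (P.neighborSet c) := by
    by_cases hy : ∃ y ∈ Y, P.Reachable v y
    · obtain ⟨y, hy, hvy⟩ := hy
      refine ⟨y, fun x hx => ?_⟩
      obtain ⟨p⟩ := hvy.symm.trans hx
      rcases wi_comp h p with h1 | h1 | ⟨z, h1, h2⟩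
      · exact Or.inl h1.symm
      · exact Or.inr h1
      · by_cases h3 : y = x
        · exact Or.inl h3.symm
        · exact absurd h1 (h.yy z (wi_two h h1 h2 h3) y hy)
    · refine ⟨v, fun x hx => ?_⟩
      obtain ⟨p⟩ := (show P.Reachable v x from hx)
      rcases wi_comp h p with h1 | h1 | ⟨z, h1, h2⟩
      · exact Or.inl h1.symm
      · exact Or.inr h1
      · by_cases h3 : v = x
        · exact Or.inl h3.symm
        · exact absurd ⟨z, wi_two h h1 h2 h3, h1.symm.reachable⟩ hy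
  obtain ⟨c, hc⟩ := key
  have h1 := Set.ncard_le_ncard hc (Set.toFinite _)
  have h2 := Set.ncard_insert_le c (P.neighborSet c)
  have h3 := h.deg2 c
  omega

/-- A set of numbers with differences at most one. -/
theorem wi_le_two (B : Finset ℕ) (h : ∀ i ∈ B, ∀ i' ∈ B, i < i' → i' = i + 1) : B.card ≤ 2 := by
  rcases B.eq_empty_or_nonempty with h0 | h0
  · subst h0
    simp
  · have h1 : B ⊆ {B.min' h0, B.min' h0 + 1} := by
      intro i hi
      rcases (B.min'_le i hi).eq_or_lt with h2 | h2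
      · rw [Finset.mem_insert]
        exact Or.inl h2.symm
      · rw [Finset.mem_insert, Finset.mem_singleton]
        exact Or.inr (h _ (B.min'_mem h0) i hi h2)
    exact (Finset.card_le_card h1).trans Finset.card_le_two

/-- Choice of the pairs. -/
theorem wi_sel {V : Type} [Finite V] {G P F : SimpleGraph V} {Y : Set V} {g D m : ℕ}
    {s : Equiv.Perm V} (h : Dat G P Y g D) (hF : F ≤ G \ P)
    (hs : ∀ v w, F.Adj v w ↔ s v = w ∨ s w = v) (hss : ∀ v, s (s v) ≠ v)
    (hg : 2 * m + 10 ≤ g) (hD : 2 * m + 6 ≤ D) (w : V) :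
    ∃ f : Fin m → ℕ, Function.Injective f ∧ (∀ i, f i < m + 2) ∧
      (∀ i, (s ^ (2 * f i)) w ∉ Y) ∧ ∀ i, (s ^ (2 * f i + 1)) w ∉ Y := by
  classical
  set B : Finset ℕ := (range (m + 2)).filter
    (fun i => (s ^ (2 * i)) w ∈ Y ∨ (s ^ (2 * i + 1)) w ∈ Y) with hB
  have hex : ∀ i ∈ B, ∃ n, (n = 2 * i ∨ n = 2 * i + 1) ∧ n < 2 * m + 4 ∧ (s ^ n) w ∈ Y := by
    intro i hi
    rw [hB, Finset.mem_filter, Finset.mem_range] at hi
    rcases hi.2 with h1 | h1
    · exact ⟨_, Or.inl rfl, by omega, h1⟩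
    · exact ⟨_, Or.inr rfl, by omega, h1⟩
  have h2 : B.card ≤ 2 := by
    refine wi_le_two B fun i hi i' hi' hlt => ?_
    obtain ⟨n, hn, hn1, hn2⟩ := hex i hi
    obtain ⟨n', hn', hn1', hn2'⟩ := hex i' hi'
    have h3 : n' = (n' - n) + n := by omega
    rw [h3, pow_add, Equiv.Perm.mul_apply] at hn2'
    have h4 := wi_Y h hF hs hss ((s ^ n) w) (n' - n) (by omega) (by omega) (by omega) hn2 hn2'
    omega
  have h3 : m ≤ ((range (m + 2)) \ B).card := by
    have h4 := Finset.le_card_sdiff B (range (m + 2))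
    rw [Finset.card_range] at h4
    omega
  obtain ⟨t, ht, htc⟩ := Finset.exists_subset_card_eq h3
  have hmem : ∀ i, t.orderEmbOfFin htc i ∈ (range (m + 2)) \ B := fun i =>
    ht (Finset.orderEmbOfFin_mem t htc i)
  refine ⟨fun i => t.orderEmbOfFin htc i, (t.orderEmbOfFin htc).injective, ?_, ?_, ?_⟩
  · intro i
    have := (Finset.mem_sdiff.1 (hmem i)).1
    exact Finset.mem_range.1 this
  · intro i hi
    have h5 := Finset.mem_sdiff.1 (hmem i)
    exact h5.2 (Finset.mem_filter.2 ⟨h5.1, Or.inl hi⟩)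
  · intro i hi
    have h5 := Finset.mem_sdiff.1 (hmem i)
    exact h5.2 (Finset.mem_filter.2 ⟨h5.1, Or.inr hi⟩)

theorem t_WI (hprm : StPRM) : StWI := by
  classical
  intro V _ G P Y g D m h F hF hreg hg hD orb horb
  obtain ⟨s, hs, hss⟩ := hprm V F hreg
  choose f hfi hfl hf0 hf1 using fun w => wi_sel (m := m) h hF hs hss hg hD w
  let ix : V → Fin m → Bool → ℕ := fun w i b => 2 * f w i + (if b then 0 else 1)
  have hix : ∀ w i b, ix w i b < 2 * m + 4 := by
    intro w i b
    have := hfl w i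
    simp only [ix]
    split_ifs <;> omega
  refine ⟨fun w i b => (s ^ (ix w i b)) w, ?_, ?_, ?_, ?_, ?_⟩
  · intro w i b i' b' he
    have h1 := (horb _ _).1 he
    have hne : ∀ n n', n < n' → n' < 2 * m + 4 → ¬ P.Reachable ((s ^ n) w) ((s ^ n') w) := by
      intro n n' hlt hl hr
      have h3 : n' = (n' - n) + n := by omega
      rw [h3, pow_add, Equiv.Perm.mul_apply] at hr
      exact wi_dist h hF hs hss _ _ (by omega) (by omega) hr
    have h2 : ix w i b = ix w i' b' := by
      rcases lt_trichotomy (ix w i b) (ix w i' b') with h3 | h3 | h3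
      · exact absurd h1 (hne _ _ h3 (hix _ _ _))
      · exact h3
      · exact absurd h1.symm (hne _ _ h3 (hix _ _ _))
    simp only [ix] at h2
    cases b <;> cases b' <;> simp only [Bool.false_eq_true, if_false, if_true] at h2
    · exact ⟨hfi w (by omega), rfl⟩
    · omega
    · omega
    · exact ⟨hfi w (by omega), rfl⟩
  · intro u
    have h1 : Nat.card {x : V // orb x = u} ≤ 3 := by
      by_cases hx : ∃ v, orb v = u
      · obtain ⟨v, hv⟩ := hx
        have h2 := wi_card h v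
        have h3 : {x | P.Reachable v x} = {x | orb x = u} := by
          ext x
          rw [Set.mem_ofPred_eq, Set.mem_ofPred_eq, ← horb, hv]
          exact eq_comm
        rw [h3, ← Nat.card_coe_set_eq] at h2
        exact h2
      · have : IsEmpty {x : V // orb x = u} := ⟨fun x => hx ⟨x.1, x.2⟩⟩
        rw [Nat.card_of_isEmpty]
        omega
    have h2 : ∀ w : {w : V // ∃ i b, orb ((s ^ (ix w i b)) w) = u},
        ∃ q : {x : V // orb x = u} × Fin (2 * m + 4), (s ^ (q.2 : ℕ)) w.1 = q.1.1 := by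
      rintro ⟨w, i, b, hw⟩
      exact ⟨(⟨_, hw⟩, ⟨ix w i b, hix w i b⟩), rfl⟩
    choose q hq using h2
    have h3 : Function.Injective q := by
      intro w w' hww
      have h4 := hq w
      have h5 := hq w'
      rw [← hww, ← h4] at h5
      exact Subtype.ext ((s ^ ((q w).2 : ℕ)).injective h5).symm
    have h4 := Nat.card_le_card_of_injective q h3
    rw [Nat.card_prod, Nat.card_eq_fintype_card (α := Fin (2 * m + 4)), Fintype.card_fin] at h4
    calc Nat.card {w : V // ∃ i b, orb ((s ^ (ix w i b)) w) = u}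
        ≤ Nat.card {x : V // orb x = u} * (2 * m + 4) := h4
      _ ≤ 3 * (2 * m + 4) := Nat.mul_le_mul_right _ h1
      _ = 6 * (m + 2) := by ring
  · intro w i
    simp only [ix, Bool.false_eq_true, if_false, if_true, add_zero]
    rw [hs]
    left
    rw [pow_succ' s (2 * f w i), Equiv.Perm.mul_apply]
  · intro w i b
    cases b
    · simpa only [ix, Bool.false_eq_true, if_false] using hf1 w i
    · simpa only [ix, if_true, add_zero] using hf0 w i
  · intro w i b
    obtain ⟨p, hp, -⟩ := wi_walk hs w (ix w i b)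
    refine ⟨p, ?_⟩
    have := hix w i b
    omega

end Pool.Agent.H9.LG
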