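import Pool.Agent.H9.LG.Stm

set_option autoImplicit false

namespace Pool.Agent.H9.LG

open Finset

/-- shift of the side components -/
def wn_act {O J : Type} (τ : O → Fin 3) (ω : O → X J) : O → X J :=
  fun o => ((ω o).1, ((ω o).2.1.1 + τ o, (ω o).2.1.2), (ω o).2.2)

theorem wn_act_act {O J : Type} (τ τ' : O → Fin 3) (ω : O → X J) :
    wn_act τ (wn_act τ' ω) = wn_act (fun o => τ' o + τ o) ω := by
  funext o
  simp only [wn_act, add_assoc]

theorem wn_act_zero {O J : Type} (ω : O → X J) : wn_act (fun _ => 0) ω = ω := by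
  funext o
  simp only [wn_act, add_zero]

theorem wn_five (a b s s' : Fin 3) :
    Fintype.card {x : Bool → Fin 3 // a + x true = s ∨ b + x false = s'} = 5 := by
  revert a b s s'
  decide

/-- counting pairs in two ways -/
theorem wn_count {Sg Ω : Type} [Finite Sg] [Finite Ω] (act : Sg → Ω ≃ Ω) (E : Ω → Prop) (N : ℕ)
    (h : ∀ ω, Nat.card {σ : Sg // E (act σ ω)} = N) :
    Nat.card Sg * Nat.card {ω : Ω // E ω} = N * Nat.card Ω := by
  classical
  have := Fintype.ofFinite Ω
  have e1 : {p : Sg × Ω // E (act p.1 p.2)} ≃ Sg × {ω : Ω // E ω} :=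
    { toFun := fun p => (p.1.1, ⟨act p.1.1 p.1.2, p.2⟩)
      invFun := fun q => ⟨(q.1, (act q.1).symm q.2.1), by
        simpa using q.2.2⟩
      left_inv := fun p => by
        apply Subtype.ext
        simp
      right_inv := fun q => by
        apply Prod.ext
        · rfl
        · apply Subtype.ext
          simp }
  have e2 : {p : Sg × Ω // E (act p.1 p.2)} ≃ (Σ ω : Ω, {σ : Sg // E (act σ ω)}) :=
    { toFun := fun p => ⟨p.1.2, ⟨p.1.1, p.2⟩⟩
      invFun := fun q => ⟨(q.2.1, q.1), q.2.2⟩
      left_inv := fun p => rfl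
      right_inv := fun q => rfl }
  have h1 := Nat.card_congr e1
  have h2 := Nat.card_congr e2
  rw [Nat.card_prod] at h1
  rw [Nat.card_sigma] at h2
  rw [← h1, h2, Finset.sum_congr rfl (fun ω _ => h ω), Finset.sum_const, Finset.card_univ,
    Nat.card_eq_fintype_card, smul_eq_mul, mul_comm]

theorem t_WN : StWN := by
  intro V O J _ _ _ S m wv hinj
  classical
  set f : Fin m × Bool → O := fun p => S.orb (wv p.1 p.2) with hf
  have hfi : Function.Injective f := by
    rintro ⟨i, b⟩ ⟨i', b'⟩ h
    obtain ⟨h1, h2⟩ := hinj i b i' b' h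
    rw [h1, h2]
  let act : (Fin m → Bool → Fin 3) → (O → X J) ≃ (O → X J) := fun σ =>
    { toFun := wn_act (Function.extend f (fun p => σ p.1 p.2) (fun _ => 0))
      invFun := wn_act (fun o => -(Function.extend f (fun p => σ p.1 p.2) (fun _ => 0)) o)
      left_inv := fun ω => by
        rw [wn_act_act]
        simp only [add_neg_cancel]
        exact wn_act_zero ω
      right_inv := fun ω => by
        rw [wn_act_act]
        simp only [neg_add_cancel]
        exact wn_act_zero ω }
  have hact : ∀ σ ω (i : Fin m) (b : Bool), (act σ ω (S.orb (wv i b))).2.1.1 =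
      (ω (S.orb (wv i b))).2.1.1 + σ i b := by
    intro σ ω i b
    have h := hfi.extend_apply (fun p => σ p.1 p.2) (fun _ => 0) (i, b)
    change (ω (S.orb (wv i b))).2.1.1 +
      (Function.extend f (fun p => σ p.1 p.2) (fun _ => 0)) (f (i, b)) = _
    rw [h]
  set E : (O → X J) → Prop := fun ω => ∀ i, (ω (S.orb (wv i true))).2.1.1 = S.sd (wv i true) ∨
        (ω (S.orb (wv i false))).2.1.1 = S.sd (wv i false) with hE
  have hN : ∀ ω, Nat.card {σ : Fin m → Bool → Fin 3 // E (act σ ω)} = 5 ^ m := by
    intro ω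
    let P : (i : Fin m) → (Bool → Fin 3) → Prop := fun i x =>
      (ω (S.orb (wv i true))).2.1.1 + x true = S.sd (wv i true) ∨
        (ω (S.orb (wv i false))).2.1.1 + x false = S.sd (wv i false)
    have e : {σ : Fin m → Bool → Fin 3 // E (act σ ω)} ≃ ((i : Fin m) → {x : Bool → Fin 3 // P i x}) :=
      { toFun := fun σ i => ⟨σ.1 i, by
          have := σ.2 i
          rw [hact, hact] at this
          exact this⟩
        invFun := fun τ => ⟨fun i => (τ i).1, fun i => by
          have := (τ i).2
          rw [hact (fun i => (τ i).1) ω i true, hact (fun i => (τ i).1) ω i false]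
          exact this⟩
        left_inv := fun σ => rfl
        right_inv := fun τ => rfl }
    rw [Nat.card_congr e, Nat.card_pi]
    have h5 : ∀ i : Fin m, Nat.card {x : Bool → Fin 3 // P i x} = 5 := by
      intro i
      rw [Nat.card_eq_fintype_card]
      exact wn_five _ _ _ _
    rw [Finset.prod_congr rfl (fun i _ => h5 i), Finset.prod_const, Finset.card_univ,
      Fintype.card_fin]
  have h := wn_count act E (5 ^ m) hN
  have h9 : Nat.card (Fin m → Bool → Fin 3) = 9 ^ m := by
    rw [Nat.card_eq_fintype_card]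
    simp [← pow_mul]
  rw [h9] at h
  exact h.le

end Pool.Agent.H9.LG
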