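import Pool.Agent.H9.LG.Stm

set_option autoImplicit false

/-!
# Project LG (helper9), task XC: coincidences in a tree-indexed reduced walk, rooted anywhere
-/

namespace Pool.Agent.H9.LG

open Finset

theorem xc_girth_mono {V O J : Type} {S : Sys V O J} {g g' : ℕ} (h : Girth S g) (hg : g' ≤ g) :
    Girth S g' :=
  fun j δ d h1 h2 h3 => h j δ d h1 (h2.trans hg) h3

section Tree

variable {Nn : Type} (T : Tree Nn)

theorem xc_root {κ : Nn} (h : T.dep κ = 0) : κ = T.root := by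
  by_contra hne
  rw [T.dep_par κ hne] at h
  omega

theorem xc_ne_root {κ : Nn} (h : 0 < T.dep κ) : κ ≠ T.root := by
  intro hr
  rw [hr, T.dep_root] at h
  omega

theorem xc_dep_iter : ∀ (i : ℕ) (κ : Nn), i ≤ T.dep κ → T.dep (T.par^[i] κ) + i = T.dep κ
  | 0, κ, _ => rfl
  | i + 1, κ, h => by
      have hne : κ ≠ T.root := xc_ne_root T (by omega)
      have h1 := T.dep_par κ hne
      have h2 := xc_dep_iter i (T.par κ) (by omega)
      rw [Function.iterate_succ_apply]
      omega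

theorem xc_iter_root (κ : Nn) : T.par^[T.dep κ] κ = T.root := by
  apply xc_root T
  have h1 := xc_dep_iter T (T.dep κ) κ le_rfl
  omega

theorem xc_lca (μ ν : Nn) : ∃ i, i ≤ T.dep μ ∧ ∃ i', i' ≤ T.dep ν ∧
    T.par^[i] μ = T.par^[i'] ν ∧
    ∀ k, k ≤ T.dep μ → ∀ k', k' ≤ T.dep ν → T.par^[k] μ = T.par^[k'] ν → i ≤ k ∧ i' ≤ k' := by
  classical
  have hex : ∃ i, i ≤ T.dep μ ∧ ∃ i', i' ≤ T.dep ν ∧ T.par^[i] μ = T.par^[i'] ν :=
    ⟨T.dep μ, le_rfl, T.dep ν, le_rfl, by rw [xc_iter_root, xc_iter_root]⟩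
  obtain ⟨hi, i', hi', hw⟩ := Nat.find_spec hex
  refine ⟨Nat.find hex, hi, i', hi', hw, ?_⟩
  intro k hk k' hk' hkk
  have h1 : Nat.find hex ≤ k := Nat.find_min' hex ⟨hk, k', hk', hkk⟩
  refine ⟨h1, ?_⟩
  have h2 := xc_dep_iter T _ _ hi
  have h3 := xc_dep_iter T _ _ hi'
  have h4 := xc_dep_iter T _ _ hk
  have h5 := xc_dep_iter T _ _ hk'
  rw [hw] at h2
  rw [hkk] at h4
  omega

end Tree

section Down

variable {V O J Nn : Type} (S : Sys V O J) (j : J) (T : Tree Nn)

theorem xc_dn_inj (x : X J) (τ : ZMod 3) {δ δ' : V × Lab}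
    (h : dn S j x τ δ = dn S j x τ δ') : δ = δ' := by
  have h1 : tr S j x τ δ = tr S j x τ δ' := by
    have h2 := congrArg (S.nb j) h
    simpa only [dn, S.nb_nb] using h2
  have h3 := congrArg (tr S j x τ) h1
  simpa only [tr_tr] using h3

/-- The dart by which we arrive at `κ`, if we arrive at `par^[i] κ` by `δ`. -/
def xcDn (x : Nn → X J) (δ : V × Lab) : ℕ → Nn → V × Lab
  | 0, _ => δ
  | i + 1, κ => dn S j (x (T.par κ)) (T.ty κ) (xcDn x δ i (T.par κ))

theorem xc_Dn_inj (x : Nn → X J) {δ δ' : V × Lab} : ∀ (i : ℕ) (κ : Nn),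
    xcDn S j T x δ i κ = xcDn S j T x δ' i κ → δ = δ'
  | 0, _, h => h
  | i + 1, κ, h => xc_Dn_inj x i (T.par κ) (xc_dn_inj S j _ _ h)

theorem xc_Dn_congr (x x' : Nn → X J) (δ : V × Lab) : ∀ (i : ℕ) (κ : Nn),
    (∀ k, 1 ≤ k → k ≤ i → x (T.par^[k] κ) = x' (T.par^[k] κ)) →
    xcDn S j T x δ i κ = xcDn S j T x' δ i κ
  | 0, _, _ => rfl
  | i + 1, κ, h => by
      have h1 : x (T.par κ) = x' (T.par κ) := h 1 le_rfl (by omega)
      have h2 := xc_Dn_congr x x' δ i (T.par κ) (fun k hk hk' => by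
        have h3 := h (k + 1) (by omega) (by omega)
        rwa [Function.iterate_succ_apply] at h3)
      rw [xcDn, xcDn, h1, h2]

variable {S j T} {A : V × Lab → (Nn → X J) → Nn → V × Lab} (hA : IsArr S j T A)
include hA

theorem xc_arr_Dn (a : V × Lab) (x : Nn → X J) : ∀ (i : ℕ) (κ : Nn), i ≤ T.dep κ →
    A a x κ = xcDn S j T x (A a x (T.par^[i] κ)) i κ
  | 0, _, _ => rfl
  | i + 1, κ, h => by
      have hne : κ ≠ T.root := xc_ne_root T (by omega)
      have h1 := T.dep_par κ hne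
      rw [Function.iterate_succ_apply, xcDn, ← xc_arr_Dn a x i (T.par κ) (by omega)]
      exact hA.2 a x κ hne

theorem xc_arr_eq (a : V × Lab) (x : Nn → X J) (κ : Nn) :
    A a x κ = xcDn S j T x a (T.dep κ) κ := by
  rw [xc_arr_Dn hA a x (T.dep κ) κ le_rfl, xc_iter_root, hA.1]

theorem xc_arr_inj (x : Nn → X J) (κ : Nn) {a a' : V × Lab} (h : A a x κ = A a' x κ) :
    a = a' := by
  rw [xc_arr_eq hA, xc_arr_eq hA] at h
  exact xc_Dn_inj S j T x _ _ h

theorem xc_arr_congr (a : V × Lab) (x x' : Nn → X J) (κ : Nn)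
    (h : ∀ k, 1 ≤ k → k ≤ T.dep κ → x (T.par^[k] κ) = x' (T.par^[k] κ)) :
    A a x κ = A a x' κ := by
  rw [xc_arr_eq hA, xc_arr_eq hA]
  exact xc_Dn_congr S j T x x' a _ _ h

theorem xc_chain (a : V × Lab) (x : Nn → X J) (n : ℕ → Nn) (h : ℕ)
    (hn : ∀ k, k < h → n (k + 1) ≠ T.root ∧ T.par (n (k + 1)) = n k) :
    ∀ k, k ≤ h → chain S j x n (fun i => T.ty (n (i + 1))) (A a x (n 0)) k = A a x (n k)
  | 0, _ => rfl
  | k + 1, hk => by
      rw [chain, xc_chain a x n h hn k (by omega), hA.2 a x _ (hn k (by omega)).1,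
        (hn k (by omega)).2]

end Down

/-- The darts over an orbit are parametrised by the sides and labels. -/
abbrev XcD := Fin 3 × Lab

theorem xc_count (hK : StK) {V O J Nn : Type} [Finite V] [Finite J] [Finite Nn]
    (S : Sys V O J) (j : J) (h : ℕ) (hg : Girth S (2 * h)) (T : Tree Nn)
    (A : V × Lab → (Nn → X J) → Nn → V × Lab) (hA : IsArr S j T A)
    (n : ℕ → Nn) (hn : ∀ k, k < h → n (k + 1) ≠ T.root ∧ T.par (n (k + 1)) = n k)
    (hd : ∀ k, k ≤ h → T.dep (n k) = T.dep (n 0) + k)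
    (P : V × Lab → (Nn → X J) → Prop)
    (α g : XcD × XcD → (Nn → X J) → V × Lab)
    (hα : ∀ p x x', (∀ κ, (∀ i, i < h → n i ≠ κ) → x κ = x' κ) → α p x = α p x' ∧ g p x = g p x')
    (hP : ∀ a x, P a x → ∃ p, α p x = a ∧ g p x = A a x (n h)) :
    3 ^ h * Nat.card {ax : (V × Lab) × (Nn → X J) // P ax.1 ax.2} ≤
      144 * Nat.card (Nn → X J) := by
  classical
  let τ : ℕ → ZMod 3 := fun i => T.ty (n (i + 1))
  let β : XcD × XcD → Type := fun p =>
    {x : Nn → X J // chain S j x n τ (A (α p x) x (n 0)) h = g p x}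
  have hfin : ∀ p, Finite (β p) := fun p => by
    show Finite {x : Nn → X J // chain S j x n τ (A (α p x) x (n 0)) h = g p x}
    infer_instance
  have hinj : Nat.card {ax : (V × Lab) × (Nn → X J) // P ax.1 ax.2} ≤
      Nat.card (Σ p : XcD × XcD, β p) := by
    choose! p hp1 hp2 using hP
    refine Nat.card_le_card_of_injective
      (fun ax => ⟨p ax.1.1 ax.1.2, ⟨ax.1.2, ?_⟩⟩) ?_
    · rw [hp1 _ _ ax.2, hp2 _ _ ax.2]
      exact xc_chain hA _ _ n h hn h le_rfl
    · rintro ⟨⟨a, x⟩, hax⟩ ⟨⟨a', x'⟩, hax'⟩ heq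
      simp only at heq hax hax'
      have h1 : p a x = p a' x' := congrArg Sigma.fst heq
      have h2 : x = x' := congrArg (fun z : Σ p : XcD × XcD, β p => (z.2.1 : Nn → X J)) heq
      subst h2
      have h4 : a = a' := by rw [← hp1 a x hax, ← hp1 a' x hax', h1]
      subst h4
      rfl
  have hβ : ∀ p : XcD × XcD, 3 ^ h * Nat.card (β p) ≤ Nat.card (Nn → X J) := by
    intro p
    refine hK V O J Nn S j h hg n τ ?_ (fun x => A (α p x) x (n 0)) (fun x => g p x) ?_
    · intro i i' hi hi' hii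
      have h1 := hd i hi.le
      have h2 := hd i' hi'.le
      rw [hii] at h1
      omega
    · intro x x' hx
      obtain ⟨h1, h2⟩ := hα p x x' hx
      refine ⟨?_, h2⟩
      rw [h1]
      apply xc_arr_congr hA
      intro k hk hk'
      apply hx
      intro i hi hni
      have h3 := xc_dep_iter T k (n 0) hk'
      have h4 := hd i hi.le
      rw [hni] at h4
      omega
  have hsum : 3 ^ h * Nat.card (Σ p : XcD × XcD, β p) ≤ 144 * Nat.card (Nn → X J) := by
    rw [Nat.card_sigma, Finset.mul_sum]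
    refine (Finset.sum_le_sum fun p _ => hβ p).trans ?_
    rw [Finset.sum_const, smul_eq_mul]
    have hc : (Finset.univ : Finset (XcD × XcD)).card = 144 := by
      rw [Finset.card_univ]
      rfl
    rw [hc]
  exact (Nat.mul_le_mul_left _ hinj).trans hsum

/-- The dart over the orbit `u` with given side and label. -/
noncomputable def xcDart {V O J : Type} [Nonempty V] (S : Sys V O J) (u : O) (p : XcD) :
    V × Lab :=
  Classical.epsilon fun δ : V × Lab => S.orb δ.1 = u ∧ S.sd δ.1 = p.1 ∧ δ.2 = p.2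

theorem xc_dart {V O J : Type} [Nonempty V] (S : Sys V O J) (δ : V × Lab) (u : O)
    (hu : S.orb δ.1 = u) : xcDart S u (S.sd δ.1, δ.2) = δ := by
  have h1 := Classical.epsilon_spec
    (p := fun δ' : V × Lab => S.orb δ'.1 = u ∧ S.sd δ'.1 = S.sd δ.1 ∧ δ'.2 = δ.2)
    ⟨δ, hu, rfl, rfl⟩
  exact Prod.ext (S.inj _ _ (h1.1.trans hu.symm) h1.2.1) h1.2.2

theorem xc_eps {D : Type} [Nonempty D] (P : D → Prop) (d : D) (hd : P d)
    (hu : ∀ d', P d' → d' = d) : Classical.epsilon P = d :=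
  hu _ (Classical.epsilon_spec ⟨d, hd⟩)

/-- The bound, if the path from `μ` to `ν` goes down the segment `n 0, …, n h`. -/
theorem xc_seg (hK : StK) {V O J Nn : Type} [Finite V] [Finite J] [Finite Nn]
    (S : Sys V O J) (j : J) (h : ℕ) (hg : Girth S (2 * h)) (T : Tree Nn)
    (A : V × Lab → (Nn → X J) → Nn → V × Lab) (hA : IsArr S j T A)
    (n : ℕ → Nn) (hn : ∀ k, k < h → n (k + 1) ≠ T.root ∧ T.par (n (k + 1)) = n k)
    (hd : ∀ k, k ≤ h → T.dep (n k) = T.dep (n 0) + k)
    (μ ν q : Nn) (u : O) (i : ℕ) (hi : i ≤ T.dep ν) (hν : T.par^[i] ν = n h)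
    (hμ : ∀ k, 1 ≤ k → k ≤ T.dep μ → ∀ m, m < h → T.par^[k] μ ≠ n m)
    (hq : (∀ k, 1 ≤ k → k ≤ T.dep q → ∀ m, m < h → T.par^[k] q ≠ n m) ∨
      ∃ k, k ≤ T.dep q ∧ T.par^[k] q = n h) :
    3 ^ h * Nat.card {ax : (V × Lab) × (Nn → X J) //
        S.orb (A ax.1 ax.2 μ).1 = S.orb (A ax.1 ax.2 ν).1 ∧ S.orb (A ax.1 ax.2 q).1 = u} ≤
      144 * Nat.card (Nn → X J) := by
  classical
  rcases isEmpty_or_nonempty V with hV | hV
  · have h1 : IsEmpty {ax : (V × Lab) × (Nn → X J) //
        S.orb (A ax.1 ax.2 μ).1 = S.orb (A ax.1 ax.2 ν).1 ∧ S.orb (A ax.1 ax.2 q).1 = u} :=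
      ⟨fun ax => hV.false ax.1.1.1⟩
    rw [Nat.card_of_isEmpty, mul_zero]
    exact Nat.zero_le _
  -- the maps down from `n h` do not depend on the segment
  have hbot : ∀ (κ : Nn) (k : ℕ), k ≤ T.dep κ → T.par^[k] κ = n h → ∀ x x' : Nn → X J,
      (∀ κ, (∀ i, i < h → n i ≠ κ) → x κ = x' κ) → ∀ δ,
      xcDn S j T x δ k κ = xcDn S j T x' δ k κ := by
    intro κ k hk hkn x x' hx δ
    apply xc_Dn_congr
    intro m hm hm'
    apply hx
    intro l hl hln
    have h1 := xc_dep_iter T m κ (by omega)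
    have h2 := xc_dep_iter T k κ hk
    have h3 := hd l hl.le
    have h4 := hd h le_rfl
    rw [hkn] at h2
    rw [hln] at h3
    omega
  have htop : ∀ κ : Nn, (∀ k, 1 ≤ k → k ≤ T.dep κ → ∀ m, m < h → T.par^[k] κ ≠ n m) →
      ∀ x x' : Nn → X J, (∀ κ, (∀ i, i < h → n i ≠ κ) → x κ = x' κ) → ∀ a,
      A a x κ = A a x' κ := by
    intro κ hκ x x' hx a
    apply xc_arr_congr hA
    intro k hk hk'
    apply hx
    intro m hm hmn
    exact hκ k hk hk' m hm hmn.symm
  rcases hq with hq | ⟨iq, hiq, hqn⟩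
  · -- `q` is above the segment
    let α : XcD × XcD → (Nn → X J) → V × Lab := fun p x =>
      Classical.epsilon fun a => A a x q = xcDart S u p.1
    let g : XcD × XcD → (Nn → X J) → V × Lab := fun p x =>
      Classical.epsilon fun δ => xcDn S j T x δ i ν =
        xcDart S (S.orb (A (α p x) x μ).1) p.2
    refine xc_count hK S j h hg T A hA n hn hd
      (fun a x => S.orb (A a x μ).1 = S.orb (A a x ν).1 ∧ S.orb (A a x q).1 = u) α g ?_ ?_
    · intro p x x' hx
      have h1 : α p x = α p x' := by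
        simp only [α, htop q hq x x' hx]
      refine ⟨h1, ?_⟩
      simp only [g, h1, htop μ hμ x x' hx, hbot ν i hi hν x x' hx]
    · rintro a x ⟨h1, h2⟩
      refine ⟨((S.sd (A a x q).1, (A a x q).2), (S.sd (A a x ν).1, (A a x ν).2)), ?_⟩
      have h3 : α ((S.sd (A a x q).1, (A a x q).2), (S.sd (A a x ν).1, (A a x ν).2)) x = a := by
        apply xc_eps
        · exact (xc_dart S _ u h2).symm
        · intro a' ha'
          apply xc_arr_inj hA x q
          rw [ha']
          exact xc_dart S _ u h2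
      refine ⟨h3, ?_⟩
      have h4 : A a x ν = xcDn S j T x (A a x (n h)) i ν := by
        rw [← hν]
        exact xc_arr_Dn hA a x i ν hi
      have h5 : xcDart S (S.orb (A a x μ).1) (S.sd (A a x ν).1, (A a x ν).2) = A a x ν :=
        xc_dart S _ _ h1.symm
      simp only [g]
      rw [h3]
      apply xc_eps
      · rw [h5, ← h4]
      · intro δ hδ
        rw [h5, h4] at hδ
        exact xc_Dn_inj S j T x _ _ hδ
  · -- `q` is below the segment
    let g : XcD × XcD → (Nn → X J) → V × Lab := fun p x =>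
      Classical.epsilon fun δ => xcDn S j T x δ iq q = xcDart S u p.1
    let α : XcD × XcD → (Nn → X J) → V × Lab := fun p x =>
      Classical.epsilon fun a => A a x μ = xcDart S (S.orb (xcDn S j T x (g p x) i ν).1) p.2
    refine xc_count hK S j h hg T A hA n hn hd
      (fun a x => S.orb (A a x μ).1 = S.orb (A a x ν).1 ∧ S.orb (A a x q).1 = u) α g ?_ ?_
    · intro p x x' hx
      have h1 : g p x = g p x' := by
        simp only [g, hbot q iq hiq hqn x x' hx]
      refine ⟨?_, h1⟩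
      simp only [α, h1, htop μ hμ x x' hx, hbot ν i hi hν x x' hx]
    · rintro a x ⟨h1, h2⟩
      refine ⟨((S.sd (A a x q).1, (A a x q).2), (S.sd (A a x μ).1, (A a x μ).2)), ?_⟩
      have h4 : A a x ν = xcDn S j T x (A a x (n h)) i ν := by
        rw [← hν]
        exact xc_arr_Dn hA a x i ν hi
      have h6 : A a x q = xcDn S j T x (A a x (n h)) iq q := by
        rw [← hqn]
        exact xc_arr_Dn hA a x iq q hiq
      have h3 : g ((S.sd (A a x q).1, (A a x q).2), (S.sd (A a x μ).1, (A a x μ).2)) x =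
          A a x (n h) := by
        have h7 : xcDart S u (S.sd (A a x q).1, (A a x q).2) = A a x q := xc_dart S _ u h2
        simp only [g]
        apply xc_eps
        · rw [h7, ← h6]
        · intro δ hδ
          rw [h7, h6] at hδ
          exact xc_Dn_inj S j T x _ _ hδ
      refine ⟨?_, h3⟩
      simp only [α]
      rw [h3, ← h4]
      have h5 : xcDart S (S.orb (A a x ν).1) (S.sd (A a x μ).1, (A a x μ).2) = A a x μ :=
        xc_dart S _ _ h1
      apply xc_eps
      · exact h5.symm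
      · intro a' ha'
        rw [h5] at ha'
        exact xc_arr_inj hA x μ ha'

/-- The bound, if `ν` is far below the lowest common ancestor of `μ` and `ν`. -/
theorem xc_side (hK : StK) {V O J Nn : Type} [Finite V] [Finite J] [Finite Nn]
    (S : Sys V O J) (j : J) (h : ℕ) (hg : Girth S (2 * h)) (T : Tree Nn)
    (A : V × Lab → (Nn → X J) → Nn → V × Lab) (hA : IsArr S j T A)
    (μ ν q : Nn) (u : O) (i' : ℕ) (hi' : i' ≤ T.dep ν) (hh : 2 * h + 1 ≤ i')
    (hmin : ∀ k, k ≤ T.dep μ → ∀ k', k' < i' → T.par^[k] μ ≠ T.par^[k'] ν) :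
    3 ^ h * Nat.card {ax : (V × Lab) × (Nn → X J) //
        S.orb (A ax.1 ax.2 μ).1 = S.orb (A ax.1 ax.2 ν).1 ∧ S.orb (A ax.1 ax.2 q).1 = u} ≤
      144 * Nat.card (Nn → X J) := by
  classical
  -- the properties of the segment with offset `t`
  have key : ∀ t, t + h + 1 ≤ i' →
      ((∀ k, 1 ≤ k → k ≤ T.dep q → ∀ m, m < h → T.par^[k] q ≠ T.par^[i' - 1 - t - m] ν) ∨
        ∃ k, k ≤ T.dep q ∧ T.par^[k] q = T.par^[i' - 1 - t - h] ν) →
      3 ^ h * Nat.card {ax : (V × Lab) × (Nn → X J) //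
        S.orb (A ax.1 ax.2 μ).1 = S.orb (A ax.1 ax.2 ν).1 ∧ S.orb (A ax.1 ax.2 q).1 = u} ≤
      144 * Nat.card (Nn → X J) := by
    intro t ht hq
    refine xc_seg hK S j h hg T A hA (fun k => T.par^[i' - 1 - t - k] ν) ?_ ?_ μ ν q u
      (i' - 1 - t - h) (by omega) rfl ?_ hq
    · intro k hk
      constructor
      · apply xc_ne_root T
        have h1 := xc_dep_iter T (i' - 1 - t - (k + 1)) ν (by omega)
        omega
      · have h2 : i' - 1 - t - k = (i' - 1 - t - (k + 1)) + 1 := by omega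
        simp only [h2, Function.iterate_succ_apply']
    · intro k hk
      have h1 := xc_dep_iter T (i' - 1 - t - k) ν (by omega)
      have h2 := xc_dep_iter T (i' - 1 - t - 0) ν (by omega)
      omega
    · intro k _ hk m hm
      exact hmin k hk _ (by omega)
  by_cases hb : ∃ k, k ≤ T.dep q ∧ T.par^[k] q = T.par^[i' - 1 - 0 - h] ν
  · exact key 0 (by omega) (Or.inr hb)
  · refine key h (by omega) (Or.inl ?_)
    intro k _ hk m hm hkm
    apply hb
    have h1 := xc_dep_iter T k q hk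
    have h2 := xc_dep_iter T (i' - 1 - h - m) ν (by omega)
    rw [hkm] at h1
    refine ⟨m + k, by omega, ?_⟩
    have h3 : i' - 1 - 0 - h = m + (i' - 1 - h - m) := by omega
    rw [h3, Function.iterate_add_apply, Function.iterate_add_apply, hkm]

theorem t_XC : StK → StNear → StXC := by
  intro hK hNear V O J Nn _ _ _ S j h hg T A hA μ ν q u hne
  obtain ⟨i, hi, i', hi', hw, hmin⟩ := xc_lca T μ ν
  by_cases hsmall : i + i' ≤ 4 * h + 4
  · have h1 : IsEmpty {ax : (V × Lab) × (Nn → X J) //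
        S.orb (A ax.1 ax.2 μ).1 = S.orb (A ax.1 ax.2 ν).1 ∧ S.orb (A ax.1 ax.2 q).1 = u} :=
      ⟨fun ax => hNear V O J Nn S j (4 * h + 4) hg T A hA ax.1.1 ax.1.2 μ ν i i' hi hi' hw
        hsmall hne ax.2.1⟩
    rw [Nat.card_of_isEmpty, mul_zero]
    exact Nat.zero_le _
  · have hg2 : Girth S (2 * h) := xc_girth_mono hg (by omega)
    by_cases hh : 2 * h + 1 ≤ i'
    · refine xc_side hK S j h hg2 T A hA μ ν q u i' hi' hh ?_
      intro k hk k' hk' hkk
      have h1 := (hmin k hk k' (by omega) hkk).2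
      omega
    · have h1 := xc_side hK S j h hg2 T A hA ν μ q u i hi (by omega) (by
        intro k hk k' hk' hkk
        have h1 := (hmin k' (by omega) k hk hkk.symm).1
        omega)
      have h2 : Nat.card {ax : (V × Lab) × (Nn → X J) //
          S.orb (A ax.1 ax.2 μ).1 = S.orb (A ax.1 ax.2 ν).1 ∧
            S.orb (A ax.1 ax.2 q).1 = u} =
          Nat.card {ax : (V × Lab) × (Nn → X J) //
          S.orb (A ax.1 ax.2 ν).1 = S.orb (A ax.1 ax.2 μ).1 ∧
            S.orb (A ax.1 ax.2 q).1 = u} :=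
        Nat.card_congr (Equiv.subtypeEquivRight fun ax => by
          constructor
          · rintro ⟨h3, h4⟩
            exact ⟨h3.symm, h4⟩
          · rintro ⟨h3, h4⟩
            exact ⟨h3.symm, h4⟩)
      rw [h2]
      exact h1

end Pool.Agent.H9.LG
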