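import Pool.Agent.H9.LG.Stm

set_option autoImplicit false

/-!
# Project LG: the directions are independent fair bits (StXD)
-/

namespace Pool.Agent.H9.LG

open Finset

variable {V O J : Type}

/-- forget the bits -/
def xd_strip (x : X J) : X J := (x.1, x.2.1, fun _ => false)

theorem xd_cenArr (S : Sys V O J) (j : J) (a : V × Lab) (x : Nd → X J) (d : ℕ → Bool) (t : ℕ) :
    cenArr S j a (fun κ => xd_strip (x κ)) d t = cenArr S j a x d t := by
  induction t with
  | zero => rfl
  | succ t ih =>
    simp only [cenArr, ih]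
    rfl

theorem xd_rayArr (S : Sys V O J) (j : J) (a : V × Lab) (x : Nd → X J) (d : ℕ → Bool) (t : ℕ)
    (b : Bool) (s : ℕ) :
    rayArr S j a (fun κ => xd_strip (x κ)) d t b s = rayArr S j a x d t b s := by
  induction s with
  | zero =>
    simp only [rayArr, xd_cenArr]
    rfl
  | succ s ih =>
    simp only [rayArr, ih]
    rfl

theorem xd_out (S : Sys V O J) (j : J) (a : V × Lab) (x : Nd → X J) (d : ℕ → Bool) (t : ℕ)
    (b : Bool) (s : ℕ) :
    out S j a (fun κ => xd_strip (x κ)) d t b s = out S j a x d t b s := by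
  cases s with
  | zero =>
    simp only [out, xd_cenArr]
    rfl
  | succ s =>
    simp only [out, xd_rayArr]
    rfl

theorem xd_cutX (S : Sys V O J) (j : J) (a : V × Lab) (x : Nd → X J) (d : ℕ → Bool) (t : ℕ)
    (b : Bool) :
    cutX S j a (fun κ => xd_strip (x κ)) d t b = cutX S j a x d t b := by
  funext s
  simp only [cutX, xd_out]
  rfl

theorem xd_fX (S : Sys V O J) (j : J) (L : ℕ) (a : V × Lab) (x : Nd → X J) (d : ℕ → Bool) (t : ℕ)
    (b : Bool) :
    fX S j L a (fun κ => xd_strip (x κ)) d t b = fX S j L a x d t b := by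
  simp only [fX, xd_cutX]

theorem xd_ldr (S : Sys V O J) (j : J) (L : ℕ) (a : V × Lab) (x : Nd → X J) (d : ℕ → Bool) (t : ℕ)
    (b : Bool) :
    ldr S j L a (fun κ => xd_strip (x κ)) d t b = ldr S j L a x d t b := by
  simp only [ldr, xd_fX, xd_out]

open Classical in
/-- the leading direction -/
noncomputable def xd_lead (S : Sys V O J) (j : J) (L : ℕ) (a : V × Lab) (x : Nd → X J)
    (d : ℕ → Bool) (t : ℕ) : Bool :=
  if S.rk (ldr S j L a x d t true) < S.rk (ldr S j L a x d t false) then false else true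

/-- the node in `Node L` -/
def xd_tn {L : ℕ} : Nd → Node L
  | none => none
  | some (t, b, s) => if h : t < L ∧ s < L then some (⟨t, h.1⟩, b, ⟨s, h.2⟩) else none

theorem xd_ext {L : ℕ} {C : Type} (x : Node L → C) (ν : Nd) : ext x ν = x (xd_tn ν) := by
  rcases ν with _ | ⟨t, b, s⟩
  · rfl
  · simp only [ext, xd_tn]
    split <;> rfl

/-- the coordinate which determines the direction -/
noncomputable def xd_co (S : Sys V O J) (j : J) (L : ℕ) (a : V × Lab) (x : Nd → X J)
    (d : ℕ → Bool) (t : ℕ) : Node L × (Fin 3 × J × Lab) :=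
  (xd_tn (pos d t (xd_lead S j L a x d t) (fX S j L a x d t (xd_lead S j L a x d t))),
    (S.sd (ldr S j L a x d t (xd_lead S j L a x d t)).1, j,
      (ldr S j L a x d t (xd_lead S j L a x d t)).2))

/-- the sign -/
noncomputable def xd_r (S : Sys V O J) (j : J) (L : ℕ) (a : V × Lab) (x : Nd → X J)
    (d : ℕ → Bool) (t : ℕ) : Bool :=
  xor (decide (fX S j L a x d t (xd_lead S j L a x d t) % 2 = 1)) (xd_lead S j L a x d t)

theorem xd_lead_strip (S : Sys V O J) (j : J) (L : ℕ) (a : V × Lab) (x : Nd → X J)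
    (d : ℕ → Bool) (t : ℕ) :
    xd_lead S j L a (fun κ => xd_strip (x κ)) d t = xd_lead S j L a x d t := by
  simp only [xd_lead, xd_ldr]

theorem xd_co_strip (S : Sys V O J) (j : J) (L : ℕ) (a : V × Lab) (x : Nd → X J)
    (d : ℕ → Bool) (t : ℕ) :
    xd_co S j L a (fun κ => xd_strip (x κ)) d t = xd_co S j L a x d t := by
  simp only [xd_co, xd_lead_strip, xd_ldr, xd_fX]

theorem xd_r_strip (S : Sys V O J) (j : J) (L : ℕ) (a : V × Lab) (x : Nd → X J)
    (d : ℕ → Bool) (t : ℕ) :
    xd_r S j L a (fun κ => xd_strip (x κ)) d t = xd_r S j L a x d t := by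
  simp only [xd_r, xd_lead_strip, xd_fX]

/-- the formula for the colour -/
theorem xd_col (S : Sys V O J) (j : J) (L : ℕ) (a : V × Lab) (x : Node L → X J)
    (d : ℕ → Bool) (t : ℕ) :
    colA S j L a (ext x) d t =
      xor ((x (xd_co S j L a (ext x) d t).1).2.2 (xd_co S j L a (ext x) d t).2)
        (xd_r S j L a (ext x) d t) := by
  unfold colA
  by_cases h : S.rk (ldr S j L a (ext x) d t true) < S.rk (ldr S j L a (ext x) d t false)
  · have hl : xd_lead S j L a (ext x) d t = false := by
      unfold xd_lead; rw [if_pos h]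
    rw [if_pos h]
    simp only [xd_co, xd_r, hl, phi, bit, xd_ext, Bool.xor_false]
  · have hl : xd_lead S j L a (ext x) d t = true := by
      unfold xd_lead; rw [if_neg h]
    rw [if_neg h]
    simp only [xd_co, xd_r, hl, phi, bit, xd_ext, Bool.xor_true]
    cases (x (xd_tn (pos d t true (fX S j L a (ext x) d t true)))).2.2
      (S.sd (ldr S j L a (ext x) d t true).1, j, (ldr S j L a (ext x) d t true).2) <;>
      cases decide (fX S j L a (ext x) d t true % 2 = 1) <;> rfl

open Classical in
theorem xd_fst_lt (L : ℕ) (hL : 0 < L) (P : ℕ → Prop) : fst L P < L := by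
  unfold fst
  by_cases h : ∃ s, s < L ∧ P s
  · rw [dif_pos h]
    exact (Nat.find_spec h).1
  · rw [dif_neg h]
    exact hL

theorem xd_pos_eq (d : ℕ → Bool) (t t' : ℕ) (b b' : Bool) (s s' : ℕ) (h : t < t')
    (e : pos d t b s = pos d t' b' s') : t' = t + 1 ∧ s = 1 ∧ s' = 0 ∧ b = d t := by
  rcases t' with _ | t'
  · omega
  rcases s with _ | s
  · rcases t with _ | t
    · rcases s' with _ | s'
      · simp [pos, cen] at e
      · simp [pos, cen] at e
    · rcases s' with _ | s'
      · simp only [pos, cen, Option.some.injEq, Prod.mk.injEq] at e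
        omega
      · simp only [pos, cen, Option.some.injEq, Prod.mk.injEq] at e
        omega
  · rcases s' with _ | s'
    · simp only [pos, cen, Option.some.injEq, Prod.mk.injEq] at e
      obtain ⟨e1, e2, e3⟩ := e
      subst e1 e3
      exact ⟨rfl, rfl, rfl, e2⟩
    · simp only [pos, Option.some.injEq, Prod.mk.injEq] at e
      omega

/-- small nodes -/
def xd_small (L : ℕ) : Nd → Prop
  | none => True
  | some (t, _, s) => t < L ∧ s < L

theorem xd_tn_inj {L : ℕ} (ν ν' : Nd) (h : xd_small L ν) (h' : xd_small L ν')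
    (e : (xd_tn ν : Node L) = xd_tn ν') : ν = ν' := by
  rcases ν with _ | ⟨t, b, s⟩ <;> rcases ν' with _ | ⟨t', b', s'⟩
  · rfl
  · have h2 : t' < L ∧ s' < L := h'
    simp [xd_tn, h2] at e
  · have h2 : t < L ∧ s < L := h
    simp [xd_tn, h2] at e
  · have h2 : t < L ∧ s < L := h
    have h3 : t' < L ∧ s' < L := h'
    simp only [xd_tn, h2, h3, and_self, dite_true, Option.some.injEq, Prod.mk.injEq,
      Fin.mk.injEq] at e
    obtain ⟨e1, e2, e3⟩ := e
    rw [e1, e2, e3]

theorem xd_small_pos {L : ℕ} (d : ℕ → Bool) (t : ℕ) (b : Bool) (s : ℕ) (ht : t < L) (hs : s < L) :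
    xd_small L (pos d t b s) := by
  rcases s with _ | s
  · rcases t with _ | t
    · trivial
    · exact ⟨by omega, by omega⟩
  · exact ⟨ht, by omega⟩

theorem xd_tyD (b : Bool) : tyD b ≠ 0 := by cases b <;> decide

theorem xd_co_ne (S : Sys V O J) (j : J) (L : ℕ) (a : V × Lab) (x : Nd → X J)
    (d : ℕ → Bool) (t t' : ℕ) (h : t < t') (ht : t' < L) :
    xd_co S j L a x d t ≠ xd_co S j L a x d t' := by
  intro e0
  have e1 := congrArg Prod.fst e0
  have e2 := congrArg (fun v => v.2.2.2) e0
  have hL : 0 < L := by omega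
  simp only [xd_co] at e1 e2
  have e3 : pos d t (xd_lead S j L a x d t) (fX S j L a x d t (xd_lead S j L a x d t)) =
      pos d t' (xd_lead S j L a x d t') (fX S j L a x d t' (xd_lead S j L a x d t')) :=
    xd_tn_inj _ _ (xd_small_pos d t _ _ (h.trans ht) (xd_fst_lt L hL _))
      (xd_small_pos d t' _ _ ht (xd_fst_lt L hL _)) e1
  obtain ⟨k1, k2, k3, k4⟩ := xd_pos_eq d t t' _ _ _ _ h e3
  unfold ldr at e2
  rw [k2, k3] at e2
  rw [k4, k1] at e2
  have e4 : (cenArr S j a x d (t + 1)).2 +
      e ((x (cen d (t + 1))).1 (S.sd (cenArr S j a x d (t + 1)).1) j + 0) =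
      (cenArr S j a x d (t + 1)).2 + e ((x (cen d (t + 1))).1
        (S.sd (cenArr S j a x d (t + 1)).1) j + tyD (xd_lead S j L a x d (t + 1))) := e2
  have e5 := e_inj _ _ (add_left_cancel e4)
  exact xd_tyD _ (add_left_cancel e5).symm

theorem xd_co_inj (S : Sys V O J) (j : J) (L : ℕ) (a : V × Lab) (x : Nd → X J)
    (d : ℕ → Bool) (t t' : ℕ) (ht : t < L) (ht' : t' < L)
    (e : xd_co S j L a x d t = xd_co S j L a x d t') : t = t' := by
  rcases lt_trichotomy t t' with h | h | h
  · exact absurd e (xd_co_ne S j L a x d t t' h ht')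
  · exact h
  · exact absurd e.symm (xd_co_ne S j L a x d t' t h ht)

open Classical in
/-- flip the bits -/
noncomputable def xd_upd (S : Sys V O J) (j : J) (L : ℕ) (a : V × Lab) (d : ℕ → Bool)
    (x : Node L → X J) (z : Fin L → Bool) : Node L → X J := fun κ =>
  ((x κ).1, (x κ).2.1, fun q => xor ((x κ).2.2 q)
    (decide (∃ t : Fin L, xd_co S j L a (ext x) d t = (κ, q) ∧ z t = true)))

theorem xd_upd_strip (S : Sys V O J) (j : J) (L : ℕ) (a : V × Lab) (d : ℕ → Bool)
    (x : Node L → X J) (z : Fin L → Bool) (ν : Nd) :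
    xd_strip (ext (xd_upd S j L a d x z) ν) = xd_strip (ext x ν) := by
  rw [xd_ext, xd_ext]
  rfl

open Classical in
theorem xd_upd_bit (S : Sys V O J) (j : J) (L : ℕ) (a : V × Lab) (d : ℕ → Bool)
    (x : Node L → X J) (z : Fin L → Bool) (t : Fin L) :
    (xd_upd S j L a d x z (xd_co S j L a (ext x) d t).1).2.2 (xd_co S j L a (ext x) d t).2 =
      xor ((x (xd_co S j L a (ext x) d t).1).2.2 (xd_co S j L a (ext x) d t).2) (z t) := by
  simp only [xd_upd]
  congr 1
  cases hz : z t
  · rw [decide_eq_false_iff_not]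
    rintro ⟨t', h1, h2⟩
    have h3 := Fin.ext (xd_co_inj S j L a (ext x) d t' t t'.2 t.2 h1)
    rw [h3, hz] at h2
    exact Bool.false_ne_true h2
  · rw [decide_eq_true_iff]
    exact ⟨t, rfl, hz⟩

theorem xd_of_strip (S : Sys V O J) (j : J) (L : ℕ) (a : V × Lab) (x x' : Nd → X J)
    (d : ℕ → Bool) (t : ℕ) (h : ∀ ν, xd_strip (x ν) = xd_strip (x' ν)) :
    xd_co S j L a x d t = xd_co S j L a x' d t ∧ xd_r S j L a x d t = xd_r S j L a x' d t := by
  have h' : (fun κ => xd_strip (x κ)) = fun κ => xd_strip (x' κ) := funext h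
  rw [← xd_co_strip, ← xd_r_strip, h', xd_co_strip, xd_r_strip]
  exact ⟨rfl, rfl⟩

open Classical in
theorem t_XD : StXD := by
  intro V O J _ _ S j L c a d G hG
  let A := {x : Node L → X J // (∀ t, t < L → decide (colA S j L a (ext x) d t = c) = d t) ∧ G x}
  let B := {x : Node L → X J // G x}
  have hfin : Finite (Node L → X J) := by
    have : Finite (Node L) := inferInstance
    have : Finite (X J) := inferInstance
    infer_instance
  let F : (Fin L → Bool) × A → B := fun p => ⟨xd_upd S j L a d p.2.1 p.1,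
    hG p.2.1 (xd_upd S j L a d p.2.1 p.1) (fun κ => ⟨rfl, rfl⟩) p.2.2.2⟩
  have hF : Function.Injective F := by
    rintro ⟨z, x, hx, hGx⟩ ⟨z', x', hx', hGx'⟩ e
    have e1 : xd_upd S j L a d x z = xd_upd S j L a d x' z' := congrArg Subtype.val e
    have e2 : ∀ ν, xd_strip (ext x ν) = xd_strip (ext x' ν) := by
      intro ν
      rw [← xd_upd_strip S j L a d x z, e1, xd_upd_strip]
    have e3 := fun t => (xd_of_strip S j L a (ext x) (ext x') d t e2).1
    have e4 := fun t => (xd_of_strip S j L a (ext x) (ext x') d t e2).2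
    -- the bits of good `x` are determined
    have e5 : ∀ t : Fin L, (x (xd_co S j L a (ext x) d t).1).2.2 (xd_co S j L a (ext x) d t).2 =
        (x' (xd_co S j L a (ext x') d t).1).2.2 (xd_co S j L a (ext x') d t).2 := by
      intro t
      have g1 := hx t t.2
      have g2 := hx' t t.2
      rw [xd_col] at g1 g2
      rw [← e4 t] at g2
      rw [← g2] at g1
      revert g1
      cases (x (xd_co S j L a (ext x) d t).1).2.2 (xd_co S j L a (ext x) d t).2 <;>
        cases (x' (xd_co S j L a (ext x') d t).1).2.2 (xd_co S j L a (ext x') d t).2 <;>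
        cases xd_r S j L a (ext x) d t <;> cases c <;> simp
    have e6 : z = z' := by
      funext t
      have h1 := xd_upd_bit S j L a d x z t
      have h2 := xd_upd_bit S j L a d x' z' t
      rw [e1, e5 t, e3 t, h2] at h1
      revert h1
      cases (x' (xd_co S j L a (ext x') d t).1).2.2 (xd_co S j L a (ext x') d t).2 <;>
        cases z t <;> cases z' t <;> simp
    subst e6
    have e7 : x = x' := by
      funext κ
      have h1 := congrFun e1 κ
      have h2 : (x κ).1 = (x' κ).1 := by
        have := congrArg (fun y : X J => y.1) h1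
        exact this
      have h3 : (x κ).2.1 = (x' κ).2.1 := by
        have := congrArg (fun y : X J => y.2.1) h1
        exact this
      refine Prod.ext h2 (Prod.ext h3 ?_)
      funext q
      have h4 : xor ((x κ).2.2 q) (decide (∃ t : Fin L, xd_co S j L a (ext x) d t = (κ, q) ∧
          z t = true)) = xor ((x' κ).2.2 q) (decide (∃ t : Fin L,
            xd_co S j L a (ext x') d t = (κ, q) ∧ z t = true)) := by
        have := congrArg (fun y : X J => y.2.2 q) h1
        exact this
      have h5 : (∃ t : Fin L, xd_co S j L a (ext x) d t = (κ, q) ∧ z t = true) ↔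
          ∃ t : Fin L, xd_co S j L a (ext x') d t = (κ, q) ∧ z t = true := by
        simp only [e3]
      simp only [h5] at h4
      revert h4
      cases (x κ).2.2 q <;> cases (x' κ).2.2 q <;>
        cases decide (∃ t : Fin L, xd_co S j L a (ext x') d t = (κ, q) ∧ z t = true) <;> simp
    subst e7
    rfl
  have h1 := Nat.card_le_card_of_injective F hF
  rw [Nat.card_prod] at h1
  have h2 : Nat.card (Fin L → Bool) = 2 ^ L := by
    rw [Nat.card_eq_fintype_card]; simp
  rw [h2] at h1
  exact h1

end Pool.Agent.H9.LG
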