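import Pool.Agent.H9.LG.Stm

set_option autoImplicit false

/-!
# Project LG (helper9): XN, it is unlikely that there is no cut edge
-/

namespace Pool.Agent.H9.LG

open Finset

section

variable {V O J : Type} {L : ℕ}

/-- A node as an element of `Node L`. -/
def xn_to (L : ℕ) : Nd → Node L
  | none => none
  | some (t, b, s) => if h : t < L ∧ s < L then some (⟨t, h.1⟩, b, ⟨s, h.2⟩) else none

theorem xn_to_some {t : ℕ} {b : Bool} {s : ℕ} (ht : t < L) (hs : s < L) :
    xn_to L (some (t, b, s)) = some (⟨t, ht⟩, b, ⟨s, hs⟩) :=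
  dif_pos (show t < L ∧ s < L from ⟨ht, hs⟩)

theorem xn_to_none {t : ℕ} {b : Bool} {s : ℕ} (h : ¬ (t < L ∧ s < L)) :
    xn_to L (some (t, b, s)) = none :=
  dif_neg h

theorem xn_ext {C : Type} (x : Node L → C) (ν : Nd) : ext x ν = x (xn_to L ν) := by
  rcases ν with _ | ⟨t, b, s⟩
  · rfl
  · by_cases h : t < L ∧ s < L
    · have h1 : ext x (some (t, b, s)) = x (some (⟨t, h.1⟩, b, ⟨s, h.2⟩)) := dif_pos h
      rw [h1, xn_to_some h.1 h.2]
    · have h1 : ext x (some (t, b, s)) = x none := dif_neg h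
      rw [h1, xn_to_none h]

/-- `x` and `x'` have the same first components -/
def xn_same (x x' : Node L → X J) : Prop := ∀ κ, (x κ).1 = (x' κ).1

theorem xn_same_symm {x x' : Node L → X J} (h : xn_same x x') : xn_same x' x := fun κ => (h κ).symm

theorem xn_tr (S : Sys V O J) (j : J) {x x' : Node L → X J} (h : xn_same x x') (ν : Nd) (τ : ZMod 3)
    (δ : V × Lab) : tr S j (ext x ν) τ δ = tr S j (ext x' ν) τ δ := by
  unfold tr
  rw [xn_ext, xn_ext, h]

theorem xn_dn (S : Sys V O J) (j : J) {x x' : Node L → X J} (h : xn_same x x') (ν : Nd) (τ : ZMod 3)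
    (δ : V × Lab) : dn S j (ext x ν) τ δ = dn S j (ext x' ν) τ δ := by
  unfold dn
  rw [xn_tr S j h]

theorem xn_cenArr (S : Sys V O J) (j : J) (a : V × Lab) {x x' : Node L → X J} (h : xn_same x x')
    (d : ℕ → Bool) (t : ℕ) : cenArr S j a (ext x) d t = cenArr S j a (ext x') d t := by
  induction t with
  | zero => rfl
  | succ t ih =>
    show dn S j (ext x (cen d t)) (tyD (d t)) (cenArr S j a (ext x) d t) = _
    rw [ih, xn_dn S j h]
    rfl

theorem xn_rayArr (S : Sys V O J) (j : J) (a : V × Lab) {x x' : Node L → X J} (h : xn_same x x')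
    (d : ℕ → Bool) (t : ℕ) (b : Bool) (s : ℕ) :
    rayArr S j a (ext x) d t b s = rayArr S j a (ext x') d t b s := by
  induction s with
  | zero =>
    show dn S j (ext x (cen d t)) (tyD b) (cenArr S j a (ext x) d t) = _
    rw [xn_cenArr S j a h, xn_dn S j h]
    rfl
  | succ s ih =>
    show dn S j (ext x (some (t, b, s))) 0 (rayArr S j a (ext x) d t b s) = _
    rw [ih, xn_dn S j h]
    rfl

theorem xn_out (S : Sys V O J) (j : J) (a : V × Lab) {x x' : Node L → X J} (h : xn_same x x')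
    (d : ℕ → Bool) (t : ℕ) (b : Bool) (s : ℕ) :
    out S j a (ext x) d t b s = out S j a (ext x') d t b s := by
  rcases s with _ | s
  · show tr S j (ext x (cen d t)) (tyD b) (cenArr S j a (ext x) d t) = _
    rw [xn_cenArr S j a h, xn_tr S j h]
    rfl
  · show tr S j (ext x (some (t, b, s))) 0 (rayArr S j a (ext x) d t b s) = _
    rw [xn_rayArr S j a h, xn_tr S j h]
    rfl

theorem xn_arr (S : Sys V O J) (j : J) (a : V × Lab) {x x' : Node L → X J} (h : xn_same x x')
    (d : ℕ → Bool) (ν : Nd) : arr S j a (ext x) d ν = arr S j a (ext x') d ν := by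
  rcases ν with _ | ⟨t, b, s⟩
  · rfl
  · exact xn_rayArr S j a h d t b s

/-! ### injectivity in the root dart -/

theorem xn_dn_inj (S : Sys V O J) (j : J) (x : X J) (τ : ZMod 3) {δ δ' : V × Lab}
    (h : dn S j x τ δ = dn S j x τ δ') : δ = δ' := by
  unfold dn at h
  have h1 := congrArg (S.nb j) h
  rw [S.nb_nb, S.nb_nb] at h1
  have h2 := congrArg (tr S j x τ) h1
  rwa [tr_tr, tr_tr] at h2

theorem xn_cenArr_inj (S : Sys V O J) (j : J) (x : Nd → X J) (d : ℕ → Bool) (t : ℕ)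
    {a a' : V × Lab} (h : cenArr S j a x d t = cenArr S j a' x d t) : a = a' := by
  induction t with
  | zero => exact h
  | succ t ih => exact ih (xn_dn_inj S j _ _ h)

theorem xn_rayArr_inj (S : Sys V O J) (j : J) (x : Nd → X J) (d : ℕ → Bool) (t : ℕ) (b : Bool)
    (s : ℕ) {a a' : V × Lab} (h : rayArr S j a x d t b s = rayArr S j a' x d t b s) : a = a' := by
  induction s with
  | zero => exact xn_cenArr_inj S j x d t (xn_dn_inj S j _ _ h)
  | succ s ih => exact ih (xn_dn_inj S j _ _ h)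

theorem xn_arr_inj (S : Sys V O J) (j : J) (x : Nd → X J) (d : ℕ → Bool) (ν : Nd)
    {a a' : V × Lab} (h : arr S j a x d ν = arr S j a' x d ν) : a = a' := by
  rcases ν with _ | ⟨t, b, s⟩
  · exact h
  · exact xn_rayArr_inj S j x d t b s h

/-- at most 12 root darts lead to a given orbit -/
theorem xn_twelve [Finite V] [Finite J] (S : Sys V O J) (j : J) (d : ℕ → Bool) (q : Node L) (u : O) :
    Nat.card {ax : (V × Lab) × (Node L → X J) //
      S.orb (arr S j ax.1 (ext ax.2) d (emb q)).1 = u} ≤ 12 * Nat.card (Node L → X J) := by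
  have h1 : Nat.card ((Fin 3 × Lab) × (Node L → X J)) = 12 * Nat.card (Node L → X J) := by
    rw [Nat.card_prod]
    congr 1
    rw [Nat.card_eq_fintype_card]
    rfl
  rw [← h1]
  refine Nat.card_le_card_of_injective (fun z =>
    ((S.sd (arr S j z.1.1 (ext z.1.2) d (emb q)).1, (arr S j z.1.1 (ext z.1.2) d (emb q)).2),
      z.1.2)) ?_
  rintro ⟨⟨a, x⟩, hz⟩ ⟨⟨a', x'⟩, hz'⟩ h
  simp only [Prod.mk.injEq] at h
  obtain ⟨⟨h2, h3⟩, h4⟩ := h
  subst h4
  have h5 : arr S j a (ext x) d (emb q) = arr S j a' (ext x) d (emb q) := by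
    refine Prod.ext (S.inj _ _ ?_ h2) h3
    exact hz.trans hz'.symm
  have h6 := xn_arr_inj S j _ d _ h5
  subst h6
  rfl

/-! ### one line -/

/-- change the second component at one node -/
noncomputable def xn_upd (x : Node L → X J) (κ : Node L) (s : Fin 3 × J × Lab) : Node L → X J :=
  Function.update x κ ((x κ).1, s, (x κ).2.2)

theorem xn_upd_same (x : Node L → X J) (κ : Node L) (s : Fin 3 × J × Lab) :
    xn_same (xn_upd x κ s) x := by
  intro κ'
  unfold xn_upd
  by_cases h : κ' = κ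
  · rw [h, Function.update_self]
  · rw [Function.update_of_ne h]

theorem xn_upd_ne (x : Node L → X J) {κ κ' : Node L} (s : Fin 3 × J × Lab) (h : κ' ≠ κ) :
    xn_upd x κ s κ' = x κ' := by
  unfold xn_upd
  rw [Function.update_of_ne h]

theorem xn_upd_eq (x : Node L → X J) (κ : Node L) (s : Fin 3 × J × Lab) :
    xn_upd x κ s κ = ((x κ).1, s, (x κ).2.2) := by
  unfold xn_upd
  rw [Function.update_self]

section line

variable (S : Sys V O J) (j : J) (w : ℕ → Node L)
  (o : (V × Lab) → (Node L → X J) → ℕ → V × Lab)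

open Classical in
/-- the number (in the block `i`) of the edge which may be cut -/
noncomputable def xn_s (f : ℕ → V × Lab) (i : ℕ) : ℕ :=
  if S.cu (f (6 * i)).1 ∧ S.cu (S.nb j (f (6 * i))).1 then 6 * i else
    if S.cu (f (6 * i + 2)).1 ∧ S.cu (S.nb j (f (6 * i + 2))).1 then 6 * i + 2 else 6 * i + 4

theorem xn_s_ge (f : ℕ → V × Lab) (i : ℕ) : 6 * i ≤ xn_s S j f i := by
  unfold xn_s
  split_ifs <;> omega

theorem xn_s_le (f : ℕ → V × Lab) (i : ℕ) : xn_s S j f i ≤ 6 * i + 4 := by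
  unfold xn_s
  split_ifs <;> omega

theorem xn_s_cu (hW : Win S) (f : ℕ → V × Lab)
    (hr : ∀ n, (f (n + 1)).1 = (S.nb j (f n)).1 ∧ (f (n + 1)).2 ≠ (S.nb j (f n)).2) (i : ℕ) :
    S.cu (f (xn_s S j f i)).1 ∧ S.cu (S.nb j (f (xn_s S j f i))).1 := by
  unfold xn_s
  split_ifs with h1 h2
  · exact h1
  · exact h2
  · obtain ⟨i₀, hi, h3⟩ := hW j (fun n => f (6 * i + n)) (fun n _ => hr (6 * i + n))
    rcases hi with rfl | rfl | rfl
    · exact absurd h3 h1
    · exact absurd h3 h2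
    · exact h3

/-- the required values -/
def xn_c (f : ℕ → V × Lab) (i : ℕ) : (Fin 3 × J × Lab) × (Fin 3 × J × Lab) :=
  ((S.sd (f i).1, j, (f i).2), (S.sd (S.nb j (f i)).1, j, (S.nb j (f i)).2))

/-- the edge of the block `i` is cut -/
def xn_E (a : V × Lab) (x : Node L → X J) (i : ℕ) : Prop :=
  ((x (w (xn_s S j (o a x) i))).2.1, (x (w (xn_s S j (o a x) i + 1))).2.1) =
    xn_c S j (o a x) (xn_s S j (o a x) i)

theorem xn_step [Finite V] [Fintype J] (Q : (V × Lab) → (Node L → X J) → Prop)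
    (hQ : ∀ a x x', xn_same x x' → Q a x → Q a x')
    (ho : ∀ a x x', xn_same x x' → o a x = o a x')
    (m : ℕ) (hm : 6 * (m + 1) ≤ L + 1) (hw : ∀ s s', s ≤ L → s' ≤ L → w s = w s' → s = s') :
    (12 * Fintype.card J) ^ 2 * Nat.card {z : (V × Lab) × (Node L → X J) //
        Q z.1 z.2 ∧ ∀ i, i < m + 1 → ¬ xn_E S j w o z.1 z.2 i} ≤
      ((12 * Fintype.card J) ^ 2 - 1) * Nat.card {z : (V × Lab) × (Node L → X J) //
        Q z.1 z.2 ∧ ∀ i, i < m → ¬ xn_E S j w o z.1 z.2 i} := by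
  obtain ⟨T, hT⟩ : ∃ T : ℕ → (V × Lab) × (Node L → X J) → Prop, T = fun m z =>
    Q z.1 z.2 ∧ ∀ i, i < m → ¬ xn_E S j w o z.1 z.2 i := ⟨_, rfl⟩
  have hF0 : Finite (X J) := inferInstance
  have hF1 : Finite ((V × Lab) × (Node L → X J)) := inferInstance
  have hF2 : Finite {z // T m z} := Subtype.finite
  have hF3 : Finite {z // T (m + 1) z} := Subtype.finite
  have hF4 : Finite ({z // T (m + 1) z} × ((Fin 3 × J × Lab) × (Fin 3 × J × Lab))) :=
    inferInstance
  have hF5 : Finite ({z // T m z} × ((Fin 3 × J × Lab) × (Fin 3 × J × Lab))) :=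
    inferInstance
  have hcard : Nat.card ((Fin 3 × J × Lab) × (Fin 3 × J × Lab)) = (12 * Fintype.card J) ^ 2 := by
    have h1 : Nat.card (Fin 3 × J × Lab) = 12 * Fintype.card J := by
      rw [Nat.card_eq_fintype_card, Fintype.card_prod, Fintype.card_prod]
      have : Fintype.card Lab = 4 := rfl
      rw [this, Fintype.card_fin]
      ring
    rw [Nat.card_prod, h1]
    ring
  -- the changed configuration
  obtain ⟨s₀, hs₀⟩ : ∃ s₀ : (V × Lab) → (Node L → X J) → ℕ, s₀ = fun a x =>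
    xn_s S j (o a x) m := ⟨_, rfl⟩
  have hs1 : ∀ a x, 6 * m ≤ s₀ a x := fun a x => by rw [hs₀]; exact xn_s_ge S j _ m
  have hs2 : ∀ a x, s₀ a x ≤ 6 * m + 4 := fun a x => by rw [hs₀]; exact xn_s_le S j _ m
  have hs3 : ∀ a x x', xn_same x x' → s₀ a x = s₀ a x' := by
    intro a x x' h
    rw [hs₀]
    show xn_s S j (o a x) m = xn_s S j (o a x') m
    rw [ho a x x' h]
  obtain ⟨ch, hch⟩ : ∃ ch : (V × Lab) → (Node L → X J) →
      ((Fin 3 × J × Lab) × (Fin 3 × J × Lab)) → (Node L → X J), ch = fun a x p =>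
    xn_upd (xn_upd x (w (s₀ a x)) p.1) (w (s₀ a x + 1)) p.2 := ⟨_, rfl⟩
  have hsame : ∀ a x p, xn_same (ch a x p) x := by
    intro a x p κ
    rw [hch]
    exact (xn_upd_same _ _ _ κ).trans (xn_upd_same _ _ _ κ)
  have hne : ∀ a x, w (s₀ a x) ≠ w (s₀ a x + 1) := by
    intro a x h
    have := hw _ _ (by have := hs2 a x; omega) (by have := hs2 a x; omega) h
    omega
  have hoth : ∀ a x p κ, κ ≠ w (s₀ a x) → κ ≠ w (s₀ a x + 1) → ch a x p κ = x κ := by
    intro a x p κ h1 h2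
    rw [hch]
    show xn_upd (xn_upd x (w (s₀ a x)) p.1) (w (s₀ a x + 1)) p.2 κ = x κ
    rw [xn_upd_ne _ _ h2, xn_upd_ne _ _ h1]
  have hv1 : ∀ a x p, ch a x p (w (s₀ a x)) =
      ((x (w (s₀ a x))).1, p.1, (x (w (s₀ a x))).2.2) := by
    intro a x p
    rw [hch]
    show xn_upd (xn_upd x (w (s₀ a x)) p.1) (w (s₀ a x + 1)) p.2 (w (s₀ a x)) = _
    rw [xn_upd_ne _ _ (hne a x), xn_upd_eq]
  have hv2 : ∀ a x p, ch a x p (w (s₀ a x + 1)) =
      ((x (w (s₀ a x + 1))).1, p.2, (x (w (s₀ a x + 1))).2.2) := by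
    intro a x p
    rw [hch]
    show xn_upd (xn_upd x (w (s₀ a x)) p.1) (w (s₀ a x + 1)) p.2 (w (s₀ a x + 1)) = _
    rw [xn_upd_eq, xn_upd_ne _ _ (hne a x).symm]
  -- the earlier blocks are not changed
  have hE : ∀ a x p i, i < m → (xn_E S j w o a (ch a x p) i ↔ xn_E S j w o a x i) := by
    intro a x p i hi
    have h1 : o a (ch a x p) = o a x := ho a _ _ (hsame a x p)
    unfold xn_E
    rw [h1]
    have h2 := xn_s_le S j (o a x) i
    have h3 := hs1 a x
    have h4 := hs2 a x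
    rw [hoth a x p (w (xn_s S j (o a x) i)), hoth a x p (w (xn_s S j (o a x) i + 1))]
    · intro h5
      have := hw _ _ (by omega) (by omega) h5
      omega
    · intro h5
      have := hw _ _ (by omega) (by omega) h5
      omega
    · intro h5
      have := hw _ _ (by omega) (by omega) h5
      omega
    · intro h5
      have := hw _ _ (by omega) (by omega) h5
      omega
  have hTch : ∀ a x p, T (m + 1) (a, x) → T m (a, ch a x p) := by
    intro a x p h
    rw [hT] at h ⊢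
    refine ⟨hQ a x _ (xn_same_symm (hsame a x p)) h.1, fun i hi => ?_⟩
    rw [hE a x p i hi]
    exact h.2 i (by omega)
  -- the injection
  have hinj : Nat.card (({z // T (m + 1) z} × ((Fin 3 × J × Lab) × (Fin 3 × J × Lab))) ⊕
      {z // T m z}) ≤ Nat.card ({z // T m z} × ((Fin 3 × J × Lab) × (Fin 3 × J × Lab))) := by
    refine Nat.card_le_card_of_injective (Sum.elim
      (fun y => (⟨(y.1.1.1, ch y.1.1.1 y.1.1.2 y.2), hTch _ _ _ y.1.2⟩,
        ((y.1.1.2 (w (s₀ y.1.1.1 y.1.1.2))).2.1, (y.1.1.2 (w (s₀ y.1.1.1 y.1.1.2 + 1))).2.1)))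
      (fun z => (z, xn_c S j (o z.1.1 z.1.2) (s₀ z.1.1 z.1.2)))) ?_
    apply Function.Injective.sumElim
    · rintro ⟨⟨⟨a, x⟩, hz⟩, p⟩ ⟨⟨⟨a', x'⟩, hz'⟩, p'⟩ h
      simp only [Prod.mk.injEq, Subtype.mk.injEq] at h
      obtain ⟨⟨h1, h2⟩, h3, h4⟩ := h
      subst h1
      have h5 : xn_same x x' := by
        intro κ
        rw [← hsame a x p κ, h2, hsame a x' p' κ]
      have h6 := hs3 a x x' h5
      have h7 : x = x' := by
        funext κ
        by_cases k1 : κ = w (s₀ a x)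
        · have e1 := hv1 a x p
          have e2 := hv1 a x' p'
          rw [← h6, ← h2, e1] at e2
          rw [k1]
          simp only [Prod.mk.injEq] at e2
          rw [← h6] at h3
          exact Prod.ext e2.1 (Prod.ext h3 e2.2.2)
        · by_cases k2 : κ = w (s₀ a x + 1)
          · have e1 := hv2 a x p
            have e2 := hv2 a x' p'
            rw [← h6, ← h2, e1] at e2
            rw [k2]
            simp only [Prod.mk.injEq] at e2
            rw [← h6] at h4
            exact Prod.ext e2.1 (Prod.ext h4 e2.2.2)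
          · have e1 := hoth a x p κ k1 k2
            rw [h6] at k1 k2
            have e2 := hoth a x' p' κ k1 k2
            rw [← e1, h2, e2]
      subst h7
      have h8 : p = p' := by
        have e1 := hv1 a x p
        have e2 := hv1 a x p'
        rw [h2, e2] at e1
        have e3 := hv2 a x p
        have e4 := hv2 a x p'
        rw [h2, e4] at e3
        simp only [Prod.mk.injEq, true_and, and_true] at e1 e3
        exact Prod.ext e1.symm e3.symm
      subst h8
      rfl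
    · rintro z z' h
      exact congrArg Prod.fst h
    · rintro ⟨⟨⟨a, x⟩, hz⟩, p⟩ ⟨⟨a', x'⟩, hz'⟩ h
      simp only [Prod.mk.injEq, Subtype.mk.injEq] at h
      obtain ⟨⟨h1, h2⟩, h3⟩ := h
      subst h1
      rw [hT] at hz
      apply hz.2 m (by omega)
      unfold xn_E
      have h4 : o a x' = o a x := by rw [← h2]; exact ho a _ _ (hsame a x p)
      have h5 : s₀ a x' = s₀ a x := by rw [← h2]; exact hs3 a _ _ (hsame a x p)
      rw [h4, h5] at h3
      rw [hs₀] at h3
      exact h3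
  rw [Nat.card_sum, Nat.card_prod {z // T (m + 1) z} ((Fin 3 × J × Lab) × (Fin 3 × J × Lab)),
    Nat.card_prod {z // T m z} ((Fin 3 × J × Lab) × (Fin 3 × J × Lab)), hcard] at hinj
  rw [hT] at hinj
  have h2 : ∀ A B K : ℕ, A * K + B ≤ B * K → K * A ≤ (K - 1) * B := by
    intro A B K h
    rw [Nat.sub_mul, one_mul]
    rw [mul_comm K A, mul_comm K B]
    omega
  exact h2 _ _ _ hinj

theorem xn_line [Finite V] [Fintype J] (Q : (V × Lab) → (Node L → X J) → Prop)
    (hQ : ∀ a x x', xn_same x x' → Q a x → Q a x')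
    (ho : ∀ a x x', xn_same x x' → o a x = o a x')
    (hw : ∀ s s', s ≤ L → s' ≤ L → w s = w s' → s = s') (m : ℕ) (hm : 6 * m ≤ L + 1) :
    ((12 * Fintype.card J) ^ 2) ^ m * Nat.card {z : (V × Lab) × (Node L → X J) //
        Q z.1 z.2 ∧ ∀ i, i < m → ¬ xn_E S j w o z.1 z.2 i} ≤
      ((12 * Fintype.card J) ^ 2 - 1) ^ m * Nat.card {z : (V × Lab) × (Node L → X J) //
        Q z.1 z.2} := by
  induction m with
  | zero =>
    rw [pow_zero, pow_zero, one_mul, one_mul]
    refine Nat.card_le_card_of_injective (fun z => ⟨z.1, z.2.1⟩) ?_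
    rintro ⟨z, hz⟩ ⟨z', hz'⟩ h
    simp only [Subtype.mk.injEq] at h
    subst h
    rfl
  | succ m ih =>
    have h1 := xn_step S j w o Q hQ ho m hm hw
    have h2 := ih (by omega)
    calc ((12 * Fintype.card J) ^ 2) ^ (m + 1) * Nat.card {z : (V × Lab) × (Node L → X J) //
          Q z.1 z.2 ∧ ∀ i, i < m + 1 → ¬ xn_E S j w o z.1 z.2 i}
        = ((12 * Fintype.card J) ^ 2) ^ m * ((12 * Fintype.card J) ^ 2 *
          Nat.card {z : (V × Lab) × (Node L → X J) //
          Q z.1 z.2 ∧ ∀ i, i < m + 1 → ¬ xn_E S j w o z.1 z.2 i}) := by ring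
      _ ≤ ((12 * Fintype.card J) ^ 2) ^ m * (((12 * Fintype.card J) ^ 2 - 1) *
          Nat.card {z : (V × Lab) × (Node L → X J) //
          Q z.1 z.2 ∧ ∀ i, i < m → ¬ xn_E S j w o z.1 z.2 i}) := Nat.mul_le_mul_left _ h1
      _ = ((12 * Fintype.card J) ^ 2 - 1) * (((12 * Fintype.card J) ^ 2) ^ m *
          Nat.card {z : (V × Lab) × (Node L → X J) //
          Q z.1 z.2 ∧ ∀ i, i < m → ¬ xn_E S j w o z.1 z.2 i}) := by ring
      _ ≤ ((12 * Fintype.card J) ^ 2 - 1) * (((12 * Fintype.card J) ^ 2 - 1) ^ m *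
          Nat.card {z : (V × Lab) × (Node L → X J) // Q z.1 z.2}) := Nat.mul_le_mul_left _ h2
      _ = _ := by ring

/-- the number of explorations without cut edge on the line -/
theorem xn_bound [Finite V] [Fintype J] (hW : Win S) (d : ℕ → Bool) (q : Node L) (u : O)
    (ho : ∀ a x x', xn_same x x' → o a x = o a x')
    (hw : ∀ s s', s ≤ L → s' ≤ L → w s = w s' → s = s')
    (hr : ∀ a x n, (o a x (n + 1)).1 = (S.nb j (o a x n)).1 ∧
      (o a x (n + 1)).2 ≠ (S.nb j (o a x n)).2) :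
    ((12 * Fintype.card J) ^ 2) ^ ((L + 1) / 6) *
      Nat.card {ax : (V × Lab) × (Node L → X J) //
        (∀ s, s < L → ¬ (selX S j (ax.2 (w s)) (o ax.1 ax.2 s) ∧
          selX S j (ax.2 (w (s + 1))) (S.nb j (o ax.1 ax.2 s)))) ∧
        S.orb (arr S j ax.1 (ext ax.2) d (emb q)).1 = u} ≤
    ((12 * Fintype.card J) ^ 2 - 1) ^ ((L + 1) / 6) * (12 * Nat.card (Node L → X J)) := by
  have h1 := xn_line S j w o (fun a x => S.orb (arr S j a (ext x) d (emb q)).1 = u)
    (fun a x x' h h' => by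
      show S.orb (arr S j a (ext x') d (emb q)).1 = u
      rw [← xn_arr S j a h]
      exact h') ho hw ((L + 1) / 6) (by omega)
  have h2 := xn_twelve S j d q u
  have h3 : Nat.card {ax : (V × Lab) × (Node L → X J) //
        (∀ s, s < L → ¬ (selX S j (ax.2 (w s)) (o ax.1 ax.2 s) ∧
          selX S j (ax.2 (w (s + 1))) (S.nb j (o ax.1 ax.2 s)))) ∧
        S.orb (arr S j ax.1 (ext ax.2) d (emb q)).1 = u} ≤
      Nat.card {z : (V × Lab) × (Node L → X J) //
        S.orb (arr S j z.1 (ext z.2) d (emb q)).1 = u ∧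
          ∀ i, i < (L + 1) / 6 → ¬ xn_E S j w o z.1 z.2 i} := by
    refine Nat.card_le_card_of_injective (fun z => ⟨z.1, z.2.2, fun i hi hE => ?_⟩) ?_
    · have h4 := xn_s_le S j (o z.1.1 z.1.2) i
      have h5 := xn_s_cu S j hW (o z.1.1 z.1.2) (hr z.1.1 z.1.2) i
      have h6 : ((z.1.2 (w (xn_s S j (o z.1.1 z.1.2) i))).2.1,
          (z.1.2 (w (xn_s S j (o z.1.1 z.1.2) i + 1))).2.1) =
        xn_c S j (o z.1.1 z.1.2) (xn_s S j (o z.1.1 z.1.2) i) := hE
      exact z.2.1 (xn_s S j (o z.1.1 z.1.2) i) (by omega)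
        ⟨⟨congrArg Prod.fst h6, h5.1⟩, ⟨congrArg Prod.snd h6, h5.2⟩⟩
    · rintro ⟨z, hz⟩ ⟨z', hz'⟩ h
      simp only [Subtype.mk.injEq] at h
      subst h
      rfl
  calc _ ≤ ((12 * Fintype.card J) ^ 2) ^ ((L + 1) / 6) *
      Nat.card {z : (V × Lab) × (Node L → X J) //
        S.orb (arr S j z.1 (ext z.2) d (emb q)).1 = u ∧
          ∀ i, i < (L + 1) / 6 → ¬ xn_E S j w o z.1 z.2 i} := Nat.mul_le_mul_left _ h3
    _ ≤ _ := h1
    _ ≤ _ := Nat.mul_le_mul_left _ h2

end line

/-! ### the trails and the spine -/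

theorem xn_to_cen (hL : 1 ≤ L) (d : ℕ → Bool) {s : ℕ} (hs : s < L) :
    xn_to L (cen d (s + 1)) = some (⟨s, hs⟩, d s, ⟨0, hL⟩) :=
  xn_to_some hs hL

theorem xn_w_spine (hL : 1 ≤ L) (d : ℕ → Bool) (s s' : ℕ) (hs : s ≤ L) (hs' : s' ≤ L)
    (h : xn_to L (cen d s) = xn_to L (cen d s')) : s = s' := by
  have h0 : xn_to L (cen d 0) = none := rfl
  rcases s with _ | s
  · rcases s' with _ | s'
    · rfl
    · rw [h0, xn_to_cen hL d hs'] at h
      cases h
  · rcases s' with _ | s'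
    · rw [h0, xn_to_cen hL d hs] at h
      cases h
    · rw [xn_to_cen hL d hs, xn_to_cen hL d hs'] at h
      simp only [Option.some.injEq, Prod.mk.injEq, Fin.mk.injEq] at h
      rw [h.1]

theorem xn_w_trail (hL : 1 ≤ L) (d : ℕ → Bool) (t : ℕ) (ht : t < L) (b : Bool)
    (s s' : ℕ) (hs : s ≤ L) (hs' : s' ≤ L)
    (h : xn_to L (pos d t b s) = xn_to L (pos d t b s')) : s = s' := by
  have h1 : ∀ s, s + 1 ≤ L → xn_to L (cen d t) ≠ xn_to L (pos d t b (s + 1)) := by
    intro s hs h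
    have h2 : xn_to L (pos d t b (s + 1)) = some (⟨t, ht⟩, b, ⟨s, hs⟩) := xn_to_some ht hs
    rw [h2] at h
    rcases t with _ | t
    · have h3 : xn_to L (cen d 0) = none := rfl
      rw [h3] at h
      cases h
    · rw [xn_to_cen hL d (by omega : t < L)] at h
      simp only [Option.some.injEq, Prod.mk.injEq, Fin.mk.injEq] at h
      omega
  rcases s with _ | s
  · rcases s' with _ | s'
    · rfl
    · exact absurd h (h1 s' hs')
  · rcases s' with _ | s'
    · exact absurd h.symm (h1 s hs)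
    · have h2 : xn_to L (pos d t b (s + 1)) = some (⟨t, ht⟩, b, ⟨s, hs⟩) := xn_to_some ht hs
      have h3 : xn_to L (pos d t b (s' + 1)) = some (⟨t, ht⟩, b, ⟨s', hs'⟩) := xn_to_some ht hs'
      rw [h2, h3] at h
      simp only [Option.some.injEq, Prod.mk.injEq, Fin.mk.injEq, true_and] at h
      rw [h]

theorem xn_tr_ne (S : Sys V O J) (j : J) (x : X J) (τ : ZMod 3) (δ : V × Lab) :
    (tr S j x τ δ).2 ≠ δ.2 := by
  intro h
  have h1 : δ.2 + e (x.1 (S.sd δ.1) j + τ) = δ.2 := h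
  exact e_ne _ (by simpa using h1)

theorem xn_trail [Finite V] [Fintype J] (S : Sys V O J) (hW : Win S) (j : J) (hL : 1 ≤ L)
    (d : ℕ → Bool) (q : Node L) (u : O) (t : ℕ) (ht : t < L) (b : Bool) :
    ((12 * Fintype.card J) ^ 2) ^ ((L + 1) / 6) *
      Nat.card {ax : (V × Lab) × (Node L → X J) //
        (∀ s, s < L → ¬ cutX S j ax.1 (ext ax.2) d t b s) ∧
        S.orb (arr S j ax.1 (ext ax.2) d (emb q)).1 = u} ≤
    ((12 * Fintype.card J) ^ 2 - 1) ^ ((L + 1) / 6) * (12 * Nat.card (Node L → X J)) := by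
  have h1 := xn_bound S j (fun s => xn_to L (pos d t b s))
    (fun a x s => out S j a (ext x) d t b s) hW d q u
    (fun a x x' h => funext fun s => xn_out S j a h d t b s)
    (fun s s' hs hs' h => xn_w_trail hL d t ht b s s' hs hs' h)
    (fun a x n => by
      have h2 : rayArr S j a (ext x) d t b n = S.nb j (out S j a (ext x) d t b n) := by
        rcases n with _ | n
        · rfl
        · rfl
      have h3 : out S j a (ext x) d t b (n + 1) =
          tr S j (ext x (some (t, b, n))) 0 (S.nb j (out S j a (ext x) d t b n)) := by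
        rw [← h2]
        rfl
      show (out S j a (ext x) d t b (n + 1)).1 = _ ∧ (out S j a (ext x) d t b (n + 1)).2 ≠ _
      rw [h3]
      exact ⟨rfl, xn_tr_ne S j _ _ _⟩)
  have h2 : ∀ (x : Node L → X J) (ν : Nd), x (xn_to L ν) = ext x ν := fun x ν =>
    (xn_ext x ν).symm
  simp only [h2] at h1
  exact h1

theorem xn_spine [Finite V] [Fintype J] (S : Sys V O J) (hW : Win S) (j : J) (hL : 1 ≤ L)
    (d : ℕ → Bool) (q : Node L) (u : O) :
    ((12 * Fintype.card J) ^ 2) ^ ((L + 1) / 6) *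
      Nat.card {ax : (V × Lab) × (Node L → X J) //
        (∀ s, s < L → ¬ cutX S j ax.1 (ext ax.2) d s (d s) 0) ∧
        S.orb (arr S j ax.1 (ext ax.2) d (emb q)).1 = u} ≤
    ((12 * Fintype.card J) ^ 2 - 1) ^ ((L + 1) / 6) * (12 * Nat.card (Node L → X J)) := by
  have h1 := xn_bound S j (fun s => xn_to L (cen d s))
    (fun a x s => out S j a (ext x) d s (d s) 0) hW d q u
    (fun a x x' h => funext fun s => xn_out S j a h d s (d s) 0)
    (fun s s' hs hs' h => xn_w_spine hL d s s' hs hs' h)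
    (fun a x n => by
      show (out S j a (ext x) d (n + 1) (d (n + 1)) 0).1 = _ ∧
        (out S j a (ext x) d (n + 1) (d (n + 1)) 0).2 ≠ _
      exact ⟨rfl, xn_tr_ne S j _ _ _⟩)
  have h2 : ∀ (x : Node L → X J) (ν : Nd), x (xn_to L ν) = ext x ν := fun x ν =>
    (xn_ext x ν).symm
  simp only [h2] at h1
  exact h1

/-- union bound -/
theorem xn_union {A I : Type} [Finite A] [Fintype I] (P : I → A → Prop) (Q : A → Prop)
    (R : A → Prop) (h : ∀ a, Q a → ∃ i, P i a) :
    Nat.card {a // Q a ∧ R a} ≤ ∑ i, Nat.card {a // P i a ∧ R a} := by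
  have h1 : Nat.card (Σ i, {a // P i a ∧ R a}) = ∑ i, Nat.card {a // P i a ∧ R a} :=
    Nat.card_sigma
  rw [← h1]
  refine Nat.card_le_card_of_injective
    (fun z => ⟨(h z.1 z.2.1).choose, z.1, (h z.1 z.2.1).choose_spec, z.2.2⟩) ?_
  rintro ⟨z, hz⟩ ⟨z', hz'⟩ hh
  have h2 : z = z' := by
    have := congrArg (fun y : (Σ i, {a // P i a ∧ R a}) => y.2.1) hh
    exact this
  subst h2
  rfl

theorem xn_main : StXN := by
  intro V O J _ _ S hW j L hL d q u
  have h1 := xn_union (A := (V × Lab) × (Node L → X J)) (I := Option (Fin L × Bool))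
    (fun i ax => match i with
      | none => ∀ s, s < L → ¬ cutX S j ax.1 (ext ax.2) d s (d s) 0
      | some (t, b) => ∀ s, s < L → ¬ cutX S j ax.1 (ext ax.2) d t.1 b s)
    (fun ax => NoCut S j L ax.1 (ext ax.2) d)
    (fun ax => S.orb (arr S j ax.1 (ext ax.2) d (emb q)).1 = u)
    (fun ax h => by
      rcases h with ⟨t, ht, b, h⟩ | h
      · exact ⟨some (⟨t, ht⟩, b), h⟩
      · exact ⟨none, h⟩)
  have h2 := Nat.mul_le_mul_left (((12 * Fintype.card J) ^ 2) ^ ((L + 1) / 6)) h1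
  refine h2.trans ?_
  rw [Finset.mul_sum]
  have h3 : ∀ i ∈ (Finset.univ : Finset (Option (Fin L × Bool))),
      ((12 * Fintype.card J) ^ 2) ^ ((L + 1) / 6) *
      Nat.card {a : (V × Lab) × (Node L → X J) // (match i with
      | none => ∀ s, s < L → ¬ cutX S j a.1 (ext a.2) d s (d s) 0
      | some (t, b) => ∀ s, s < L → ¬ cutX S j a.1 (ext a.2) d t.1 b s) ∧
        S.orb (arr S j a.1 (ext a.2) d (emb q)).1 = u} ≤
      ((12 * Fintype.card J) ^ 2 - 1) ^ ((L + 1) / 6) * (12 * Nat.card (Node L → X J)) := by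
    intro i _
    rcases i with _ | ⟨t, b⟩
    · exact xn_spine S hW j hL d q u
    · exact xn_trail S hW j hL d q u t.1 t.2 b
  refine (Finset.sum_le_card_nsmul _ _ _ h3).trans (le_of_eq ?_)
  rw [Finset.card_univ, Fintype.card_option, Fintype.card_prod, Fintype.card_fin,
    Fintype.card_bool, smul_eq_mul]
  ring

theorem t_XN (_ : StTR) : StXN := xn_main

end

end Pool.Agent.H9.LG
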