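import Pool.Agent.H9.LG.Stm

set_option autoImplicit false

/-!
# Project LG (helper9): YD, the order of the nodes and dependence
-/

namespace Pool.Agent.H9.LG

open Finset

section

variable {V O J : Type} (S : Sys V O J) (j : J) (a : V × Lab)

theorem yd_cen {d d' : ℕ → Bool} {N : ℕ} (hd : ∀ t, t < N → d t = d' t) : cen d N = cen d' N := by
  cases N with
  | zero => rfl
  | succ n => simp only [cen, hd n (Nat.lt_succ_self n)]

theorem yd_xcen {x x' : Nd → X J} {d d' : ℕ → Bool} (N : ℕ) (hd : ∀ t, t < N → d t = d' t)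
    (h0 : x none = x' none)
    (hx : ∀ t b s, t < N → x (some (t, b, s)) = x' (some (t, b, s))) :
    x (cen d N) = x' (cen d' N) := by
  rw [← yd_cen hd]
  cases N with
  | zero => exact h0
  | succ n => exact hx _ _ _ (Nat.lt_succ_self n)

theorem yd_cenArr {x x' : Nd → X J} {d d' : ℕ → Bool} (N : ℕ) (hd : ∀ t, t < N → d t = d' t)
    (h0 : x none = x' none)
    (hx : ∀ t b s, t < N → x (some (t, b, s)) = x' (some (t, b, s))) :
    cenArr S j a x d N = cenArr S j a x' d' N := by
  induction N with
  | zero => rfl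
  | succ n ih =>
    have hd' : ∀ t, t < n → d t = d' t := fun t ht => hd t (ht.trans (Nat.lt_succ_self n))
    have hx' : ∀ t b s, t < n → x (some (t, b, s)) = x' (some (t, b, s)) :=
      fun t b s ht => hx t b s (ht.trans (Nat.lt_succ_self n))
    simp only [cenArr]
    rw [ih hd' hx', yd_xcen n hd' h0 hx', hd n (Nat.lt_succ_self n)]

theorem yd_rayArr {x x' : Nd → X J} {d d' : ℕ → Bool} (N : ℕ) (b : Bool) (s : ℕ)
    (hd : ∀ t, t < N → d t = d' t) (h0 : x none = x' none)
    (hx : ∀ t b s, t < N → x (some (t, b, s)) = x' (some (t, b, s)))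
    (hs : ∀ s', s' < s → x (some (N, b, s')) = x' (some (N, b, s'))) :
    rayArr S j a x d N b s = rayArr S j a x' d' N b s := by
  induction s with
  | zero =>
    simp only [rayArr]
    rw [yd_cenArr S j a N hd h0 hx, yd_xcen N hd h0 hx]
  | succ s ih =>
    simp only [rayArr]
    rw [ih (fun s' h => hs s' (h.trans (Nat.lt_succ_self s))), hs s (Nat.lt_succ_self s)]

variable {x x' : Nd → X J} {d d' : ℕ → Bool} (N : ℕ)

theorem yd_out (hd : ∀ t, t < N → d t = d' t) (h0 : x none = x' none)
    (hx : ∀ t b s, t ≤ N → x (some (t, b, s)) = x' (some (t, b, s))) (b : Bool) (s : ℕ) :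
    out S j a x d N b s = out S j a x' d' N b s := by
  cases s with
  | zero =>
    simp only [out]
    rw [yd_cenArr S j a N hd h0 fun t b s ht => hx t b s ht.le,
      yd_xcen N hd h0 fun t b s ht => hx t b s ht.le]
  | succ s =>
    simp only [out]
    rw [yd_rayArr S j a N b s hd h0 (fun t b s ht => hx t b s ht.le)
      (fun s' _ => hx N b s' le_rfl), hx N b s le_rfl]

theorem yd_pos (hd : ∀ t, t < N → d t = d' t) (h0 : x none = x' none)
    (hx : ∀ t b s, t ≤ N → x (some (t, b, s)) = x' (some (t, b, s))) (b : Bool) (s : ℕ) :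
    x (pos d N b s) = x' (pos d' N b s) := by
  cases s with
  | zero => exact yd_xcen N hd h0 fun t b s ht => hx t b s ht.le
  | succ s => exact hx N b s le_rfl

theorem yd_cutX (hd : ∀ t, t < N → d t = d' t) (h0 : x none = x' none)
    (hx : ∀ t b s, t ≤ N → x (some (t, b, s)) = x' (some (t, b, s))) (b : Bool) :
    cutX S j a x d N b = cutX S j a x' d' N b := by
  funext s
  simp only [cutX]
  rw [yd_pos N hd h0 hx b s, yd_pos N hd h0 hx b (s + 1), yd_out S j a N hd h0 hx b s]

theorem yd_fX (L : ℕ) (hd : ∀ t, t < N → d t = d' t) (h0 : x none = x' none)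
    (hx : ∀ t b s, t ≤ N → x (some (t, b, s)) = x' (some (t, b, s))) (b : Bool) :
    fX S j L a x d N b = fX S j L a x' d' N b := by
  simp only [fX]
  rw [yd_cutX S j a N hd h0 hx b]

theorem yd_ldr (L : ℕ) (hd : ∀ t, t < N → d t = d' t) (h0 : x none = x' none)
    (hx : ∀ t b s, t ≤ N → x (some (t, b, s)) = x' (some (t, b, s))) (b : Bool) :
    ldr S j L a x d N b = ldr S j L a x' d' N b := by
  simp only [ldr]
  rw [yd_fX S j a N L hd h0 hx b, yd_out S j a N hd h0 hx b]

theorem yd_phi (L : ℕ) (hd : ∀ t, t < N → d t = d' t) (h0 : x none = x' none)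
    (hx : ∀ t b s, t ≤ N → x (some (t, b, s)) = x' (some (t, b, s))) (b : Bool) :
    phi S j L a x d N b = phi S j L a x' d' N b := by
  simp only [phi]
  rw [yd_ldr S j a N L hd h0 hx b, yd_fX S j a N L hd h0 hx b, yd_pos N hd h0 hx b]

theorem yd_colA (L : ℕ) (hd : ∀ t, t < N → d t = d' t) (h0 : x none = x' none)
    (hx : ∀ t b s, t ≤ N → x (some (t, b, s)) = x' (some (t, b, s))) :
    colA S j L a x d N = colA S j L a x' d' N := by
  simp only [colA]
  rw [yd_ldr S j a N L hd h0 hx true, yd_ldr S j a N L hd h0 hx false,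
    yd_phi S j a N L hd h0 hx true, yd_phi S j a N L hd h0 hx false]

/-- the directions below `N` -/
theorem yd_dirs (L : ℕ) (c : Bool) (h0 : x none = x' none)
    (hx : ∀ t b s, t < N → x (some (t, b, s)) = x' (some (t, b, s))) :
    dirs S j L c a x N = dirs S j L c a x' N := by
  induction N with
  | zero => rfl
  | succ n ih =>
    have hx' : ∀ t b s, t < n → x (some (t, b, s)) = x' (some (t, b, s)) :=
      fun t b s ht => hx t b s (ht.trans (Nat.lt_succ_self n))
    simp only [dirs]
    rw [ih hx', yd_colA S j a n L (d := dirs S j L c a x' n) (d' := dirs S j L c a x' n)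
      (fun _ _ => rfl) h0 (fun t b s ht => hx t b s (Nat.lt_succ_of_le ht))]

/-- `dirs` is stable -/
theorem yd_stable (x : Nd → X J) (L : ℕ) (c : Bool) {t M : ℕ} (ht : t < N) (h : N ≤ M) :
    dirs S j L c a x M t = dirs S j L c a x N t := by
  induction M with
  | zero =>
    have : N = 0 := Nat.le_zero.1 h
    rw [this]
  | succ M ih =>
    rcases Nat.lt_or_ge M N with h1 | h1
    · have : N = M + 1 := le_antisymm h h1
      rw [this]
    · simp only [dirs]
      rw [Function.update_of_ne (ht.trans_le h1).ne, ih h1]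

end

theorem yd_idx (L : ℕ) (ν ν' : Node L) (h : idx ν = idx ν') : ν = ν' := by
  rcases ν with _ | ⟨t, b, s⟩
  · rcases ν' with _ | ⟨t', b', s'⟩
    · rfl
    · simp only [idx] at h
      omega
  · rcases ν' with _ | ⟨t', b', s'⟩
    · simp only [idx] at h
      omega
    · simp only [idx] at h
      have hL : 0 < L := Nat.zero_lt_of_lt s.2
      set q : ℕ := 2 * t.1 + (if b then 0 else 1) with hq
      set q' : ℕ := 2 * t'.1 + (if b' then 0 else 1) with hq'
      have h1 : s.1 + L * q = s'.1 + L * q' := by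
        have e1 : L * q = q * L := Nat.mul_comm _ _
        have e2 : L * q' = q' * L := Nat.mul_comm _ _
        omega
      have h2 : q = q' := by
        have e1 : (s.1 + L * q) / L = q := by
          rw [Nat.add_mul_div_left _ _ hL, Nat.div_eq_of_lt s.2, Nat.zero_add]
        have e2 : (s'.1 + L * q') / L = q' := by
          rw [Nat.add_mul_div_left _ _ hL, Nat.div_eq_of_lt s'.2, Nat.zero_add]
        rw [← e1, ← e2, h1]
      have h3 : s = s' := by
        apply Fin.ext
        rw [h2] at h1
        omega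
      have h4 : t.1 = t'.1 ∧ b = b' := by
        rw [hq, hq'] at h2
        cases b <;> cases b' <;> simp at h2 ⊢ <;> omega
      have h5 : t = t' := Fin.ext h4.1
      rw [h3, h5, h4.2]

theorem yd_ext {J : Type} {L : ℕ} {x x' : Node L → X J} {ν : Node L} (hν : 0 < idx ν)
    (h : ∀ κ, idx κ < idx ν → x κ = x' κ) (t : ℕ) (b : Bool) (s : ℕ)
    (hts : ∀ (h1 : t < L) (h2 : s < L), idx (some (⟨t, h1⟩, b, ⟨s, h2⟩) : Node L) < idx ν) :
    ext x (some (t, b, s)) = ext x' (some (t, b, s)) := by
  simp only [ext]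
  by_cases h1 : t < L ∧ s < L
  · rw [dif_pos h1, dif_pos h1]
    exact h _ (hts h1.1 h1.2)
  · rw [dif_neg h1, dif_neg h1]
    exact h none (by simpa [idx] using hν)

theorem t_YD : StYD := by
  refine ⟨yd_idx, ?_⟩
  intro V O J S j L c a x x' ν h
  rcases ν with _ | ⟨t, b, s⟩
  · rfl
  · have hν : 0 < idx (some (t, b, s) : Node L) := by
      simp only [idx]
      omega
    have h0 : ext x none = ext x' none := h none (by simp [idx])
    have hx : ∀ (t' : ℕ) (b' : Bool) (s' : ℕ), t' < t.1 →
        ext x (some (t', b', s')) = ext x' (some (t', b', s')) := by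
      intro t' b' s' ht'
      refine yd_ext hν h t' b' s' fun h1 h2 => ?_
      simp only [idx]
      have e1 : 2 * t' + (if b' then 0 else 1) + 1 ≤ 2 * t.1 + (if b then 0 else 1) := by
        have : (if b' then 0 else 1) ≤ 1 := by split <;> omega
        omega
      have e2 : (2 * t' + (if b' then 0 else 1) + 1) * L ≤
          (2 * t.1 + (if b then 0 else 1)) * L := Nat.mul_le_mul_right _ e1
      rw [Nat.add_mul _ 1, Nat.one_mul] at e2
      omega
    have hs : ∀ s', s' < s.1 → ext x (some (t.1, b, s')) = ext x' (some (t.1, b, s')) := by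
      intro s' hs'
      refine yd_ext hν h t.1 b s' fun h1 h2 => ?_
      simp only [idx]
      omega
    simp only [Y, emb, arr]
    have hd : ∀ t', t' < t.1 → dirs S j L c a (ext x) L t' = dirs S j L c a (ext x') L t' := by
      intro t' ht'
      rw [yd_stable S j a t.1 (ext x) L c ht' t.2.le, yd_stable S j a t.1 (ext x') L c ht' t.2.le,
        yd_dirs S j a t.1 L c h0 hx]
    rw [yd_rayArr S j a t.1 b s.1 hd h0 hx hs]

end Pool.Agent.H9.LG
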