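import Pool.Agent.H9.LG.CoreMain
import Pool.Agent.H9.LG.Reg
import Pool.Agent.H9.LG.T_ADD
import Pool.Agent.H9.LG.T_CL
import Pool.Agent.H9.LG.T_CLS
import Pool.Agent.H9.LG.T_CMP
import Pool.Agent.H9.LG.T_DBL
import Pool.Agent.H9.LG.T_DD
import Pool.Agent.H9.LG.T_DEC
import Pool.Agent.H9.LG.T_DR
import Pool.Agent.H9.LG.T_FR
import Pool.Agent.H9.LG.T_GI
import Pool.Agent.H9.LG.T_K
import Pool.Agent.H9.LG.T_LAB
import Pool.Agent.H9.LG.T_MO
import Pool.Agent.H9.LG.T_NEAR
import Pool.Agent.H9.LG.T_NU
import Pool.Agent.H9.LG.T_ORB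
import Pool.Agent.H9.LG.T_PRM
import Pool.Agent.H9.LG.T_PULL
import Pool.Agent.H9.LG.T_SEL
import Pool.Agent.H9.LG.T_TR
import Pool.Agent.H9.LG.T_WI
import Pool.Agent.H9.LG.T_WN
import Pool.Agent.H9.LG.T_XC
import Pool.Agent.H9.LG.T_XD
import Pool.Agent.H9.LG.T_XN
import Pool.Agent.H9.LG.T_YD

set_option autoImplicit false

/-!
# Project LG (helper9): linear arboricity of regular graphs of logarithmic girth
-/

namespace Pool.Agent.H9.LG

open Finset SimpleGraph H931R3.LA

theorem reg_all : StREG :=
  t_REG (t_Core t_CL t_DD (t_XC t_K t_NEAR) t_YD t_DR t_TR t_XD (t_XN t_TR) (t_MO t_DR) t_WN)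
    t_NU t_LAB t_ORB t_GI t_CLS t_ADD t_SEL (t_WI t_PRM) (t_FR t_PRM) t_DEC t_CMP

/-- The linear arboricity conjecture for regular graphs of logarithmic girth (upper bound). -/
theorem cov_reg : ∃ C : ℕ, ∀ (V : Type) [Finite V] [Nonempty V] (G : SimpleGraph V) (r : ℕ),
    1 ≤ r → (∀ v, (G.neighborSet v).ncard = r) →
    (∀ (v : V) (c : G.Walk v v), c.IsCycle → (C * (1 + Real.log r) : ℝ) ≤ c.length) →
    Cov G ((r + 2) / 2) := by
  classical
  obtain ⟨C0, hC0⟩ := reg_all
  refine ⟨4 * C0 + 20, ?_⟩
  intro V _ _ G r hr hreg hcyc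
  push_cast at hcyc
  by_cases hr3 : r ≤ 3
  · -- small degrees
    have hlog : 0 ≤ Real.log r := Real.log_nonneg (by exact_mod_cast hr)
    have h20 : ∀ (v : V) (c : G.Walk v v), c.IsCycle → 20 ≤ c.length := by
      intro v c hc
      have h1 := hcyc v c hc
      have hC : (0 : ℝ) ≤ C0 := Nat.cast_nonneg _
      have h2 : (20 : ℝ) ≤ c.length := by nlinarith
      exact_mod_cast h2
    have hla : la G = (r + 2) / 2 := by
      rcases Nat.even_or_odd r with he | ho
      · refine W111.LAR.even_girth G r hr he hreg ?_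
        intro v c hc
        have := h20 v c hc
        omega
      · refine W111.LAR.odd_girth_all G r ho hreg ?_
        intro v c hc
        have := h20 v c hc
        omega
    rw [← hla]
    exact la_le_iff.1 le_rfl
  · rcases Nat.even_or_odd r with he | ho
    · -- even
      obtain ⟨k, hk⟩ := he
      have hk2 : 2 ≤ k := by omega
      set D : ℕ := ⌈(C0 * (1 + Real.log k) : ℝ)⌉₊ with hD
      have hDle : (C0 * (1 + Real.log k) : ℝ) ≤ D := Nat.le_ceil _
      have hlogk : 0 ≤ Real.log k := Real.log_nonneg (by exact_mod_cast (by omega : 1 ≤ k))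
      have hlogr : Real.log k ≤ Real.log r :=
        Real.log_le_log (by exact_mod_cast (by omega : 0 < k)) (by exact_mod_cast (by omega : k ≤ r))
      have hC : (0 : ℝ) ≤ C0 := Nat.cast_nonneg _
      have hCl : (C0 * (1 + Real.log k) : ℝ) ≤ C0 * (1 + Real.log r) :=
        mul_le_mul_of_nonneg_left (by linarith) hC
      have hC0l : (0 : ℝ) ≤ C0 * (1 + Real.log k) := by positivity
      have hDlt : (D : ℝ) < C0 * (1 + Real.log k) + 1 := Nat.ceil_lt_add_one hC0l
      have hdat : Dat G ⊥ (∅ : Set V) D D := by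
        refine ⟨bot_le, ?_, ?_, ?_, ?_, ?_⟩
        · intro v _
          simp
        · intro v
          simp
        · intro a ha
          exact absurd ha (Set.notMem_empty a)
        · intro v c hc
          have h1 := hcyc v c hc
          have h2 : (D : ℝ) ≤ c.length := by nlinarith
          exact_mod_cast h2
        · intro a ha
          exact absurd ha (Set.notMem_empty a)
      have hcov := hC0 V G ⊥ ∅ k D D hk2 hDle hDle hdat (by
        intro v
        have : (G \ ⊥ : SimpleGraph V) = G := by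
          ext x y
          simp
        rw [this, hreg v]
        omega)
      have h5 : (r + 2) / 2 = k + 1 := by omega
      rw [h5]
      exact hcov
    · -- odd
      obtain ⟨k, hk⟩ := ho
      have hk2 : 2 ≤ k := by omega
      set D : ℕ := ⌈(C0 * (1 + Real.log k) : ℝ)⌉₊ + 1 with hD
      have hDle : (C0 * (1 + Real.log k) : ℝ) ≤ D := by
        rw [hD]
        push_cast
        have := Nat.le_ceil (C0 * (1 + Real.log k) : ℝ)
        linarith
      have hlogk : 0 ≤ Real.log k := Real.log_nonneg (by exact_mod_cast (by omega : 1 ≤ k))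
      have hlogr : Real.log k ≤ Real.log r :=
        Real.log_le_log (by exact_mod_cast (by omega : 0 < k)) (by exact_mod_cast (by omega : k ≤ r))
      have hC : (0 : ℝ) ≤ C0 := Nat.cast_nonneg _
      have hCl : (C0 * (1 + Real.log k) : ℝ) ≤ C0 * (1 + Real.log r) :=
        mul_le_mul_of_nonneg_left (by linarith) hC
      have hC0l : (0 : ℝ) ≤ C0 * (1 + Real.log k) := by positivity
      have hDlt : (D : ℝ) < C0 * (1 + Real.log k) + 2 := by
        rw [hD]
        push_cast
        have := Nat.ceil_lt_add_one hC0l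
        linarith
      obtain ⟨G', P', Y', hdat, hdeg, hadj⟩ := t_DBL V G r D (by omega) (by omega) ⟨k, hk⟩ hreg (by
        intro v c hc
        have h1 := hcyc v c hc
        have h2 : ((4 * D : ℕ) : ℝ) ≤ c.length := by
          push_cast
          nlinarith
        exact_mod_cast h2)
      have hcov := hC0 (V × Bool) G' P' Y' k (4 * D) D hk2 (by
        push_cast
        have : (0 : ℝ) ≤ D := Nat.cast_nonneg _
        linarith) hDle hdat (by
        intro v
        rw [hdeg v]
        omega)
      have h5 : (r + 2) / 2 = k + 1 := by omega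
      rw [h5]
      exact t_PULL V (V × Bool) G G' (fun v => (v, true)) (k + 1)
        (fun a b hab => congrArg Prod.fst hab) hadj hcov

end Pool.Agent.H9.LG
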