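import Pool.Agent.H9.LG.Main
import Pool.Graph.R_pool_sql_team_seeded_3997aac3.Q116.Cyc.Reg

set_option autoImplicit false

/-!
# Project LG (helper9): graphs of bounded maximum degree are subgraphs of regular graphs whose
cycles are not shorter
-/

namespace Pool.Agent.H9.LG

open Finset SimpleGraph H931R3.LA

/-- Copies of `G`, joined by edges labelled with the elements of `Σ v, Fin (n v)`. -/
def rgG {V Γ : Type} [Group Γ] (G : SimpleGraph V) (n : V → ℕ) (t : (Σ v, Fin (n v)) → Γ)
    (ht : ∀ c, t c * t c = 1) : SimpleGraph (V × Γ × Bool) where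
  Adj x y := (x.2 = y.2 ∧ G.Adj x.1 y.1) ∨
    ∃ c : (Σ v, Fin (n v)), c.1 = x.1 ∧ y = (x.1, x.2.1 * t c, !x.2.2)
  symm := ⟨fun x y h => by
    rcases h with ⟨h1, h2⟩ | ⟨c, hc, h⟩
    · exact Or.inl ⟨h1.symm, h2.symm⟩
    · subst h
      refine Or.inr ⟨c, hc, ?_⟩
      refine Prod.ext rfl (Prod.ext ?_ ?_)
      · show x.2.1 = x.2.1 * t c * t c
        rw [mul_assoc, ht, mul_one]
      · show x.2.2 = !(!x.2.2)
        rw [Bool.not_not]⟩
  loopless := ⟨fun x h => by
    rcases h with ⟨_, h2⟩ | ⟨c, _, h3⟩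
    · exact G.irrefl h2
    · have h4 : x.2.2 = !x.2.2 := congrArg (fun z : V × Γ × Bool => z.2.2) h3
      cases hb : x.2.2 <;> rw [hb] at h4 <;> exact absurd h4 (by decide)⟩

theorem rg_adj {V Γ : Type} [Group Γ] {G : SimpleGraph V} {n : V → ℕ}
    {t : (Σ v, Fin (n v)) → Γ} {ht : ∀ c, t c * t c = 1} {x y : V × Γ × Bool} :
    (rgG G n t ht).Adj x y ↔ (x.2 = y.2 ∧ G.Adj x.1 y.1) ∨
      ∃ c : (Σ v, Fin (n v)), c.1 = x.1 ∧ y = (x.1, x.2.1 * t c, !x.2.2) := Iff.rfl

/-- the word of a trail -/
theorem rg_word {V Γ : Type} [Group Γ] {G : SimpleGraph V} {n : V → ℕ}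
    {t : (Σ v, Fin (n v)) → Γ} {ht : ∀ c, t c * t c = 1} {a b : V × Γ × Bool}
    (p : (rgG G n t ht).Walk a b) (hp : p.IsTrail) :
    ∃ l : List (Σ v, Fin (n v)), l.length ≤ p.length ∧ b.2.1 = a.2.1 * (l.map t).prod ∧
      l.IsChain (fun a b => a ≠ b) ∧
      (∀ c, l.head? = some c →
        s((c.1, a.2.1, a.2.2), (c.1, a.2.1 * t c, !a.2.2)) ∈ p.edges) ∧
      (l = [] → ∀ z ∈ p.support, z.2 = a.2) := by
  induction p with
  | nil =>
    refine ⟨[], le_rfl, ?_, List.isChain_nil, ?_, ?_⟩
    · rw [List.map_nil, List.prod_nil, mul_one]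
    · intro c hc
      rw [List.head?_nil] at hc
      exact absurd hc (by simp)
    · intro _ z hz
      rw [Walk.support_nil, List.mem_singleton] at hz
      rw [hz]
  | @cons a u b h p ih =>
    rw [Walk.isTrail_cons] at hp
    obtain ⟨l, hl1, hl2, hl3, hl4, hl5⟩ := ih hp.1
    rcases rg_adj.1 h with ⟨h1, h2⟩ | ⟨c, hc, hu⟩
    · refine ⟨l, ?_, ?_, hl3, ?_, ?_⟩
      · rw [Walk.length_cons]
        omega
      · rw [hl2, h1]
      · intro c hc
        rw [Walk.edges_cons, h1]
        exact List.mem_cons_of_mem _ (hl4 c hc)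
      · intro hl z hz
        rw [Walk.support_cons, List.mem_cons] at hz
        rcases hz with rfl | hz
        · rfl
        · rw [hl5 hl z hz, h1]
    · refine ⟨c :: l, ?_, ?_, ?_, ?_, ?_⟩
      · rw [Walk.length_cons, List.length_cons]
        omega
      · rw [List.map_cons, List.prod_cons, hl2, hu, mul_assoc]
      · cases l with
        | nil => exact List.isChain_singleton _
        | cons c' l' =>
          rw [List.isChain_cons_cons]
          refine ⟨?_, hl3⟩
          rintro rfl
          apply hp.2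
          have h3 := hl4 c rfl
          have e1 : (c.1, u.2.1, u.2.2) = u := by
            rw [hu, hc]
          have e2 : (c.1, u.2.1 * t c, !u.2.2) = a := by
            rw [hu, hc]
            refine Prod.ext rfl (Prod.ext ?_ ?_)
            · show a.2.1 * t c * t c = a.2.1
              rw [mul_assoc, ht, mul_one]
            · show (!(!a.2.2)) = a.2.2
              rw [Bool.not_not]
          rw [e1, e2] at h3
          rw [Sym2.eq_swap]
          exact h3
      · intro c' hc'
        rw [List.head?_cons, Option.some.injEq] at hc'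
        subst hc'
        have e1 : (c.1, a.2.1, a.2.2) = a := by rw [hc]
        have e2 : (c.1, a.2.1 * t c, !a.2.2) = u := by rw [hu, hc]
        rw [e1, e2, Walk.edges_cons]
        exact List.mem_cons_self
      · intro hl
        exact absurd hl (List.cons_ne_nil _ _)

/-- cycles are not shorter -/
theorem rg_cyc {V Γ : Type} [Group Γ] {G : SimpleGraph V} {n : V → ℕ}
    {t : (Σ v, Fin (n v)) → Γ} {ht : ∀ c, t c * t c = 1} {g : ℕ}
    (hw : ∀ w : List (Σ v, Fin (n v)), w ≠ [] → w.length ≤ g →
      w.IsChain (fun a b => a ≠ b) → (w.map t).prod ≠ 1)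
    (hcyc : ∀ (v : V) (c : G.Walk v v), c.IsCycle → g ≤ c.length)
    (x : V × Γ × Bool) (c : (rgG G n t ht).Walk x x) (hc : c.IsCycle) : g ≤ c.length := by
  classical
  by_contra hlt
  push Not at hlt
  obtain ⟨l, hl1, hl2, hl3, _, hl5⟩ := rg_word c hc.1.1
  have hprod : (l.map t).prod = 1 := by
    have : x.2.1 * 1 = x.2.1 * (l.map t).prod := by rw [mul_one]; exact hl2
    exact (mul_left_cancel this).symm
  have hnil : l = [] := by
    by_contra hne
    exact hw l hne (by omega) hl3 hprod
  have hall := hl5 hnil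
  let S : Set (V × Γ × Bool) := {z | z.2 = x.2}
  have hc2 : (c.induce S hall).IsCycle := by
    have h1 : ((c.induce S hall).map (Embedding.induce _).toHom).IsCycle := by
      rw [Walk.map_induce]
      exact hc
    exact (Walk.isCycle_map_iff_of_injective
      (Embedding.induce (G := rgG G n t ht) S).injective).1 h1
  let φ : (rgG G n t ht).induce S →g G :=
    { toFun := fun z => z.1.1
      map_rel' := by
        rintro ⟨y, hy⟩ ⟨z, hz⟩ hyz
        have h1 : (rgG G n t ht).Adj y z := hyz
        rcases rg_adj.1 h1 with ⟨_, h2⟩ | ⟨c', _, h3⟩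
        · exact h2
        · exfalso
          have h4 : z.2 = y.2 := (show z.2 = x.2 from hz).trans (show y.2 = x.2 from hy).symm
          rw [h3] at h4
          have h5 : (!y.2.2) = y.2.2 := congrArg (fun z : Γ × Bool => z.2) h4
          cases hb : y.2.2 <;> rw [hb] at h5 <;> exact absurd h5 (by decide) }
  have hφ : Function.Injective φ := by
    rintro ⟨y, hy⟩ ⟨z, hz⟩ hyz
    apply Subtype.ext
    exact Prod.ext hyz ((show y.2 = x.2 from hy).trans (show z.2 = x.2 from hz).symm)
  have hc3 : ((c.induce S hall).map φ).IsCycle :=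
    (Walk.isCycle_map_iff_of_injective hφ).2 hc2
  have h6 := hcyc _ _ hc3
  have h7 : (c.induce S hall).length = c.length := by
    have := congrArg Walk.length (Walk.map_induce (s := S) c hall)
    rwa [Walk.length_map] at this
  rw [Walk.length_map, h7] at h6
  omega

/-- Every finite graph of maximum degree at most `Δ` is isomorphic to a subgraph of a
`Δ`-regular graph whose cycles are not shorter. -/
theorem regularize {V : Type} [Finite V] [Nonempty V] (G : SimpleGraph V) (Δ g : ℕ)
    (hdeg : ∀ v, (G.neighborSet v).ncard ≤ Δ)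
    (hcyc : ∀ (v : V) (c : G.Walk v v), c.IsCycle → g ≤ c.length) :
    ∃ (V' : Type) (_ : Finite V') (_ : Nonempty V') (G' : SimpleGraph V') (f : V → V'),
      Function.Injective f ∧ (∀ u v, G.Adj u v → G'.Adj (f u) (f v)) ∧
      (∀ v, (G'.neighborSet v).ncard = Δ) ∧
      ∀ (v : V') (c : G'.Walk v v), c.IsCycle → g ≤ c.length := by
  classical
  have : Fintype V := Fintype.ofFinite V
  let n : V → ℕ := fun v => Δ - (G.neighborSet v).ncard
  obtain ⟨Γ, hG, hF, s0, hs0, hw0⟩ :=
    Q116.Cyc.biggs (Fintype.card (Σ v, Fin (n v))) (g + 2)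
  let e := Fintype.equivFin (Σ v, Fin (n v))
  let t : (Σ v, Fin (n v)) → Γ := fun c => s0 (e c)
  have ht : ∀ c, t c * t c = 1 := fun c => hs0 (e c)
  have hw : ∀ w : List (Σ v, Fin (n v)), w ≠ [] → w.length ≤ g + 2 →
      w.IsChain (fun a b => a ≠ b) → (w.map t).prod ≠ 1 := by
    intro w h1 h2 h3 h4
    refine hw0 (w.map e) ?_ ?_ ?_ ?_
    · intro h
      exact h1 (List.map_eq_nil_iff.1 h)
    · rw [List.length_map]
      exact h2
    · rw [List.isChain_map]
      refine h3.imp ?_
      intro a b hab h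
      exact hab (e.injective h)
    · rw [List.map_map]
      exact h4
  have hinj : ∀ c c', t c = t c' → c = c' := by
    intro c c' h
    by_contra hne
    refine hw [c, c'] (by simp) (by simp) ?_ ?_
    · rw [List.isChain_cons_cons]
      exact ⟨hne, List.isChain_singleton _⟩
    · rw [List.map_cons, List.map_cons, List.map_nil, List.prod_cons, List.prod_cons,
        List.prod_nil, mul_one, ← h, ht]
  refine ⟨V × Γ × Bool, inferInstance, inferInstance, rgG G n t ht,
    fun v => (v, 1, false), ?_, ?_, ?_, ?_⟩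
  · intro u v h
    exact congrArg Prod.fst h
  · intro u v h
    exact Or.inl ⟨rfl, h⟩
  · rintro ⟨v, γ, b⟩
    have h1 : (rgG G n t ht).neighborSet (v, γ, b) =
        (fun w => ((w, γ, b) : V × Γ × Bool)) '' (G.neighborSet v) ∪
        Set.range (fun i : Fin (n v) => ((v, γ * t ⟨v, i⟩, !b) : V × Γ × Bool)) := by
      ext y
      rw [mem_neighborSet, rg_adj, Set.mem_union]
      constructor
      · rintro (⟨h2, h3⟩ | ⟨c, hc, h2⟩)
        · exact Or.inl ⟨y.1, h3, Prod.ext rfl h2⟩
        · right
          obtain ⟨u, i⟩ := c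
          simp only at hc
          subst hc
          exact ⟨i, h2.symm⟩
      · rintro (⟨w, hw, rfl⟩ | ⟨i, rfl⟩)
        · exact Or.inl ⟨rfl, hw⟩
        · exact Or.inr ⟨⟨v, i⟩, rfl, rfl⟩
    have h2 : Disjoint ((fun w => ((w, γ, b) : V × Γ × Bool)) '' (G.neighborSet v))
        (Set.range (fun i : Fin (n v) => ((v, γ * t ⟨v, i⟩, !b) : V × Γ × Bool))) := by
      rw [Set.disjoint_left]
      rintro _ ⟨w, _, rfl⟩ ⟨i, hi⟩
      have h5 : (!b) = b := congrArg (fun z : V × Γ × Bool => z.2.2) hi
      cases b <;> exact absurd h5 (by decide)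
    rw [h1, Set.ncard_union_eq h2 (Set.toFinite _) (Set.toFinite _),
      Set.ncard_image_of_injective, ← Set.image_univ, Set.ncard_image_of_injective,
      Set.ncard_univ, Nat.card_eq_fintype_card, Fintype.card_fin]
    · have := hdeg v
      show (G.neighborSet v).ncard + (Δ - (G.neighborSet v).ncard) = Δ
      omega
    · intro i i' h
      have h3 : γ * t ⟨v, i⟩ = γ * t ⟨v, i'⟩ := congrArg (fun z : V × Γ × Bool => z.2.1) h
      have h4 := hinj _ _ (mul_left_cancel h3)
      simpa using h4
    · intro u w h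
      exact congrArg Prod.fst h
  · intro x c hc
    exact rg_cyc (fun w h1 h2 h3 => hw w h1 (by omega) h3) hcyc x c hc

end Pool.Agent.H9.LG
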