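import Pool.Agent.H9.LG.Defs

set_option autoImplicit false

/-!
# Project LG (helper9): statements of the parts (core)
-/

namespace Pool.Agent.H9.LG

open Finset

/-- CL: the local lemma with certificates.  Whether the event `A i` holds is certified by the
coordinates in `Sc i ω`. -/
def StCL : Prop :=
  ∀ (O C I : Type) [Finite O] [Finite C] [Nonempty C] [Fintype I]
    (A : I → (O → C) → Prop) (Sc : I → (O → C) → Finset O) (N : ℕ),
    (∀ i ω ω', A i ω → (∀ o ∈ Sc i ω, ω o = ω' o) → A i ω' ∧ Sc i ω' = Sc i ω) →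
    (∀ i ω, A i ω → (Sc i ω).card ≤ N) →
    (∀ i ω, A i ω → (Sc i ω).Nonempty) →
    (∀ u : O, 4 * N * ∑ i, Nat.card {ω : O → C // A i ω ∧ u ∈ Sc i ω} ≤ Nat.card (O → C)) →
    ∃ ω, ∀ i, ¬ A i ω

/-- DD: deferred decisions.  An exploration `Y` reads at the node `ν` the variable of the orbit
`Y x ν`, which depends on the variables `x κ` read at the nodes with smaller `idx`. -/
def StDD : Prop :=
  ∀ (O C Nn : Type) [Finite O] [Finite C] [Finite Nn] [Nonempty C] (ix : Nn → ℕ)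
    (Yy : (Nn → C) → Nn → O),
    (∀ x x' ν, (∀ κ, ix κ < ix ν → x κ = x' κ) → Yy x ν = Yy x' ν) →
    ∃ η : (O → C) → Nn → C, (∀ ω ν, η ω ν = ω (Yy (η ω) ν)) ∧
      (∀ ω ω' n, (∀ κ, ix κ < n → ω (Yy (η ω) κ) = ω' (Yy (η ω) κ)) →
        ∀ κ, ix κ < n → η ω κ = η ω' κ) ∧
      ∀ (n : ℕ) (Q : (Nn → C) → Prop),
        (∀ x x', (∀ κ, ix κ < n → x κ = x' κ) → Q x → Q x') →
        Nat.card {ω : O → C // (∀ κ κ', ix κ < n → ix κ' < n →
            Yy (η ω) κ = Yy (η ω) κ' → κ = κ') ∧ Q (η ω)} * Nat.card (Nn → C) ≤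
          Nat.card {x : Nn → C // Q x} * Nat.card (O → C)

variable {V O J : Type}

/-- The dart after `i` steps down, with the variables at the nodes `n 0, n 1, …`. -/
def chain (S : Sys V O J) (j : J) {Nn : Type} (x : Nn → X J) (n : ℕ → Nn) (τ : ℕ → ZMod 3)
    (δ : V × Lab) : ℕ → V × Lab
  | 0 => δ
  | i + 1 => dn S j (x (n i)) (τ i) (chain S j x n τ δ i)

/-- K: a walk of `h` steps has prescribed ends with probability at most `3 ^ (- h)`. -/
def StK : Prop :=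
  ∀ (V O J Nn : Type) [Finite V] [Finite J] [Finite Nn] (S : Sys V O J) (j : J) (h : ℕ),
    Girth S (2 * h) → ∀ (n : ℕ → Nn) (τ : ℕ → ZMod 3),
    (∀ i i', i < h → i' < h → n i = n i' → i = i') →
    ∀ f g : (Nn → X J) → V × Lab,
    (∀ x x', (∀ κ, (∀ i, i < h → n i ≠ κ) → x κ = x' κ) → f x = f x' ∧ g x = g x') →
    3 ^ h * Nat.card {x : Nn → X J // chain S j x n τ (f x) h = g x} ≤ Nat.card (Nn → X J)

/-- Rooted trees with types of edges. -/
structure Tree (Nn : Type) where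
  root : Nn
  par : Nn → Nn
  ty : Nn → ZMod 3
  dep : Nn → ℕ
  dep_root : dep root = 0
  dep_par : ∀ ν, ν ≠ root → dep ν = dep (par ν) + 1
  sib : ∀ ν ν', ν ≠ root → ν' ≠ root → par ν = par ν' → ty ν = ty ν' → ν = ν'

/-- `A a x ν` is the dart by which we arrive at the node `ν`, if we arrive at the root by `a`. -/
def IsArr (S : Sys V O J) (j : J) {Nn : Type} (T : Tree Nn)
    (A : V × Lab → (Nn → X J) → Nn → V × Lab) : Prop :=
  (∀ a x, A a x T.root = a) ∧
    ∀ a x ν, ν ≠ T.root → A a x ν = dn S j (x (T.par ν)) (T.ty ν) (A a x (T.par ν))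

/-- NEAR: two different nodes at distance at most `g` in the tree are in different orbits. -/
def StNear : Prop :=
  ∀ (V O J Nn : Type) (S : Sys V O J) (j : J) (g : ℕ), Girth S g → ∀ (T : Tree Nn)
    (A : V × Lab → (Nn → X J) → Nn → V × Lab), IsArr S j T A →
    ∀ (a : V × Lab) (x : Nn → X J) (μ ν : Nn) (i i' : ℕ), i ≤ T.dep μ → i' ≤ T.dep ν →
    T.par^[i] μ = T.par^[i'] ν → i + i' ≤ g → μ ≠ ν →
    S.orb (A a x μ).1 ≠ S.orb (A a x ν).1

/-- XC: coincidences are unlikely, even if the exploration is required to visit `u`. -/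
def StXC : Prop :=
  ∀ (V O J Nn : Type) [Finite V] [Finite J] [Finite Nn] (S : Sys V O J) (j : J) (h : ℕ),
    Girth S (4 * h + 4) → ∀ (T : Tree Nn)
    (A : V × Lab → (Nn → X J) → Nn → V × Lab), IsArr S j T A →
    ∀ (μ ν q : Nn) (u : O), μ ≠ ν →
    3 ^ h * Nat.card {ax : (V × Lab) × (Nn → X J) //
        S.orb (A ax.1 ax.2 μ).1 = S.orb (A ax.1 ax.2 ν).1 ∧ S.orb (A ax.1 ax.2 q).1 = u} ≤
      144 * Nat.card (Nn → X J)

/-- YD: the order of the nodes, and the orbit found at a node depends only on the previous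
nodes. -/
def StYD : Prop :=
  (∀ (L : ℕ) (ν ν' : Node L), idx ν = idx ν' → ν = ν') ∧
  ∀ (V O J : Type) (S : Sys V O J) (j : J) (L : ℕ) (c : Bool) (a : V × Lab)
    (x x' : Node L → X J) (ν : Node L), (∀ κ, idx κ < idx ν → x κ = x' κ) →
    Y S j L c a x ν = Y S j L c a x' ν

/-- DR: the directions.  (1) `dirs` is consistent; (2) and it is the only consistent choice;
(3) `arr` at the nodes of `Node L` depends only on the directions below `L`. -/
def StDR : Prop :=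
  ∀ (V O J : Type) (S : Sys V O J) (j : J) (L : ℕ) (c : Bool) (a : V × Lab)
    (x : Nd → X J),
    (∀ t, t < L → decide (colA S j L a x (dirs S j L c a x L) t = c) = dirs S j L c a x L t) ∧
    (∀ d : ℕ → Bool, (∀ t, t < L → decide (colA S j L a x d t = c) = d t) →
      ∀ t, t < L → d t = dirs S j L c a x L t) ∧
    (∀ d d' : ℕ → Bool, (∀ t, t < L → d t = d' t) → ∀ ν : Node L,
      arr S j a x d (emb ν) = arr S j a x d' (emb ν)) ∧
    (∀ d d' : ℕ → Bool, (∀ t, t < L → d t = d' t) →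
      ((∀ t, t < L → decide (colA S j L a x d t = c) = d t) ↔
        ∀ t, t < L → decide (colA S j L a x d' t = c) = d' t) ∧
      (NoCut S j L a x d ↔ NoCut S j L a x d'))

/-- TR: for fixed directions the exploration is a tree. -/
def StTR : Prop :=
  ∀ (L : ℕ) (d : ℕ → Bool), 1 ≤ L → ∃ T : Tree (Node L), T.root = none ∧
    ∀ (V O J : Type) (S : Sys V O J) (j : J),
      IsArr S j T (fun a (x : Node L → X J) ν => arr S j a (ext x) d (emb ν))

/-- XD: the directions are independent fair bits, independent of everything which does not depend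
on the bits. -/
def StXD : Prop :=
  ∀ (V O J : Type) [Finite V] [Finite J] (S : Sys V O J) (j : J) (L : ℕ) (c : Bool)
    (a : V × Lab) (d : ℕ → Bool) (G : (Node L → X J) → Prop),
    (∀ x x' : Node L → X J, (∀ κ, (x κ).1 = (x' κ).1 ∧ (x κ).2.1 = (x' κ).2.1) → G x → G x') →
    2 ^ L * Nat.card {x : Node L → X J //
        (∀ t, t < L → decide (colA S j L a (ext x) d t = c) = d t) ∧ G x} ≤
      Nat.card {x : Node L → X J // G x}

/-- XN: it is unlikely that there is no cut edge. -/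
def StXN : Prop :=
  ∀ (V O J : Type) [Finite V] [Fintype J] (S : Sys V O J), Win S → ∀ (j : J) (L : ℕ), 1 ≤ L →
    ∀ (d : ℕ → Bool) (q : Node L) (u : O),
    ((12 * Fintype.card J) ^ 2) ^ ((L + 1) / 6) *
      Nat.card {ax : (V × Lab) × (Node L → X J) // NoCut S j L ax.1 (ext ax.2) d ∧
        S.orb (arr S j ax.1 (ext ax.2) d (emb q)).1 = u} ≤
    12 * (2 * L + 1) * ((12 * Fintype.card J) ^ 2 - 1) ^ ((L + 1) / 6) *
      Nat.card (Node L → X J)

/-- The conclusion of the core: cut darts, colours of the other darts, pairs `pt` of darts of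
different colours, and vertices `sel` which may have cut darts. -/
def CoreConcl (S : Sys V O J) (L : ℕ) {W : Type} {m : ℕ} (wv : W → Fin m → Bool → V) : Prop :=
  ∃ (cut : J → V × Lab → Prop) (col : J → V × Lab → Bool) (pt : J → V × Lab → V × Lab)
    (sel : V → Prop),
    (∀ j δ, cut j (S.nb j δ) ↔ cut j δ) ∧
    (∀ j δ, cut j δ → S.cu δ.1 ∧ sel δ.1) ∧
    (∀ j δ j' δ', cut j δ → cut j' δ' → S.orb δ.1 = S.orb δ'.1 → j = j' ∧ δ = δ') ∧
    (∀ j δ, ¬ cut j δ → col j (S.nb j δ) = col j δ) ∧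
    (∀ j δ, (pt j δ).1 = δ.1 ∧ pt j (pt j δ) = δ ∧ pt j δ ≠ δ ∧ col j (pt j δ) = !col j δ) ∧
    (∀ j c (δ : ℕ → V × Lab), Red S j δ L → ¬ ∀ t, t < L → ¬ cut j (δ t) ∧ col j (δ t) = c) ∧
    ∀ w, ∃ i, ¬ sel (wv w i true) ∧ ¬ sel (wv w i false)

/-- MO: if all explorations find cut edges, the colour classes have no long walks. -/
def StMO : Prop :=
  ∀ (V O J : Type) (S : Sys V O J) (L : ℕ), 1 ≤ L → Girth S 1 → ∀ (ω : O → X J),
    (∀ j c a, ∃ x : Node L → X J, ∀ κ, x κ = ω (Y S j L c a x κ)) →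
    (∀ j c a (x : Node L → X J), (∀ κ, x κ = ω (Y S j L c a x κ)) →
      ¬ NoCut S j L a (ext x) (dirs S j L c a (ext x) L)) →
    ∃ (cut : J → V × Lab → Prop) (col : J → V × Lab → Bool) (pt : J → V × Lab → V × Lab),
      (∀ j δ, cut j (S.nb j δ) ↔ cut j δ) ∧
      (∀ j δ, cut j δ → S.cu δ.1 ∧ (ω (S.orb δ.1)).2.1.1 = S.sd δ.1) ∧
      (∀ j δ j' δ', cut j δ → cut j' δ' → S.orb δ.1 = S.orb δ'.1 → j = j' ∧ δ = δ') ∧
      (∀ j δ, ¬ cut j δ → col j (S.nb j δ) = col j δ) ∧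
      (∀ j δ, (pt j δ).1 = δ.1 ∧ pt j (pt j δ) = δ ∧ pt j δ ≠ δ ∧ col j (pt j δ) = !col j δ) ∧
      (∀ j c (δ : ℕ → V × Lab), Red S j δ L → ¬ ∀ t, t < L → ¬ cut j (δ t) ∧ col j (δ t) = c)

/-- WN: windows: it is unlikely that all pairs of a window are hit. -/
def StWN : Prop :=
  ∀ (V O J : Type) [Finite O] [Finite J] [Nonempty J] (S : Sys V O J) (m : ℕ)
    (wv : Fin m → Bool → V),
    (∀ i b i' b', S.orb (wv i b) = S.orb (wv i' b') → i = i' ∧ b = b') →
    9 ^ m * Nat.card {ω : O → X J // ∀ i, (ω (S.orb (wv i true))).2.1.1 = S.sd (wv i true) ∨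
        (ω (S.orb (wv i false))).2.1.1 = S.sd (wv i false)} ≤ 5 ^ m * Nat.card (O → X J)

/-- CORE. -/
def StCore : Prop :=
  ∀ (V O J W : Type) [Finite V] [Finite O] [Fintype J] [Nonempty J] [Finite W] (S : Sys V O J)
    (L h m K : ℕ) (wv : W → Fin m → Bool → V), 1 ≤ L → 1 ≤ m → 2 * m ≤ 1 + 2 * L * L →
    Girth S (4 * h + 4) → Win S →
    (∀ w i b i' b', S.orb (wv w i b) = S.orb (wv w i' b') → i = i' ∧ b = b') →
    (∀ u : O, Nat.card {w : W // ∃ i b, S.orb (wv w i b) = u} ≤ K) →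
    (4 * (1 + 2 * L * L) * (2 * Fintype.card J *
        ((1 + 2 * L * L) ^ 3 * 144 / 3 ^ h + (1 + 2 * L * L) * 12 * (2 * L + 1) *
          (1 - 1 / ((12 * Fintype.card J) ^ 2 : ℝ)) ^ ((L + 1) / 6)) +
        K * (5 / 9 : ℝ) ^ m) ≤ 1) →
    CoreConcl S L wv

/-- NU: parameters.  `n` is the number of groups. -/
def StNU : Prop :=
  ∃ C : ℕ, ∀ n : ℕ, 1 ≤ n → ∃ L h m : ℕ, 1 ≤ L ∧ 1 ≤ m ∧ 2 * m ≤ 1 + 2 * L * L ∧
    (h : ℝ) ≤ C * (1 + Real.log n) ∧ (m : ℝ) ≤ C * (1 + Real.log n) ∧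
    (4 * (1 + 2 * L * L) * (2 * n *
        ((1 + 2 * L * L) ^ 3 * 144 / 3 ^ h + (1 + 2 * L * L) * 12 * (2 * L + 1) *
          (1 - 1 / ((12 * n) ^ 2 : ℝ)) ^ ((L + 1) / 6)) +
        (6 * (m + 2) : ℝ) * (5 / 9 : ℝ) ^ m) ≤ 1)

end Pool.Agent.H9.LG
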