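import Pool.Agent.H9.LG.Stm
import Pool.Graph.R_seed8.W111.LAR.OddTop

set_option autoImplicit false

/-!
# Project LG (helper9): statements of the parts (graphs)
-/

namespace Pool.Agent.H9.LG

open Finset SimpleGraph H931R3.LA

/-- The input of the graph part: `P` is a spanning subgraph of `G` whose components have at most
three vertices, the centres of its paths with three vertices are in `Y`, the cycles of `G` have
length at least `g`, and the vertices of `Y` are adjacent or at distance at least `D`. -/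
structure Dat {V : Type} (G P : SimpleGraph V) (Y : Set V) (g D : ℕ) : Prop where
  le : P ≤ G
  deg1 : ∀ v, v ∉ Y → (P.neighborSet v).ncard ≤ 1
  deg2 : ∀ v, (P.neighborSet v).ncard ≤ 2
  yy : ∀ a ∈ Y, ∀ b ∈ Y, ¬ P.Adj a b
  cyc : ∀ (v : V) (c : G.Walk v v), c.IsCycle → g ≤ c.length
  sep : ∀ a ∈ Y, ∀ b ∈ Y, a ≠ b → G.Adj a b ∨ ∀ p : G.Walk a b, D ≤ p.length

/-- `nb` labels the darts of the `4`-regular graph `H`. -/
def IsNb {V : Type} (H : SimpleGraph V) (nb : V × Lab → V × Lab) : Prop :=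
  (∀ δ, nb (nb δ) = δ) ∧ (∀ v w, H.Adj v w ↔ ∃ a, (nb (v, a)).1 = w) ∧
    ∀ v a a', (nb (v, a)).1 = (nb (v, a')).1 → a = a'

/-- LAB: labelling the darts. -/
def StLAB : Prop :=
  ∀ (V : Type) [Finite V] (H : SimpleGraph V), (∀ v, (H.neighborSet v).ncard = 4) →
    ∃ nb, IsNb H nb

/-- ORB: orbits and sides. -/
def StORB : Prop :=
  ∀ (V : Type) [Finite V] (G P : SimpleGraph V) (Y : Set V) (g D : ℕ), Dat G P Y g D →
    ∃ (orb : V → V) (sd : V → Fin 3), (∀ v w, orb v = orb w → sd v = sd w → v = w) ∧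
      (∀ v w, orb v = orb w ↔ P.Reachable v w) ∧
      (∀ v w, P.Reachable v w → v = w ∨ P.Adj v w ∨ ∃ y, P.Adj y v ∧ P.Adj y w) ∧ IsLF P

/-- GI: girth of the system of darts, and windows. -/
def StGI : Prop :=
  ∀ (V J : Type) [Finite V] (G P : SimpleGraph V) (Y : Set V) (g D : ℕ), Dat G P Y g D →
    ∀ (H : J → SimpleGraph V), (∀ j, H j ≤ G \ P) → ∀ (S : Sys V V J), (∀ j, IsNb (H j) (S.nb j)) →
    (∀ v w, S.orb v = S.orb w ↔ P.Reachable v w) → (∀ v, S.cu v ↔ v ∉ Y) →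
    (∀ g', g' + 3 ≤ g → Girth S g') ∧ (9 ≤ g → 6 ≤ D → Win S)

/-- The graph of the darts of the group `j` which are not cut and have colour `c`. -/
def Qg {V J : Type} (nb : J → V × Lab → V × Lab) (cut : J → V × Lab → Prop)
    (col : J → V × Lab → Bool) (j : J) (c : Bool) : SimpleGraph V :=
  SimpleGraph.fromRel (fun v w => ∃ a, (nb j (v, a)).1 = w ∧ ¬ cut j (v, a) ∧ col j (v, a) = c)

/-- The graph of the cut darts. -/
def Kg {V J : Type} (nb : J → V × Lab → V × Lab) (cut : J → V × Lab → Prop) : SimpleGraph V :=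
  SimpleGraph.fromRel (fun v w => ∃ j a, (nb j (v, a)).1 = w ∧ cut j (v, a))

/-- CLS: the colour classes are linear forests. -/
def StCLS : Prop :=
  ∀ (V J : Type) [Finite V] (H : J → SimpleGraph V) (nb : J → V × Lab → V × Lab),
    (∀ j, IsNb (H j) (nb j)) → ∀ (L : ℕ) (cut : J → V × Lab → Prop) (col : J → V × Lab → Bool)
    (pt : J → V × Lab → V × Lab),
    (∀ j δ, cut j (nb j δ) ↔ cut j δ) →
    (∀ j δ, ¬ cut j δ → col j (nb j δ) = col j δ) →
    (∀ j δ, (pt j δ).1 = δ.1 ∧ pt j (pt j δ) = δ ∧ pt j δ ≠ δ ∧ col j (pt j δ) = !col j δ) →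
    (∀ j c (δ : ℕ → V × Lab),
      (∀ n, n + 1 < L → (δ (n + 1)).1 = (nb j (δ n)).1 ∧ (δ (n + 1)).2 ≠ (nb j (δ n)).2) →
      ¬ ∀ t, t < L → ¬ cut j (δ t) ∧ col j (δ t) = c) →
    (∀ j c, IsLF (Qg nb cut col j c)) ∧
      ∀ j, H j ≤ Qg nb cut col j true ⊔ Qg nb cut col j false ⊔ Kg nb cut

/-- ADD: adding edges to a linear forest such that every component has at most one end of an
added edge. -/
def StADD : Prop :=
  ∀ (V : Type) [Finite V] (Q M : SimpleGraph V), IsLF Q →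
    (∀ x y, M.Adj x y → (Q.neighborSet x).ncard ≤ 1) →
    (∀ x y, M.Adj x y → ¬ Q.Reachable x y) →
    (∀ x y x' y', M.Adj x y → M.Adj x' y' → Q.Reachable x x' → x = x' ∧ y = y') →
    IsLF (Q ⊔ M)

/-- SEL: choosing one edge from each cycle of a `2`-regular graph `F`, where `Fr` is the set of the
free vertices. -/
def StSEL : Prop :=
  ∀ (V : Type) [Finite V] (Q F : SimpleGraph V) (Fr : Set V),
    (∀ v, {w | Q.Reachable v w}.ncard ≤ 6) → (∀ x y, F.Adj x y → ¬ Q.Reachable x y) →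
    (∀ v, (F.neighborSet v).ncard = 2) →
    (∀ v, ∃ A : Finset (V × V), 1000 ≤ A.card ∧ ∀ p ∈ A, F.Adj p.1 p.2 ∧ p.1 ∈ Fr ∧ p.2 ∈ Fr ∧
      F.Reachable v p.1) →
    ∃ E : SimpleGraph V, E ≤ F ∧ (∀ x y, E.Adj x y → x ∈ Fr ∧ y ∈ Fr) ∧
      (∀ x y x' y', E.Adj x y → E.Adj x' y' → Q.Reachable x x' → x = x' ∧ y = y') ∧
      IsLF (F \ E)

/-- PRM: a `2`-regular graph is the graph of a permutation. -/
def StPRM : Prop :=
  ∀ (V : Type) [Finite V] (F : SimpleGraph V), (∀ v, (F.neighborSet v).ncard = 2) →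
    ∃ s : Equiv.Perm V, (∀ v w, F.Adj v w ↔ s v = w ∨ s w = v) ∧ ∀ v, s (s v) ≠ v

/-- WI: windows on the cycles of `F`. -/
def StWI : Prop :=
  ∀ (V : Type) [Finite V] (G P : SimpleGraph V) (Y : Set V) (g D m : ℕ), Dat G P Y g D →
    ∀ (F : SimpleGraph V), F ≤ G \ P → (∀ v, (F.neighborSet v).ncard = 2) →
    2 * m + 10 ≤ g → 2 * m + 6 ≤ D →
    ∀ (orb : V → V), (∀ v w, orb v = orb w ↔ P.Reachable v w) →
    ∃ wv : V → Fin m → Bool → V,
      (∀ w i b i' b', orb (wv w i b) = orb (wv w i' b') → i = i' ∧ b = b') ∧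
      (∀ u : V, Nat.card {w : V // ∃ i b, orb (wv w i b) = u} ≤ 6 * (m + 2)) ∧
      (∀ w i, F.Adj (wv w i true) (wv w i false)) ∧ (∀ w i b, wv w i b ∉ Y) ∧
      ∀ w i b, ∃ p : F.Walk w (wv w i b), p.length ≤ 2 * m + 4

/-- FR: many free edges on every cycle. -/
def StFR : Prop :=
  ∀ (V : Type) [Finite V] (F : SimpleGraph V) (Fr : Set V) (ℓ : ℕ),
    (∀ v, (F.neighborSet v).ncard = 2) →
    (∀ (v : V) (c : F.Walk v v), c.IsCycle → 3000 * (ℓ + 1) ≤ c.length) →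
    (∀ v, ∃ x y, F.Adj x y ∧ x ∈ Fr ∧ y ∈ Fr ∧ ∃ p : F.Walk v x, p.length ≤ ℓ) →
    ∀ v, ∃ A : Finset (V × V), 1000 ≤ A.card ∧ ∀ p ∈ A, F.Adj p.1 p.2 ∧ p.1 ∈ Fr ∧ p.2 ∈ Fr ∧
      F.Reachable v p.1

/-- DEC: a regular graph of even degree is the union of disjoint `2`-regular graphs. -/
def StDEC : Prop :=
  ∀ (V : Type) [Finite V] (G : SimpleGraph V) (k : ℕ), (∀ v, (G.neighborSet v).ncard = 2 * k) →
    ∃ F : Fin k → SimpleGraph V, (∀ i v, ((F i).neighborSet v).ncard = 2) ∧ (⨆ i, F i) = G ∧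
      ∀ i i', i ≠ i' → Disjoint (F i) (F i')

/-- DBL: doubling, for odd degree. -/
def StDBL : Prop :=
  ∀ (V : Type) [Finite V] [Nonempty V] (G : SimpleGraph V) (r D : ℕ), 3 ≤ r → 1 ≤ D → Odd r →
    (∀ v, (G.neighborSet v).ncard = r) →
    (∀ (v : V) (c : G.Walk v v), c.IsCycle → 4 * D ≤ c.length) →
    ∃ (G' P' : SimpleGraph (V × Bool)) (Y' : Set (V × Bool)), Dat G' P' Y' (4 * D) D ∧
      (∀ v, ((G' \ P').neighborSet v).ncard = r - 1) ∧
      ∀ u v, G.Adj u v → G'.Adj (u, true) (v, true)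

/-- PULL: coverings by linear forests pull back along injective homomorphisms. -/
def StPULL : Prop :=
  ∀ (V V' : Type) [Finite V] [Finite V'] (G : SimpleGraph V) (G' : SimpleGraph V') (f : V → V')
    (n : ℕ), Function.Injective f → (∀ u v, G.Adj u v → G'.Adj (f u) (f v)) → Cov G' n → Cov G n

/-- CMP: the components of `P ⊔ K`, where every component of `P` has at most one end of an edge of
`K`. -/
def StCMP : Prop :=
  ∀ (V : Type) [Finite V] (G P K : SimpleGraph V) (Y : Set V) (g D : ℕ), Dat G P Y g D → 10 ≤ g →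
    K ≤ G \ P → (∀ x y x' y', K.Adj x y → K.Adj x' y' → P.Reachable x x' → x = x' ∧ y = y') →
    (∀ x y, G.Adj x y → ¬ P.Adj x y → ¬ P.Reachable x y) ∧
    (∀ v, {w | (P ⊔ K).Reachable v w}.ncard ≤ 6) ∧
    ∀ x y, G.Adj x y → ¬ (P ⊔ K).Adj x y → ¬ (P ⊔ K).Reachable x y

/-- MAIN for the graph part. -/
def StREG : Prop :=
  ∃ C : ℕ, ∀ (V : Type) [Finite V] [Nonempty V] (G P : SimpleGraph V) (Y : Set V) (k g D : ℕ),
    2 ≤ k → (C * (1 + Real.log k) : ℝ) ≤ g → (C * (1 + Real.log k) : ℝ) ≤ D → Dat G P Y g D →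
    (∀ v, ((G \ P).neighborSet v).ncard = 2 * k) → Cov G (k + 1)

end Pool.Agent.H9.LG
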