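import Pool.Agent.H9.LG.StmG

set_option autoImplicit false

/-!
# Project LG: orbits and sides
-/

namespace Pool.Agent.H9.LG

open Finset SimpleGraph H931R3.LA

theorem orb_uniq {V : Type} [Finite V] {P : SimpleGraph V} {Y : Set V}
    (hP1 : ∀ v, v ∉ Y → (P.neighborSet v).ncard ≤ 1) {a w w' : V} (ha : a ∉ Y) (h : P.Adj a w)
    (h' : P.Adj a w') : w = w' :=
  (Set.ncard_le_one (Set.toFinite _)).1 (hP1 a ha) w h w' h'

theorem orb_reach {V : Type} [Finite V] {P : SimpleGraph V} {Y : Set V}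
    (hP1 : ∀ v, v ∉ Y → (P.neighborSet v).ncard ≤ 1) (hYY : ∀ a ∈ Y, ∀ b ∈ Y, ¬ P.Adj a b)
    (v w : V) (h : P.Reachable v w) : v = w ∨ P.Adj v w ∨ ∃ y, P.Adj y v ∧ P.Adj y w := by
  obtain ⟨p⟩ := h
  induction p with
  | nil => exact Or.inl rfl
  | @cons v u w h p ih =>
    rcases ih with rfl | h1 | ⟨z, h1, h2⟩
    · exact Or.inr (Or.inl h)
    · exact Or.inr (Or.inr ⟨u, h.symm, h1⟩)
    · by_cases hvz : v = z
      · subst hvz
        exact Or.inr (Or.inl h2)
      · have huY : u ∈ Y := by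
          by_contra hu
          exact hvz (orb_uniq hP1 hu h.symm h1.symm)
        have hzY : z ∉ Y := fun hz => hYY z hz u huY h1
        have h3 := orb_uniq hP1 hzY h1 h2
        subst h3
        exact Or.inr (Or.inl h)

theorem orb_comp {V : Type} [Finite V] {P : SimpleGraph V} {Y : Set V}
    (hP1 : ∀ v, v ∉ Y → (P.neighborSet v).ncard ≤ 1) (hYY : ∀ a ∈ Y, ∀ b ∈ Y, ¬ P.Adj a b)
    (v : V) : ∃ y, {w | P.Reachable v w} ⊆ insert y (P.neighborSet y) := by
  by_cases hY : ∃ y ∈ Y, P.Reachable v y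
  · obtain ⟨y, hy, hvy⟩ := hY
    refine ⟨y, fun w hw => ?_⟩
    have hvw : P.Reachable v w := hw
    rcases orb_reach hP1 hYY y w (hvy.symm.trans hvw) with rfl | h | ⟨z, h1, h2⟩
    · exact Set.mem_insert _ _
    · exact Set.mem_insert_of_mem _ h
    · have hz : z ∉ Y := fun hz => hYY z hz y hy h1
      have h3 := orb_uniq hP1 hz h1 h2
      rw [h3]
      exact Set.mem_insert _ _
  · refine ⟨v, fun w hw => ?_⟩
    have hvw : P.Reachable v w := hw
    rcases orb_reach hP1 hYY v w hvw with rfl | h | ⟨z, h1, h2⟩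
    · exact Set.mem_insert _ _
    · exact Set.mem_insert_of_mem _ h
    · have hz : z ∉ Y := fun hz => hY ⟨z, hz, h1.symm.reachable⟩
      have h3 := orb_uniq hP1 hz h1 h2
      rw [h3]
      exact Set.mem_insert _ _

theorem orb_card {V : Type} [Finite V] {P : SimpleGraph V} {Y : Set V}
    (hP1 : ∀ v, v ∉ Y → (P.neighborSet v).ncard ≤ 1) (hP2 : ∀ v, (P.neighborSet v).ncard ≤ 2)
    (hYY : ∀ a ∈ Y, ∀ b ∈ Y, ¬ P.Adj a b) (v : V) : {w | P.Reachable v w}.ncard ≤ 3 := by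
  obtain ⟨y, hy⟩ := orb_comp hP1 hYY v
  have h1 := Set.ncard_le_ncard hy (Set.toFinite _)
  have h2 := Set.ncard_insert_le y (P.neighborSet y)
  have h3 := hP2 y
  omega

theorem orb_inj {V : Type} [Finite V] (C : Set V) (hC : C.ncard ≤ 3) :
    ∃ f : V → Fin 3, ∀ a ∈ C, ∀ b ∈ C, f a = f b → a = b := by
  classical
  have := Fintype.ofFinite V
  have h1 : Fintype.card C ≤ Fintype.card (Fin 3) := by
    rw [Fintype.card_fin, ← Set.toFinset_card, ← Set.ncard_eq_toFinset_card']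
    exact hC
  obtain ⟨g⟩ := Function.Embedding.nonempty_of_card_le h1
  refine ⟨fun w => if h : w ∈ C then g ⟨w, h⟩ else 0, ?_⟩
  intro a ha b hb hab
  have hab' : g ⟨a, ha⟩ = g ⟨b, hb⟩ := by
    have e1 : (if h : a ∈ C then g ⟨a, h⟩ else 0) = g ⟨a, ha⟩ := dif_pos ha
    have e2 : (if h : b ∈ C then g ⟨b, h⟩ else 0) = g ⟨b, hb⟩ := dif_pos hb
    rw [← e1, ← e2]
    exact hab
  exact congrArg Subtype.val (g.injective hab')

theorem orb_isLF {V : Type} [Finite V] {P : SimpleGraph V} {Y : Set V}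
    (hP1 : ∀ v, v ∉ Y → (P.neighborSet v).ncard ≤ 1) (hP2 : ∀ v, (P.neighborSet v).ncard ≤ 2)
    (hYY : ∀ a ∈ Y, ∀ b ∈ Y, ¬ P.Adj a b) : IsLF P := by
  refine ⟨fun v c hc => ?_, hP2⟩
  have two : ∀ w ∈ c.support, ∃ x, P.Adj w x ∧ x ∈ c.support ∧ w ∈ Y := by
    intro w hw
    have h2 := hc.ncard_neighborSet_toSubgraph_eq_two hw
    obtain ⟨x, y, hxy, hset⟩ := Set.ncard_eq_two.1 h2
    have hx : c.toSubgraph.Adj w x := by
      have : x ∈ c.toSubgraph.neighborSet w := by rw [hset]; simp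
      exact this
    have hy : c.toSubgraph.Adj w y := by
      have : y ∈ c.toSubgraph.neighborSet w := by rw [hset]; simp
      exact this
    refine ⟨x, hx.adj_sub, ?_, ?_⟩
    · have h3 := c.toSubgraph.edge_vert hx.symm
      rwa [SimpleGraph.Walk.mem_verts_toSubgraph] at h3
    · by_contra hwY
      exact hxy (orb_uniq hP1 hwY hx.adj_sub hy.adj_sub)
  obtain ⟨x, h1, h2, h3⟩ := two v c.start_mem_support
  obtain ⟨_, _, _, h4⟩ := two x h2
  exact hYY v h3 x h4 h1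

theorem t_ORB : StORB := by
  intro V _ G P Y g D h
  obtain ⟨f, hf⟩ : ∃ f : V → V → Fin 3, ∀ r a b, W111.LAR.rep P a = r → W111.LAR.rep P b = r →
      f r a = f r b → a = b := by
    have h1 : ∀ r : V, ∃ f : V → Fin 3, ∀ a b, W111.LAR.rep P a = r → W111.LAR.rep P b = r →
        f a = f b → a = b := by
      intro r
      by_cases hr : ∃ v, W111.LAR.rep P v = r
      · obtain ⟨v, hv⟩ := hr
        obtain ⟨f, hf⟩ := orb_inj _ (orb_card h.deg1 h.deg2 h.yy v)
        refine ⟨f, fun a b ha hb hab => hf a ?_ b ?_ hab⟩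
        · exact W111.LAR.reach_of_rep (hv.trans ha.symm)
        · exact W111.LAR.reach_of_rep (hv.trans hb.symm)
      · exact ⟨fun _ => 0, fun a _ ha => absurd ⟨a, ha⟩ hr⟩
    choose f hf using h1
    exact ⟨f, hf⟩
  refine ⟨W111.LAR.rep P, fun v => f (W111.LAR.rep P v) v, ?_, ?_, ?_, ?_⟩
  · intro v w h1 h2
    have h3 : f (W111.LAR.rep P v) v = f (W111.LAR.rep P w) w := h2
    rw [← h1] at h3
    exact hf _ v w rfl h1.symm h3
  · intro v w
    exact ⟨fun h1 => W111.LAR.reach_of_rep h1, fun h1 => W111.LAR.rep_eq h1⟩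
  · intro v w h1
    exact orb_reach h.deg1 h.yy v w h1
  · exact orb_isLF h.deg1 h.deg2 h.yy

end Pool.Agent.H9.LG
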